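import Pool.Agent.Y142.ZI.Stm2
import Pool.Agent.Y142.ZO.Alg
import Pool.Agent.Y708.ZO.Tan

/-!
# Project OP: tasks CAY and NT

CAY: adapted from Pool/Agent/Y710/ZS/Tans.lean.
NT: if the tangent vectors are all skew maps, then there is no Tate subquotient.
-/

set_option autoImplicit false

open Matrix Polynomial Filter Topology NumberField IsDedekindDomain
open Pool.Agent.Y142.ZO Pool.Agent.Y142.ZI

namespace Pool.Agent.R932.OP

theorem cay : S_CAY := by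
  intro ℓ _ N G _ ρ B hB _ hopen X hX
  obtain ⟨ε, hε, hopen⟩ := hopen
  have hXB : Xᵀ * B = -(B * X) := by
    have h1 : (B * X)ᵀ = -(B * X) := hX
    rwa [transpose_mul, hB] at h1
  -- the parameters
  let h : ℕ → ℚ_[ℓ] := fun n => (2 : ℚ_[ℓ])⁻¹ * (ℓ : ℚ_[ℓ]) ^ n
  have hℓ1 : ‖(ℓ : ℚ_[ℓ])‖ < 1 := by
    rw [Padic.norm_p]
    exact inv_lt_one_of_one_lt₀ (by exact_mod_cast (Fact.out : ℓ.Prime).one_lt)
  have hℓ0 : (ℓ : ℚ_[ℓ]) ≠ 0 := by
    exact_mod_cast (Fact.out : ℓ.Prime).ne_zero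
  have hh : Tendsto h atTop (𝓝 0) := by
    have h1 := (tendsto_pow_atTop_nhds_zero_of_norm_lt_one hℓ1).const_mul ((2 : ℚ_[ℓ])⁻¹)
    rwa [mul_zero] at h1
  let A : ℕ → Matrix (Fin N) (Fin N) ℚ_[ℓ] := fun n => 1 - h n • X
  let D : ℕ → Matrix (Fin N) (Fin N) ℚ_[ℓ] := fun n => 1 + h n • X
  have hA : Tendsto A atTop (𝓝 1) := by
    have h1 : Tendsto (fun n => (1 : Matrix (Fin N) (Fin N) ℚ_[ℓ]) - h n • X) atTop
        (𝓝 (1 - (0 : ℚ_[ℓ]) • X)) := tendsto_const_nhds.sub (hh.smul_const X)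
    rwa [zero_smul, sub_zero] at h1
  have hD : Tendsto D atTop (𝓝 1) := by
    have h1 : Tendsto (fun n => (1 : Matrix (Fin N) (Fin N) ℚ_[ℓ]) + h n • X) atTop
        (𝓝 (1 + (0 : ℚ_[ℓ]) • X)) := tendsto_const_nhds.add (hh.smul_const X)
    rwa [zero_smul, add_zero] at h1
  have hdet : Tendsto (fun n => (A n).det) atTop (𝓝 1) := by
    have h1 := (Continuous.matrix_det (continuous_id (X := Matrix (Fin N) (Fin N) ℚ_[ℓ]))).tendsto 1
    have h2 := h1.comp hA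
    simp only [id_eq, det_one] at h2
    exact h2
  have hadj : Tendsto (fun n => (A n).adjugate) atTop (𝓝 1) := by
    have h1 := (Continuous.matrix_adjugate
      (continuous_id (X := Matrix (Fin N) (Fin N) ℚ_[ℓ]))).tendsto 1
    have h2 := h1.comp hA
    simp only [id_eq, adjugate_one] at h2
    exact h2
  have hinv : Tendsto (fun n => (A n)⁻¹) atTop (𝓝 1) := by
    have h1 : Tendsto (fun n => ((A n).det)⁻¹ • (A n).adjugate) atTop
        (𝓝 ((1 : ℚ_[ℓ])⁻¹ • (1 : Matrix (Fin N) (Fin N) ℚ_[ℓ]))) :=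
      (hdet.inv₀ one_ne_zero).smul hadj
    rw [inv_one, one_smul] at h1
    refine h1.congr fun n => ?_
    rw [Matrix.inv_def, Ring.inverse_eq_inv']
  let g : ℕ → Matrix (Fin N) (Fin N) ℚ_[ℓ] := fun n => D n * (A n)⁻¹
  have hg : Tendsto g atTop (𝓝 1) := by
    have h1 : Tendsto (fun n => D n * (A n)⁻¹) atTop (𝓝 (1 * 1)) := hD.mul hinv
    rwa [one_mul] at h1
  have hne : ∀ᶠ n in atTop, (A n).det ≠ 0 := hdet.eventually_ne one_ne_zero
  have hsmall : ∀ᶠ n in atTop, ∀ i j, ‖(g n - 1) i j‖ < ε := by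
    rw [eventually_all]
    intro i
    rw [eventually_all]
    intro j
    have h1 : Tendsto (fun n => ‖(g n - 1) i j‖) atTop (𝓝 0) := by
      have h2 : Tendsto (fun n => g n - 1) atTop (𝓝 (1 - 1)) := hg.sub_const 1
      rw [sub_self] at h2
      have h3 := ((continuous_apply_apply (ρ := fun _ _ => ℚ_[ℓ]) i j).tendsto
        (0 : Matrix (Fin N) (Fin N) ℚ_[ℓ])).comp h2
      have h4 := h3.norm
      simp only [Matrix.zero_apply, norm_zero] at h4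
      exact h4
    exact h1.eventually_lt_const hε
  have hisom : ∀ n, (A n).det ≠ 0 → (g n)ᵀ * B * g n = B := by
    intro n hn
    have hu : IsUnit (A n).det := isUnit_iff_ne_zero.2 hn
    have h1 : (D n)ᵀ * B = B * A n := by
      show (1 + h n • X)ᵀ * B = B * (1 - h n • X)
      rw [transpose_add, transpose_one, transpose_smul, Matrix.add_mul, Matrix.one_mul,
        Matrix.smul_mul, hXB, Matrix.mul_sub, Matrix.mul_one, Matrix.mul_smul, smul_neg,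
        sub_eq_add_neg]
    have h2 : (A n)ᵀ * B = B * D n := by
      show (1 - h n • X)ᵀ * B = B * (1 + h n • X)
      rw [transpose_sub, transpose_one, transpose_smul, Matrix.sub_mul, Matrix.one_mul,
        Matrix.smul_mul, hXB, Matrix.mul_add, Matrix.mul_one, Matrix.mul_smul, smul_neg,
        sub_neg_eq_add]
    have h3 : A n * D n = D n * A n := by
      show (1 - h n • X) * (1 + h n • X) = (1 + h n • X) * (1 - h n • X)
      exact ((Commute.one_left _).sub_left ((Commute.one_right _).add_right (Commute.refl _))).eq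
    have h4 : (D n)ᵀ * B * D n = (A n)ᵀ * B * A n := by
      rw [h1, h2, Matrix.mul_assoc, h3, Matrix.mul_assoc]
    show (D n * (A n)⁻¹)ᵀ * B * (D n * (A n)⁻¹) = B
    calc (D n * (A n)⁻¹)ᵀ * B * (D n * (A n)⁻¹)
        = ((A n)⁻¹)ᵀ * ((D n)ᵀ * B * D n) * (A n)⁻¹ := by
          rw [transpose_mul]; simp only [Matrix.mul_assoc]
      _ = ((A n)⁻¹)ᵀ * ((A n)ᵀ * B * A n) * (A n)⁻¹ := by rw [h4]
      _ = (A n * (A n)⁻¹)ᵀ * B * (A n * (A n)⁻¹) := by
          rw [transpose_mul]; simp only [Matrix.mul_assoc]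
      _ = B := by
          rw [Matrix.mul_nonsing_inv _ hu, transpose_one, Matrix.one_mul, Matrix.mul_one]
  have hquot : ∀ n, (A n).det ≠ 0 →
      ((ℓ : ℚ_[ℓ]) ^ n)⁻¹ • (g n - 1) = X * (A n)⁻¹ := by
    intro n hn
    have hu : IsUnit (A n).det := isUnit_iff_ne_zero.2 hn
    have h1 : g n - 1 = ((ℓ : ℚ_[ℓ]) ^ n) • (X * (A n)⁻¹) := by
      have h2 : (1 : Matrix (Fin N) (Fin N) ℚ_[ℓ]) = A n * (A n)⁻¹ :=
        (Matrix.mul_nonsing_inv _ hu).symm
      have h3 : D n - A n = ((ℓ : ℚ_[ℓ]) ^ n) • X := by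
        show (1 + h n • X) - (1 - h n • X) = _
        rw [add_sub_sub_cancel, ← add_smul]
        congr 1
        show (2 : ℚ_[ℓ])⁻¹ * (ℓ : ℚ_[ℓ]) ^ n + (2 : ℚ_[ℓ])⁻¹ * (ℓ : ℚ_[ℓ]) ^ n = _
        ring
      show D n * (A n)⁻¹ - 1 = _
      nth_rewrite 1 [h2]
      rw [← Matrix.sub_mul, h3, Matrix.smul_mul]
    rw [h1, smul_smul, inv_mul_cancel₀ (pow_ne_zero _ hℓ0), one_smul]
  -- choose the group elements
  have hchoose : ∀ n, ∃ σ : G, ((A n).det ≠ 0 ∧ ∀ i j, ‖(g n - 1) i j‖ < ε) → ρ σ = g n := by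
    intro n
    by_cases hn : (A n).det ≠ 0 ∧ ∀ i j, ‖(g n - 1) i j‖ < ε
    · obtain ⟨σ, hσ⟩ := hopen (g n) (hisom n hn.1) hn.2
      exact ⟨σ, fun _ => hσ⟩
    · exact ⟨1, fun h => absurd h hn⟩
  choose σ hσ using hchoose
  refine ⟨σ, ?_⟩
  have hlim : Tendsto (fun n => X * (A n)⁻¹) atTop (𝓝 X) := by
    have h1 : Tendsto (fun n => X * (A n)⁻¹) atTop (𝓝 (X * 1)) := tendsto_const_nhds.mul hinv
    rwa [mul_one] at h1
  refine hlim.congr' ?_
  filter_upwards [hne, hsmall] with n h1 h2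
  rw [hσ n ⟨h1, h2⟩, hquot n h1]


/-! ### NT -/

section alg
variable {F : Type} [Field F] {N : ℕ} {B : Matrix (Fin N) (Fin N) F}

lemma skew_wedge (hB : Bᵀ = B) (a b : Fin N → F) : Skew B (wedge B a b) := by
  unfold Skew wedge
  rw [Matrix.mul_sub, transpose_sub, transpose_mul, transpose_mul, transpose_vecMulVec,
    transpose_vecMulVec, mul_vecMulVec, mul_vecMulVec, vecMulVec_mul, vecMulVec_mul, hB,
    ← mulVec_transpose, ← mulVec_transpose, hB]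
  abel

lemma exists_bil_one (hdet : B.det ≠ 0) {w : Fin N → F} (hw : w ≠ 0) : ∃ x, bil B x w = 1 := by
  have h1 : B *ᵥ w ≠ 0 := fun h => hw (Matrix.eq_zero_of_mulVec_eq_zero hdet h)
  obtain ⟨i, hi⟩ : ∃ i, (B *ᵥ w) i ≠ 0 := by
    by_contra hcon
    push Not at hcon
    exact h1 (funext hcon)
  refine ⟨Pi.single i ((B *ᵥ w) i)⁻¹, ?_⟩
  unfold bil
  rw [single_dotProduct, inv_mul_cancel₀ hi]

/-- There is no subquotient killed by all skew maps. -/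
lemma no_sub (hN : 2 ≤ N) (hB : Bᵀ = B) (hdet : B.det ≠ 0) (W' W : Submodule F (Fin N → F))
    (hlt : W' < W) (h : ∀ X, Skew B X → ∀ w ∈ W, X *ᵥ w ∈ W') : False := by
  obtain ⟨hle, w, hw, hw'⟩ := SetLike.lt_iff_le_and_exists.1 hlt
  have hw0 : w ≠ 0 := fun h0 => hw' (h0 ▸ W'.zero_mem)
  obtain ⟨x, hx⟩ := exists_bil_one hdet hw0
  have horth : ∀ y, bil B y w = 0 → y ∈ W' := by
    intro y hy
    have h1 := h _ (skew_wedge hB x y) w hw
    rw [wedge_mulVec, hx, hy] at h1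
    simpa using h1
  have hww : bil B w w ≠ 0 := fun h0 => hw' (horth w h0)
  -- a nonzero vector orthogonal to `w`
  obtain ⟨y, hy0, hy⟩ : ∃ y : Fin N → F, y ≠ 0 ∧ bil B y w = 0 := by
    obtain ⟨i, hi⟩ : ∃ i : Fin N, i = ⟨0, by omega⟩ := ⟨_, rfl⟩
    obtain ⟨j, hj⟩ : ∃ j : Fin N, j = ⟨1, by omega⟩ := ⟨_, rfl⟩
    have hij : i ≠ j := by rw [hi, hj]; simp
    by_cases h1 : bil B (Pi.single j 1) w = 0
    · exact ⟨_, by simp, h1⟩
    · refine ⟨bil B (Pi.single j 1) w • Pi.single i 1 - bil B (Pi.single i 1) w • Pi.single j 1,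
        ?_, ?_⟩
      · intro h2
        have h3 := congrFun h2 i
        simp [hij] at h3
        exact h1 h3
      · rw [bil_sub_left, bil_smul_left, bil_smul_left]
        ring
  obtain ⟨x', hx'⟩ := exists_bil_one hdet hy0
  obtain ⟨z, hz⟩ : ∃ z, z = x' - (bil B x' w / bil B w w) • w := ⟨_, rfl⟩
  have hwy : bil B w y = 0 := by rw [bil_symm hB]; exact hy
  have hzw : bil B z w = 0 := by
    rw [hz, bil_sub_left, bil_smul_left, div_mul_cancel₀ _ hww, sub_self]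
  have hzy : bil B z y = 1 := by
    rw [hz, bil_sub_left, bil_smul_left, hwy, hx', mul_zero, sub_zero]
  have h1 := h _ (skew_wedge hB w z) y (hle (horth y hy))
  rw [wedge_mulVec, hwy, hzy, zero_smul, one_smul, zero_sub] at h1
  exact hw' (neg_mem_iff.1 h1)

end alg

/-- Tangent vectors act on a Tate subquotient by zero. -/
lemma tangent_zero {ℓ : ℕ} [Fact ℓ.Prime] {N : ℕ} {G : Type} [Group G] [TopologicalSpace G]
    [IsTopologicalGroup G] [CompactSpace G] (ρ : G →* Matrix (Fin N) (Fin N) ℚ_[ℓ])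
    {U : Subgroup G} (hU : IsOpen (U : Set G)) {W' W : Submodule ℚ_[ℓ] (Fin N → ℚ_[ℓ])}
    (h : ∀ σ ∈ U, ∀ w ∈ W, ρ σ *ᵥ w - w ∈ W') {X : Matrix (Fin N) (Fin N) ℚ_[ℓ]}
    (hX : IsTangent ℓ ρ X) (w : Fin N → ℚ_[ℓ]) (hw : w ∈ W) : X *ᵥ w ∈ W' := by
  obtain ⟨σ, hσ⟩ := hX
  have hfin : Finite (G ⧸ U) := Subgroup.quotient_finite_of_isOpen U hU
  have hidx : U.index ≠ 0 := by
    rw [Subgroup.index]
    exact Nat.card_pos.ne'
  obtain ⟨m, hm⟩ : ∃ m, m = (U.index).factorial := ⟨_, rfl⟩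
  have hm0 : 0 < m := hm ▸ Nat.factorial_pos _
  have hpow : ∀ g : G, g ^ m ∈ U := fun g =>
    Subgroup.pow_mem_of_index_ne_zero_of_dvd hidx g (fun k hk hk' =>
      hm ▸ Nat.dvd_factorial hk hk')
  have hρ := Pool.Agent.Y708.ZO.rho_tendsto ρ hσ
  have h1 : Tendsto (fun n => (∑ i ∈ Finset.range m, ρ (σ n) ^ i) *
      (((ℓ : ℚ_[ℓ]) ^ n)⁻¹ • (ρ (σ n) - 1))) atTop (𝓝 ((m : ℚ_[ℓ]) • X)) := by
    have h2 : Tendsto (fun n => ∑ i ∈ Finset.range m, ρ (σ n) ^ i) atTop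
        (𝓝 (∑ i ∈ Finset.range m, (1 : Matrix (Fin N) (Fin N) ℚ_[ℓ]) ^ i)) :=
      tendsto_finsetSum _ fun i _ => hρ.pow i
    have h3 := h2.mul hσ
    have h4 : (∑ i ∈ Finset.range m, (1 : Matrix (Fin N) (Fin N) ℚ_[ℓ]) ^ i) * X =
        (m : ℚ_[ℓ]) • X := by
      simp only [one_pow, Finset.sum_const, Finset.card_range]
      rw [smul_mul_assoc, one_mul, Nat.cast_smul_eq_nsmul]
    rwa [h4] at h3
  have h4 : ∀ n, (∑ i ∈ Finset.range m, ρ (σ n) ^ i) * (((ℓ : ℚ_[ℓ]) ^ n)⁻¹ • (ρ (σ n) - 1)) =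
      ((ℓ : ℚ_[ℓ]) ^ n)⁻¹ • (ρ (σ n ^ m) - 1) := by
    intro n
    rw [Matrix.mul_smul, geom_sum_mul, map_pow]
  simp only [h4] at h1
  have h5 : Tendsto (fun n => (((ℓ : ℚ_[ℓ]) ^ n)⁻¹ • (ρ (σ n ^ m) - 1)) *ᵥ w) atTop
      (𝓝 (((m : ℚ_[ℓ]) • X) *ᵥ w)) := by
    have hc : Continuous fun M : Matrix (Fin N) (Fin N) ℚ_[ℓ] => M *ᵥ w :=
      Continuous.matrix_mulVec continuous_id continuous_const
    exact (hc.tendsto _).comp h1
  have hcl : IsClosed (W' : Set (Fin N → ℚ_[ℓ])) := Submodule.closed_of_finiteDimensional W'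
  have h6 : ((m : ℚ_[ℓ]) • X) *ᵥ w ∈ W' := by
    refine hcl.mem_of_tendsto h5 (Eventually.of_forall fun n => ?_)
    have h7 := h _ (hpow (σ n)) w hw
    rw [smul_mulVec, sub_mulVec, one_mulVec]
    exact W'.smul_mem _ h7
  rw [smul_mulVec] at h6
  have hmne : (m : ℚ_[ℓ]) ≠ 0 := by exact_mod_cast hm0.ne'
  exact (W'.smul_mem_iff hmne).1 h6

theorem nt : S_NT := by
  intro ℓ _ N hN G _ _ _ _ ρ _ B hB hdet hfull
  rintro ⟨U, W', W, hU, hlt, h⟩
  exact no_sub hN hB hdet W' W hlt fun X hX w hw => tangent_zero ρ hU h (hfull X hX) w hw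

end Pool.Agent.R932.OP
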