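import Pool.Agent.R810.OP.Kr

set_option autoImplicit false

/-! Project OP, task CLQ: clusters of roots (helper810 for helper932). -/

open Polynomial Filter Topology
open Pool.Agent.Y142.ZI Pool.Agent.Y142.ZD
open Pool.Agent.Y331.ZD (um_add um_sub exists_mu root_aut)
open Pool.Agent.R810.OP

namespace Pool.Agent.R932.OP

/-- the factor `(X - b) ^ m - c` -/
theorem fac_aeval {ℓ : ℕ} [Fact ℓ.Prime] (b c : ℚ_[ℓ]) (m : ℕ) (s : AlgebraicClosure ℚ_[ℓ]) :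
    aeval s ((X - C b) ^ m - C c : ℚ_[ℓ][X]) = 0 ↔
      (s - algebraMap ℚ_[ℓ] (AlgebraicClosure ℚ_[ℓ]) b) ^ m =
        algebraMap ℚ_[ℓ] (AlgebraicClosure ℚ_[ℓ]) c := by
  rw [map_sub, map_pow, map_sub, aeval_X, aeval_C, aeval_C, sub_eq_zero]

theorem fac_deg {ℓ : ℕ} [Fact ℓ.Prime] (b : ℚ_[ℓ]) (m : ℕ) :
    ((X - C b) ^ m : ℚ_[ℓ][X]).natDegree = m := by
  rw [natDegree_pow, natDegree_X_sub_C, mul_one]

theorem fac_monic {ℓ : ℕ} [Fact ℓ.Prime] (b c : ℚ_[ℓ]) {m : ℕ} (hm : 0 < m) :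
    ((X - C b) ^ m - C c : ℚ_[ℓ][X]).Monic := by
  refine ((monic_X_sub_C b).pow m).sub_of_left ?_
  refine degree_C_le.trans_lt ?_
  rw [degree_eq_natDegree ((monic_X_sub_C b).pow m).ne_zero, fac_deg]
  exact_mod_cast hm

theorem fac_natDegree {ℓ : ℕ} [Fact ℓ.Prime] (b c : ℚ_[ℓ]) (m : ℕ) :
    ((X - C b) ^ m - C c : ℚ_[ℓ][X]).natDegree = m := by
  rw [natDegree_sub_C, fac_deg]

theorem fac_sep {ℓ : ℕ} [Fact ℓ.Prime] (b : ℚ_[ℓ]) {c : ℚ_[ℓ]} (hc : c ≠ 0) {m : ℕ} (hm : 0 < m) :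
    ((X - C b) ^ m - C c : ℚ_[ℓ][X]).Separable := by
  rw [separable_def, isCoprime_iff_aeval_ne_zero_of_isAlgClosed ℚ_[ℓ] (AlgebraicClosure ℚ_[ℓ])]
  intro s
  by_contra hcon
  push Not at hcon
  obtain ⟨h1, h2⟩ := hcon
  rw [fac_aeval] at h1
  rw [derivative_sub, derivative_C, sub_zero, derivative_pow, derivative_X_sub_C, mul_one, map_mul,
    aeval_C, map_natCast, map_pow, map_sub, aeval_X, aeval_C, mul_eq_zero] at h2
  rcases h2 with h2 | h2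
  · exact hm.ne' (by exact_mod_cast h2)
  · have h3 : s - algebraMap ℚ_[ℓ] (AlgebraicClosure ℚ_[ℓ]) b = 0 := eq_zero_of_pow_eq_zero h2
    rw [h3, zero_pow hm.ne'] at h1
    exact hc ((_root_.map_eq_zero _).1 h1.symm)

theorem fac_ncard {ℓ : ℕ} [Fact ℓ.Prime] (b : ℚ_[ℓ]) {c : ℚ_[ℓ]} (hc : c ≠ 0) {m : ℕ} (hm : 0 < m) :
    {s : AlgebraicClosure ℚ_[ℓ] | (s - algebraMap ℚ_[ℓ] (AlgebraicClosure ℚ_[ℓ]) b) ^ m =
        algebraMap ℚ_[ℓ] (AlgebraicClosure ℚ_[ℓ]) c}.ncard = m := by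
  have h1 := card_rootSet_eq_natDegree (K := AlgebraicClosure ℚ_[ℓ]) (fac_sep b hc hm)
    (IsAlgClosed.splits _)
  rw [fac_natDegree] at h1
  have h2 : {s : AlgebraicClosure ℚ_[ℓ] | (s - algebraMap ℚ_[ℓ] (AlgebraicClosure ℚ_[ℓ]) b) ^ m =
      algebraMap ℚ_[ℓ] (AlgebraicClosure ℚ_[ℓ]) c} =
      ((X - C b) ^ m - C c : ℚ_[ℓ][X]).rootSet (AlgebraicClosure ℚ_[ℓ]) := by
    ext s
    rw [mem_rootSet, fac_aeval]
    exact ⟨fun h => ⟨(fac_monic b c hm).ne_zero, h⟩, fun h => h.2⟩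
  rw [h2, Set.ncard_eq_toFinset_card', Set.toFinset_card, h1]

theorem clq : Pool.Agent.Y142.ZI.S_CLQ := by
  classical
  intro ℓ hℓ hℓ2 J _ b c m hb hbb hm hc
  set L := AlgebraicClosure ℚ_[ℓ] with hL
  set i : ℚ_[ℓ] →+* L := algebraMap ℚ_[ℓ] L with hi
  have hnorm : ∀ x : ℚ_[ℓ], ‖i x‖ = ‖x‖ := Pool.Agent.Y331.ZD.norm_map
  have hℓ1 : (1 : ℝ) < ℓ := by exact_mod_cast hℓ.out.one_lt
  have hinv0 : 0 < (ℓ : ℝ)⁻¹ := by positivity
  have hinv1 : (ℓ : ℝ)⁻¹ < 1 := inv_lt_one_of_one_lt₀ hℓ1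
  have hc0 : ∀ j, c j ≠ 0 := by
    intro j h
    have h1 := hc j
    rw [h, norm_zero] at h1
    linarith
  set R₀ : ℚ_[ℓ][X] := ∏ j, ((X - C (b j)) ^ m j - C (c j)) with hR₀def
  have hR₀ : R₀.Monic := monic_prod_of_monic _ _ fun j _ => fac_monic _ _ (hm j)
  have hdeg : R₀.natDegree = ∑ j, m j := by
    rw [hR₀def, natDegree_prod_of_monic _ _ fun j _ => fac_monic _ _ (hm j)]
    exact Finset.sum_congr rfl fun j _ => fac_natDegree _ _ _
  have hroot : ∀ s : L, aeval s R₀ = 0 ↔ ∃ j, (s - i (b j)) ^ m j = i (c j) := by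
    intro s
    rw [hR₀def, map_prod, Finset.prod_eq_zero_iff]
    constructor
    · rintro ⟨j, -, hj⟩
      exact ⟨j, (fac_aeval _ _ _ _).1 hj⟩
    · rintro ⟨j, hj⟩
      exact ⟨j, Finset.mem_univ j, (fac_aeval _ _ _ _).2 hj⟩
  have hlt : ∀ (s : L) (j : J), (s - i (b j)) ^ m j = i (c j) → ‖s - i (b j)‖ < 1 :=
    fun s j h => pure_norm_lt (hc j) h
  have hle1 : ∀ (s : L) (j : J), (s - i (b j)) ^ m j = i (c j) → ‖s‖ ≤ 1 := by
    intro s j h
    have h1 : s = (s - i (b j)) + i (b j) := by ring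
    rw [h1]
    refine (IsUltrametricDist.norm_add_le_max _ _).trans (max_le (hlt s j h).le ?_)
    rw [hnorm]
    exact hb j
  have hbij : ∀ u v, u ≠ v → ‖i (b u) - i (b v)‖ = 1 := by
    intro u v huv
    rw [← map_sub, hnorm]
    exact hbb u v huv
  have hsep : R₀.Separable := by
    refine separable_prod' (fun u _ v _ huv => ?_) fun j _ => fac_sep _ (hc0 j) (hm j)
    rw [isCoprime_iff_aeval_ne_zero_of_isAlgClosed ℚ_[ℓ] L]
    intro s
    by_contra hcon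
    push Not at hcon
    obtain ⟨h1, h2⟩ := hcon
    have h3 := hlt s u ((fac_aeval _ _ _ _).1 h1)
    have h4 := hlt s v ((fac_aeval _ _ _ _).1 h2)
    have h5 : i (b u) - i (b v) = (s - i (b v)) - (s - i (b u)) := by ring
    have h6 := um_sub h4 h3
    rw [← h5, hbij u v huv] at h6
    exact lt_irrefl _ h6
  have hfin : ({s : L | aeval s R₀ = 0}).Finite := by
    have h1 := Multiset.finite_toSet (R₀.map i).roots
    refine h1.subset fun s hs => ?_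
    show s ∈ (R₀.map i).roots
    rw [mem_roots (hR₀.map i).ne_zero, IsRoot, eval_map, ← aeval_def]
    exact hs
  have : Finite {s : L // aeval s R₀ = 0} := hfin
  obtain ⟨μ1, hμ10, hμ11, hμ1⟩ := exists_mu
    (fun q : {s : L // aeval s R₀ = 0} × {s : L // aeval s R₀ = 0} => ‖(q.1 : L) - q.2‖)
    (fun q => (q.1 : L) - q.2 ≠ 0) (fun q hq => norm_pos_iff.mpr hq)
  obtain ⟨μ2, hμ20, -, hμ2⟩ := exists_mu
    (fun q : {s : L // aeval s R₀ = 0} => ‖(q : L)‖) (fun q => (q : L) ≠ 0)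
    (fun q hq => norm_pos_iff.mpr hq)
  set μ : ℝ := min μ1 μ2 with hμdef
  have hμ0 : 0 < μ := lt_min hμ10 hμ20
  have hμle1 : μ ≤ 1 := (min_le_left _ _).trans hμ11
  obtain ⟨ε, hε, hmain⟩ := core hR₀ hsep (fun s hs => by
      obtain ⟨j, hj⟩ := (hroot s).1 hs
      exact hle1 s j hj) hμ0
    (fun s t hs ht hst => (min_le_left _ _).trans
      (hμ1 (⟨s, hs⟩, ⟨t, ht⟩) (sub_ne_zero.2 hst)))
  refine ⟨ε, hε, ?_⟩
  intro k Q hk hQ hQdeg hQinv hcl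
  obtain ⟨hQsep, r, hr1, hr2, hr3, hr4, hr5⟩ := hmain k Q hQ (by rw [hQdeg, hdeg]) hcl
  set la : L := i ((ℓ : ℚ_[ℓ]) ^ k) with hla
  have hlan : ‖la‖ = ((ℓ : ℝ) ^ k)⁻¹ := by
    rw [hla, hnorm, norm_pow, Padic.norm_p, inv_pow]
  have hlapos : 0 < ((ℓ : ℝ) ^ k)⁻¹ := by positivity
  have hlalt : ((ℓ : ℝ) ^ k)⁻¹ < 1 :=
    inv_lt_one_of_one_lt₀ (one_lt_pow₀ hℓ1 hk.ne')
  have hla0 : la ≠ 0 := (_root_.map_ne_zero _).2 (ell_pow_ne k)
  -- clusters in terms of `la`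
  have hcl' : ∀ (x : L) (j : J), x ∈ Clus ℓ k Q (b j) ↔
      aeval x Q = 0 ∧ ‖x - 1 - la * i (b j)‖ < ((ℓ : ℝ) ^ k)⁻¹ := by
    intro x j
    show _ ∧ _ ↔ _
    rw [map_mul]
  have hrb : ∀ (s : L) (j : J), (s - i (b j)) ^ m j = i (c j) → ‖r s - i (b j)‖ < 1 := by
    intro s j h
    have h1 : r s - i (b j) = (r s - s) + (s - i (b j)) := by ring
    rw [h1]
    exact um_add ((hr1 s ((hroot s).2 ⟨j, h⟩)).trans_le hμle1) (hlt s j h)
  have hmem : ∀ (s : L) (j : J), (s - i (b j)) ^ m j = i (c j) →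
      1 + la * r s ∈ Clus ℓ k Q (b j) := by
    intro s j h
    rw [hcl']
    refine ⟨hr2 s ((hroot s).2 ⟨j, h⟩), ?_⟩
    have h1 : 1 + la * r s - 1 - la * i (b j) = la * (r s - i (b j)) := by ring
    rw [h1, norm_mul, hlan]
    calc ((ℓ : ℝ) ^ k)⁻¹ * ‖r s - i (b j)‖ < ((ℓ : ℝ) ^ k)⁻¹ * 1 :=
          mul_lt_mul_of_pos_left (hrb s j h) hlapos
      _ = _ := mul_one _
  have hdis : ∀ u v, u ≠ v → ∀ x, x ∈ Clus ℓ k Q (b u) → x ∉ Clus ℓ k Q (b v) := by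
    intro u v huv x hx hy
    rw [hcl'] at hx hy
    have h1 : la * (i (b u) - i (b v)) = (x - 1 - la * i (b v)) - (x - 1 - la * i (b u)) := by
      ring
    have h2 := um_sub hy.2 hx.2
    rw [← h1, norm_mul, hbij u v huv, hlan, mul_one] at h2
    exact lt_irrefl _ h2
  have hmem' : ∀ (x : L) (j : J), x ∈ Clus ℓ k Q (b j) →
      ∃ s, (s - i (b j)) ^ m j = i (c j) ∧ x = 1 + la * r s := by
    intro x j hx
    obtain ⟨s, hs, hxs⟩ := hr4 x hx.1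
    obtain ⟨j', hj'⟩ := (hroot s).1 hs
    have h1 := hmem s j' hj'
    rw [← hxs] at h1
    have h2 : j' = j := by
      by_contra hne
      exact hdis j' j hne x h1 hx
    subst h2
    exact ⟨s, hj', hxs⟩
  refine ⟨hQsep, ?_, ?_, ?_, ?_, ?_, ?_, ?_⟩
  · -- `1` is not a root
    intro hbz h1
    have h2 : aeval (1 : L) Q = 0 := by
      have h3 : aeval (i 1) Q = 0 := by
        rw [hi, aeval_algebraMap_apply, coe_aeval_eq_eval, h1, map_zero]
      rwa [map_one] at h3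
    obtain ⟨s, hs, h3⟩ := hr4 1 h2
    have h4 : la * r s = 0 := by linear_combination -h3
    have h5 : r s = 0 := (mul_eq_zero.1 h4).resolve_left hla0
    have h6 := hr1 s hs
    rw [h5, zero_sub, norm_neg] at h6
    have h7 : s = 0 := by
      by_contra hne
      have h8 := (min_le_right μ1 μ2).trans (hμ2 ⟨s, hs⟩ hne)
      dsimp only at h8
      linarith
    obtain ⟨j, hj⟩ := (hroot s).1 hs
    have h9 := hlt s j hj
    rw [h7, zero_sub, norm_neg, hnorm] at h9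
    rw [h7, hbz j h9, map_zero, sub_zero, zero_pow (hm j).ne'] at hj
    exact hc0 j ((_root_.map_eq_zero i).1 hj.symm)
  · intro x hx
    obtain ⟨s, hs, rfl⟩ := hr4 x hx
    obtain ⟨j, hj⟩ := (hroot s).1 hs
    exact ⟨j, hmem s j hj⟩
  · intro u v huv
    rw [Set.disjoint_left]
    exact fun x hx => hdis u v huv x hx
  · -- cardinality
    intro j
    have h1 : Clus ℓ k Q (b j) = (fun s => 1 + la * r s) ''
        {s : L | (s - i (b j)) ^ m j = i (c j)} := by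
      ext x
      constructor
      · intro hx
        obtain ⟨s, hs, hxs⟩ := hmem' x j hx
        exact ⟨s, hs, hxs.symm⟩
      · rintro ⟨s, hs, rfl⟩
        exact hmem s j hs
    rw [h1, Set.ncard_image_of_injOn, fac_ncard _ (hc0 j) (hm j)]
    intro s hs t ht hst
    dsimp only at hst
    have h2 : r s = r t := mul_left_cancel₀ hla0 (add_left_cancel hst)
    exact hr3 s t ((hroot s).2 ⟨j, hs⟩) ((hroot t).2 ⟨j, ht⟩) h2
  · -- inverses
    intro u v huv x hx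
    rw [hcl'] at hx ⊢
    obtain ⟨h1, h2⟩ := hx
    obtain ⟨h3, h4⟩ := hQinv x h1
    refine ⟨h4, ?_⟩
    have hib : i (b u) = -i (b v) := by rw [huv, map_neg]
    have hbv : ‖i (b v)‖ ≤ 1 := by rw [hnorm]; exact hb v
    have hy : ‖x - 1‖ ≤ ((ℓ : ℝ) ^ k)⁻¹ := by
      have h5 : x - 1 = (x - 1 - la * i (b v)) + la * i (b v) := by ring
      rw [h5]
      refine (IsUltrametricDist.norm_add_le_max _ _).trans (max_le h2.le ?_)
      rw [norm_mul, hlan]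
      exact mul_le_of_le_one_right hlapos.le hbv
    have hx1 : ‖x‖ = 1 := by
      have h5 : x = 1 + (x - 1) := by ring
      have h6 : ‖(1 : L)‖ ≠ ‖x - 1‖ := by
        rw [norm_one]
        exact (hy.trans_lt hlalt).ne'
      rw [h5, IsUltrametricDist.norm_add_eq_max_of_norm_ne_norm h6, norm_one, max_eq_left]
      exact (hy.trans_lt hlalt).le
    have h7 : x⁻¹ - 1 - la * i (b u) =
        (la * i (b v) * (x - 1) - (x - 1 - la * i (b v))) / x := by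
      rw [hib]
      field_simp
      ring
    rw [h7, norm_div, hx1, div_one]
    refine um_sub ?_ h2
    rw [norm_mul, norm_mul, hlan]
    calc ((ℓ : ℝ) ^ k)⁻¹ * ‖i (b v)‖ * ‖x - 1‖ ≤ ((ℓ : ℝ) ^ k)⁻¹ * 1 * ((ℓ : ℝ) ^ k)⁻¹ := by
          refine mul_le_mul (mul_le_mul_of_nonneg_left hbv hlapos.le) hy (norm_nonneg _) ?_
          positivity
      _ < ((ℓ : ℝ) ^ k)⁻¹ := by
          rw [mul_one]
          calc ((ℓ : ℝ) ^ k)⁻¹ * ((ℓ : ℝ) ^ k)⁻¹ < ((ℓ : ℝ) ^ k)⁻¹ * 1 :=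
                mul_lt_mul_of_pos_left hlalt hlapos
            _ = _ := mul_one _
  · -- Galois stability
    intro τ j x hx
    rw [hcl'] at hx ⊢
    refine ⟨root_aut τ hx.1, ?_⟩
    have h1 : τ x - 1 - la * i (b j) = τ (x - 1 - la * i (b j)) := by
      rw [map_sub, map_sub, map_one, map_mul, hla, hi, τ.commutes, τ.commutes]
    rw [h1, Pool.Agent.Y331.ZD.norm_inv']
    exact hx.2
  · -- transitivity
    intro F hF j x hx y hy
    obtain ⟨s, hs, rfl⟩ := hmem' x j hx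
    obtain ⟨t, ht, rfl⟩ := hmem' y j hy
    obtain ⟨τ, hτ⟩ := pure_conj (hm j) (hc j) F hF hs ht
    refine ⟨τ, ?_⟩
    obtain ⟨σ, hσ⟩ := core_F τ
    rw [← hσ, la_fix, ← hr5 σ s ((hroot s).2 ⟨j, hs⟩), hσ, hτ]

end Pool.Agent.R932.OP
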