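import Pool.Agent.Y142.ZI.Stm

namespace Pool.Agent.R932.OP

open Equiv

namespace GenAux

theorem aii {R : Type} (f : Equiv.Perm R) (x : R) : f (f⁻¹ x) = x := f.apply_symm_apply x

theorem iaa {R : Type} (f : Equiv.Perm R) (x : R) : f⁻¹ (f x) = x := f.symm_apply_apply x

set_option linter.unusedSectionVars false

variable {R : Type} [Fintype R] [DecidableEq R] (ι : Equiv.Perm R)

/-- `x` and `y` are in the same pair -/
def Rel (x y : R) : Prop := y = x ∨ y = ι x

variable {ι}

theorem Rel.refl (x : R) : Rel ι x x := Or.inl rfl

theorem Rel.symm (hi : ∀ x, ι (ι x) = x) {x y : R} (h : Rel ι x y) : Rel ι y x := by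
  rcases h with rfl | rfl
  · exact Or.inl rfl
  · exact Or.inr (hi _).symm

theorem Rel.trans (hi : ∀ x, ι (ι x) = x) {x y z : R} (h : Rel ι x y) (h' : Rel ι y z) :
    Rel ι x z := by
  rcases h with rfl | rfl
  · exact h'
  · rcases h' with rfl | rfl
    · exact Or.inr rfl
    · exact Or.inl (hi _)

theorem Rel.map {w : Equiv.Perm R} (hw : ∀ x, w (ι x) = ι (w x)) {x y : R} (h : Rel ι x y) :
    Rel ι (w x) (w y) := by
  rcases h with rfl | rfl
  · exact Or.inl rfl
  · exact Or.inr (hw _)

theorem Rel.of_map {w : Equiv.Perm R} (hw : ∀ x, w (ι x) = ι (w x)) {x y : R}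
    (h : Rel ι (w x) (w y)) : Rel ι x y := by
  rcases h with h | h
  · exact Or.inl (w.injective h)
  · exact Or.inr (w.injective (by rw [h, hw]))

theorem comm_inv {w : Equiv.Perm R} (hw : ∀ x, w (ι x) = ι (w x)) (x : R) :
    w⁻¹ (ι x) = ι (w⁻¹ x) := by
  apply w.injective
  rw [hw, aii, aii]

theorem comm_mul {w v : Equiv.Perm R} (hw : ∀ x, w (ι x) = ι (w x))
    (hv : ∀ x, v (ι x) = ι (v x)) (x : R) : (w * v) (ι x) = ι ((w * v) x) := by
  rw [Equiv.Perm.mul_apply, Equiv.Perm.mul_apply, hv, hw]

/-- permutations which preserve all pairs -/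
theorem pres (hi : ∀ x, ι (ι x) = x) (H : Subgroup (Equiv.Perm R))
    (hs : ∀ x, Equiv.swap x (ι x) ∈ H) (n : ℕ) :
    ∀ w : Equiv.Perm R, (∀ x, w (ι x) = ι (w x)) → (∀ x, Rel ι x (w x)) →
      (Finset.univ.filter fun x => w x ≠ x).card = n → w ∈ H := by
  induction n using Nat.strong_induction_on with
  | _ n ih =>
    intro w hw hr hn
    by_cases h1 : ∀ x, w x = x
    · have : w = 1 := Equiv.ext h1
      rw [this]; exact H.one_mem
    · push Not at h1
      obtain ⟨x, hx⟩ := h1
      have hx' : w x = ι x := (hr x).resolve_left hx
      have hxi : w (ι x) = x := by rw [hw, hx', hi]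
      have hsw : Equiv.swap x (ι x) ∈ H := hs x
      set s := Equiv.swap x (ι x) with hsdef
      have hne : x ≠ ι x := fun h => hx (by rw [hx', ← h])
      have hsc : ∀ y, s (ι y) = ι (s y) := by
        intro y
        by_cases hy : y = x
        · subst hy
          rw [hsdef, Equiv.swap_apply_right, Equiv.swap_apply_left, hi]
        · by_cases hy2 : y = ι x
          · subst hy2
            rw [hi, hsdef, Equiv.swap_apply_left, Equiv.swap_apply_right]
          · rw [hsdef, Equiv.swap_apply_of_ne_of_ne hy hy2, Equiv.swap_apply_of_ne_of_ne]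
            · intro h; exact hy2 (by rw [← h, hi])
            · intro h; exact hy (ι.injective h)
      have key : w * s ∈ H := by
        refine ih _ ?_ (w * s) (comm_mul hw hsc) ?_ rfl
        · rw [← hn]
          apply Finset.card_lt_card
          rw [Finset.ssubset_iff_of_subset]
          · refine ⟨x, by simpa using hx, ?_⟩
            simp only [Finset.mem_filter, Finset.mem_univ, true_and, not_not]
            rw [Equiv.Perm.mul_apply, hsdef, Equiv.swap_apply_left, hxi]
          · intro y hy
            simp only [Finset.mem_filter, Finset.mem_univ, true_and] at hy ⊢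
            intro hyy
            apply hy
            rw [Equiv.Perm.mul_apply]
            have e1 : y ≠ x := fun h => hx (by rw [← h]; exact hyy)
            have e2 : y ≠ ι x := by
              intro h
              rw [h, hxi] at hyy
              exact hne hyy
            rw [hsdef, Equiv.swap_apply_of_ne_of_ne e1 e2, hyy]
        · intro y
          rw [Equiv.Perm.mul_apply]
          by_cases hy : y = x
          · subst hy
            rw [hsdef, Equiv.swap_apply_left, hxi]
            exact Or.inl rfl
          · by_cases hy2 : y = ι x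
            · subst hy2
              rw [hsdef, Equiv.swap_apply_right, hx']
              exact Or.inl rfl
            · rw [hsdef, Equiv.swap_apply_of_ne_of_ne hy hy2]
              exact hr y
      have : w = (w * s) * s := by
        rw [mul_assoc, hsdef, Equiv.swap_mul_self, mul_one]
      rw [this]
      exact H.mul_mem key hsw

end GenAux

open GenAux

theorem gen : Pool.Agent.Y142.ZI.S_GEN := by
  intro R _ _ ι H hfix hi hcomm hcyc hsgn htr htrans w hw
  obtain ⟨c, hcH, hc⟩ := hcyc
  -- transitivity
  have T : ∀ x y, ∃ g ∈ H, g x = y := fun x y => by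
    obtain ⟨k, hk⟩ := hc x y
    exact ⟨c ^ k, H.pow_mem hcH k, hk⟩
  -- sign changes
  have hs : ∀ x, Equiv.swap x (ι x) ∈ H := by
    obtain ⟨s, hsH, x₀, hx₀, hoth⟩ := hsgn
    have hs0 : s = Equiv.swap x₀ (ι x₀) := by
      ext y
      by_cases hy : y = x₀
      · subst hy; rw [hx₀, Equiv.swap_apply_left]
      · by_cases hy2 : y = ι x₀
        · subst hy2; rw [hcomm s hsH, hx₀, hi, Equiv.swap_apply_right]
        · rw [hoth y hy hy2, Equiv.swap_apply_of_ne_of_ne hy hy2]
    intro x
    obtain ⟨g, hg, hgx⟩ := T x₀ x
    have : Equiv.swap x (ι x) = g * s * g⁻¹ := by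
      rw [hs0, ← Equiv.swap_apply_apply, hgx, hcomm g hg, hgx]
    rw [this]
    exact H.mul_mem (H.mul_mem hg hsH) (H.inv_mem hg)
  have hpres : ∀ v : Equiv.Perm R, (∀ x, v (ι x) = ι (v x)) → (∀ x, Rel ι x (v x)) → v ∈ H :=
    fun v hv hr => pres hi H hs _ v hv hr rfl
  -- double transitivity
  have T2 : ∀ x y a b, ¬ Rel ι x y → ¬ Rel ι a b → ∃ g ∈ H, Rel ι a (g x) ∧ Rel ι b (g y) := by
    obtain ⟨z₀, hz⟩ := htrans
    intro x y a b hxy hab
    obtain ⟨g1, hg1, e1⟩ := T x z₀
    obtain ⟨g2, hg2, e2⟩ := T a z₀
    have f1 : ¬ Rel ι z₀ (g1 y) := by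
      intro h; rw [← e1] at h; exact hxy (Rel.of_map (hcomm g1 hg1) h)
    have f2 : ¬ Rel ι z₀ (g2 b) := by
      intro h; rw [← e2] at h; exact hab (Rel.of_map (hcomm g2 hg2) h)
    obtain ⟨h, hh, h1, h2⟩ := hz (g1 y) (g2 b) (fun h => f1 (Or.inl h)) (fun h => f1 (Or.inr h))
      (fun h => f2 (Or.inl h)) (fun h => f2 (Or.inr h))
    refine ⟨g2⁻¹ * h * g1, H.mul_mem (H.mul_mem (H.inv_mem hg2) hh) hg1, ?_, ?_⟩
    · apply Rel.of_map (hcomm g2 hg2)
      simp only [Equiv.Perm.mul_apply, aii]
      rw [e2, e1]
      exact h1
    · apply Rel.of_map (hcomm g2 hg2)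
      simp only [Equiv.Perm.mul_apply, aii]
      have : Rel ι (h (g1 y)) (g2 b) → Rel ι (g2 b) (h (g1 y)) := Rel.symm hi
      apply this
      rcases h2 with h2 | h2
      · exact Or.inl h2.symm
      · exact Or.inr (by rw [h2, hi])
  -- induction on the number of points whose pair is moved
  have main : ∀ n : ℕ, ∀ v : Equiv.Perm R, (∀ x, v (ι x) = ι (v x)) →
      (Finset.univ.filter fun x => ¬ (v x = x ∨ v x = ι x)).card = n → v ∈ H := by
    intro n
    induction n using Nat.strong_induction_on with
    | _ n ih =>
      intro v hv hn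
      by_cases h0 : ∀ x, Rel ι x (v x)
      · exact hpres v hv h0
      push Not at h0
      obtain ⟨x, hx⟩ := h0
      set y := v x with hy
      by_cases hz : ∃ z, ¬ Rel ι x z ∧ ¬ Rel ι y z
      · -- at least three pairs
        have hcard : 6 ≤ Fintype.card R := by
          obtain ⟨z, hz1, hz2⟩ := hz
          have hS : ({x, ι x, y, ι y, z, ι z} : Finset R).card = 6 := by
            have a1 : x ≠ ι x := (hfix x).symm
            have a2 : y ≠ ι y := (hfix y).symm
            have a3 : z ≠ ι z := (hfix z).symm
            have b1 : x ≠ y := fun h => hx (Or.inl h.symm)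
            have b2 : x ≠ ι y := fun h => hx (Or.inr (by rw [h, hi]))
            have b3 : ι x ≠ y := fun h => hx (Or.inr h.symm)
            have b4 : ι x ≠ ι y := fun h => b1 (ι.injective h)
            have c1 : x ≠ z := fun h => hz1 (Or.inl h.symm)
            have c2 : x ≠ ι z := fun h => hz1 (Or.inr (by rw [h, hi]))
            have c3 : ι x ≠ z := fun h => hz1 (Or.inr h.symm)
            have c4 : ι x ≠ ι z := fun h => c1 (ι.injective h)
            have d1 : y ≠ z := fun h => hz2 (Or.inl h.symm)
            have d2 : y ≠ ι z := fun h => hz2 (Or.inr (by rw [h, hi]))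
            have d3 : ι y ≠ z := fun h => hz2 (Or.inr h.symm)
            have d4 : ι y ≠ ι z := fun h => d1 (ι.injective h)
            rw [Finset.card_insert_of_notMem, Finset.card_insert_of_notMem,
              Finset.card_insert_of_notMem, Finset.card_insert_of_notMem,
              Finset.card_insert_of_notMem, Finset.card_singleton]
            all_goals
              simp only [Finset.mem_insert, Finset.mem_singleton, not_or]
            · exact a3
            · exact ⟨d3, d4⟩
            · exact ⟨a2, d1, d2⟩
            · exact ⟨b3, b4, c3, c4⟩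
            · exact ⟨a1, b1, b2, c1, c2⟩
          rw [← hS]
          exact Finset.card_le_univ _
        obtain ⟨t, htH, p, q, hqp, hqp', ht1, ht2, ht3⟩ := htr hcard
        have hpq : ¬ Rel ι p q := by
          rintro (h | h)
          · exact hqp h
          · exact hqp' h
        have hxy : ¬ Rel ι x y := hx
        obtain ⟨g, hgH, hg1, hg2⟩ := T2 p q x y hpq hxy
        -- s swaps the pairs of x and y
        have hgc := hcomm g hgH
        have htc := hcomm t htH
        set s := g * t * g⁻¹ with hsd
        have hsH : s ∈ H := H.mul_mem (H.mul_mem hgH htH) (H.inv_mem hgH)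
        have hsc := hcomm s hsH
        have rpx : Rel ι (t p) q := by
          rcases ht1 with h | h
          · exact Or.inl h.symm
          · exact Or.inr (by rw [h, hi])
        have rqx : Rel ι (t q) p := by
          rcases ht2 with h | h
          · exact Or.inl h.symm
          · exact Or.inr (by rw [h, hi])
        have hsy : Rel ι (s y) x := by
          -- y ~ g q, s y ~ g t q ~ g p ~ x
          have e1 : Rel ι (s y) (s (g q)) := Rel.map hsc hg2
          have e2 : s (g q) = g (t q) := by
            simp [hsd, Equiv.Perm.mul_apply]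
          have e3 : Rel ι (g (t q)) (g p) := Rel.map hgc rqx
          rw [e2] at e1
          exact Rel.trans hi e1 (Rel.trans hi e3 (Rel.symm hi hg1))
        have hsz : ∀ z, ¬ Rel ι x z → ¬ Rel ι y z → Rel ι (s z) z := by
          intro z hz1 hz2
          have k1 : ¬ Rel ι p (g⁻¹ z) := by
            intro h
            have := Rel.map hgc h
            rw [aii] at this
            exact hz1 (Rel.trans hi hg1 this)
          have k2 : ¬ Rel ι q (g⁻¹ z) := by
            intro h
            have := Rel.map hgc h
            rw [aii] at this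
            exact hz2 (Rel.trans hi hg2 this)
          have k3 := ht3 (g⁻¹ z) (fun h => k1 (Or.inl h)) (fun h => k1 (Or.inr h))
            (fun h => k2 (Or.inl h)) (fun h => k2 (Or.inr h))
          have k4 : Rel ι (g⁻¹ z) (t (g⁻¹ z)) := k3
          have k5 := Rel.map hgc k4
          rw [aii] at k5
          exact Rel.symm hi k5
        have key : s * v ∈ H := by
          refine ih _ ?_ (s * v) (comm_mul hsc hv) rfl
          rw [← hn]
          apply Finset.card_lt_card
          rw [Finset.ssubset_iff_of_subset]
          · refine ⟨x, by simpa [GenAux.Rel] using hx, ?_⟩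
            simp only [Finset.mem_filter, Finset.mem_univ, true_and, not_not]
            rw [Equiv.Perm.mul_apply, ← hy]
            exact Rel.symm hi hsy
          · intro z hzz
            simp only [Finset.mem_filter, Finset.mem_univ, true_and] at hzz ⊢
            intro hvz
            apply hzz
            have hvz' : Rel ι z (v z) := hvz
            have n1 : ¬ Rel ι x z := by
              intro h
              -- x ~ z, v x ~ v z ~ z ~ x
              have := Rel.map hv h
              exact hx (Rel.trans hi h (Rel.trans hi hvz' (Rel.symm hi this)))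
            have n2 : ¬ Rel ι y z := by
              intro h
              have h3 : Rel ι (v x) (v z) := Rel.trans hi h hvz'
              exact n1 (Rel.of_map hv h3)
            have m1 : ¬ Rel ι x (v z) := fun h => n1 (Rel.trans hi h (Rel.symm hi hvz'))
            have m2 : ¬ Rel ι y (v z) := fun h => n2 (Rel.trans hi h (Rel.symm hi hvz'))
            have := hsz (v z) m1 m2
            rw [Equiv.Perm.mul_apply]
            exact Rel.trans hi hvz' (Rel.symm hi this)
        have : v = s⁻¹ * (s * v) := by group
        rw [this]
        exact H.mul_mem (H.inv_mem hsH) key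
      · -- two pairs
        push Not at hz
        obtain ⟨g, hgH, hgx⟩ := T x y
        have hgc := hcomm g hgH
        have hvc : ∀ z, (g⁻¹ * v) (ι z) = ι ((g⁻¹ * v) z) := comm_mul (comm_inv hgc) hv
        have hx1 : (g⁻¹ * v) x = x := by
          rw [Equiv.Perm.mul_apply, ← hy, ← hgx, iaa]
        have key : g⁻¹ * v ∈ H := by
          apply hpres _ hvc
          intro z
          by_cases hxz : Rel ι x z
          · have h1 := Rel.map hvc hxz
            rw [hx1] at h1
            exact Rel.trans hi (Rel.symm hi hxz) h1
          · have hyz := hz z hxz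
            have h2 : ¬ Rel ι x ((g⁻¹ * v) z) := by
              intro h
              rw [← hx1] at h
              exact hxz (Rel.of_map hvc h)
            have h3 := hz _ h2
            exact Rel.trans hi (Rel.symm hi hyz) h3
        have : v = g * (g⁻¹ * v) := by group
        rw [this]
        exact H.mul_mem hgH key
  exact main _ w hw rfl

end Pool.Agent.R932.OP
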