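import Pool.Agent.Y255.SS.LF

/-!
Task OP-NR (helper757): the maximal unramified extension of the field of `ℓ`-adic numbers inside
the algebraic closure.
-/

set_option autoImplicit false

open Polynomial
open Pool.Agent.Y142.ZI Pool.Agent.Y142.ZD

namespace Pool.Agent.R932.OP.Nr

variable {ℓ : ℕ} [hℓ : Fact ℓ.Prime]

theorem l1 : (1 : ℝ) < ℓ := by exact_mod_cast hℓ.out.one_lt

theorem norm_map (x : ℚ_[ℓ]) : ‖algebraMap ℚ_[ℓ] (AlgebraicClosure ℚ_[ℓ]) x‖ = ‖x‖ :=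
  PadicAlgCl.norm_extends ℓ x

theorem norm_l : ‖(ℓ : AlgebraicClosure ℚ_[ℓ])‖ = (ℓ : ℝ)⁻¹ := by
  rw [← map_natCast (algebraMap ℚ_[ℓ] (AlgebraicClosure ℚ_[ℓ])), norm_map, Padic.norm_p]

theorem norm_int (x : ℤ_[ℓ]) : ‖algebraMap ℤ_[ℓ] (AlgebraicClosure ℚ_[ℓ]) x‖ = ‖x‖ := by
  have h1 : algebraMap ℤ_[ℓ] (AlgebraicClosure ℚ_[ℓ]) x =
      algebraMap ℚ_[ℓ] (AlgebraicClosure ℚ_[ℓ]) (x : ℚ_[ℓ]) := rfl
  rw [h1, norm_map]
  rfl

theorem um_add {x y : AlgebraicClosure ℚ_[ℓ]} {μ : ℝ} (hx : ‖x‖ < μ) (hy : ‖y‖ < μ) :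
    ‖x + y‖ < μ :=
  (IsUltrametricDist.norm_add_le_max (S := PadicAlgCl ℓ) x y).trans_lt (max_lt hx hy)

/-- the elements fixed by the `f`-th power of a Frobenius map -/
def Sf (ℓ : ℕ) [Fact ℓ.Prime] (f : ℕ) : Set (AlgebraicClosure ℚ_[ℓ]) := {ζ | ζ ^ (ℓ ^ f) = ζ}

/-- the ring generated by them -/
noncomputable def A (ℓ : ℕ) [Fact ℓ.Prime] (f : ℕ) : Subalgebra ℤ_[ℓ] (AlgebraicClosure ℚ_[ℓ]) :=
  Algebra.adjoin ℤ_[ℓ] (Sf ℓ f)

theorem Sf_le {f : ℕ} (hf : 0 < f) {ζ : AlgebraicClosure ℚ_[ℓ]} (h : ζ ∈ Sf ℓ f) : ‖ζ‖ ≤ 1 := by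
  have h1 : ζ ^ (ℓ ^ f) = ζ := h
  by_contra hcon
  push Not at hcon
  have h2 : 1 < ℓ ^ f := Nat.one_lt_pow hf.ne' hℓ.out.one_lt
  have h3 := congrArg norm h1
  rw [norm_pow] at h3
  have h4 : ‖ζ‖ ^ 1 < ‖ζ‖ ^ (ℓ ^ f) := pow_lt_pow_right₀ hcon h2
  rw [pow_one, h3] at h4
  exact lt_irrefl _ h4

theorem A_le {f : ℕ} (hf : 0 < f) {y : AlgebraicClosure ℚ_[ℓ]} (h : y ∈ A ℓ f) : ‖y‖ ≤ 1 := by
  refine Algebra.adjoin_induction (p := fun y _ => ‖y‖ ≤ 1) ?_ ?_ ?_ ?_ h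
  · intro x hx
    exact Sf_le hf hx
  · intro r
    rw [norm_int]
    exact PadicInt.norm_le_one _
  · intro x y _ _ hx hy
    exact (IsUltrametricDist.norm_add_le_max (S := PadicAlgCl ℓ) x y).trans (max_le hx hy)
  · intro x y _ _ hx hy
    rw [norm_mul]
    exact mul_le_one₀ hx (norm_nonneg _) hy

theorem l_mem (f : ℕ) : (ℓ : AlgebraicClosure ℚ_[ℓ]) ∈ A ℓ f := natCast_mem _ _

/-- the Frobenius map is the identity modulo `ℓ` -/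
theorem frob {f : ℕ} {y : AlgebraicClosure ℚ_[ℓ]} (h : y ∈ A ℓ f) :
    ∃ z ∈ A ℓ f, y ^ (ℓ ^ f) - y = ℓ * z := by
  refine Algebra.adjoin_induction (p := fun y _ => ∃ z ∈ A ℓ f, y ^ (ℓ ^ f) - y = ℓ * z)
    ?_ ?_ ?_ ?_ h
  · intro x hx
    have h1 : x ^ (ℓ ^ f) = x := hx
    exact ⟨0, zero_mem _, by rw [h1]; ring⟩
  · intro r
    have h1 : r ^ (ℓ ^ f) - r ∈ RingHom.ker (PadicInt.toZMod : ℤ_[ℓ] →+* ZMod ℓ) := by
      rw [RingHom.mem_ker, map_sub, map_pow, ZMod.pow_card_pow, sub_self]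
    rw [PadicInt.ker_toZMod, PadicInt.maximalIdeal_eq_span_p, Ideal.mem_span_singleton] at h1
    obtain ⟨c, hc⟩ := h1
    refine ⟨algebraMap _ _ c, Subalgebra.algebraMap_mem _ _, ?_⟩
    rw [← map_pow, ← map_sub, hc, map_mul, map_natCast]
  · intro x y hx' hy' hx hy
    obtain ⟨z, hz, h1⟩ := hx
    obtain ⟨w, hw, h2⟩ := hy
    obtain ⟨r, hr⟩ := exists_add_pow_prime_pow_eq hℓ.out (⟨x, hx'⟩ : A ℓ f) (⟨y, hy'⟩ : A ℓ f) f
    have h3 := congrArg Subtype.val hr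
    push_cast at h3
    refine ⟨z + w + x * y * r, ?_, ?_⟩
    · exact add_mem (add_mem hz hw) (mul_mem (mul_mem hx' hy') r.2)
    · linear_combination h3 + h1 + h2
  · intro x y hx' hy' hx hy
    obtain ⟨z, hz, h1⟩ := hx
    obtain ⟨w, hw, h2⟩ := hy
    refine ⟨z * y ^ (ℓ ^ f) + x * w, ?_, ?_⟩
    · exact add_mem (mul_mem hz (pow_mem hy' _)) (mul_mem hx' hw)
    · linear_combination y ^ (ℓ ^ f) * h1 + x * h2

theorem frob_iter {f : ℕ} {y : AlgebraicClosure ℚ_[ℓ]} (h : y ∈ A ℓ f) (j : ℕ) :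
    ∃ z ∈ A ℓ f, y ^ (ℓ ^ (f * j)) - y = ℓ * z := by
  induction j with
  | zero => exact ⟨0, zero_mem _, by simp⟩
  | succ j ih =>
    obtain ⟨z, hz, h1⟩ := ih
    obtain ⟨w, hw, h2⟩ := frob (pow_mem h (ℓ ^ (f * j)))
    refine ⟨w + z, add_mem hw hz, ?_⟩
    have h3 : y ^ (ℓ ^ (f * (j + 1))) = (y ^ (ℓ ^ (f * j))) ^ (ℓ ^ f) := by
      rw [← pow_mul, ← pow_add, mul_add, mul_one]
    rw [h3]
    linear_combination h1 + h2

/-- a power of an element of norm `< 1` is divisible by `ℓ` -/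
theorem pow_div {f : ℕ} {y : AlgebraicClosure ℚ_[ℓ]} (h : y ∈ A ℓ f) (hy : ‖y‖ < 1) :
    ∃ d : ℕ, ∃ z ∈ A ℓ f, y ^ d = ℓ * z := by
  have hi : IsIntegral ℚ_[ℓ] y := Algebra.IsIntegral.isIntegral y
  set P := minpoly ℚ_[ℓ] y with hP
  have hmon : P.Monic := minpoly.monic hi
  have h1 : ∀ i, i < P.natDegree → ∃ b : ℤ_[ℓ], P.coeff i = ((ℓ : ℤ_[ℓ]) * b : ℤ_[ℓ]) := by
    intro i hi'
    have h2 : spectralValueTerms P i ≤ ‖y‖ :=
      le_ciSup (spectralValueTerms_bddAbove P) i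
    rw [spectralValueTerms_of_lt_natDegree P hi'] at h2
    have h3 : ‖P.coeff i‖ < 1 := by
      by_contra hcon
      push Not at hcon
      have h4 : (1 : ℝ) ≤ ‖P.coeff i‖ ^ (1 / (P.natDegree - i : ℝ)) := by
        refine Real.one_le_rpow hcon ?_
        have : (i : ℝ) < P.natDegree := by exact_mod_cast hi'
        have h5 : (0 : ℝ) < P.natDegree - i := by linarith
        positivity
      linarith
    have h4 : ∀ z : ℤ_[ℓ], ‖z‖ < 1 → ∃ b : ℤ_[ℓ], z = ℓ * b :=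
      fun z hz => (PadicInt.norm_lt_one_iff_dvd z).1 hz
    obtain ⟨b, hb⟩ := h4 ⟨P.coeff i, h3.le⟩ h3
    exact ⟨b, congrArg Subtype.val hb⟩
  choose b hb using h1
  refine ⟨P.natDegree, -∑ i ∈ (Finset.range P.natDegree).attach,
    algebraMap ℤ_[ℓ] (AlgebraicClosure ℚ_[ℓ]) (b i.1 (Finset.mem_range.1 i.2)) * y ^ i.1, ?_, ?_⟩
  · refine neg_mem (sum_mem fun i _ => ?_)
    exact mul_mem (Subalgebra.algebraMap_mem _ _) (pow_mem h _)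
  · have h2 : aeval y P = 0 := minpoly.aeval _ _
    rw [hmon.as_sum, map_add, map_pow, aeval_X, map_sum, ← Finset.sum_attach] at h2
    have h3 : ∀ i : {x // x ∈ Finset.range P.natDegree},
        aeval y (C (P.coeff i.1) * X ^ i.1) = (ℓ : AlgebraicClosure ℚ_[ℓ]) *
        (algebraMap ℤ_[ℓ] (AlgebraicClosure ℚ_[ℓ]) (b i.1 (Finset.mem_range.1 i.2)) *
          y ^ i.1) := by
      intro i
      rw [map_mul, map_pow, aeval_X, aeval_C, hb i.1 (Finset.mem_range.1 i.2), ← mul_assoc]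
      congr 1
      have h4 : ∀ x : ℤ_[ℓ], algebraMap ℚ_[ℓ] (AlgebraicClosure ℚ_[ℓ]) (x : ℚ_[ℓ]) =
        algebraMap ℤ_[ℓ] (AlgebraicClosure ℚ_[ℓ]) x := fun x => rfl
      rw [h4, map_mul, map_natCast]
    rw [Finset.sum_congr rfl fun i _ => h3 i, ← Finset.mul_sum] at h2
    linear_combination h2

/-- an element of norm `< 1` is divisible by `ℓ` -/
theorem div_l {f : ℕ} (hf : 0 < f) {y : AlgebraicClosure ℚ_[ℓ]} (h : y ∈ A ℓ f) (hy : ‖y‖ < 1) :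
    ∃ z ∈ A ℓ f, y = ℓ * z := by
  obtain ⟨d, z, hz, h1⟩ := pow_div h hy
  obtain ⟨w, hw, h2⟩ := frob_iter h d
  have h3 : d ≤ ℓ ^ (f * d) := by
    have h4 : d ≤ f * d := Nat.le_mul_of_pos_left d hf
    exact h4.trans (Nat.lt_pow_self hℓ.out.one_lt).le
  obtain ⟨e, he⟩ := Nat.exists_eq_add_of_le h3
  rw [he, pow_add, h1] at h2
  refine ⟨z * y ^ e - w, sub_mem (mul_mem hz (pow_mem h _)) hw, ?_⟩
  linear_combination -h2

theorem norm_A {f : ℕ} (hf : 0 < f) (n : ℕ) : ∀ y : AlgebraicClosure ℚ_[ℓ], y ∈ A ℓ f →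
    ((ℓ : ℝ) ^ n)⁻¹ < ‖y‖ → ∃ k : ℕ, ‖y‖ = ((ℓ : ℝ) ^ k)⁻¹ := by
  have hl := l1 (ℓ := ℓ)
  have hl0 : (0 : ℝ) < ℓ := by linarith
  induction n with
  | zero =>
    intro y hy h
    rw [pow_zero, inv_one] at h
    exact absurd (A_le hf hy) (not_le.2 h)
  | succ n ih =>
    intro y hy h
    rcases eq_or_lt_of_le (A_le hf hy) with h1 | h1
    · exact ⟨0, by rw [h1]; simp⟩
    · obtain ⟨z, hz, h2⟩ := div_l hf hy h1
      have h3 : ‖y‖ = (ℓ : ℝ)⁻¹ * ‖z‖ := by rw [h2, norm_mul, norm_l]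
      have h4 : ((ℓ : ℝ) ^ n)⁻¹ < ‖z‖ := by
        rw [h3, pow_succ, mul_inv, mul_comm] at h
        exact lt_of_mul_lt_mul_left h (inv_nonneg.2 hl0.le)
      obtain ⟨k, hk⟩ := ih z hz h4
      exact ⟨k + 1, by rw [h3, hk, pow_succ, mul_inv, mul_comm]⟩

theorem norm_A' {f : ℕ} (hf : 0 < f) {y : AlgebraicClosure ℚ_[ℓ]} (hy : y ∈ A ℓ f)
    (h0 : y ≠ 0) : ∃ k : ℕ, ‖y‖ = ((ℓ : ℝ) ^ k)⁻¹ := by
  have hl := l1 (ℓ := ℓ)
  have hl0 : (0 : ℝ) < ℓ := by linarith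
  obtain ⟨n, hn⟩ := exists_pow_lt_of_lt_one (norm_pos_iff.2 h0) (inv_lt_one_of_one_lt₀ hl)
  rw [inv_pow] at hn
  exact norm_A hf n y hy hn

/-- denominators -/
theorem denom {f : ℕ} {x : AlgebraicClosure ℚ_[ℓ]}
    (h : x ∈ IntermediateField.adjoin ℚ_[ℓ] (Sf ℓ f)) :
    ∃ k : ℕ, (ℓ : AlgebraicClosure ℚ_[ℓ]) ^ k * x ∈ A ℓ f := by
  have hl0 : (ℓ : ℚ_[ℓ]) ≠ 0 := by exact_mod_cast hℓ.out.ne_zero
  rw [← IntermediateField.mem_toSubalgebra,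
    IntermediateField.adjoin_toSubalgebra_of_isAlgebraic
      (fun x _ => Algebra.IsAlgebraic.isAlgebraic x)] at h
  refine Algebra.adjoin_induction
    (p := fun x _ => ∃ k : ℕ, (ℓ : AlgebraicClosure ℚ_[ℓ]) ^ k * x ∈ A ℓ f) ?_ ?_ ?_ ?_ h
  · intro x hx
    exact ⟨0, by rw [pow_zero, one_mul]; exact Algebra.subset_adjoin hx⟩
  · intro r
    obtain ⟨k, hk⟩ : ∃ k : ℕ, ‖(ℓ : ℚ_[ℓ]) ^ k * r‖ ≤ 1 := by
      by_cases hr : r = 0
      · exact ⟨0, by rw [hr]; simp⟩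
      obtain ⟨n, hn⟩ := exists_pow_lt_of_lt_one (inv_pos.2 (norm_pos_iff.2 hr))
        (inv_lt_one_of_one_lt₀ (l1 (ℓ := ℓ)))
      refine ⟨n, ?_⟩
      rw [norm_mul, norm_pow, Padic.norm_p]
      have h1 : 0 < ‖r‖ := norm_pos_iff.2 hr
      calc ((ℓ : ℝ)⁻¹) ^ n * ‖r‖ ≤ ‖r‖⁻¹ * ‖r‖ := mul_le_mul_of_nonneg_right hn.le h1.le
        _ = 1 := inv_mul_cancel₀ h1.ne'
    refine ⟨k, ?_⟩
    have h1 : (ℓ : AlgebraicClosure ℚ_[ℓ]) ^ k * algebraMap ℚ_[ℓ] (AlgebraicClosure ℚ_[ℓ]) r =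
        algebraMap ℤ_[ℓ] (AlgebraicClosure ℚ_[ℓ]) ⟨(ℓ : ℚ_[ℓ]) ^ k * r, hk⟩ := by
      have h2 : algebraMap ℤ_[ℓ] (AlgebraicClosure ℚ_[ℓ]) ⟨(ℓ : ℚ_[ℓ]) ^ k * r, hk⟩ =
        algebraMap ℚ_[ℓ] (AlgebraicClosure ℚ_[ℓ]) ((ℓ : ℚ_[ℓ]) ^ k * r) := rfl
      rw [h2, map_mul, map_pow, map_natCast]
    rw [h1]
    exact Subalgebra.algebraMap_mem _ _
  · intro x y _ _ hx hy
    obtain ⟨k, hk⟩ := hx
    obtain ⟨j, hj⟩ := hy
    refine ⟨k + j, ?_⟩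
    have h1 : (ℓ : AlgebraicClosure ℚ_[ℓ]) ^ (k + j) * (x + y) =
        (ℓ : AlgebraicClosure ℚ_[ℓ]) ^ j * ((ℓ : AlgebraicClosure ℚ_[ℓ]) ^ k * x) +
        (ℓ : AlgebraicClosure ℚ_[ℓ]) ^ k * ((ℓ : AlgebraicClosure ℚ_[ℓ]) ^ j * y) := by
      rw [pow_add]; ring
    rw [h1]
    exact add_mem (mul_mem (pow_mem (l_mem f) _) hk) (mul_mem (pow_mem (l_mem f) _) hj)
  · intro x y _ _ hx hy
    obtain ⟨k, hk⟩ := hx
    obtain ⟨j, hj⟩ := hy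
    refine ⟨k + j, ?_⟩
    have h1 : (ℓ : AlgebraicClosure ℚ_[ℓ]) ^ (k + j) * (x * y) =
        ((ℓ : AlgebraicClosure ℚ_[ℓ]) ^ k * x) * ((ℓ : AlgebraicClosure ℚ_[ℓ]) ^ j * y) := by
      rw [pow_add]; ring
    rw [h1]
    exact mul_mem hk hj

theorem unr_adjoin {f : ℕ} (hf : 0 < f) :
    Unr ℓ (IntermediateField.adjoin ℚ_[ℓ] (Sf ℓ f)) := by
  intro x hx h0
  have hl := l1 (ℓ := ℓ)
  have hl0 : (0 : ℝ) < ℓ := by linarith
  have hlc : (ℓ : AlgebraicClosure ℚ_[ℓ]) ≠ 0 := by exact_mod_cast hℓ.out.ne_zero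
  obtain ⟨k, hk⟩ := denom hx
  obtain ⟨j, hj⟩ := norm_A' hf hk (mul_ne_zero (pow_ne_zero _ hlc) h0)
  refine ⟨(k : ℤ) - j, ?_⟩
  rw [norm_mul, norm_pow, norm_l, inv_pow] at hj
  rw [zpow_sub₀ hl0.ne', zpow_natCast, zpow_natCast]
  have h1 : (ℓ : ℝ) ^ k ≠ 0 := pow_ne_zero _ hl0.ne'
  have h2 : (ℓ : ℝ) ^ j ≠ 0 := pow_ne_zero _ hl0.ne'
  field_simp at hj ⊢
  linarith

theorem Sf_mono {f g : ℕ} (h : f ∣ g) : Sf ℓ f ⊆ Sf ℓ g := by
  obtain ⟨k, rfl⟩ := h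
  intro ζ hζ
  have h1 : ζ ^ (ℓ ^ f) = ζ := hζ
  show ζ ^ (ℓ ^ (f * k)) = ζ
  induction k with
  | zero => simp
  | succ k ih => rw [mul_add, mul_one, pow_add, pow_mul, ih, h1]

theorem mem_NR_iff {x : AlgebraicClosure ℚ_[ℓ]} (hx : x ∈ NR ℓ) :
    ∃ f : ℕ, 0 < f ∧ x ∈ IntermediateField.adjoin ℚ_[ℓ] (Sf ℓ f) := by
  refine IntermediateField.adjoin_induction ℚ_[ℓ]
    (p := fun x _ => ∃ f : ℕ, 0 < f ∧ x ∈ IntermediateField.adjoin ℚ_[ℓ] (Sf ℓ f))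
    ?_ ?_ ?_ ?_ ?_ hx
  · rintro ζ ⟨n, hn, hln, h1⟩
    have hco : Nat.Coprime ℓ n := (Nat.Prime.coprime_iff_not_dvd hℓ.out).2 hln
    refine ⟨n.totient, Nat.totient_pos.2 hn, IntermediateField.subset_adjoin _ _ ?_⟩
    have h2 : ℓ ^ n.totient ≡ 1 [MOD n] := Nat.ModEq.pow_totient hco
    have h3 : 1 ≤ ℓ ^ n.totient := Nat.one_le_pow _ _ hℓ.out.pos
    obtain ⟨c, hc⟩ := (Nat.modEq_iff_dvd' h3).1 h2.symm
    show ζ ^ (ℓ ^ n.totient) = ζ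
    have h4 : ℓ ^ n.totient = n * c + 1 := by omega
    rw [h4, pow_add, pow_mul, h1, one_pow, one_mul, pow_one]
  · intro r
    exact ⟨1, one_pos, IntermediateField.algebraMap_mem _ r⟩
  · rintro x y _ _ ⟨f, hf, h1⟩ ⟨g, hg, h2⟩
    exact ⟨f * g, Nat.mul_pos hf hg, add_mem
      (IntermediateField.adjoin.mono _ _ _ (Sf_mono (Dvd.intro _ rfl)) h1)
      (IntermediateField.adjoin.mono _ _ _ (Sf_mono (Dvd.intro_left _ rfl)) h2)⟩
  · rintro x _ ⟨f, hf, h1⟩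
    exact ⟨f, hf, inv_mem h1⟩
  · rintro x y _ _ ⟨f, hf, h1⟩ ⟨g, hg, h2⟩
    exact ⟨f * g, Nat.mul_pos hf hg, mul_mem
      (IntermediateField.adjoin.mono _ _ _ (Sf_mono (Dvd.intro _ rfl)) h1)
      (IntermediateField.adjoin.mono _ _ _ (Sf_mono (Dvd.intro_left _ rfl)) h2)⟩

theorem unr_NR : Unr ℓ (NR ℓ) := by
  intro x hx h0
  obtain ⟨f, hf, h1⟩ := mem_NR_iff hx
  exact unr_adjoin hf x h1 h0

open Pool.Agent.Y255.SS in
/-- the residue field has elements fixed by a power of Frobenius -/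
theorem teich {x : AlgebraicClosure ℚ_[ℓ]} (hx : ‖x‖ ≤ 1) :
    ∃ s : ℕ, 0 < s ∧ ‖x ^ (ℓ ^ s) - x‖ < 1 := by
  classical
  let _ : Field (ℤ_[ℓ] ⧸ IsLocalRing.maximalIdeal ℤ_[ℓ]) := Ideal.Quotient.field _
  have e : (ℤ_[ℓ] ⧸ IsLocalRing.maximalIdeal ℤ_[ℓ]) ≃ ZMod ℓ :=
    (PadicInt.residueField (p := ℓ)).toEquiv
  have hfin : Finite (ℤ_[ℓ] ⧸ IsLocalRing.maximalIdeal ℤ_[ℓ]) := Finite.of_equiv _ e.symm
  have hint : Algebra.IsIntegral (ℤ_[ℓ] ⧸ IsLocalRing.maximalIdeal ℤ_[ℓ]) ((BB ℓ) ⧸ mI ℓ) :=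
    inferInstance
  set b : (BB ℓ) := ⟨x, int_of_le ℓ hx⟩ with hb
  set β : (BB ℓ) ⧸ mI ℓ := Ideal.Quotient.mk (mI ℓ) b with hβ
  have h1 : IsIntegral (ℤ_[ℓ] ⧸ IsLocalRing.maximalIdeal ℤ_[ℓ]) β := hint.isIntegral β
  have h2 := h1.fg_adjoin_singleton
  have h3 : Module.Finite (ℤ_[ℓ] ⧸ IsLocalRing.maximalIdeal ℤ_[ℓ])
    (Algebra.adjoin (ℤ_[ℓ] ⧸ IsLocalRing.maximalIdeal ℤ_[ℓ]) {β}) := by
    rw [Module.finite_def]
    exact (Submodule.fg_top _).2 h2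
  have h4 : Finite (Algebra.adjoin (ℤ_[ℓ] ⧸ IsLocalRing.maximalIdeal ℤ_[ℓ]) {β}) :=
    Module.finite_of_finite (ℤ_[ℓ] ⧸ IsLocalRing.maximalIdeal ℤ_[ℓ])
  have hβm : β ∈ Algebra.adjoin (ℤ_[ℓ] ⧸ IsLocalRing.maximalIdeal ℤ_[ℓ]) {β} :=
    Algebra.subset_adjoin rfl
  obtain ⟨i, j, hij, h5⟩ := Finite.exists_ne_map_eq_of_infinite
    (fun i : ℕ => (⟨β, hβm⟩ : Algebra.adjoin
      (ℤ_[ℓ] ⧸ IsLocalRing.maximalIdeal ℤ_[ℓ]) {β}) ^ (ℓ ^ i))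
  have h6 : β ^ (ℓ ^ i) = β ^ (ℓ ^ j) := congrArg Subtype.val h5
  have hprime : (mI ℓ).IsPrime := inferInstance
  have hnt : Nontrivial ((BB ℓ) ⧸ mI ℓ) := Ideal.Quotient.nontrivial_iff.2 hprime.ne_top
  have hchar : CharP ((BB ℓ) ⧸ mI ℓ) ℓ := by
    have h7 : ((ℓ : ℕ) : (BB ℓ) ⧸ mI ℓ) = 0 := by
      rw [← map_natCast (Ideal.Quotient.mk (mI ℓ)), Ideal.Quotient.eq_zero_iff_mem, mem_mI]
      have h8 : (((ℓ : ℕ) : BB ℓ) : AlgebraicClosure ℚ_[ℓ]) = ℓ := rfl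
      rw [h8, norm_l]
      exact inv_lt_one_of_one_lt₀ l1
    exact ringChar.of_eq (CharP.ringChar_of_prime_eq_zero hℓ.out h7)
  have h9 : ∀ i j : ℕ, i < j → β ^ (ℓ ^ i) = β ^ (ℓ ^ j) → ∃ s : ℕ, 0 < s ∧
      ‖x ^ (ℓ ^ s) - x‖ < 1 := by
    intro i j hij h
    obtain ⟨s, rfl⟩ := Nat.exists_eq_add_of_lt hij
    refine ⟨s + 1, Nat.succ_pos s, ?_⟩
    have h10 : β = β ^ (ℓ ^ (s + 1)) := by
      apply iterateFrobenius_inj ((BB ℓ) ⧸ mI ℓ) ℓ i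
      rw [iterateFrobenius_def, iterateFrobenius_def, h, ← pow_mul, ← pow_add]
      congr 2
      omega
    have h11 : b ^ (ℓ ^ (s + 1)) - b ∈ mI ℓ := by
      rw [← Ideal.Quotient.eq_zero_iff_mem, map_sub, map_pow, ← hβ, ← h10, sub_self]
    exact h11
  rcases lt_or_gt_of_ne hij with h | h
  · exact h9 i j h h6
  · exact h9 j i h h6.symm

theorem ms_one (x : AlgebraicClosure ℚ_[ℓ]) : ∀ s : Multiset (AlgebraicClosure ℚ_[ℓ]),
    (∀ r ∈ s, 1 ≤ ‖x - r‖) → 1 ≤ ‖(s.map fun r => x - r).prod‖ := by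
  intro s
  induction s using Multiset.induction_on with
  | empty => intro _; simp
  | cons a s ih =>
    intro h
    rw [Multiset.map_cons, Multiset.prod_cons, norm_mul]
    exact one_le_mul_of_one_le_of_one_le (h a (Multiset.mem_cons_self a s))
      (ih fun r hr => h r (Multiset.mem_cons_of_mem hr))

/-- Teichmüller representatives -/
theorem teich' {x : AlgebraicClosure ℚ_[ℓ]} (hx : ‖x‖ ≤ 1) :
    ∃ ζ : AlgebraicClosure ℚ_[ℓ], ζ ∈ NR ℓ ∧ ‖x - ζ‖ < 1 := by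
  obtain ⟨s, hs, h⟩ := teich hx
  have h1 : 1 < ℓ ^ s := Nat.one_lt_pow hs.ne' hℓ.out.one_lt
  set P : (AlgebraicClosure ℚ_[ℓ])[X] := X ^ (ℓ ^ s) - X with hP
  have hmon : P.Monic := by
    rw [hP]
    apply monic_X_pow_sub
    rw [degree_X]
    exact_mod_cast h1
  have hspl : P.Splits := IsAlgClosed.splits P
  have h2 : P.eval x = x ^ (ℓ ^ s) - x := by rw [hP]; simp
  by_contra hcon
  push Not at hcon
  have h3 : 1 ≤ ‖P.eval x‖ := by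
    rw [hspl.eval_eq_prod_roots_of_monic hmon]
    refine ms_one x P.roots fun r hr => hcon r ?_
    rw [mem_roots hmon.ne_zero, IsRoot, hP, eval_sub, eval_pow, eval_X, sub_eq_zero] at hr
    by_cases hr0 : r = 0
    · rw [hr0]; exact zero_mem _
    · refine IntermediateField.subset_adjoin _ _ ⟨ℓ ^ s - 1, by omega, ?_, ?_⟩
      · intro h4
        have h5 : ℓ ∣ ℓ ^ s := dvd_pow_self ℓ hs.ne'
        have h6 : ℓ ∣ 1 := by
          have h7 : ℓ ^ s = (ℓ ^ s - 1) + 1 := by omega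
          rw [h7] at h5
          exact (Nat.dvd_add_right h4).1 h5
        exact hℓ.out.one_lt.ne' (Nat.dvd_one.1 h6)
      · have h7 : ℓ ^ s = (ℓ ^ s - 1) + 1 := by omega
        rw [h7, pow_succ] at hr
        exact mul_right_cancel₀ hr0 (by rw [hr, one_mul])
  rw [h2] at h3
  exact absurd h (not_lt.2 h3)

open Pool.Agent.Y255.SS in
/-- roots of a polynomial which is separable modulo `ℓ` are not close to each other -/
theorem sep_root (F : ℤ_[ℓ][X]) (hs : (F.map (PadicInt.toZMod (p := ℓ))).Separable)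
    {x x' : AlgebraicClosure ℚ_[ℓ]} (hx : ‖x‖ ≤ 1) (hx' : ‖x'‖ ≤ 1) (h : aeval x F = 0)
    (h' : aeval x' F = 0) (hd : ‖x' - x‖ < 1) : x' = x := by
  -- lift the Bezout relation
  obtain ⟨a, b, hab⟩ := hs
  have hsur : Function.Surjective (PadicInt.toZMod : ℤ_[ℓ] →+* ZMod ℓ) :=
    ZMod.ringHom_surjective _
  obtain ⟨a', rfl⟩ := Polynomial.map_surjective _ hsur a
  obtain ⟨b', rfl⟩ := Polynomial.map_surjective _ hsur b
  rw [Polynomial.derivative_map, ← Polynomial.map_mul, ← Polynomial.map_mul,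
    ← Polynomial.map_add] at hab
  have h1 : C (ℓ : ℤ_[ℓ]) ∣ a' * F + b' * derivative F - 1 := by
    rw [Polynomial.C_dvd_iff_dvd_coeff]
    intro i
    have h2 : (a' * F + b' * derivative F - 1).coeff i ∈
        RingHom.ker (PadicInt.toZMod : ℤ_[ℓ] →+* ZMod ℓ) := by
      rw [RingHom.mem_ker, ← coeff_map, Polynomial.map_sub, hab, Polynomial.map_one, sub_self,
        coeff_zero]
    rw [PadicInt.ker_toZMod, PadicInt.maximalIdeal_eq_span_p, Ideal.mem_span_singleton] at h2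
    exact h2
  obtain ⟨c, hc⟩ := h1
  -- evaluate
  set u : BB ℓ := ⟨x, int_of_le ℓ hx⟩ with hu
  set v : BB ℓ := ⟨x', int_of_le ℓ hx'⟩ with hv
  have hval : ∀ (w : BB ℓ) (G : ℤ_[ℓ][X]), ((aeval w G : BB ℓ) : AlgebraicClosure ℚ_[ℓ]) =
      aeval (w : AlgebraicClosure ℚ_[ℓ]) G := by
    intro w G
    exact (aeval_algHom_apply (integralClosure ℤ_[ℓ] (AlgebraicClosure ℚ_[ℓ])).val w G).symm
  have hFu : aeval u F = 0 := Subtype.ext (by rw [hval]; exact h)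
  have hFv : aeval v F = 0 := Subtype.ext (by rw [hval]; exact h')
  have hlm : (algebraMap ℤ_[ℓ] (BB ℓ) (ℓ : ℤ_[ℓ])) ∈ mI ℓ := by
    rw [mem_mI, norm_alg]
    exact (PadicInt.norm_lt_one_iff_dvd _).2 dvd_rfl
  have hprime : (mI ℓ).IsPrime := inferInstance
  have h3 : aeval u (derivative F) ∉ mI ℓ := by
    intro hmem
    have h4 := congrArg (aeval u) hc
    rw [map_sub, map_add, map_mul, map_mul, map_mul, hFu, mul_zero, zero_add, aeval_C,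
      map_one] at h4
    have h5 : (1 : BB ℓ) ∈ mI ℓ := by
      have h6 : (1 : BB ℓ) = aeval u b' * aeval u (derivative F) -
        algebraMap ℤ_[ℓ] (BB ℓ) (ℓ : ℤ_[ℓ]) * aeval u c := by linear_combination -h4
      rw [h6]
      exact sub_mem (Ideal.mul_mem_left _ _ hmem) (Ideal.mul_mem_right _ _ hlm)
    exact hprime.ne_top ((Ideal.eq_top_iff_one _).2 h5)
  obtain ⟨k, hk⟩ := Polynomial.binomExpansion (F.map (algebraMap ℤ_[ℓ] (BB ℓ))) u (v - u)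
  rw [add_sub_cancel, eval_map, eval_map, ← aeval_def, ← aeval_def, hFu, hFv,
    Polynomial.derivative_map, eval_map, ← aeval_def] at hk
  have h7 : (v - u) * (aeval u (derivative F) + k * (v - u)) = 0 := by linear_combination -hk
  have hvu : v - u ∈ mI ℓ := hd
  rcases mul_eq_zero.1 h7 with h8 | h8
  · exact congrArg Subtype.val (sub_eq_zero.1 h8)
  · exfalso
    apply h3
    have h9 : aeval u (derivative F) = -(k * (v - u)) := by linear_combination h8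
    rw [h9]
    exact neg_mem (Ideal.mul_mem_left _ _ hvu)

/-- roots of a polynomial which is separable modulo `ℓ` lie in `NR` -/
theorem root_mem (F : ℤ_[ℓ][X]) (hF : F.Monic)
    (hs : (F.map (PadicInt.toZMod (p := ℓ))).Separable) {x : AlgebraicClosure ℚ_[ℓ]}
    (h : aeval x F = 0) : x ∈ NR ℓ := by
  have hx : ‖x‖ ≤ 1 := Pool.Agent.Y255.SS.le_of_int ℓ ⟨F, hF, h⟩
  obtain ⟨ζ, hζ, h1⟩ := teich' hx
  have h2 : x ∈ (⊥ : IntermediateField (NR ℓ) (AlgebraicClosure ℚ_[ℓ])) := by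
    rw [InfiniteGalois.mem_bot_iff_fixed]
    intro τ
    have hnorm : ∀ y, ‖τ y‖ = ‖y‖ := by
      intro y
      have h3 := spectralNorm_eq_of_equiv (K := ℚ_[ℓ]) (τ.restrictScalars ℚ_[ℓ]) y
      exact h3.symm
    refine sep_root F hs hx (by rw [hnorm]; exact hx) h ?_ ?_
    · have h4 : aeval (τ x) F = τ (aeval x F) :=
        aeval_algHom_apply ((τ.restrictScalars ℚ_[ℓ]).toAlgHom.restrictScalars ℤ_[ℓ]) x F
      rw [h4, h, map_zero]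
    · have h5 : τ ζ = ζ := τ.commutes ⟨ζ, hζ⟩
      have h6 : τ x - x = τ (x - ζ) + -(x - ζ) := by rw [map_sub, h5]; ring
      rw [h6]
      exact um_add (by rw [hnorm]; exact h1) (by rw [norm_neg]; exact h1)
  obtain ⟨y, hy⟩ := IntermediateField.mem_bot.1 h2
  rw [← hy]
  exact y.2

end Pool.Agent.R932.OP.Nr

namespace Pool.Agent.R932.OP

open Pool.Agent.R932.OP.Nr

theorem nr : Pool.Agent.Y142.ZD.S_NR := by
  intro ℓ hℓ
  refine ⟨unr_NR, ?_, ?_⟩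
  · intro f hf hs x hx
    refine root_mem (f.map (Int.castRingHom ℤ_[ℓ])) (hf.map _) ?_ ?_
    · rw [Polynomial.map_map, RingHom.ext_int ((PadicInt.toZMod).comp (Int.castRingHom ℤ_[ℓ]))
        (Int.castRingHom (ZMod ℓ))]
      exact hs
    · have h1 := aeval_map_algebraMap ℤ_[ℓ] x f
      rw [hx] at h1
      exact h1
  · intro e u y he hle hu hy
    set u' : ℤ_[ℓ] := ⟨u, hu.le⟩ with hu'
    refine root_mem (X ^ e - C u') (monic_X_pow_sub_C _ he.ne') ?_ ?_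
    · rw [Polynomial.map_sub, Polynomial.map_pow, map_X, map_C]
      refine separable_X_pow_sub_C _ ?_ ?_
      · rw [Ne, ZMod.natCast_eq_zero_iff]
        exact hle
      · intro h1
        have h2 : u' ∈ RingHom.ker (PadicInt.toZMod : ℤ_[ℓ] →+* ZMod ℓ) := h1
        rw [PadicInt.ker_toZMod, PadicInt.maximalIdeal_eq_span_p, Ideal.mem_span_singleton,
          ← PadicInt.norm_lt_one_iff_dvd] at h2
        have h3 : ‖u'‖ = ‖u‖ := rfl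
        rw [h3, hu] at h2
        exact lt_irrefl _ h2
    · rw [map_sub, map_pow, aeval_X, aeval_C, hy, sub_eq_zero]
      rfl

theorem unr : Pool.Agent.Y142.ZI.S_UNR := by
  intro ℓ hℓ f hf hs x hx h0
  refine (nr ℓ).1 x ?_ h0
  have h1 : IntermediateField.adjoin ℚ_[ℓ] {x : AlgebraicClosure ℚ_[ℓ] | aeval x f = 0} ≤
      NR ℓ := by
    rw [IntermediateField.adjoin_le_iff]
    intro z hz
    exact (nr ℓ).2.1 f hf hs z hz
  exact h1 hx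

end Pool.Agent.R932.OP
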