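import Pool.Agent.Y142.ZS.Stm

/-!
# S_TWIST (project OP, written by helper252)
-/

set_option autoImplicit false

open Polynomial
open Pool.Agent.Y142.ZI

namespace Pool.Agent.R932.OP

namespace Tw

variable {ℓ : ℕ} [Fact ℓ.Prime]

theorem sum_le {α : Type*} (s : Finset α) (f : α → ℚ_[ℓ]) (r : ℝ) (hr : 0 ≤ r)
    (h : ∀ i ∈ s, ‖f i‖ ≤ r) : ‖∑ i ∈ s, f i‖ ≤ r := by
  classical
  induction s using Finset.induction_on with
  | empty => simpa using hr
  | insert a s ha ih =>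
    rw [Finset.sum_insert ha]
    refine (Padic.nonarchimedean _ _).trans (max_le ?_ ?_)
    · exact h a (Finset.mem_insert_self a s)
    · exact ih (fun i hi => h i (Finset.mem_insert_of_mem hi))

/-- all coefficients have norm at most `r` -/
def B (F : ℚ_[ℓ][X]) (r : ℝ) : Prop := ∀ j, ‖F.coeff j‖ ≤ r

theorem B_add {F G : ℚ_[ℓ][X]} {r : ℝ} (hF : B F r) (hG : B G r) : B (F + G) r := by
  intro j
  rw [coeff_add]
  exact (Padic.nonarchimedean _ _).trans (max_le (hF j) (hG j))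

theorem B_mul {F G : ℚ_[ℓ][X]} {r t : ℝ} (hr : 0 ≤ r) (ht : 0 ≤ t) (hF : B F r) (hG : B G t) :
    B (F * G) (r * t) := by
  intro j
  rw [coeff_mul]
  apply sum_le _ _ _ (mul_nonneg hr ht)
  intro i _
  rw [norm_mul]
  exact mul_le_mul (hF _) (hG _) (norm_nonneg _) hr

theorem B_C {a : ℚ_[ℓ]} {r : ℝ} (hr : 0 ≤ r) (h : ‖a‖ ≤ r) : B (C a) r := by
  intro j
  rw [coeff_C]
  split
  · exact h
  · simpa using hr

theorem B_one : B (1 : ℚ_[ℓ][X]) 1 := by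
  rw [← C_1]
  exact B_C zero_le_one (by simp)

theorem B_X : B (X : ℚ_[ℓ][X]) 1 := by
  intro j
  rw [coeff_X]
  split <;> simp

theorem B_pow {G : ℚ_[ℓ][X]} (hG : B G 1) (i : ℕ) : B (G ^ i) 1 := by
  induction i with
  | zero => simpa using B_one
  | succ i ih =>
    rw [pow_succ]
    simpa using B_mul zero_le_one zero_le_one ih hG

theorem B_sum {α : Type*} (s : Finset α) (f : α → ℚ_[ℓ][X]) (r : ℝ) (hr : 0 ≤ r)
    (h : ∀ i ∈ s, B (f i) r) : B (∑ i ∈ s, f i) r := by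
  intro j
  rw [finsetSum_coeff]
  exact sum_le _ _ _ hr (fun i hi => h i hi j)

theorem B_pow_sub {G : ℚ_[ℓ][X]} {η : ℝ} (hη : 0 ≤ η) (hG : B G 1) (h : B (G - X) η) (i : ℕ) :
    B (G ^ i - X ^ i) η := by
  rw [← Commute.geom_sum₂_mul (Commute.all G X)]
  have h1 : B (∑ j ∈ Finset.range i, G ^ j * (X : ℚ_[ℓ][X]) ^ (i - 1 - j)) 1 := by
    apply B_sum _ _ _ zero_le_one
    intro j _
    simpa using B_mul zero_le_one zero_le_one (B_pow hG j) (B_pow B_X (i - 1 - j))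
  simpa using B_mul zero_le_one hη h1 h

theorem comp_sum (F G : ℚ_[ℓ][X]) :
    F.comp G = ∑ i ∈ Finset.range (F.natDegree + 1), C (F.coeff i) * G ^ i := by
  rw [Polynomial.comp, Polynomial.eval₂_eq_sum_range]

theorem B_comp {F G : ℚ_[ℓ][X]} {r : ℝ} (hr : 0 ≤ r) (hF : B F r) (hG : B G 1) :
    B (F.comp G) r := by
  rw [comp_sum]
  apply B_sum _ _ _ hr
  intro i _
  simpa using B_mul hr zero_le_one (B_C hr (hF i)) (B_pow hG i)

theorem B_comp_sub {F G : ℚ_[ℓ][X]} {r η : ℝ} (hr : 0 ≤ r) (hη : 0 ≤ η) (hF : B F r) (hG : B G 1)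
    (h : B (G - X) η) : B (F.comp G - F) (r * η) := by
  have h1 : F.comp G - F = ∑ i ∈ Finset.range (F.natDegree + 1), C (F.coeff i) * (G ^ i - X ^ i) := by
    have h2 : F.comp X = ∑ i ∈ Finset.range (F.natDegree + 1), C (F.coeff i) * X ^ i :=
      comp_sum F X
    rw [comp_X] at h2
    calc F.comp G - F = (∑ i ∈ Finset.range (F.natDegree + 1), C (F.coeff i) * G ^ i) -
        ∑ i ∈ Finset.range (F.natDegree + 1), C (F.coeff i) * X ^ i := by
          rw [← h2, ← comp_sum]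
      _ = _ := by
          rw [← Finset.sum_sub_distrib]
          exact Finset.sum_congr rfl (fun i _ => by ring)
  rw [h1]
  apply B_sum _ _ _ (mul_nonneg hr hη)
  intro i _
  exact B_mul hr hη (B_C hr (hF i)) (B_pow_sub hη hG h i)

theorem norm_two (h2 : ℓ ≠ 2) : ‖(2 : ℚ_[ℓ])‖ = 1 := by
  have h : ‖((2 : ℤ) : ℚ_[ℓ])‖ = 1 := by
    by_contra hne
    have hlt : ‖((2 : ℤ) : ℚ_[ℓ])‖ < 1 := lt_of_le_of_ne (Padic.norm_int_le_one 2) hne
    rw [Padic.norm_intCast_lt_one_iff] at hlt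
    have h3 : (ℓ : ℤ) ∣ ((2 : ℕ) : ℤ) := by exact_mod_cast hlt
    rw [Int.natCast_dvd_natCast] at h3
    exact h2 ((Nat.prime_dvd_prime_iff_eq (Fact.out) Nat.prime_two).mp h3)
  exact_mod_cast h

/-- the square root -/
theorem root (h2 : ℓ ≠ 2) (c : ℚ_[ℓ]) (hc : ‖c - 1‖ < 1) :
    ∃ s : ℚ_[ℓ], s * s = c ∧ ‖s - 1‖ = ‖c - 1‖ ∧ ‖s‖ = 1 := by
  have hc1 : ‖c‖ ≤ 1 := by
    have : c = (c - 1) + 1 := by ring
    rw [this]
    exact (Padic.nonarchimedean _ _).trans (max_le hc.le (by simp))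
  set c0 : ℤ_[ℓ] := ⟨c, hc1⟩ with hc0
  set F : ℤ_[ℓ][X] := X ^ 2 - C c0 with hF
  have hder : (Polynomial.aeval (1 : ℤ_[ℓ])) (derivative F) = 2 := by
    simp [hF]
    norm_num
  have hev : (Polynomial.aeval (1 : ℤ_[ℓ])) F = 1 - c0 := by
    simp [hF]
  have hn2 : ‖(2 : ℤ_[ℓ])‖ = 1 := by
    have := norm_two h2
    rw [PadicInt.norm_def]
    exact_mod_cast this
  have hnorm : ‖(Polynomial.aeval (1 : ℤ_[ℓ])) F‖ <
      ‖(Polynomial.aeval (1 : ℤ_[ℓ])) (derivative F)‖ ^ 2 := by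
    rw [hder, hev, hn2, one_pow, PadicInt.norm_def]
    push_cast
    rw [norm_sub_rev]
    exact hc
  obtain ⟨z, hz0, hz1, -, -⟩ := hensels_lemma hnorm
  rw [hder, hn2] at hz1
  have hz2 : z ^ 2 = c0 := by
    have : (Polynomial.aeval z) F = z ^ 2 - c0 := by simp [hF]
    rw [this] at hz0
    exact sub_eq_zero.mp hz0
  have hzc : (z : ℚ_[ℓ]) * z = c := by
    have := congrArg (fun t : ℤ_[ℓ] => (t : ℚ_[ℓ])) hz2
    simp only [hc0] at this
    rw [← this]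
    push_cast
    ring
  have hz1' : ‖(z : ℚ_[ℓ]) - 1‖ < 1 := by
    have := hz1
    rw [PadicInt.norm_def] at this
    push_cast at this
    exact this
  have hp1 : ‖(z : ℚ_[ℓ]) + 1‖ = 1 := by
    have h3 : (z : ℚ_[ℓ]) + 1 = ((z : ℚ_[ℓ]) - 1) + 2 := by ring
    rw [h3, Padic.add_eq_max_of_ne]
    · rw [norm_two h2]
      exact max_eq_right hz1'.le
    · rw [norm_two h2]
      exact hz1'.ne
  have hz : ‖(z : ℚ_[ℓ])‖ = 1 := by
    have h3 : (z : ℚ_[ℓ]) = ((z : ℚ_[ℓ]) - 1) + 1 := by ring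
    rw [h3, Padic.add_eq_max_of_ne]
    · rw [norm_one]
      exact max_eq_right hz1'.le
    · rw [norm_one]
      exact hz1'.ne
  refine ⟨z, hzc, ?_, hz⟩
  have h4 : c - 1 = ((z : ℚ_[ℓ]) - 1) * (z + 1) := by
    rw [← hzc]
    ring
  rw [h4, norm_mul, hp1, mul_one]

theorem norm_pow_sub_one {s : ℚ_[ℓ]} (hs : ‖s‖ = 1) (d : ℕ) : ‖s ^ d - 1‖ ≤ ‖s - 1‖ := by
  induction d with
  | zero => simp
  | succ d ih =>
    have h : s ^ (d + 1) - 1 = s ^ d * (s - 1) + (s ^ d - 1) := by ring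
    rw [h]
    refine (Padic.nonarchimedean _ _).trans (max_le ?_ ih)
    rw [norm_mul, norm_pow, hs, one_pow, one_mul]

theorem norm_inv_pow_sub_one {s : ℚ_[ℓ]} (hs : ‖s‖ = 1) (d : ℕ) : ‖(s⁻¹) ^ d - 1‖ ≤ ‖s - 1‖ := by
  have hs0 : s ≠ 0 := by
    intro h
    rw [h, norm_zero] at hs
    exact zero_ne_one hs
  have h1 : ‖s⁻¹‖ = 1 := by rw [norm_inv, hs, inv_one]
  refine (norm_pow_sub_one h1 d).trans ?_
  have h2 : s⁻¹ - 1 = -(s⁻¹ * (s - 1)) := by
    field_simp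
    ring
  rw [h2, norm_neg, norm_mul, h1, one_mul]

theorem bound (R : ℚ_[ℓ][X]) : ∃ M : ℝ, 1 ≤ M ∧ B R M := by
  refine ⟨1 + ∑ i ∈ Finset.range (R.natDegree + 1), ‖R.coeff i‖, ?_, ?_⟩
  · have : 0 ≤ ∑ i ∈ Finset.range (R.natDegree + 1), ‖R.coeff i‖ :=
      Finset.sum_nonneg (fun i _ => norm_nonneg _)
    linarith
  · intro j
    by_cases hj : j < R.natDegree + 1
    · have := Finset.single_le_sum (f := fun i => ‖R.coeff i‖) (fun i _ => norm_nonneg _)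
        (Finset.mem_range.mpr hj)
      linarith
    · rw [coeff_eq_zero_of_natDegree_lt (by omega), norm_zero]
      have : 0 ≤ ∑ i ∈ Finset.range (R.natDegree + 1), ‖R.coeff i‖ :=
        Finset.sum_nonneg (fun i _ => norm_nonneg _)
      linarith

end Tw

open Tw

theorem twist : Pool.Agent.Y142.ZS.S_TWIST := by
  intro ℓ _ h2 R₀ hR₀ ε hε
  obtain ⟨M, hM1, hM⟩ := bound R₀
  have hM0 : 0 < M := by linarith
  refine ⟨min 1 (ε / (2 * M)), by positivity, ?_⟩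
  set ε' : ℝ := min 1 (ε / (2 * M)) with hε'
  have hε'0 : 0 < ε' := by positivity
  have hε'1 : ε' ≤ 1 := min_le_left _ _
  have hε'M : M * ε' < ε := by
    have h1 : ε' ≤ ε / (2 * M) := min_le_right _ _
    have h3 : M * ε' ≤ M * (ε / (2 * M)) := mul_le_mul_of_nonneg_left h1 hM0.le
    have h4 : M * (ε / (2 * M)) = ε / 2 := by field_simp
    linarith
  intro k Q c hk hQm hQd hc0 hc hroots hclose
  have hℓ1 : (1 : ℝ) < ℓ := by exact_mod_cast (Fact.out : ℓ.Prime).one_lt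
  have hℓk : (1 : ℝ) < (ℓ : ℝ) ^ k := one_lt_pow₀ hℓ1 hk.ne'
  have hℓk0 : (0 : ℝ) < (ℓ : ℝ) ^ k := by positivity
  have hc1 : ‖c - 1‖ < 1 := by
    refine hc.trans ?_
    have h1 : ((ℓ : ℝ) ^ k)⁻¹ < 1 := inv_lt_one_of_one_lt₀ hℓk
    have h3 : 0 < ((ℓ : ℝ) ^ k)⁻¹ := by positivity
    nlinarith
  obtain ⟨s, hss, hs1, hs⟩ := root h2 c hc1
  have hs0 : s ≠ 0 := by
    intro h
    rw [h, norm_zero] at hs
    exact zero_ne_one hs
  set d := R₀.natDegree with hd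
  have hQcd : (Q.comp (C s * X)).natDegree = d := by
    rw [natDegree_comp, natDegree_C_mul_X s hs0, mul_one, hQd]
  have hQcl : (Q.comp (C s * X)).leadingCoeff = s ^ d := by
    rw [leadingCoeff_comp (by rw [natDegree_C_mul_X s hs0]; norm_num), hQm.leadingCoeff, one_mul,
      hQd]
    simp
  have hsd : (s⁻¹) ^ d ≠ 0 := pow_ne_zero _ (inv_ne_zero hs0)
  set Q' : ℚ_[ℓ][X] := C ((s⁻¹) ^ d) * Q.comp (C s * X) with hQ'
  have hQ'd : Q'.natDegree = d := by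
    rw [hQ', natDegree_C_mul hsd, hQcd]
  have hQ'm : Q'.Monic := by
    unfold Monic
    rw [hQ', leadingCoeff_mul, leadingCoeff_C, hQcl, ← mul_pow, inv_mul_cancel₀ hs0, one_pow]
  have hev : ∀ x : AlgebraicClosure ℚ_[ℓ], aeval x Q' = 0 ↔
      aeval (algebraMap ℚ_[ℓ] (AlgebraicClosure ℚ_[ℓ]) s * x) Q = 0 := by
    intro x
    rw [hQ', map_mul, aeval_C, aeval_comp]
    simp only [map_mul, aeval_C, aeval_X]
    rw [mul_eq_zero, or_iff_right]
    intro h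
    rw [map_eq_zero] at h
    exact hsd h
  refine ⟨s, Q', hss, hQ'm, hQ'd, ?_, ?_, hev⟩
  · intro x hx
    obtain ⟨h3, h4⟩ := hroots _ ((hev x).mp hx)
    have hx0 : x ≠ 0 := right_ne_zero_of_mul h3
    refine ⟨hx0, (hev x⁻¹).mpr ?_⟩
    have hsA : algebraMap ℚ_[ℓ] (AlgebraicClosure ℚ_[ℓ]) s ≠ 0 := by
      rw [Ne, map_eq_zero]
      exact hs0
    have h5 : algebraMap ℚ_[ℓ] (AlgebraicClosure ℚ_[ℓ]) c /
        (algebraMap ℚ_[ℓ] (AlgebraicClosure ℚ_[ℓ]) s * x) =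
        algebraMap ℚ_[ℓ] (AlgebraicClosure ℚ_[ℓ]) s * x⁻¹ := by
      rw [← hss, map_mul]
      field_simp
    rw [h5] at h4
    exact h4
  · -- closeness
    set P := resc ℓ k Q with hP
    have hℓk' : ((ℓ : ℚ_[ℓ]) ^ k) ≠ 0 := pow_ne_zero _ (by
      exact_mod_cast (Fact.out : ℓ.Prime).ne_zero)
    set δ : ℚ_[ℓ] := (s - 1) * ((ℓ : ℚ_[ℓ]) ^ k)⁻¹ with hδ
    set G : ℚ_[ℓ][X] := C δ + C s * X with hG
    have hresc : resc ℓ k Q' = C ((s⁻¹) ^ d) * P.comp G := by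
      rw [hP]
      unfold resc
      rw [hQ'd, hQd, hQ', mul_comp, C_comp, mul_comp, C_comp, comp_assoc, comp_assoc]
      have h6 : (C s * X : ℚ_[ℓ][X]).comp (1 + C ((ℓ : ℚ_[ℓ]) ^ k) * X) =
          (1 + C ((ℓ : ℚ_[ℓ]) ^ k) * X : ℚ_[ℓ][X]).comp G := by
        rw [hG]
        simp only [mul_comp, C_comp, X_comp, add_comp, one_comp]
        have h7 : C ((ℓ : ℚ_[ℓ]) ^ k) * C δ = C s - 1 := by
          rw [← C_mul, hδ, ← C_1, ← C_sub]
          congr 1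
          field_simp
        rw [mul_add (C ((ℓ : ℚ_[ℓ]) ^ k)), h7]
        ring
      rw [h6]
      ring
    have hδn : ‖δ‖ ≤ ε' := by
      rw [hδ, norm_mul, hs1, norm_inv, norm_pow, Padic.norm_p, inv_pow, inv_inv]
      have h8 : ‖c - 1‖ * (ℓ : ℝ) ^ k < ε' * ((ℓ : ℝ) ^ k)⁻¹ * (ℓ : ℝ) ^ k :=
        mul_lt_mul_of_pos_right hc hℓk0
      rw [mul_assoc, inv_mul_cancel₀ hℓk0.ne', mul_one] at h8
      exact h8.le
    have hs1n : ‖s - 1‖ ≤ ε' := by
      rw [hs1]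
      refine hc.le.trans ?_
      have h1 : ((ℓ : ℝ) ^ k)⁻¹ ≤ 1 := (inv_lt_one_of_one_lt₀ hℓk).le
      nlinarith
    have hPM : B P M := by
      intro j
      have h9 : P.coeff j = (P - R₀).coeff j + R₀.coeff j := by
        rw [coeff_sub]
        ring
      rw [h9]
      refine (Padic.nonarchimedean _ _).trans (max_le ?_ (hM j))
      exact (hclose j).le.trans (hε'1.trans hM1)
    have hGX : B (G - X) ε' := by
      have h10 : G - X = C δ + C (s - 1) * X := by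
        rw [hG, C_sub, C_1]
        ring
      rw [h10]
      refine B_add (B_C hε'0.le hδn) ?_
      simpa using B_mul hε'0.le zero_le_one (B_C hε'0.le hs1n) B_X
    have hG1 : B G 1 := by
      rw [hG]
      refine B_add (B_C zero_le_one (hδn.trans hε'1)) ?_
      simpa using B_mul zero_le_one zero_le_one (B_C zero_le_one hs.le) B_X
    have e1 : B (P.comp G - P) (M * ε') := B_comp_sub hM0.le hε'0.le hPM hG1 hGX
    have e2 : B (C ((s⁻¹) ^ d - 1) * P.comp G) (ε' * M) :=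
      B_mul hε'0.le hM0.le (B_C hε'0.le ((norm_inv_pow_sub_one hs d).trans hs1n))
        (B_comp hM0.le hPM hG1)
    intro j
    have h11 : resc ℓ k Q' - R₀ = (C ((s⁻¹) ^ d - 1) * P.comp G) + ((P.comp G - P) + (P - R₀)) := by
      rw [hresc, C_sub, C_1]
      ring
    rw [h11, coeff_add]
    refine lt_of_le_of_lt (Padic.nonarchimedean _ _) (max_lt ?_ ?_)
    · refine lt_of_le_of_lt (e2 j) ?_
      rw [mul_comm]
      exact hε'M
    · rw [coeff_add]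
      refine lt_of_le_of_lt (Padic.nonarchimedean _ _) (max_lt ?_ ?_)
      · exact lt_of_le_of_lt (e1 j) hε'M
      · refine (hclose j).trans_le ?_
        have : ε' ≤ M * ε' := by nlinarith
        linarith

end Pool.Agent.R932.OP
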