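import Pool.Agent.R810.OP.Kr

set_option autoImplicit false

/-! Project OP, task TYPC: local type full cycle (helper810 for helper932). -/

open Polynomial Filter Topology
open Pool.Agent.Y142.ZI Pool.Agent.Y142.ZD
open Pool.Agent.Y331.ZD (um_add um_sub exists_mu root_aut)
open Pool.Agent.R810.OP

namespace Pool.Agent.R932.OP

theorem typc : Pool.Agent.Y142.ZI.S_TYPC := by
  classical
  intro ℓ hℓ hℓ2 n c hn h2n hc
  set L := AlgebraicClosure ℚ_[ℓ] with hL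
  set i : ℚ_[ℓ] →+* L := algebraMap ℚ_[ℓ] L with hi
  have hℓ1 : (1 : ℝ) < ℓ := by exact_mod_cast hℓ.out.one_lt
  have hinv0 : 0 < (ℓ : ℝ)⁻¹ := by positivity
  have hinv1 : (ℓ : ℝ)⁻¹ < 1 := inv_lt_one_of_one_lt₀ hℓ1
  set m : ℕ := 2 * n with hmdef
  have hm : 0 < m := by omega
  have hc0 : c ≠ 0 := by
    rintro rfl
    rw [norm_zero] at hc
    linarith
  have hm0 : ((m : ℕ) : ℚ_[ℓ]) ≠ 0 := by
    intro h
    rw [h, norm_zero] at h2n
    exact zero_ne_one h2n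
  have hR₀ : (X ^ m - C c : ℚ_[ℓ][X]).Monic := monic_X_pow_sub_C _ hm.ne'
  have hsep : (X ^ m - C c : ℚ_[ℓ][X]).Separable := separable_X_pow_sub_C c hm0 hc0
  have hroot : ∀ s : L, aeval s (X ^ m - C c : ℚ_[ℓ][X]) = 0 ↔ s ^ m = i c := by
    intro s
    rw [map_sub, map_pow, aeval_X, aeval_C, sub_eq_zero]
  have hnm : ∀ s : L, s ^ m = i c → ‖s‖ ^ m = (ℓ : ℝ)⁻¹ := by
    intro s hs
    rw [← norm_pow, hs, hi, Pool.Agent.Y331.ZD.norm_map, hc]
  have hle1 : ∀ s : L, s ^ m = i c → ‖s‖ ≤ 1 := by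
    intro s hs
    by_contra hcon
    push Not at hcon
    have h1 := hnm s hs
    have h2 : (1 : ℝ) ≤ ‖s‖ ^ m := one_le_pow₀ hcon.le
    linarith
  have hpos : ∀ s : L, s ^ m = i c → 0 < ‖s‖ := by
    intro s hs
    rcases (norm_nonneg s).eq_or_lt with h | h
    · exfalso
      have h1 := hnm s hs
      rw [← h, zero_pow hm.ne'] at h1
      linarith
    · exact h
  have hfin : ({s : L | s ^ m = i c}).Finite := by
    have h1 := Multiset.finite_toSet ((X ^ m - C c : ℚ_[ℓ][X]).map i).roots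
    refine h1.subset fun s hs => ?_
    have h2 : aeval s (X ^ m - C c : ℚ_[ℓ][X]) = 0 := (hroot s).2 hs
    show s ∈ ((X ^ m - C c : ℚ_[ℓ][X]).map i).roots
    rw [mem_roots (hR₀.map i).ne_zero, IsRoot, eval_map, ← aeval_def]
    exact h2
  have : Finite {s : L // s ^ m = i c} := hfin
  obtain ⟨μ1, hμ10, -, hμ1⟩ := exists_mu
    (fun q : {s : L // s ^ m = i c} × {s : L // s ^ m = i c} => ‖(q.1 : L) - q.2‖)
    (fun q => (q.1 : L) - q.2 ≠ 0) (fun q hq => norm_pos_iff.mpr hq)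
  obtain ⟨μ2, hμ20, -, hμ2⟩ := exists_mu
    (fun q : {s : L // s ^ m = i c} => ‖(q : L)‖) (fun _ => True)
    (fun q _ => hpos q q.2)
  set μ : ℝ := min μ1 μ2 with hμdef
  have hμ0 : 0 < μ := lt_min hμ10 hμ20
  obtain ⟨ε, hε, hmain⟩ := core hR₀ hsep (fun s hs => hle1 s ((hroot s).1 hs)) hμ0
    (fun s t hs ht hst => (min_le_left _ _).trans
      (hμ1 (⟨s, (hroot s).1 hs⟩, ⟨t, (hroot t).1 ht⟩) (sub_ne_zero.2 hst)))
  refine ⟨ε, hε, ?_⟩
  intro k Q hk hQ hQdeg hQinv hcl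
  obtain ⟨hQsep, r, hr1, hr2, hr3, hr4, hr5⟩ := hmain k Q hQ
    (by rw [hQdeg, natDegree_X_pow_sub_C]) hcl
  set la : L := i ((ℓ : ℚ_[ℓ]) ^ k) with hla
  have hlan : ‖la‖ ≤ (ℓ : ℝ)⁻¹ := by
    rw [hla, hi, Pool.Agent.Y331.ZD.norm_map, norm_pow, Padic.norm_p]
    calc ((ℓ : ℝ)⁻¹) ^ k ≤ ((ℓ : ℝ)⁻¹) ^ 1 := pow_le_pow_of_le_one hinv0.le hinv1.le hk
      _ = _ := pow_one _
  have hla0 : la ≠ 0 := (_root_.map_ne_zero _).2 (ell_pow_ne k)
  have hrn : ∀ s, s ^ m = i c → ‖r s‖ = ‖s‖ := by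
    intro s hs
    have h1 : r s = (r s - s) + s := by ring
    have h2 : ‖r s - s‖ < ‖s‖ := (hr1 s ((hroot s).2 hs)).trans_le
      ((min_le_right _ _).trans (hμ2 ⟨s, hs⟩ trivial))
    rw [h1, IsUltrametricDist.norm_add_eq_max_of_norm_ne_norm h2.ne, max_eq_right h2.le]
  have hx1 : ∀ x : L, aeval x Q = 0 → ‖x - 1‖ ≤ (ℓ : ℝ)⁻¹ := by
    intro x hx
    obtain ⟨s, hs, rfl⟩ := hr4 x hx
    rw [add_sub_cancel_left, norm_mul]
    calc ‖la‖ * ‖r s‖ ≤ (ℓ : ℝ)⁻¹ * 1 := by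
          refine mul_le_mul hlan ?_ (norm_nonneg _) hinv0.le
          rw [hrn s ((hroot s).1 hs)]
          exact hle1 s ((hroot s).1 hs)
      _ = _ := mul_one _
  have hev : ∀ a : ℚ_[ℓ], Q.eval a = 0 → aeval (i a) Q = 0 := by
    intro a ha
    rw [hi, aeval_algebraMap_apply, coe_aeval_eq_eval, ha, map_zero]
  refine ⟨hQsep, ?_, ?_, ?_, ?_⟩
  · -- `1` is not a root
    intro h1
    have h2 := hev 1 h1
    rw [map_one] at h2
    obtain ⟨s, hs, h3⟩ := hr4 1 h2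
    have h4 : la * r s = 0 := by linear_combination -h3
    have h5 : r s = 0 := (mul_eq_zero.1 h4).resolve_left hla0
    have h6 := hrn s ((hroot s).1 hs)
    rw [h5, norm_zero] at h6
    exact (hpos s ((hroot s).1 hs)).ne h6
  · -- `-1` is not a root
    intro h1
    have h2 := hev (-1) h1
    have h3 := hx1 _ h2
    have h4 : i (-1) - 1 = i (-2) := by
      rw [← map_one i, ← map_sub]
      norm_num
    rw [h4, hi, Pool.Agent.Y331.ZD.norm_map, norm_neg] at h3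
    have h5 : ‖(2 : ℚ_[ℓ])‖ = 1 := by
      have h6 : ‖((2 : ℕ) : ℚ_[ℓ])‖ = 1 := by
        rw [Padic.norm_natCast_eq_one_iff]
        exact ((Nat.coprime_primes hℓ.out Nat.prime_two).2 hℓ2)
      exact_mod_cast h6
    rw [h5] at h3
    linarith
  · -- powers
    intro j x y hj hx hy hxy
    have hz : ∀ z : L, aeval z ((X - 1) * Q) = 0 → ‖z - 1‖ ≤ (ℓ : ℝ)⁻¹ := by
      intro z hz
      rw [map_mul, mul_eq_zero] at hz
      rcases hz with hz | hz
      · rw [map_sub, aeval_X, map_one] at hz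
        rw [hz, norm_zero]
        exact hinv0.le
      · exact hx1 z hz
    exact Pool.Agent.Y547.ZI.t1 ℓ hℓ2 x y j hj (hz x hx) (hz y hy) hxy
  · -- the full cycle
    intro F hF hζF
    have hm0' : ((m : ℕ) : L) ≠ 0 := by
      have h1 : ((m : ℕ) : L) = i m := by rw [map_natCast]
      rw [h1]
      exact (_root_.map_ne_zero _).2 hm0
    have : NeZero ((m : ℕ) : L) := ⟨hm0'⟩
    have : NeZero m := ⟨hm.ne'⟩
    obtain ⟨ζ, hζ⟩ := HasEnoughRootsOfUnity.exists_primitiveRoot L m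
    obtain ⟨s₁, hs₁⟩ := IsAlgClosed.exists_pow_nat_eq (i c) hm
    have hs1 : (s₁ - i 0) ^ m = i c := by rw [map_zero, sub_zero, hs₁]
    have hs2 : (ζ * s₁ - i 0) ^ m = i c := by
      rw [map_zero, sub_zero, mul_pow, hζ.pow_eq_one, one_mul, hs₁]
    obtain ⟨τ, hτ⟩ := pure_conj hm hc F hF hs1 hs2
    refine ⟨τ, ?_⟩
    have hτζ : τ ζ = ζ := by
      have h1 : ζ ∈ F := hζF ζ hζ.pow_eq_one
      have h2 : ζ = algebraMap F L ⟨ζ, h1⟩ := rfl
      rw [h2, τ.commutes]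
    have hτi : ∀ e : ℕ, (τ ^ e) s₁ = ζ ^ e * s₁ ∧ (τ ^ e) ζ = ζ := by
      intro e
      induction e with
      | zero => simp
      | succ e ih =>
        rw [pow_succ]
        constructor
        · show (τ ^ e) (τ s₁) = _
          rw [hτ, map_mul, ih.1, ih.2, pow_succ]
          ring
        · show (τ ^ e) (τ ζ) = _
          rw [hτζ, ih.2]
    have hall : ∀ s : L, s ^ m = i c → ∃ a < m, s = ζ ^ a * s₁ := by
      intro s hs
      have h1 : s₁ ≠ 0 := by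
        rintro rfl
        rw [zero_pow hm.ne'] at hs₁
        exact hc0 ((_root_.map_eq_zero i).1 hs₁.symm)
      have h2 : (s / s₁) ^ m = 1 := by
        rw [div_pow, hs, hs₁, div_self]
        exact (_root_.map_ne_zero _).2 hc0
      obtain ⟨a, ha, h3⟩ := hζ.eq_pow_of_pow_eq_one h2
      refine ⟨a, ha, ?_⟩
      rw [h3, div_mul_cancel₀ _ h1]
    intro x y hx hy
    obtain ⟨s, hs, rfl⟩ := hr4 x hx
    obtain ⟨t, ht, rfl⟩ := hr4 y hy
    obtain ⟨a, ha, hsa⟩ := hall s ((hroot s).1 hs)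
    obtain ⟨b, hb, htb⟩ := hall t ((hroot t).1 ht)
    refine ⟨b + (m - a), ?_⟩
    obtain ⟨σ, hσ⟩ := core_F (τ ^ (b + (m - a)))
    rw [← hσ, la_fix, ← hr5 σ s hs]
    congr 2
    have h1 : σ s = t := by
      rw [hσ, hsa, htb, map_mul, map_pow, (hτi _).1, (hτi _).2, ← mul_assoc, ← pow_add]
      have h2 : a + (b + (m - a)) = b + m := by omega
      rw [h2, pow_add, hζ.pow_eq_one, mul_one]
    rw [h1]

end Pool.Agent.R932.OP
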