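import Mathlib

set_option autoImplicit false

/-! Project OP (helper932), task TYPCU: finite fields (helper746). -/

open Polynomial

namespace Pool.Agent.R932.OP.CU

/-- the roots of an irreducible polynomial over the prime field are conjugate under Frobenius -/
theorem conj_pow (ℓ : ℕ) [hℓ : Fact ℓ.Prime] {M : Type} [Field M] [CharP M ℓ] (g : (ZMod ℓ)[X])
    (hg : Irreducible g) (a b : M) (ha : g.eval₂ (ZMod.castHom dvd_rfl M) a = 0)
    (hb : g.eval₂ (ZMod.castHom dvd_rfl M) b = 0) : ∃ j : ℕ, b = a ^ (ℓ ^ j) := by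
  let _ : Algebra (ZMod ℓ) M := ZMod.algebra M ℓ
  have hf : algebraMap (ZMod ℓ) M = ZMod.castHom dvd_rfl M := Subsingleton.elim _ _
  have ha' : aeval a g = 0 := by rw [aeval_def, hf]; exact ha
  have hb' : aeval b g = 0 := by rw [aeval_def, hf]; exact hb
  have hg0 : g ≠ 0 := hg.ne_zero
  have hia : IsIntegral (ZMod ℓ) a := IsAlgebraic.isIntegral ⟨g, hg0, ha'⟩
  have hib : IsIntegral (ZMod ℓ) b := IsAlgebraic.isIntegral ⟨g, hg0, hb'⟩
  have hfd : FiniteDimensional (ZMod ℓ) (IntermediateField.adjoin (ZMod ℓ) ({a, b} : Set M)) :=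
    IntermediateField.finiteDimensional_adjoin_pair hia hib
  set E := IntermediateField.adjoin (ZMod ℓ) ({a, b} : Set M) with hE
  have hfin : Finite E := Module.finite_of_finite (ZMod ℓ)
  have haE : a ∈ E := IntermediateField.subset_adjoin _ _ (by simp)
  have hbE : b ∈ E := IntermediateField.subset_adjoin _ _ (by simp)
  have hconj : IsConjRoot (ZMod ℓ) (⟨b, hbE⟩ : E) ⟨a, haE⟩ := by
    rw [isConjRoot_def]
    have h1 : aeval (⟨a, haE⟩ : E) g = 0 := by
      apply Subtype.ext
      exact (IntermediateField.aeval_coe E (⟨a, haE⟩ : E) g).symm.trans ha'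
    have h2 : aeval (⟨b, hbE⟩ : E) g = 0 := by
      apply Subtype.ext
      exact (IntermediateField.aeval_coe E (⟨b, hbE⟩ : E) g).symm.trans hb'
    rw [← minpoly.eq_of_irreducible hg h1, ← minpoly.eq_of_irreducible hg h2]
  obtain ⟨σ, hσ⟩ := isConjRoot_iff_exists_algEquiv.1 hconj
  obtain ⟨i, hi⟩ := (FiniteField.bijective_frobeniusAlgEquivOfAlgebraic_pow (ZMod ℓ) E).2 σ
  refine ⟨i.1, ?_⟩
  have h3 : σ (⟨a, haE⟩ : E) = (⟨a, haE⟩ : E) ^ (ℓ ^ i.1) := by
    rw [← hi]
    show (FiniteField.frobeniusAlgEquivOfAlgebraic (ZMod ℓ) E ^ i.1) (⟨a, haE⟩ : E) = _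
    rw [AlgEquiv.coe_pow, FiniteField.coe_frobeniusAlgEquivOfAlgebraic_iterate, ZMod.card]
  rw [hσ] at h3
  have h4 := congrArg (Subtype.val) h3
  simpa using h4

/-- an irreducible polynomial of degree `n` whose roots are primitive elements -/
theorem exists_prim (ℓ : ℕ) [hℓ : Fact ℓ.Prime] (hℓ2 : ℓ ≠ 2) (n : ℕ) (hn : 0 < n) :
    ∃ g : (ZMod ℓ)[X], g.Monic ∧ g.natDegree = n ∧ Irreducible g ∧
      g ∣ X ^ ((ℓ ^ n - 1) / 2) + 1 := by
  classical
  have hn0 : n ≠ 0 := hn.ne'
  have : Fintype (GaloisField ℓ n) := Fintype.ofFinite _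
  obtain ⟨θ, hθ⟩ := IsCyclic.exists_generator (α := (GaloisField ℓ n)ˣ)
  have hcard : Fintype.card (GaloisField ℓ n) = ℓ ^ n := by
    rw [← Nat.card_eq_fintype_card, GaloisField.card ℓ n hn0]
  have hord : orderOf θ = ℓ ^ n - 1 := by
    rw [orderOf_eq_card_of_forall_mem_zpowers hθ, Nat.card_eq_fintype_card, Fintype.card_units, hcard]
  have hodd : Odd (ℓ ^ n) := (hℓ.out.odd_of_ne_two hℓ2).pow
  have hgt : 1 < ℓ ^ n := Nat.one_lt_pow hn0 hℓ.out.one_lt
  obtain ⟨t, ht⟩ := hodd
  have ht0 : 0 < t := by omega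
  have hhalf : (ℓ ^ n - 1) / 2 = t := by omega
  set x : GaloisField ℓ n := (θ : GaloisField ℓ n) with hx
  have hint : IsIntegral (ZMod ℓ) x := Algebra.IsIntegral.isIntegral x
  have htop : IntermediateField.adjoin (ZMod ℓ) {x} = ⊤ := by
    rw [eq_top_iff]
    intro y _
    by_cases hy : y = 0
    · rw [hy]; exact zero_mem _
    · obtain ⟨k, hk⟩ := hθ (Units.mk0 y hy)
      have h1 : y = x ^ k := by
        have := congrArg (Units.val) hk
        simpa using this.symm
      rw [h1]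
      exact zpow_mem (IntermediateField.mem_adjoin_simple_self _ _) k
  have hpow : x ^ t = -1 := by
    have h1 : (x ^ t) ^ 2 = 1 := by
      rw [← pow_mul, show t * 2 = ℓ ^ n - 1 by omega, ← hord, hx, ← Units.val_pow_eq_pow_val,
        pow_orderOf_eq_one, Units.val_one]
    rcases sq_eq_one_iff_of_side h1 with h | h
    · exfalso
      have h2 : θ ^ t = 1 := by
        apply Units.ext
        rw [Units.val_pow_eq_pow_val, Units.val_one]
        exact h
      have h3 := orderOf_dvd_of_pow_eq_one h2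
      rw [hord] at h3
      have := Nat.le_of_dvd ht0 h3
      omega
    · exact h
  refine ⟨minpoly (ZMod ℓ) x, minpoly.monic hint, ?_, minpoly.irreducible hint, ?_⟩
  · rw [← IntermediateField.adjoin.finrank hint, htop, IntermediateField.finrank_top',
      GaloisField.finrank ℓ hn0]
  · apply minpoly.dvd
    rw [hhalf, map_add, map_pow, aeval_X, map_one, hpow]
    ring
where
  sq_eq_one_iff_of_side {K : Type} [Field K] {a : K} (h : a ^ 2 = 1) : a = 1 ∨ a = -1 := by
    have h1 : (a - 1) * (a + 1) = 0 := by linear_combination h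
    rcases mul_eq_zero.1 h1 with h2 | h2
    · left; exact sub_eq_zero.1 h2
    · right; exact eq_neg_of_add_eq_zero_left h2

end Pool.Agent.R932.OP.CU
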