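import Pool.Agent.R932.OP.TypCUa
import Pool.Agent.R932.OP.TypCUb

set_option autoImplicit false

/-! Project OP (helper932), task TYPCU (helper746). -/

open Polynomial
open Pool.Agent.Y142.ZI Pool.Agent.Y142.ZD
open Pool.Agent.Y331.ZD (root_aut)
open Pool.Agent.Y255.SS (BB mI int_of_le le_of_int mem_mI)

namespace Pool.Agent.R932.OP.CU

variable (ℓ : ℕ) [hℓ : Fact ℓ.Prime]

/-- the residue field -/
theorem exists_res : ∃ (M : Type) (_ : Field M) (_ : CharP M ℓ) (π : BB ℓ →+* M),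
    ∀ x : BB ℓ, π x = 0 ↔ ‖(x : AlgebraicClosure ℚ_[ℓ])‖ < 1 := by
  have hdom : IsDomain (BB ℓ ⧸ mI ℓ) := inferInstance
  set M := FractionRing (BB ℓ ⧸ mI ℓ) with hM
  set π : BB ℓ →+* M := (algebraMap (BB ℓ ⧸ mI ℓ) M).comp (Ideal.Quotient.mk (mI ℓ)) with hπ
  have hinj : Function.Injective (algebraMap (BB ℓ ⧸ mI ℓ) M) := IsFractionRing.injective _ _
  have hker : ∀ x : BB ℓ, π x = 0 ↔ ‖(x : AlgebraicClosure ℚ_[ℓ])‖ < 1 := by
    intro x
    rw [hπ, RingHom.comp_apply, map_eq_zero_iff _ hinj, Ideal.Quotient.eq_zero_iff_mem, mem_mI]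
  refine ⟨M, inferInstance, ?_, π, hker⟩
  rw [CharP.charP_iff_prime_eq_zero hℓ.out]
  have h1 : ((ℓ : ℕ) : M) = π ((ℓ : ℕ) : BB ℓ) := by rw [map_natCast]
  rw [h1, hker]
  have h2 : (((ℓ : ℕ) : BB ℓ) : AlgebraicClosure ℚ_[ℓ]) =
      algebraMap ℚ_[ℓ] (AlgebraicClosure ℚ_[ℓ]) ((ℓ : ℕ) : ℚ_[ℓ]) := by
    rw [map_natCast]
    rfl
  rw [h2, Pool.Agent.Y331.ZD.norm_map]
  exact Padic.norm_p_lt_one

variable {ℓ}

/-- reduction of the value of an integral polynomial -/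
theorem red_eval {M : Type} [Field M] [CharP M ℓ] (π : BB ℓ →+* M) (P : ℤ[X]) (x : BB ℓ) :
    π (P.eval₂ (Int.castRingHom (BB ℓ)) x) =
      (P.map (Int.castRingHom (ZMod ℓ))).eval₂ (ZMod.castHom dvd_rfl M) (π x) := by
  rw [hom_eval₂, eval₂_map]
  congr 1
  exact RingHom.ext_int _ _

theorem aeval_BB (P : ℤ[X]) (x : BB ℓ) :
    aeval (x : AlgebraicClosure ℚ_[ℓ]) (P.map (Int.castRingHom ℚ_[ℓ])) =
      ((P.eval₂ (Int.castRingHom (BB ℓ)) x : BB ℓ) : AlgebraicClosure ℚ_[ℓ]) := by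
  have h1 : ((P.eval₂ (Int.castRingHom (BB ℓ)) x : BB ℓ) : AlgebraicClosure ℚ_[ℓ]) =
      algebraMap (BB ℓ) (AlgebraicClosure ℚ_[ℓ]) (P.eval₂ (Int.castRingHom (BB ℓ)) x) := rfl
  rw [h1, hom_eval₂, aeval_def, eval₂_map]
  congr 1

theorem root_int {P : ℤ[X]} (hP : P.Monic) {x : AlgebraicClosure ℚ_[ℓ]}
    (hx : aeval x (P.map (Int.castRingHom ℚ_[ℓ])) = 0) : IsIntegral ℤ_[ℓ] x := by
  refine ⟨P.map (Int.castRingHom ℤ_[ℓ]), hP.map _, ?_⟩
  rw [eval₂_map]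
  rw [aeval_def, eval₂_map] at hx
  rw [← hx]
  congr 1

section core

variable {M : Type} [Field M] [CharP M ℓ] {π : BB ℓ →+* M}
  {P : ℤ[X]}

theorem not_both (hsep : (P.map (Int.castRingHom (ZMod ℓ))).Separable) (x : BB ℓ)
    (h1 : π (P.eval₂ (Int.castRingHom (BB ℓ)) x) = 0)
    (h2 : π (P.derivative.eval₂ (Int.castRingHom (BB ℓ)) x) = 0) : False := by
  rw [red_eval] at h1 h2
  obtain ⟨a, b, hab⟩ := hsep
  have h3 := congrArg (fun q => q.eval₂ (ZMod.castHom (dvd_rfl : ℓ ∣ ℓ) M) (π x)) hab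
  simp only [eval₂_add, eval₂_mul, eval₂_one] at h3
  rw [derivative_map, h1, h2, mul_zero, mul_zero, add_zero] at h3
  exact zero_ne_one h3

/-- roots with the same reduction are equal -/
theorem root_unique (hsep : (P.map (Int.castRingHom (ZMod ℓ))).Separable) (r s : BB ℓ)
    (hr : P.eval₂ (Int.castRingHom (BB ℓ)) r = 0) (hs : P.eval₂ (Int.castRingHom (BB ℓ)) s = 0)
    (hπ : π r = π s) : r = s := by
  by_contra hne
  have h1 : (P.map (Int.castRingHom (BB ℓ))).IsRoot r := by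
    rw [IsRoot, eval_map]; exact hr
  obtain ⟨P₁, hP₁⟩ := dvd_iff_isRoot.2 h1
  have h2 : (s - r) * P₁.eval s = 0 := by
    have h3 : (P.map (Int.castRingHom (BB ℓ))).eval s = 0 := by rw [eval_map]; exact hs
    rw [hP₁, eval_mul, eval_sub, eval_X, eval_C] at h3
    exact h3
  have h3 : P₁.eval s = 0 := (mul_eq_zero.1 h2).resolve_left (sub_ne_zero.2 (Ne.symm hne))
  have h4 : P.derivative.eval₂ (Int.castRingHom (BB ℓ)) s = (s - r) * P₁.derivative.eval s := by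
    rw [← eval_map, ← derivative_map, hP₁, derivative_mul, eval_add, eval_mul, eval_mul, h3,
      mul_zero, zero_add, eval_sub, eval_X, eval_C]
  refine not_both (π := π) hsep s ?_ ?_
  · rw [hs, map_zero]
  · rw [h4, map_mul, map_sub, hπ, sub_self, zero_mul]

theorem sep_lift (hP : P.Monic) (π : BB ℓ →+* M)
    (hsep : (P.map (Int.castRingHom (ZMod ℓ))).Separable) :
    (P.map (Int.castRingHom ℚ_[ℓ])).Separable := by
  show IsCoprime _ _
  refine (Polynomial.isCoprime_iff_aeval_ne_zero_of_isAlgClosed _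
    (AlgebraicClosure ℚ_[ℓ]) _ _).2 fun a => ?_
  by_contra hcon
  push Not at hcon
  obtain ⟨h1, h2⟩ := hcon
  set x : BB ℓ := ⟨a, root_int hP h1⟩ with hx
  have h3 : P.eval₂ (Int.castRingHom (BB ℓ)) x = 0 := by
    apply Subtype.ext
    rw [← aeval_BB]
    exact h1
  have h4 : P.derivative.eval₂ (Int.castRingHom (BB ℓ)) x = 0 := by
    apply Subtype.ext
    rw [← aeval_BB, ← derivative_map]
    exact h2
  exact not_both (π := π) hsep x (by rw [h3, map_zero]) (by rw [h4, map_zero])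

end core

theorem typcu_aux (hℓ2 : ℓ ≠ 2) (n : ℕ) (hn : 0 < n) :
    ∃ R₀ : ℚ_[ℓ][X], R₀.Monic ∧ R₀.natDegree = 2 * n ∧ R₀.comp (-X) = R₀ ∧ R₀.Separable ∧
      (∀ r : AlgebraicClosure ℚ_[ℓ], aeval r R₀ = 0 → ‖r‖ ≤ 1) ∧
      ∃ τ : AlgebraicClosure ℚ_[ℓ] ≃ₐ[ℚ_[ℓ]] AlgebraicClosure ℚ_[ℓ],
        ∀ r s : AlgebraicClosure ℚ_[ℓ], aeval r R₀ = 0 → aeval s R₀ = 0 →
          ∃ i : ℕ, (τ ^ i) r = s := by
  obtain ⟨g, hgm, hgd, hgi, hgdvd⟩ := exists_prim ℓ hℓ2 n hn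
  have hlift : g ∈ Polynomial.lifts (Int.castRingHom (ZMod ℓ)) := by
    rw [Polynomial.lifts_iff_coeff_lifts]
    intro k
    exact ZMod.intCast_surjective _
  obtain ⟨G, hG1, hG2, hG3⟩ := Polynomial.lifts_and_natDegree_eq_and_monic hlift hgm
  set P : ℤ[X] := G.comp (X ^ 2) with hP
  have hX2 : (X ^ 2 : ℤ[X]).Monic := monic_X_pow 2
  have hPm : P.Monic := by
    rw [hP]
    exact hG3.comp hX2 (by rw [natDegree_X_pow]; norm_num)
  have hPd : P.natDegree = 2 * n := by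
    rw [hP, natDegree_comp, natDegree_X_pow, hG2, hgd]
    ring
  have hPmap : P.map (Int.castRingHom (ZMod ℓ)) = g.comp (X ^ 2) := by
    rw [hP, Polynomial.map_comp, hG1, Polynomial.map_pow, map_X]
  have hoddn : Odd (ℓ ^ n) := (hℓ.out.odd_of_ne_two hℓ2).pow
  have hgt : 1 < ℓ ^ n := Nat.one_lt_pow hn.ne' hℓ.out.one_lt
  obtain ⟨t, ht⟩ := hoddn
  have hhalf : (ℓ ^ n - 1) / 2 = t := by omega
  rw [hhalf] at hgdvd
  have hsep : (P.map (Int.castRingHom (ZMod ℓ))).Separable := by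
    rw [hPmap]
    have h1 : g.comp (X ^ 2) ∣ (X ^ t + 1 : (ZMod ℓ)[X]).comp (X ^ 2) := by
      obtain ⟨q, hq⟩ := hgdvd
      rw [hq, mul_comp]
      exact dvd_mul_right _ _
    have h2 : (X ^ t + 1 : (ZMod ℓ)[X]).comp (X ^ 2) = X ^ (2 * t) - C (-1) := by
      rw [add_comp, pow_comp, X_comp, one_comp, ← pow_mul, C_neg, C_1, sub_neg_eq_add]
    rw [h2] at h1
    refine (Polynomial.separable_X_pow_sub_C (-1 : ZMod ℓ) ?_ (by simp)).of_dvd h1
    have h3 : ((2 * t : ℕ) : ZMod ℓ) = -1 := by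
      have h4 : ((2 * t + 1 : ℕ) : ZMod ℓ) = 0 := by
        rw [← ht, Nat.cast_pow, ZMod.natCast_self, zero_pow hn.ne']
      rw [Nat.cast_add, Nat.cast_one] at h4
      exact eq_neg_of_add_eq_zero_left h4
    rw [h3]
    exact neg_ne_zero.2 one_ne_zero
  obtain ⟨M, _, _, π, hπ⟩ := exists_res ℓ
  obtain ⟨τ, hτ⟩ := Pool.Agent.Y255.SS.lf ℓ
  refine ⟨P.map (Int.castRingHom ℚ_[ℓ]), hPm.map _, ?_, ?_, sep_lift hPm π hsep, ?_, τ, ?_⟩
  · rw [hPm.natDegree_map, hPd]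
  · rw [hP, Polynomial.map_comp, Polynomial.map_pow, map_X, comp_assoc, pow_comp, X_comp, neg_sq]
  · intro r hr
    exact le_of_int ℓ (root_int hPm hr)
  · intro r s hr hs
    have hr1 : ‖r‖ ≤ 1 := le_of_int ℓ (root_int hPm hr)
    have hs1 : ‖s‖ ≤ 1 := le_of_int ℓ (root_int hPm hs)
    have hev : ∀ (x : BB ℓ), aeval (x : AlgebraicClosure ℚ_[ℓ]) (P.map (Int.castRingHom ℚ_[ℓ])) = 0 →
        P.eval₂ (Int.castRingHom (BB ℓ)) x = 0 := by
      intro x hx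
      apply Subtype.ext
      rw [← aeval_BB]
      exact hx
    set r' : BB ℓ := ⟨r, int_of_le ℓ hr1⟩ with hr'
    set s' : BB ℓ := ⟨s, int_of_le ℓ hs1⟩ with hs'
    have hgr : ∀ x : BB ℓ, aeval (x : AlgebraicClosure ℚ_[ℓ]) (P.map (Int.castRingHom ℚ_[ℓ])) = 0 →
        g.eval₂ (ZMod.castHom (dvd_rfl : ℓ ∣ ℓ) M) ((π x) ^ 2) = 0 := by
      intro x hx
      have h1 := red_eval π P x
      rw [hev x hx, map_zero, hPmap, eval₂_comp, eval₂_pow, eval₂_X] at h1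
      exact h1.symm
    have ha := hgr r' hr
    have hb := hgr s' hs
    obtain ⟨j, hj⟩ := conj_pow ℓ g hgi _ _ ha hb
    have hneg : (π r') ^ (ℓ ^ n) = -(π r') := by
      obtain ⟨q, hq⟩ := hgdvd
      have h1 := congrArg (fun p => p.eval₂ (ZMod.castHom (dvd_rfl : ℓ ∣ ℓ) M) ((π r') ^ 2)) hq
      simp only [eval₂_mul, eval₂_add, eval₂_pow, eval₂_X, eval₂_one] at h1
      rw [ha, zero_mul, ← pow_mul] at h1
      rw [ht, pow_succ, eq_neg_of_add_eq_zero_left h1]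
      ring
    have hi : ∃ i : ℕ, π s' = (π r') ^ (ℓ ^ i) := by
      have h1 : (π s' - (π r') ^ (ℓ ^ j)) * (π s' + (π r') ^ (ℓ ^ j)) = 0 := by
        rw [← pow_mul, mul_comm 2, pow_mul] at hj
        linear_combination hj
      rcases mul_eq_zero.1 h1 with h2 | h2
      · exact ⟨j, sub_eq_zero.1 h2⟩
      · refine ⟨n + j, ?_⟩
        rw [pow_add, pow_mul, hneg, (hℓ.out.odd_of_ne_two hℓ2).pow.neg_pow]
        exact eq_neg_of_add_eq_zero_left h2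
    obtain ⟨i, hi⟩ := hi
    -- the action of `τ`
    have hact : ∀ i : ℕ, ∃ y : BB ℓ, (y : AlgebraicClosure ℚ_[ℓ]) = (τ ^ i) r ∧
        aeval (y : AlgebraicClosure ℚ_[ℓ]) (P.map (Int.castRingHom ℚ_[ℓ])) = 0 ∧
        π y = (π r') ^ (ℓ ^ i) := by
      intro i
      induction i with
      | zero =>
        refine ⟨r', ?_, hr, ?_⟩
        · simp [hr']
        · simp
      | succ i ih =>
        obtain ⟨y, hy1, hy2, hy3⟩ := ih
        have hroot : aeval (τ (y : AlgebraicClosure ℚ_[ℓ])) (P.map (Int.castRingHom ℚ_[ℓ])) = 0 :=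
          root_aut τ hy2
        set z : BB ℓ := ⟨τ y, root_int hPm hroot⟩ with hz
        refine ⟨z, ?_, hroot, ?_⟩
        · show τ (y : AlgebraicClosure ℚ_[ℓ]) = (τ ^ (i + 1)) r
          rw [pow_succ', AlgEquiv.mul_apply, hy1]
        · have h1 : π (z - y ^ ℓ) = 0 := by
            rw [hπ]
            exact hτ (y : AlgebraicClosure ℚ_[ℓ]) (le_of_int ℓ y.2)
          rw [map_sub, map_pow, sub_eq_zero] at h1
          rw [h1, hy3, ← pow_mul, ← pow_succ]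
    obtain ⟨y, hy1, hy2, hy3⟩ := hact i
    refine ⟨i, ?_⟩
    have h1 : y = s' := root_unique (π := π) hsep y s' (hev y hy2) (hev s' hs) (by rw [hy3, hi])
    rw [← hy1, h1]

theorem typcu : Pool.Agent.Y142.ZS.S_TYPCU := by
  intro ℓ _ hℓ2 n hn
  obtain ⟨R₀, hm, hd, hc, hsep, hunit, τ, hτ⟩ := typcu_aux (ℓ := ℓ) hℓ2 n hn
  obtain ⟨ε, hε, h⟩ := krs1 hℓ2 R₀ hm hsep hunit
  refine ⟨R₀, hm, hd, hc, ε, hε, fun k Q hk hQ hQd hcl => ?_⟩
  obtain ⟨h1, h2, φ, hφ1, hφ2, hφ3, hφ4⟩ := h k Q hk hQ (by rw [hQd, hd]) hcl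
  refine ⟨h1, h2, τ, fun x y hx hy => ?_⟩
  obtain ⟨r, hr, rfl⟩ := hφ3 x hx
  obtain ⟨s, hs, rfl⟩ := hφ3 y hy
  obtain ⟨i, hi⟩ := hτ r s hr hs
  refine ⟨i, ?_⟩
  rw [← hφ4 (τ ^ i) r hr, hi]

end Pool.Agent.R932.OP.CU

namespace Pool.Agent.R932.OP

theorem typcu : Pool.Agent.Y142.ZS.S_TYPCU := CU.typcu

end Pool.Agent.R932.OP
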