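import Pool.Agent.R932.OP.KCore
import Pool.Agent.Y142.ZS.Stm

set_option autoImplicit false

/-! Project OP, task TYPG: the local type split and generic. -/

open Polynomial Filter Topology
open Pool.Agent.Y142.ZI Pool.Agent.Y142.ZS
open Pool.Agent.Y331.ZD (um_add um_sub near_split norm_map exists_mu exists_bd root_aut)

namespace Pool.Agent.R932.OP

theorem digits (B : ℤ) (hB : 4 < B) : ∀ (n : ℕ) (d : ℕ → ℤ), (∀ i, |d i| ≤ 4) →
    ∑ i ∈ Finset.range n, d i * B ^ i = 0 → ∀ i < n, d i = 0 := by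
  intro n
  induction n with
  | zero => intro d _ _ i hi; omega
  | succ n ih =>
    intro d hd h i hi
    rw [Finset.sum_range_succ'] at h
    simp only [pow_zero, mul_one] at h
    have h1 : ∑ i ∈ Finset.range n, d (i + 1) * B ^ (i + 1) =
        B * ∑ i ∈ Finset.range n, d (i + 1) * B ^ i := by
      rw [Finset.mul_sum]
      refine Finset.sum_congr rfl fun i _ => ?_
      ring
    rw [h1] at h
    have h2 : B ∣ d 0 := ⟨-∑ i ∈ Finset.range n, d (i + 1) * B ^ i, by linear_combination h⟩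
    have h3 : d 0 = 0 := Int.eq_zero_of_abs_lt_dvd h2 ((hd 0).trans_lt hB)
    rw [h3, add_zero] at h
    have h4 : ∑ i ∈ Finset.range n, d (i + 1) * B ^ i = 0 := by
      rcases mul_eq_zero.1 h with h5 | h5
      · omega
      · exact h5
    have h5 := ih (fun i => d (i + 1)) (fun i => hd _) h4
    rcases Nat.eq_zero_or_pos i with h6 | h6
    · rw [h6]
      exact h3
    · have h7 : d (i - 1 + 1) = 0 := h5 (i - 1) (by omega)
      rwa [Nat.sub_add_cancel h6] at h7

theorem four (B : ℤ) (hB : 4 < B) {i1 i2 i3 i4 : ℕ} {s1 s2 s3 s4 : ℤ} (h1 : s1 = 1 ∨ s1 = -1)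
    (h2 : s2 = 1 ∨ s2 = -1) (h3 : s3 = 1 ∨ s3 = -1) (h4 : s4 = 1 ∨ s4 = -1)
    (h : s1 * B ^ i1 + s4 * B ^ i4 = s3 * B ^ i3 + s2 * B ^ i2) :
    (i4 = i1 ∧ s4 = -s1) ∨ (i3 = i1 ∧ s3 = s1) ∨ (i2 = i1 ∧ s2 = s1) := by
  have h5 := digits B hB (i1 + i2 + i3 + i4 + 1) (fun i => (if i = i1 then s1 else 0) +
    (if i = i4 then s4 else 0) - (if i = i3 then s3 else 0) - (if i = i2 then s2 else 0)) (by
      intro i
      rw [abs_le]
      split_ifs <;> omega) (by
      simp only [sub_mul, add_mul, ite_mul, zero_mul, Finset.sum_sub_distrib,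
        Finset.sum_add_distrib, Finset.sum_ite_eq', Finset.mem_range]
      rw [if_pos (by omega), if_pos (by omega), if_pos (by omega), if_pos (by omega)]
      linear_combination h) i1 (by omega)
  simp only [if_true] at h5
  split_ifs at h5 with a1 a2 a3 a4 a5 a6 a7 <;> omega

variable {ℓ : ℕ} [hℓ : Fact ℓ.Prime]

/-- the numbers `ℓ ^ (3 (i + 1))` -/
noncomputable def ag (ℓ : ℕ) [Fact ℓ.Prime] (n : ℕ) (i : Fin n) : ℚ_[ℓ] :=
  (((ℓ : ℚ_[ℓ]) ^ 3) ^ ((i : ℕ) + 1))

theorem ag_int {n : ℕ} (p : Fin n × Bool) :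
    pm (fun i => algebraMap ℚ_[ℓ] (AlgebraicClosure ℚ_[ℓ]) (ag ℓ n i)) p =
      (((if p.2 then (1 : ℤ) else -1) * ((ℓ : ℤ) ^ 3) ^ ((p.1 : ℕ) + 1) : ℤ) :
        AlgebraicClosure ℚ_[ℓ]) := by
  obtain ⟨i, s⟩ := p
  cases s <;> simp [pm, ag]

theorem typg : Pool.Agent.Y142.ZS.S_TYPG := by
  classical
  intro ℓ hℓ n
  set L := AlgebraicClosure ℚ_[ℓ] with hL
  have hnorm : ∀ x : ℚ_[ℓ], ‖algebraMap ℚ_[ℓ] L x‖ = ‖x‖ := norm_map
  have hℓ1 : (1 : ℝ) < ℓ := by exact_mod_cast hℓ.out.one_lt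
  have hℓ0 : (0 : ℝ) < ℓ := by linarith
  have hfac : ∀ i : Fin n, (((X - C (ag ℓ n i)) * (X + C (ag ℓ n i))) : ℚ_[ℓ][X]).Monic :=
    fun i => (monic_X_sub_C _).mul (monic_X_add_C _)
  have hfd : ∀ i : Fin n, (((X - C (ag ℓ n i)) * (X + C (ag ℓ n i))) : ℚ_[ℓ][X]).natDegree =
      2 := by
    intro i
    rw [(monic_X_sub_C _).natDegree_mul (monic_X_add_C _), natDegree_X_sub_C, natDegree_X_add_C]
  refine ⟨∏ i : Fin n, ((X - C (ag ℓ n i)) * (X + C (ag ℓ n i))),
    monic_prod_of_monic _ _ fun i _ => hfac i, ?_, ?_, ?_⟩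
  · rw [natDegree_prod_of_monic _ _ fun i _ => hfac i,
      Finset.sum_congr rfl fun i _ => hfd i]
    simp
    ring
  · rw [prod_comp]
    refine Finset.prod_congr rfl fun i _ => ?_
    rw [mul_comp, sub_comp, add_comp, X_comp, C_comp]
    ring
  -- the roots
  set a : Fin n → L := fun i => algebraMap ℚ_[ℓ] L (ag ℓ n i) with ha
  have haS : ∀ i : Fin n, ‖a i‖ = ((ℓ : ℝ)⁻¹) ^ (3 * ((i : ℕ) + 1)) := by
    intro i
    simp only [ha]
    rw [hnorm, ag, norm_pow, norm_pow, Padic.norm_p, ← pow_mul]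
  have hinv1 : (ℓ : ℝ)⁻¹ < 1 := inv_lt_one_of_one_lt₀ hℓ1
  have hinv0 : 0 < (ℓ : ℝ)⁻¹ := inv_pos.2 hℓ0
  have hpinj : Function.Injective (fun n : ℕ => ((ℓ : ℝ)⁻¹) ^ n) :=
    (pow_right_strictAnti₀ hinv0 hinv1).injective
  have hainj : ∀ i i', ‖a i‖ = ‖a i'‖ → i = i' := by
    intro i i' h
    rw [haS, haS] at h
    have h4 : 3 * ((i : ℕ) + 1) = 3 * ((i' : ℕ) + 1) := hpinj h
    apply Fin.ext
    omega
  have ha0 : ∀ i, a i ≠ 0 := by
    intro i h
    have := haS i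
    rw [h, norm_zero] at this
    exact (pow_pos hinv0 _).ne this
  have h2L : (2 : L) ≠ 0 := by norm_num
  set b := pm a with hb
  have hbn : ∀ p, ‖b p‖ = ‖a p.1‖ := pm_norm a
  have hbinj : Function.Injective b := by
    rintro ⟨i, s⟩ ⟨i', s'⟩ h
    have h1 : i = i' := hainj _ _ (by
      have := congrArg norm h
      rwa [hbn, hbn] at this)
    subst h1
    have h4 : a i ≠ -(a i) := by
      intro h5
      have h6 : (2 : L) * a i = 0 := by linear_combination h5
      rcases mul_eq_zero.1 h6 with h7 | h7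
      · exact h2L h7
      · exact ha0 i h7
    cases s <;> cases s'
    · rfl
    · simp only [hb, pm] at h
      exact absurd h.symm h4
    · simp only [hb, pm] at h
      exact absurd h h4
    · rfl
  have hbint : ∀ p, b p = (((if p.2 then (1 : ℤ) else -1) *
      ((ℓ : ℤ) ^ 3) ^ ((p.1 : ℕ) + 1) : ℤ) : L) := ag_int
  have hB : (4 : ℤ) < (ℓ : ℤ) ^ 3 := by
    have h1 : (2 : ℤ) ≤ ℓ := by exact_mod_cast hℓ.out.two_le
    have h2 : (2 : ℤ) ^ 3 ≤ (ℓ : ℤ) ^ 3 := pow_le_pow_left₀ (by norm_num) h1 3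
    linarith
  have hgen : ∀ p1 p2 p3 p4, b p1 ≠ b p2 → b p1 + b p4 = b p3 + b p2 →
      (b p3 = b p1 ∧ b p4 = b p2) ∨ (b p3 = -(b p2) ∧ b p4 = -(b p1)) := by
    intro p1 p2 p3 p4 h12 h
    have h5 := h
    rw [hbint p1, hbint p2, hbint p3, hbint p4, ← Int.cast_add, ← Int.cast_add,
      Int.cast_inj] at h5
    have hs : ∀ s : Bool, (if s then (1 : ℤ) else -1) = 1 ∨ (if s then (1 : ℤ) else -1) = -1 := by
      intro s
      cases s
      · exact Or.inr rfl
      · exact Or.inl rfl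
    rcases four _ hB (hs p1.2) (hs p2.2) (hs p3.2) (hs p4.2) h5 with ⟨e1, e2⟩ | ⟨e1, e2⟩ | ⟨e1, e2⟩
    · right
      have h6 : b p4 = -(b p1) := by
        rw [hbint p4, hbint p1, e2, e1, neg_mul, Int.cast_neg]
      refine ⟨?_, h6⟩
      rw [h6] at h
      linear_combination -h
    · left
      have h6 : b p3 = b p1 := by
        rw [hbint p3, hbint p1, e2, e1]
      refine ⟨h6, ?_⟩
      rw [h6] at h
      linear_combination h
    · exfalso
      apply h12
      rw [hbint p1, hbint p2, e2, e1]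
  have hR : (∏ i : Fin n, ((X - C (ag ℓ n i)) * (X + C (ag ℓ n i)))).map (algebraMap ℚ_[ℓ] L) =
      ∏ p, (X - C (b p)) := by
    rw [hb, prod_pm, Polynomial.map_prod]
    refine Finset.prod_congr rfl fun i _ => ?_
    rw [Polynomial.map_mul, Polynomial.map_sub, Polynomial.map_add, map_X, map_C]
  obtain ⟨μ1, h10, h11, h12⟩ := exists_mu
    (fun q : (Fin n × Bool) × (Fin n × Bool) => ‖b q.1 - b q.2‖)
    (fun q => b q.1 - b q.2 ≠ 0) (fun q hq => norm_pos_iff.mpr hq)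
  obtain ⟨μ3, h30, h31, h32⟩ := exists_mu
    (fun q : ((Fin n × Bool) × (Fin n × Bool)) × ((Fin n × Bool) × (Fin n × Bool)) =>
      ‖b q.1.1 + b q.1.2 - b q.2.1 - b q.2.2‖)
    (fun q => b q.1.1 + b q.1.2 - b q.2.1 - b q.2.2 ≠ 0)
    (fun q hq => norm_pos_iff.mpr hq)
  have hsep2 : ∀ j j', ‖b j - b j'‖ < min μ1 μ3 → j = j' := by
    intro j j' h
    by_contra hne
    have h1 := h12 (j, j') (sub_ne_zero.2 (fun e => hne (hbinj e)))
    exact absurd h1 (not_le.2 (h.trans_le (min_le_left _ _)))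
  obtain ⟨ε, k₀, hε, hεμ, H⟩ := core b _ hR (μ := min μ1 μ3) (by positivity)
    ((min_le_left _ _).trans h11) (by
      intro j j' hjj
      by_contra hlt
      exact hjj (hsep2 j j' (not_le.1 hlt)))
  refine ⟨ε, k₀, hε, ?_⟩
  intro k Q c hk hQ hQd hc0 hc1 hinv hcl
  obtain ⟨r, hrinj, hrb, hrr, hr3, hrootR, hroot, hQsep⟩ := H k Q hk hQ (by
    rw [hQd]
    simp
    ring) hcl
  have hla := la_ne (ℓ := ℓ) k
  refine ⟨?_, hQsep, ?_⟩
  · -- splits
    refine Splits.of_splits_map (algebraMap ℚ_[ℓ] L) (IsAlgClosed.splits _) ?_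
    intro x hx
    rw [mem_roots (hQ.map _).ne_zero, IsRoot, eval_map, ← aeval_def] at hx
    obtain ⟨j, rfl⟩ := (hroot x).1 hx
    have h1 : r j ∈ Set.range (algebraMap ℚ_[ℓ] L) := by
      rw [InfiniteGalois.mem_range_algebraMap_iff_fixed]
      intro τ
      have h1 : aeval (τ (r j)) (resc ℓ k Q) = 0 := root_aut τ ((hrootR _).mpr ⟨j, rfl⟩)
      obtain ⟨j'', hj''⟩ := (hrootR _).mp h1
      have h0 : τ (b j) = b j := by
        obtain ⟨i, s⟩ := j
        cases s
        · show τ (-(a i)) = -(a i)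
          rw [map_neg]
          exact congrArg Neg.neg (τ.commutes (ag ℓ n i))
        · exact τ.commutes (ag ℓ n i)
      have h2 : ‖r j'' - b j‖ < min μ1 μ3 := by
        rw [← hj'', ← h0, ← map_sub, Pool.Agent.Y331.ZD.norm_inv']
        exact hrb j
      have h3 : j'' = j := by
        apply hsep2
        have : b j'' - b j = (r j'' - b j) - (r j'' - b j'') := by ring
        rw [this]
        exact um_sub h2 (hrb j'')
      rw [hj'', h3]
    obtain ⟨y, hy⟩ := h1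
    refine ⟨1 + (ℓ : ℚ_[ℓ]) ^ k * y, ?_⟩
    rw [map_add, map_one, map_mul, hy]
  · -- generic
    have hcl1 : ‖(algebraMap ℚ_[ℓ] L (c - 1)) / la ℓ k‖ < min μ1 μ3 := by
      have h1 : ‖la ℓ k‖ = ((ℓ : ℝ) ^ k)⁻¹ := by
        rw [hnorm, norm_pow, Padic.norm_p, inv_pow]
      have h2 : (0 : ℝ) < ((ℓ : ℝ) ^ k)⁻¹ := by positivity
      rw [norm_div, hnorm, h1, div_lt_iff₀ h2]
      refine hc1.trans_le ?_
      exact mul_le_mul_of_nonneg_right hεμ h2.le
    have hinvq : ∀ j j', b j' = -(b j) → (1 + la ℓ k * r j) * (1 + la ℓ k * r j') =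
        algebraMap ℚ_[ℓ] L c := by
      intro j j' hjj
      obtain ⟨h1, h2⟩ := hinv _ ((hroot _).2 ⟨j, rfl⟩)
      obtain ⟨j'', hj''⟩ := (hroot _).1 h2
      have h3 : (1 + la ℓ k * r j) * (1 + la ℓ k * r j'') = algebraMap ℚ_[ℓ] L c := by
        rw [← hj'']
        exact mul_div_cancel₀ _ h1
      have h4 : r j + r j'' = (algebraMap ℚ_[ℓ] L (c - 1)) / la ℓ k - la ℓ k * (r j * r j'') := by
        rw [eq_sub_iff_add_eq, eq_div_iff hla, map_sub, map_one, ← h3]
        ring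
      have h5 : ‖r j + r j''‖ < min μ1 μ3 := by
        rw [h4]
        exact um_sub hcl1 (hrr _ _)
      have h6 : j'' = j' := by
        apply hsep2
        have : b j'' - b j' = (r j + r j'') - (r j - b j) - (r j'' - b j'') := by
          rw [hjj]; ring
        rw [this]
        exact um_sub (um_sub h5 (hrb j)) (hrb j'')
      rw [← h6]
      exact h3
    intro x y z w hx hy hz hw hxy hmul
    obtain ⟨j1, rfl⟩ := (hroot x).1 hx
    obtain ⟨j2, rfl⟩ := (hroot y).1 hy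
    obtain ⟨j3, rfl⟩ := (hroot z).1 hz
    obtain ⟨j4, rfl⟩ := (hroot w).1 hw
    have hb12 : b j1 ≠ b j2 := fun e => hxy (by rw [hbinj e])
    have hsum : r j1 + r j4 - r j3 - r j2 = la ℓ k * (r j3 * r j2) - la ℓ k * (r j1 * r j4) := by
      apply mul_left_cancel₀ hla
      linear_combination hmul
    have hBB : b j1 + b j4 = b j3 + b j2 := by
      by_contra hne
      have h1 := h32 ((j1, j4), (j3, j2)) (by
        dsimp only
        intro h0
        exact hne (by linear_combination h0))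
      dsimp only at h1
      have h2 : ‖b j1 + b j4 - b j3 - b j2‖ < min μ1 μ3 := by
        have h9 : b j1 + b j4 - b j3 - b j2 =
            (r j1 + r j4 - r j3 - r j2) - (r j1 - b j1) - (r j4 - b j4) +
              (r j3 - b j3) + (r j2 - b j2) := by ring
        rw [h9]
        refine um_add (um_add (um_sub (um_sub ?_ (hrb j1)) (hrb j4)) (hrb j3)) (hrb j2)
        rw [hsum]
        exact um_sub (hrr _ _) (hrr _ _)
      exact absurd h1 (not_le.2 (h2.trans_le (min_le_right _ _)))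
    rcases hgen j1 j2 j3 j4 hb12 hBB with ⟨e1, e2⟩ | ⟨e1, e2⟩
    · left
      rw [hbinj e1, hbinj e2]
      exact ⟨rfl, rfl⟩
    · right
      constructor
      · rw [mul_comm]
        exact hinvq j2 j3 e1
      · rw [mul_comm]
        exact hinvq j1 j4 e2

end Pool.Agent.R932.OP
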