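import Pool.Agent.Y142.ZI.Stm
import Pool.Agent.Y405.ZI.TypU

/-!
Project OP (helper932), task OP-TYPST (proved by helper62): the local types `sign change` and
`transposition of two pairs`.
-/

set_option autoImplicit false

open Matrix Polynomial Filter Topology NumberField IsDedekindDomain
open Pool.Agent.Y142.ZO Pool.Agent.Y142.ZI

namespace Pool.Agent.R932.OP

variable {ℓ : ℕ} [hℓ : Fact ℓ.Prime]

/-- integers of absolute value `< ℓ` are units -/
theorem norm_int_one (d : ℤ) (h0 : d ≠ 0) (h1 : -(ℓ : ℤ) < d ∧ d < ℓ) :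
    ‖(d : ℚ_[ℓ])‖ = 1 := by
  have h2 : ¬ ((ℓ : ℤ) ∣ d) := by
    intro h
    have h3 := Int.le_of_dvd (abs_pos.2 h0) ((dvd_abs _ _).2 h)
    rcases abs_cases d with h4 | h4 <;> omega
  have h4 : ¬ ‖(d : ℚ_[ℓ])‖ < 1 := fun h => h2 (Padic.norm_intCast_lt_one_iff.1 h)
  exact le_antisymm (Padic.norm_int_le_one d) (not_lt.1 h4)

/-- an automorphism fixes the elements of the clusters of cardinality one -/
theorem fix_one {k : ℕ} {Q : ℚ_[ℓ][X]} {b : ℚ_[ℓ]} (hcard : (Clus ℓ k Q b).ncard = 1)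
    {z w : AlgebraicClosure ℚ_[ℓ]} (hz : z ∈ Clus ℓ k Q b) (hw : w ∈ Clus ℓ k Q b) : w = z := by
  obtain ⟨a, ha⟩ := Set.ncard_eq_one.1 hcard
  rw [ha] at hz hw
  rw [Set.mem_singleton_iff.1 hz, Set.mem_singleton_iff.1 hw]

theorem comp_prod {m : ℕ} (a : Fin m → ℚ_[ℓ]) (e : ℚ_[ℓ]) :
    (-1) ^ m * (∏ j : Fin m, ((X - C (a j)) ^ 1 - C e)).comp (-X) =
      ∏ j : Fin m, ((X - C (-a j)) ^ 1 - C (-e)) := by
  rw [Polynomial.prod_comp]
  have h1 : ((-1 : ℚ_[ℓ][X]) ^ m) = ∏ _j : Fin m, (-1 : ℚ_[ℓ][X]) := by simp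
  rw [h1, ← Finset.prod_mul_distrib]
  apply Finset.prod_congr rfl
  intro j _
  simp only [sub_comp, X_comp, C_comp, map_neg, pow_one]
  ring

theorem typs (h : S_CLQ) (hc : S_COMP) : S_TYPS := by
  intro ℓ hℓ m hm
  have h2 : ℓ ≠ 2 := by omega
  have hmon : (∏ j : Fin m, ((X - C (((j : ℕ) + 1 : ℤ) : ℚ_[ℓ])) ^ 1 - C (ℓ : ℚ_[ℓ]))).Monic := by
    apply monic_prod_of_monic
    intro j _
    rw [pow_one, sub_sub, ← C_add]
    exact monic_X_sub_C _
  have hd : (∏ j : Fin m, ((X - C (((j : ℕ) + 1 : ℤ) : ℚ_[ℓ])) ^ 1 -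
      C (ℓ : ℚ_[ℓ]))).natDegree = m := by
    rw [natDegree_prod_of_monic]
    · simp only [pow_one, sub_sub, ← C_add, natDegree_X_sub_C]
      simp
    · intro j _
      rw [pow_one, sub_sub, ← C_add]
      exact monic_X_sub_C _
  obtain ⟨A, hA⟩ := hc ℚ_[ℓ] m _ hmon hd
  have hA' : (-A).charpoly = ∏ j : Fin m, ((X - C (-((((j : ℕ) + 1 : ℤ) : ℚ_[ℓ])))) ^ 1 -
      C (-(ℓ : ℚ_[ℓ]))) := by
    rw [Pool.Agent.Y405.ZI.charpoly_neg', hA]
    exact comp_prod (fun j : Fin m => (((j : ℕ) + 1 : ℤ) : ℚ_[ℓ])) (ℓ : ℚ_[ℓ])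
  refine ⟨A, fun c hcn => ?_⟩
  -- the data
  let b' : Unit ⊕ (Fin m ⊕ Fin m) → ℤ :=
    Sum.elim (fun _ => 0) (Sum.elim (fun j => (j : ℕ) + 1) (fun j => -((j : ℕ) + 1)))
  let cc : Unit ⊕ (Fin m ⊕ Fin m) → ℚ_[ℓ] :=
    Sum.elim (fun _ => c) (Sum.elim (fun _ => (ℓ : ℚ_[ℓ])) (fun _ => -(ℓ : ℚ_[ℓ])))
  let mm : Unit ⊕ (Fin m ⊕ Fin m) → ℕ :=
    Sum.elim (fun _ => 2) (Sum.elim (fun _ => 1) (fun _ => 1))
  obtain ⟨ε, hε, hQ⟩ := h ℓ h2 (Unit ⊕ (Fin m ⊕ Fin m)) (fun j => (b' j : ℚ_[ℓ])) cc mm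
    (fun j => Padic.norm_int_le_one _)
    (by
      intro i j hij
      rw [← Int.cast_sub]
      have hb : b' i - b' j ≠ 0 ∧ (-(ℓ : ℤ) < b' i - b' j ∧ b' i - b' j < ℓ) := by
        rcases i with i | i | i <;> rcases j with j | j | j <;>
          simp only [b', Sum.elim_inl, Sum.elim_inr]
        · exact absurd rfl hij
        · have := j.2; constructor <;> omega
        · have := j.2; constructor <;> omega
        · have := i.2; constructor <;> omega
        · have h5 := j.2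
          have h6 := i.2
          have h7 : (i : ℕ) ≠ j := fun h => hij (by rw [Fin.ext h])
          constructor <;> omega
        · have h5 := j.2
          have h6 := i.2
          constructor <;> omega
        · have := i.2; constructor <;> omega
        · have h5 := j.2
          have h6 := i.2
          constructor <;> omega
        · have h5 := j.2
          have h6 := i.2
          have h7 : (i : ℕ) ≠ j := fun h => hij (by rw [Fin.ext h])
          constructor <;> omega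
      exact norm_int_one _ hb.1 hb.2)
    (by rintro (j | j | j) <;> simp [mm])
    (by rintro (j | j | j) <;> simp [cc, hcn])
  refine ⟨ε, hε, ?_⟩
  intro k Q hk hQm hQd hinv hcoef F hF
  obtain ⟨-, q1, q2, -, q4, q5, q6, q7⟩ := hQ k Q hk hQm (by
    rw [hQd]
    simp [mm]
    ring) hinv (by
    intro i
    have h3 : ∏ j : Unit ⊕ (Fin m ⊕ Fin m), ((X - C (b' j : ℚ_[ℓ])) ^ mm j - C (cc j)) =
        (X ^ 2 - C c) * A.charpoly * (-A).charpoly := by
      rw [Fintype.prod_sum_type, Fintype.prod_sum_type, hA, hA', ← mul_assoc]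
      simp [b', cc, mm]
    rw [h3]
    exact hcoef i)
  have hQ1 : Q.eval 1 ≠ 0 := q1 (by
    intro j hj
    by_contra h0
    have h0' : b' j ≠ 0 := fun h => h0 (by simp [h])
    have hb : -(ℓ : ℤ) < b' j ∧ b' j < ℓ := by
      rcases j with j | j | j
      · simp [b'] at h0'
      · have := j.2
        simp only [b', Sum.elim_inl, Sum.elim_inr]
        omega
      · have := j.2
        simp only [b', Sum.elim_inl, Sum.elim_inr]
        omega
    rw [norm_int_one _ h0' hb] at hj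
    exact lt_irrefl _ hj)
  have e0 : ((b' (Sum.inl ()) : ℤ) : ℚ_[ℓ]) = 0 := by simp [b']
  have hcard := q4 (Sum.inl ())
  rw [e0] at hcard
  have hcard' : (Clus ℓ k Q 0).ncard = 2 := hcard
  obtain ⟨z₀, hz₀⟩ : (Clus ℓ k Q 0).Nonempty := by
    apply Set.nonempty_of_ncard_ne_zero
    rw [hcard']
    norm_num
  have hz0 : z₀ ≠ 0 := (hinv z₀ hz₀.1).1
  have hzi : z₀⁻¹ ∈ Clus ℓ k Q 0 := by
    have := q5 (Sum.inl ()) (Sum.inl ()) (by rw [e0]; simp) z₀ (by rw [e0]; exact hz₀)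
    rwa [e0] at this
  have hcl := Pool.Agent.Y405.ZI.clus0 h2 hQ1 hz₀ hcard' hzi hz0
  obtain ⟨τ, hτ⟩ := q7 F hF (Sum.inl ()) z₀ (by rw [e0]; exact hz₀) z₀⁻¹ (by rw [e0]; exact hzi)
  refine ⟨τ, z₀, hz₀.1, hτ, ?_⟩
  intro y hy hy1 hy2
  obtain ⟨j, hj⟩ := q2 y hy
  have h8 := q6 (τ.restrictScalars ℚ_[ℓ]) j y hj
  have h9 : τ y ∈ Clus ℓ k Q (b' j : ℚ_[ℓ]) := h8
  rcases j with j | j
  · exfalso
    have e1 : ((b' (Sum.inl j) : ℤ) : ℚ_[ℓ]) = 0 := by simp [b']
    rw [e1] at hj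
    rcases hcl y hj with h4 | h4
    · exact hy1 h4
    · exact hy2 h4
  · have h10 : (Clus ℓ k Q (b' (Sum.inr j) : ℚ_[ℓ])).ncard = 1 := by
      rw [q4 (Sum.inr j)]
      rcases j with j | j <;> simp [mm]
    exact fix_one h10 hj h9

theorem typt (h : S_CLQ) (hc : S_COMP) : S_TYPT := by
  intro ℓ hℓ m hm hm2
  have h2 : ℓ ≠ 2 := by omega
  obtain ⟨n, rfl⟩ : ∃ n, m = n + 2 := ⟨m - 2, by omega⟩
  set P : ℚ_[ℓ][X] := (X - C 1) ^ 2 - C (ℓ : ℚ_[ℓ]) with hP
  have hPm : P.Monic := by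
    apply ((monic_X_sub_C 1).pow 2).sub_of_left
    refine degree_C_le.trans_lt ?_
    rw [degree_pow, degree_X_sub_C, nsmul_eq_mul, mul_one]
    norm_num
  have hPd : P.natDegree = 2 := by
    rw [hP, natDegree_sub_C, natDegree_pow, natDegree_X_sub_C, mul_one]
  set S : ℚ_[ℓ][X] := ∏ j : Fin n, ((X - C (((j : ℕ) + 2 : ℤ) : ℚ_[ℓ])) ^ 1 - C (ℓ : ℚ_[ℓ])) with hS
  have hSm : S.Monic := by
    apply monic_prod_of_monic
    intro j _
    rw [pow_one, sub_sub, ← C_add]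
    exact monic_X_sub_C _
  have hSd : S.natDegree = n := by
    rw [hS, natDegree_prod_of_monic]
    · simp only [pow_one, sub_sub, ← C_add, natDegree_X_sub_C]
      simp
    · intro j _
      rw [pow_one, sub_sub, ← C_add]
      exact monic_X_sub_C _
  have hd : (P * S).natDegree = n + 2 := by
    rw [hPm.natDegree_mul hSm, hPd, hSd, add_comm]
  obtain ⟨A, hA⟩ := hc ℚ_[ℓ] (n + 2) _ (hPm.mul hSm) hd
  have hA' : (-A).charpoly = ((X - C (-1)) ^ 2 - C (ℓ : ℚ_[ℓ])) *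
      ∏ j : Fin n, ((X - C (-((((j : ℕ) + 2 : ℤ) : ℚ_[ℓ])))) ^ 1 - C (-(ℓ : ℚ_[ℓ]))) := by
    rw [Pool.Agent.Y405.ZI.charpoly_neg', hA, ← comp_prod, mul_comp, pow_add, ← hS]
    have h1 : P.comp (-X) = (X - C (-1)) ^ 2 - C (ℓ : ℚ_[ℓ]) := by
      rw [hP]
      simp only [sub_comp, pow_comp, X_comp, C_comp, map_neg, map_one, one_comp]
      ring
    rw [h1]
    ring
  refine ⟨A, fun c hcn => ?_⟩
  -- the data
  let b' : Fin 3 ⊕ (Fin n ⊕ Fin n) → ℤ :=
    Sum.elim ![0, 1, -1] (Sum.elim (fun j => (j : ℕ) + 2) (fun j => -((j : ℕ) + 2)))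
  let cc : Fin 3 ⊕ (Fin n ⊕ Fin n) → ℚ_[ℓ] :=
    Sum.elim ![c, (ℓ : ℚ_[ℓ]), (ℓ : ℚ_[ℓ])]
      (Sum.elim (fun _ => (ℓ : ℚ_[ℓ])) (fun _ => -(ℓ : ℚ_[ℓ])))
  let mm : Fin 3 ⊕ (Fin n ⊕ Fin n) → ℕ :=
    Sum.elim ![2, 2, 2] (Sum.elim (fun _ => 1) (fun _ => 1))
  obtain ⟨ε, hε, hQ⟩ := h ℓ h2 (Fin 3 ⊕ (Fin n ⊕ Fin n)) (fun j => (b' j : ℚ_[ℓ])) cc mm
    (fun j => Padic.norm_int_le_one _)
    (by
      intro i j hij
      rw [← Int.cast_sub]
      have hb : b' i - b' j ≠ 0 ∧ (-(ℓ : ℤ) < b' i - b' j ∧ b' i - b' j < ℓ) := by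
        rcases i with i | i | i <;> rcases j with j | j | j
        · fin_cases i <;> fin_cases j <;> simp [b'] at hij ⊢ <;> omega
        · have h5 := j.2
          fin_cases i <;> simp only [b', Sum.elim_inl, Sum.elim_inr] <;> simp <;>
            constructor <;> omega
        · have h5 := j.2
          fin_cases i <;> simp only [b', Sum.elim_inl, Sum.elim_inr] <;> simp <;>
            constructor <;> omega
        · have h5 := i.2
          fin_cases j <;> simp only [b', Sum.elim_inl, Sum.elim_inr] <;> simp <;>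
            constructor <;> omega
        · have h5 := j.2
          have h6 := i.2
          have h7 : (i : ℕ) ≠ j := fun h => hij (by rw [Fin.ext h])
          simp only [b', Sum.elim_inl, Sum.elim_inr]
          constructor <;> omega
        · have h5 := j.2
          have h6 := i.2
          simp only [b', Sum.elim_inl, Sum.elim_inr]
          constructor <;> omega
        · have h5 := i.2
          fin_cases j <;> simp only [b', Sum.elim_inl, Sum.elim_inr] <;> simp <;>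
            constructor <;> omega
        · have h5 := j.2
          have h6 := i.2
          simp only [b', Sum.elim_inl, Sum.elim_inr]
          constructor <;> omega
        · have h5 := j.2
          have h6 := i.2
          have h7 : (i : ℕ) ≠ j := fun h => hij (by rw [Fin.ext h])
          simp only [b', Sum.elim_inl, Sum.elim_inr]
          constructor <;> omega
      exact norm_int_one _ hb.1 hb.2)
    (by
      rintro (j | j | j)
      · fin_cases j <;> simp [mm]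
      · simp [mm]
      · simp [mm])
    (by
      rintro (j | j | j)
      · fin_cases j <;> simp [cc, hcn]
      · simp [cc]
      · simp [cc])
  refine ⟨ε, hε, ?_⟩
  intro k Q hk hQm hQd hinv hcoef F hF
  obtain ⟨-, q1, q2, q3, q4, q5, q6, q7⟩ := hQ k Q hk hQm (by
    rw [hQd, Fintype.sum_sum_type, Fintype.sum_sum_type, Fin.sum_univ_three]
    simp [mm]
    ring) hinv (by
    intro i
    have h3 : ∏ j : Fin 3 ⊕ (Fin n ⊕ Fin n), ((X - C (b' j : ℚ_[ℓ])) ^ mm j - C (cc j)) =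
        (X ^ 2 - C c) * A.charpoly * (-A).charpoly := by
      rw [Fintype.prod_sum_type, Fintype.prod_sum_type, hA, hA', Fin.prod_univ_three]
      have e1 : ∏ j : Fin n, ((X - C (b' (Sum.inr (Sum.inl j)) : ℚ_[ℓ])) ^
          mm (Sum.inr (Sum.inl j)) - C (cc (Sum.inr (Sum.inl j)))) = S := rfl
      have e2 : ∏ j : Fin n, ((X - C (b' (Sum.inr (Sum.inr j)) : ℚ_[ℓ])) ^
          mm (Sum.inr (Sum.inr j)) - C (cc (Sum.inr (Sum.inr j)))) =
          ∏ j : Fin n, ((X - C (-((((j : ℕ) + 2 : ℤ) : ℚ_[ℓ])))) ^ 1 - C (-(ℓ : ℚ_[ℓ]))) := by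
        apply Finset.prod_congr rfl
        intro j _
        simp [b', mm, cc]
      rw [e1, e2]
      have e3 : ((X - C (b' (Sum.inl 0) : ℚ_[ℓ])) ^ mm (Sum.inl 0) - C (cc (Sum.inl 0))) =
          X ^ 2 - C c := by simp [b', mm, cc]
      have e4 : ((X - C (b' (Sum.inl 1) : ℚ_[ℓ])) ^ mm (Sum.inl 1) - C (cc (Sum.inl 1))) =
          P := by simp [b', mm, cc, hP]
      have e5 : ((X - C (b' (Sum.inl 2) : ℚ_[ℓ])) ^ mm (Sum.inl 2) - C (cc (Sum.inl 2))) =
          (X - C (-1)) ^ 2 - C (ℓ : ℚ_[ℓ]) := by simp [b', mm, cc]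
      rw [e3, e4, e5]
      ring
    rw [h3]
    exact hcoef i)
  have hQ1 : Q.eval 1 ≠ 0 := q1 (by
    intro j hj
    by_contra h0
    have h0' : b' j ≠ 0 := fun h => h0 (by simp [h])
    have hb : -(ℓ : ℤ) < b' j ∧ b' j < ℓ := by
      rcases j with j | j | j
      · fin_cases j <;> simp [b'] at h0' ⊢ <;> omega
      · have := j.2
        simp only [b', Sum.elim_inl, Sum.elim_inr]
        omega
      · have := j.2
        simp only [b', Sum.elim_inl, Sum.elim_inr]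
        omega
    rw [norm_int_one _ h0' hb] at hj
    exact lt_irrefl _ hj)
  have e0 : ((b' (Sum.inl 0) : ℤ) : ℚ_[ℓ]) = 0 := by simp [b']
  have hcard := q4 (Sum.inl 0)
  rw [e0] at hcard
  have hcard' : (Clus ℓ k Q 0).ncard = 2 := hcard
  have hcard1 : (Clus ℓ k Q (b' (Sum.inl 1) : ℚ_[ℓ])).ncard = 2 := q4 (Sum.inl 1)
  obtain ⟨x, y, hxy, hset⟩ := Set.ncard_eq_two.1 hcard1
  have hx : x ∈ Clus ℓ k Q (b' (Sum.inl 1) : ℚ_[ℓ]) := by rw [hset]; simp
  have hy : y ∈ Clus ℓ k Q (b' (Sum.inl 1) : ℚ_[ℓ]) := by rw [hset]; simp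
  have hxi : x⁻¹ ∈ Clus ℓ k Q (b' (Sum.inl 2) : ℚ_[ℓ]) :=
    q5 (Sum.inl 2) (Sum.inl 1) (by simp [b']) x hx
  obtain ⟨τ, hτ⟩ := q7 F hF (Sum.inl 1) x hx y hy
  have hτm : ∀ j, ∀ z ∈ Clus ℓ k Q (b' j : ℚ_[ℓ]), τ z ∈ Clus ℓ k Q (b' j : ℚ_[ℓ]) :=
    fun j z hz => q6 (τ.restrictScalars ℚ_[ℓ]) j z hz
  refine ⟨τ, x, y, hx.1, hy.1, fun h => hxy h.symm, ?_, hτ, ?_, ?_⟩
  · intro h4
    rw [h4] at hy
    exact Set.disjoint_left.1 (q3 (Sum.inl 1) (Sum.inl 2) (by simp)) hy hxi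
  · have h4 := hτm _ y hy
    rw [hset] at h4
    rcases h4 with h4 | h4
    · exact h4
    · exfalso
      have h5 : τ x = τ y := by rw [hτ]; exact h4.symm
      exact hxy (τ.injective h5)
  · intro z hz hz1 hz2 hz3 hz4
    obtain ⟨j, hj⟩ := q2 z hz
    have h9 := hτm _ z hj
    rcases j with j | j
    · fin_cases j
      · have e0' : ((b' (Sum.inl ⟨0, by norm_num⟩) : ℤ) : ℚ_[ℓ]) = 0 := by simp [b']
        have hz' : z ∈ Clus ℓ k Q 0 := by
          rw [← e0]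
          exact hj
        have hz0 : z ≠ 0 := (hinv z hz).1
        have hzi : z⁻¹ ∈ Clus ℓ k Q 0 := by
          have := q5 (Sum.inl 0) (Sum.inl 0) (by rw [e0]; simp) z (by rw [e0]; exact hz')
          rwa [e0] at this
        have hcl := Pool.Agent.Y405.ZI.clus0 h2 hQ1 hz' hcard' hzi hz0
        exact hcl (τ z) (by rw [← e0]; exact h9)
      · exfalso
        have h10 : z ∈ Clus ℓ k Q (b' (Sum.inl 1) : ℚ_[ℓ]) := hj
        rw [hset] at h10
        rcases h10 with h10 | h10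
        · exact hz1 h10
        · exact hz3 h10
      · exfalso
        have h10 : z⁻¹ ∈ Clus ℓ k Q (b' (Sum.inl 1) : ℚ_[ℓ]) :=
          q5 (Sum.inl 1) (Sum.inl 2) (by simp [b']) z hj
        rw [hset] at h10
        rcases h10 with h10 | h10
        · exact hz2 (by rw [← h10, inv_inv])
        · exact hz4 (by rw [← Set.mem_singleton_iff.1 h10, inv_inv])
    · left
      have h10 : (Clus ℓ k Q (b' (Sum.inr j) : ℚ_[ℓ])).ncard = 1 := by
        rw [q4 (Sum.inr j)]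
        rcases j with j | j <;> simp [mm]
      exact fix_one h10 hj h9

end Pool.Agent.R932.OP
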