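import Pool.Agent.Y142.ZS.Top
import Pool.Agent.Y614.ZD.Badd
import Pool.Agent.R932.Even
import Pool.Agent.Y710.ZS.Tans
import Pool.Agent.Y779.ZS.Chars
import Pool.Agent.Y929.ZS.Root
import Pool.Agent.Y674.ZS.SPL
import Pool.Agent.Y971.ZI.Irr
import Pool.Agent.Y405.ZI.TypU
import Pool.Agent.R932.OP.Gen
import Pool.Agent.R932.OP.Nr
import Pool.Agent.R932.OP.Clq
import Pool.Agent.R932.OP.TypC
import Pool.Agent.R932.OP.TypST
import Pool.Agent.R932.OP.SForm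
import Pool.Agent.R932.OP.TypG
import Pool.Agent.R932.OP.TypCU
import Pool.Agent.R932.OP.Twist

/-!
# Project OP: symplectic systems, from one prime to 100 percent of the primes
-/

set_option autoImplicit false
set_option linter.unusedSectionVars false
set_option linter.style.haveILetI false

open Matrix Polynomial Filter Topology NumberField IsDedekindDomain
open Pool.Agent.Y142.ZO Pool.Agent.Y142.ZI Pool.Agent.Y142.ZS
open Pool.Agent.Y142.ZD (DistPow S_BADD)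

namespace Pool.Agent.R932.OP

/-- strong irreducibility from one element -/
theorem badirr (hBADD : S_BADD) : S_BADIRR := by
  intro ℓ _ N G _ _ _ _ ρ hρ σ hirr hpow U W hU hW
  have hsep : (ρ σ).charpoly.Separable := hirr.separable
  obtain ⟨R, hRm, hRd, hR⟩ := hBADD ℓ N G ρ hρ U W hU hW σ hsep
    (fun j x y hj hx hy hxy => hpow j hj x y hx hy hxy)
  obtain ⟨T, hT⟩ := hR
  rcases hirr.isUnit_or_isUnit hT with h | h
  · left
    have h1 : R.natDegree = 0 := Polynomial.natDegree_eq_zero_of_isUnit h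
    rw [h1] at hRd
    exact Submodule.finrank_eq_zero.1 hRd.symm
  · right
    have h1 : T.natDegree = 0 := Polynomial.natDegree_eq_zero_of_isUnit h
    have hT0 : T ≠ 0 := h.ne_zero
    have h2 := congrArg Polynomial.natDegree hT
    rw [natDegree_mul hRm.ne_zero hT0, h1, add_zero, charpoly_natDegree_eq_dim, Fintype.card_fin,
      hRd] at h2
    apply Submodule.eq_top_of_finrank_eq
    rw [← h2, Module.finrank_fin_fun]

section
variable {K : Type} [Field K] [NumberField K] {N : ℕ} {S : Set (HeightOneSpectrum (𝓞 K))}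
  {P : HeightOneSpectrum (𝓞 K) → ℚ[X]} {q : HeightOneSpectrum (𝓞 K) → ℚ}

theorem even_of_alt {F : Type} [Field F] [CharZero F] {J : Matrix (Fin N) (Fin N) F}
    (hJ : Jᵀ = -J) (hdet : J.det ≠ 0) : Even N := by
  by_contra h
  rw [Nat.not_even_iff_odd] at h
  have h1 : J.det = -J.det := by
    conv_lhs => rw [← det_transpose, hJ, det_neg, Fintype.card_fin, h.neg_one_pow, neg_one_mul]
  have h2 : (2 : F) * J.det = 0 := by linear_combination h1
  exact hdet ((mul_eq_zero.1 h2).resolve_left two_ne_zero)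

/-- **symplectic systems: from one prime to 100 percent of the primes** -/
theorem sym_one (hN : 0 < N) (hS : S.Finite)
    (ρ : ∀ (ℓ : ℕ) [Fact ℓ.Prime], GK K →* Matrix (Fin N) (Fin N) ℚ_[ℓ])
    (J : ∀ (ℓ : ℕ) [Fact ℓ.Prime], Matrix (Fin N) (Fin N) ℚ_[ℓ])
    (hsys : ∀ (ℓ : ℕ) [Fact ℓ.Prime], SpSys K N ℓ (ρ ℓ) (J ℓ) S P q)
    (ℓ₀ : ℕ) [hℓ₀ : Fact ℓ₀.Prime] (h2 : ℓ₀ ≠ 2) (hfull : FullSp ℓ₀ (ρ ℓ₀) (J ℓ₀)) :
    Y142.ZI.DensityZero {ℓ | ∃ _ : Fact ℓ.Prime, ¬ FullSp ℓ (ρ ℓ) (J ℓ)} := by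
  obtain ⟨m, hm⟩ : ∃ m, N = 2 * m + 2 := by
    obtain ⟨k, hk⟩ := even_of_alt (hsys ℓ₀).2.1 (hsys ℓ₀).2.2.1
    exact ⟨k - 1, by omega⟩
  subst hm
  have hTAN : Y142.ZO.S_TAN := Y708.ZO.t
  have hEXP : Y142.ZO.S_EXP := Y497.ZO.exp
  have hFROB : Y142.ZO.S_FROB := Y405.ZO.t
  have hINT : Y142.ZI.S_INT := Y484.ZI.t1
  have hRES : Y142.ZI.S_RES := Y484.ZI.t2
  have hCOMP : Y142.ZI.S_COMP := Y547.ZI.t2
  have hCHEB : Y142.ZI.S_CHEB := Y726.ZI.t1
  have hPOS : Y142.ZI.S_POS := Y726.ZI.t2 hCHEB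
  have hDENS2 : Y142.ZI.S_DENS2 := Y681.ZI.t hCHEB
  have hMULTI : Y142.ZI.S_MULTI := Y537.ZI.t
  have hIRR : Y142.ZI.S_IRR := Y971.ZI.t
  have hBADD : Y142.ZD.S_BADD := Y614.ZD.t
  have hBADIRR : S_BADIRR := badirr hBADD
  have hTANS : S_TANS := Y710.ZS.t1
  have hROOT : S_ROOT := Y929.ZS.t_root
  have hSPL : S_SPL := Y674.ZS.t
  have hCHARS : S_CHARS := Y779.ZS.t
  have hCLQ : Y142.ZI.S_CLQ := clq
  have hGEN : Y142.ZI.S_GEN := gen
  have hUNR : Y142.ZI.S_UNR := unr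
  have hTYPC : Y142.ZI.S_TYPC := typc
  have hTYPS : Y142.ZI.S_TYPS := typs hCLQ hCOMP
  have hTYPT : Y142.ZI.S_TYPT := typt hCLQ hCOMP
  have hTYPU : Y142.ZI.S_TYPU := Y405.ZI.t hCLQ hCOMP
  obtain ⟨v, w, hv, hw, hne⟩ := start hMULTI hFROB hCHARS sform typcu typg hS ρ J hsys ℓ₀ h2 hfull
  exact densityS hTAN hEXP hTANS hROOT hBADIRR hPOS hIRR hSPL hMULTI hFROB hCHARS sform twist
    hTYPC hTYPS hTYPT hTYPU typg hGEN hRES hUNR hINT hDENS2 hS ρ J hsys hv hw hne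

end

end Pool.Agent.R932.OP
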