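import Pool.Agent.R932.OP.KCore

set_option autoImplicit false

/-! Project OP, task TYPX: the generic local type. -/

open Polynomial Filter Topology
open Pool.Agent.Y142.ZI
open Pool.Agent.Y331.ZD (um_add um_sub near_split norm_map exists_mu exists_bd root_aut)

namespace Pool.Agent.R932.OP

variable {ℓ : ℕ} [hℓ : Fact ℓ.Prime]

theorem no_sum {L : Type} [NormedField L] [IsUltrametricDist L] {x y z : L} (h2 : ‖(2 : L)‖ = 1)
    (h3 : (3 : L) ≠ 0) (hx : x ≠ 0) (hy : y ≠ 0) (hz : z ≠ 0)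
    (hxy : ‖x‖ = ‖y‖ → x = y ∨ x = -y) (hxz : ‖x‖ = ‖z‖ → x = z ∨ x = -z)
    (hyz : ‖y‖ = ‖z‖ → y = z ∨ y = -z) : x + y ≠ z := by
  intro h
  by_cases e : ‖x‖ = ‖y‖
  · rcases hxy e with e1 | e1
    · have hz2 : z = 2 * x := by rw [← h, ← e1]; ring
      have hn : ‖x‖ = ‖z‖ := by rw [hz2, norm_mul, h2, one_mul]
      rcases hxz hn with e2 | e2
      · apply hx
        rw [hz2] at e2
        linear_combination -e2
      · have h4 : (3 : L) * x = 0 := by
          rw [hz2] at e2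
          linear_combination e2
        rcases mul_eq_zero.1 h4 with h5 | h5
        · exact h3 h5
        · exact hx h5
    · apply hz
      rw [← h, e1]
      ring
  · have hm := IsUltrametricDist.norm_add_eq_max_of_norm_ne_norm e
    rw [h] at hm
    rcases max_choice ‖x‖ ‖y‖ with h4 | h4
    · rw [h4] at hm
      rcases hxz hm.symm with e2 | e2
      · apply hy
        rw [← e2] at h
        linear_combination h
      · apply e
        have hy2 : y = 2 * z := by linear_combination h - e2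
        rw [hy2, norm_mul, h2, one_mul, hm]
    · rw [h4] at hm
      rcases hyz hm.symm with e2 | e2
      · apply hx
        rw [← e2] at h
        linear_combination h
      · apply e
        have hx2 : x = 2 * z := by linear_combination h - e2
        rw [hx2, norm_mul, h2, one_mul, hm]

theorem typx : Pool.Agent.Y142.ZI.S_TYPX := by
  classical
  intro ℓ hℓ h2 m
  set L := AlgebraicClosure ℚ_[ℓ] with hL
  have hnorm : ∀ x : ℚ_[ℓ], ‖algebraMap ℚ_[ℓ] L x‖ = ‖x‖ := norm_map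
  have hℓ1 : (1 : ℝ) < ℓ := by exact_mod_cast hℓ.out.one_lt
  have hℓ0 : (0 : ℝ) < ℓ := by linarith
  -- the matrix
  have hmon : (∏ j : Fin m, (X - C ((ℓ : ℚ_[ℓ]) ^ ((j : ℕ) + 1)))).Monic :=
    monic_prod_of_monic _ _ fun j _ => monic_X_sub_C _
  have hdeg : (∏ j : Fin m, (X - C ((ℓ : ℚ_[ℓ]) ^ ((j : ℕ) + 1)))).natDegree = m := by
    rw [natDegree_prod_of_monic _ _ fun j _ => monic_X_sub_C _,
      Finset.sum_congr rfl fun j _ => natDegree_X_sub_C _]
    simp
  obtain ⟨A, hA⟩ := Pool.Agent.Y547.ZI.t2 ℚ_[ℓ] m _ hmon hdeg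
  have hA' : (-A).charpoly = ∏ j : Fin m, (X + C ((ℓ : ℚ_[ℓ]) ^ ((j : ℕ) + 1))) := by
    rw [Pool.Agent.Y405.ZI.charpoly_neg', hA, prod_comp]
    have h1 : ((-1 : ℚ_[ℓ][X]) ^ m) = ∏ _j : Fin m, (-1 : ℚ_[ℓ][X]) := by
      rw [Finset.prod_const, Finset.card_univ, Fintype.card_fin]
    rw [h1, ← Finset.prod_mul_distrib]
    refine Finset.prod_congr rfl fun j _ => ?_
    rw [sub_comp, X_comp, C_comp]
    ring
  refine ⟨A, fun c hc => ?_⟩
  -- the roots
  obtain ⟨γ, hγ⟩ := IsAlgClosed.exists_pow_nat_eq (algebraMap ℚ_[ℓ] L c) (show 0 < 2 by norm_num)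
  have hγn : ‖γ‖ ^ 2 = (ℓ : ℝ)⁻¹ := by rw [← norm_pow, hγ, hnorm, hc]
  let a : Option (Fin m) → L := fun o =>
    o.elim γ (fun j => algebraMap ℚ_[ℓ] L ((ℓ : ℚ_[ℓ]) ^ ((j : ℕ) + 1)))
  have haS : ∀ j : Fin m, ‖a (some j)‖ = ((ℓ : ℝ)⁻¹) ^ ((j : ℕ) + 1) := by
    intro j
    show ‖algebraMap ℚ_[ℓ] L ((ℓ : ℚ_[ℓ]) ^ ((j : ℕ) + 1))‖ = _
    rw [hnorm, norm_pow, Padic.norm_p]
  have haN : ‖a none‖ ^ 2 = (ℓ : ℝ)⁻¹ := hγn
  have hinv1 : (ℓ : ℝ)⁻¹ < 1 := inv_lt_one_of_one_lt₀ hℓ1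
  have hinv0 : 0 < (ℓ : ℝ)⁻¹ := inv_pos.2 hℓ0
  have hpinj : Function.Injective (fun n : ℕ => ((ℓ : ℝ)⁻¹) ^ n) :=
    (pow_right_strictAnti₀ hinv0 hinv1).injective
  have hainj : ∀ i i', ‖a i‖ = ‖a i'‖ → i = i' := by
    have hNS : ∀ j : Fin m, ‖a none‖ ≠ ‖a (some j)‖ := by
      intro j h
      have h1 := haN
      rw [h, haS, ← pow_mul] at h1
      have h3 : (fun n : ℕ => ((ℓ : ℝ)⁻¹) ^ n) (((j : ℕ) + 1) * 2) =
          (fun n : ℕ => ((ℓ : ℝ)⁻¹) ^ n) 1 := by
        simp only [pow_one]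
        exact h1
      have h4 := hpinj h3
      omega
    rintro (_ | j) (_ | j') h
    · rfl
    · exact absurd h (hNS j')
    · exact absurd h.symm (hNS j)
    · rw [haS, haS] at h
      have h4 := hpinj h
      simp only [add_left_inj] at h4
      rw [Fin.ext h4]
  have ha0 : ∀ i, a i ≠ 0 := by
    rintro (_ | j) h
    · rw [h, norm_zero] at haN
      norm_num at haN
      exact hinv0.ne' (by simpa using haN.symm)
    · have := haS j
      rw [h, norm_zero] at this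
      exact (pow_pos hinv0 _).ne this
  have h2n : ‖(2 : L)‖ = 1 := by
    have h1 := hnorm 2
    rw [map_ofNat, Pool.Agent.Y405.ZI.norm_two h2] at h1
    exact h1
  have h2L : (2 : L) ≠ 0 := by
    intro h
    rw [h, norm_zero] at h2n
    exact zero_ne_one h2n
  have h3L : (3 : L) ≠ 0 := by norm_num
  set b := pm a with hb
  have hbn : ∀ p, ‖b p‖ = ‖a p.1‖ := pm_norm a
  have hb0 : ∀ p, b p ≠ 0 := pm_ne a ha0
  have hbb : ∀ p q, ‖b p‖ = ‖b q‖ → b p = b q ∨ b p = -(b q) := by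
    rintro ⟨i, s⟩ ⟨i', s'⟩ h
    rw [hbn, hbn] at h
    have h1 := hainj _ _ h
    dsimp only at h1
    subst h1
    cases s <;> cases s'
    · exact Or.inl rfl
    · exact Or.inr rfl
    · refine Or.inr ?_
      show a i = - -(a i)
      rw [neg_neg]
    · exact Or.inl rfl
  have hbinj : Function.Injective b := by
    rintro ⟨i, s⟩ ⟨i', s'⟩ h
    have h1 : i = i' := hainj _ _ (by
      have := congrArg norm h
      rwa [hbn, hbn] at this)
    subst h1
    have h4 : a i ≠ -(a i) := by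
      intro h5
      have h6 : (2 : L) * a i = 0 := by linear_combination h5
      rcases mul_eq_zero.1 h6 with h7 | h7
      · exact h2L h7
      · exact ha0 i h7
    cases s <;> cases s'
    · rfl
    · simp only [hb, pm] at h
      exact absurd h.symm h4
    · simp only [hb, pm] at h
      exact absurd h h4
    · rfl
  have hR : ((X ^ 2 - C c) * A.charpoly * (-A).charpoly).map (algebraMap ℚ_[ℓ] L) =
      ∏ p, (X - C (b p)) := by
    rw [hb, prod_pm, Fintype.prod_option, hA, hA', mul_assoc, ← Finset.prod_mul_distrib,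
      Polynomial.map_mul, Polynomial.map_prod]
    congr 1
    · rw [Polynomial.map_sub, Polynomial.map_pow, map_X, map_C, ← hγ]
      show X ^ 2 - C (γ ^ 2) = (X - C γ) * (X + C γ)
      rw [C_pow]
      ring
    · refine Finset.prod_congr rfl fun j _ => ?_
      rw [Polynomial.map_mul, Polynomial.map_sub, Polynomial.map_add, map_X, map_C]
      rfl
  obtain ⟨μ1, h10, h11, h12⟩ := exists_mu
    (fun q : (Option (Fin m) × Bool) × (Option (Fin m) × Bool) => ‖b q.1 - b q.2‖)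
    (fun q => b q.1 - b q.2 ≠ 0) (fun q hq => norm_pos_iff.mpr hq)
  obtain ⟨μ2, h20, h21, h22⟩ := exists_mu
    (fun q : (Option (Fin m) × Bool) => ‖b q‖) (fun _ => True)
    (fun q _ => norm_pos_iff.mpr (hb0 q))
  obtain ⟨μ3, h30, h31, h32⟩ := exists_mu
    (fun q : ((Option (Fin m) × Bool) × (Option (Fin m) × Bool)) × (Option (Fin m) × Bool) =>
      ‖b q.1.1 + b q.1.2 - b q.2‖)
    (fun _ => True)
    (fun q _ => norm_pos_iff.mpr (sub_ne_zero.2 (no_sum h2n h3L (hb0 _) (hb0 _) (hb0 _)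
      (hbb _ _) (hbb _ _) (hbb _ _))))
  obtain ⟨ε, k₀, hε, -, H⟩ := core b _ hR (μ := min μ1 (min μ2 μ3)) (by positivity)
    ((min_le_left _ _).trans h11) (by
      intro j j' hjj
      refine (min_le_left _ _).trans (h12 (j, j') ?_)
      exact sub_ne_zero.2 (fun e => hjj (hbinj e)))
  refine ⟨ε, k₀, hε, ?_⟩
  intro k Q hk hk0 hQ hQd hcl
  obtain ⟨r, hrinj, hrb, hrr, hr3, -, hroot, -⟩ := H k Q hk hQ (by
    rw [hQd]
    simp
    ring) hcl
  have hm2 : min μ1 (min μ2 μ3) ≤ μ2 := (min_le_right _ _).trans (min_le_left _ _)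
  have hm3 : min μ1 (min μ2 μ3) ≤ μ3 := (min_le_right _ _).trans (min_le_right _ _)
  constructor
  · intro n x hn hx hxn
    obtain ⟨j, rfl⟩ := (hroot x).1 hx
    have h1 := Pool.Agent.Y518.SS.root_one _ (hr3 j) n hn hxn
    rcases mul_eq_zero.1 h1 with h4 | h4
    · exact la_ne k h4
    · have h5 := hrb j
      rw [h4, zero_sub, norm_neg] at h5
      have h6 := h22 j trivial
      linarith
  · intro x y z hx hy hz h
    obtain ⟨j1, rfl⟩ := (hroot x).1 hx
    obtain ⟨j2, rfl⟩ := (hroot y).1 hy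
    obtain ⟨j3, rfl⟩ := (hroot z).1 hz
    have h4 : r j1 + r j2 - r j3 = -(la ℓ k * (r j1 * r j2)) := by
      apply mul_left_cancel₀ (la_ne (ℓ := ℓ) k)
      linear_combination h
    have h5 : ‖b j1 + b j2 - b j3‖ < min μ1 (min μ2 μ3) := by
      have h6 : b j1 + b j2 - b j3 = (r j1 + r j2 - r j3) - (r j1 - b j1) - (r j2 - b j2) +
        (r j3 - b j3) := by ring
      rw [h6]
      refine um_add (um_sub (um_sub ?_ (hrb j1)) (hrb j2)) (hrb j3)
      rw [h4, norm_neg]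
      exact hrr j1 j2
    have h7 := h32 ((j1, j2), j3) trivial
    dsimp only at h7
    linarith

end Pool.Agent.R932.OP
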