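import Pool.Agent.R932.OP.Irr1
import Pool.Agent.R932.OP.SymA
import Pool.Agent.R499.OP.Form
import Pool.Agent.R932.OP.NtCay
import Pool.Agent.R932.OP.TypX
import Pool.Agent.R932.Tan
import Pool.Agent.R932.MtOdd

/-!
# Project OP: orthogonal systems of odd rank, from one prime to 100 percent of the primes
-/

set_option autoImplicit false
set_option linter.unusedSectionVars false
set_option linter.style.haveILetI false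

open Matrix Polynomial Filter Topology NumberField IsDedekindDomain
open Pool.Agent.Y142.ZO Pool.Agent.Y142.ZI

namespace Pool.Agent.R932.OP

section
variable {K : Type} [Field K] [NumberField K] {N : ℕ} {S : Set (HeightOneSpectrum (𝓞 K))}
  {P : HeightOneSpectrum (𝓞 K) → ℚ[X]}

/-- **orthogonal systems of odd rank: from one prime to 100 percent of the primes** -/
theorem orth_one (hodd : Odd N) (hN : 3 ≤ N) (hS : S.Finite)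
    (ρ : ∀ (ℓ : ℕ) [Fact ℓ.Prime], GK K →* Matrix (Fin N) (Fin N) ℚ_[ℓ])
    (B : ∀ (ℓ : ℕ) [Fact ℓ.Prime], Matrix (Fin N) (Fin N) ℚ_[ℓ])
    (hsys : ∀ (ℓ : ℕ) [Fact ℓ.Prime], Orthogonal K N ℓ (ρ ℓ) (B ℓ) S P)
    (ℓ₀ : ℕ) [hℓ₀ : Fact ℓ₀.Prime] (hdvd : ¬ ℓ₀ ∣ N - 1) (hfull : FullLie ℓ₀ (ρ ℓ₀) (B ℓ₀)) :
    Y142.ZI.DensityZero {ℓ | ∃ _ : Fact ℓ.Prime, ¬ FullLie ℓ (ρ ℓ) (B ℓ)} := by
  obtain ⟨m, hm⟩ : ∃ m, N = 2 * m + 3 := by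
    obtain ⟨k, hk⟩ := hodd
    exact ⟨k - 1, by omega⟩
  subst hm
  have hdvd' : ¬ ℓ₀ ∣ 2 * (m + 1) := by
    rw [show 2 * m + 3 - 1 = 2 * (m + 1) by omega] at hdvd
    exact hdvd
  have hℓ2 : ℓ₀ ≠ 2 := by
    rintro rfl
    exact hdvd' ⟨m + 1, rfl⟩
  have hALG : Y142.ZO.S_ALG := Y142.ZO.alg_main
  have hISO : Y142.ZO.S_ISO := Y337.ZO.iso_t
  have hLINE : Y142.ZO.S_LINE := Y337.ZO.line_t
  have hTAN : Y142.ZO.S_TAN := Y708.ZO.t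
  have hLOG : Y142.ZO.S_LOG := Y497.ZO.log
  have hEXP : Y142.ZO.S_EXP := Y497.ZO.exp
  have hPOW : Y142.ZO.S_POW := Y497.ZO.pow
  have hSPEC : Y142.ZO.S_SPEC := Y96.ZO.t
  have hAPP : Y142.ZO.S_APP := Y815.ZO.t Y337.ZO.det_t Y337.ZO.qz_t hLOG
  have hFROB : Y142.ZO.S_FROB := Y405.ZO.t
  have hBAD : Y142.ZO.S_BAD := Y458.ZO.bad hISO hLINE
  have hVAL : Y142.ZO.S_VAL := Y405.ZO.t1
  have hVAL2 : Y142.ZO.S_VAL2 := Y405.ZO.t2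
  have hDENS : Y142.ZO.S_DENS := Y394.ZO.t1
  have hINF : Y142.ZO.S_INF := Y394.ZO.t2
  have hINT : Y142.ZI.S_INT := Y484.ZI.t1
  have hRES : Y142.ZI.S_RES := Y484.ZI.t2
  have hCOMP : Y142.ZI.S_COMP := Y547.ZI.t2
  have hCHEB : Y142.ZI.S_CHEB := Y726.ZI.t1
  have hPOS : Y142.ZI.S_POS := Y726.ZI.t2 hCHEB
  have hDENS2 : Y142.ZI.S_DENS2 := Y681.ZI.t hCHEB
  have hMULTI : Y142.ZI.S_MULTI := Y537.ZI.t
  have hIRR : Y142.ZI.S_IRR := Y971.ZI.t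
  have hOPEN : Y142.ZI.S_OPEN := Y884.ZI.t
  have hCHAR : Y142.ZI.S_CHAR := Y949.ZI.t
  have hBADRED : Y142.ZI.S_BADRED := Y379.ZI.t
  have hTYPS : Y142.ZI.S_TYPS := typs clq hCOMP
  have hTYPT : Y142.ZI.S_TYPT := typt clq hCOMP
  have hTYPU : Y142.ZI.S_TYPU := Y405.ZI.t clq hCOMP
  have hN' : Odd (2 * m + 3) := ⟨m + 1, by ring⟩
  obtain ⟨v₀, Q₀, hv₀, h0, hv₀ℓ⟩ := good_of_full hFROB hMULTI hCHAR R499.OP.form1 typx hS ρ B hsys ℓ₀ hℓ2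
    hfull
  have hnt : ¬ TateSubquotient ℓ₀ (ρ ℓ₀) := nt ℓ₀ (2 * m + 3) (by omega) (GK K) (ρ ℓ₀)
    (hsys ℓ₀).1 (B ℓ₀) (hsys ℓ₀).2.1 (hsys ℓ₀).2.2.1 hfull
  have hTS : Y142.ZO.DensityZero (TateSet ρ) := by
    rcases zero_one hALG hISO hLINE hTAN hLOG hEXP hPOW hSPEC hAPP hFROB hBAD hVAL hVAL2
      hDENS hINF hN' hS hv₀ h0 ρ B hsys with h | h
    · exact absurd (h ℓ₀ hv₀ℓ) hnt
    · exact h
  obtain ⟨v₁, Q₁, hv₁, hdeg₁, hne⟩ := cyc_of_full hFROB hMULTI hCHAR hRES unr R499.OP.form2 typc hS ρ B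
    hsys ℓ₀ hdvd' hfull
  have h1 := density_of_cyc hLINE hTAN hEXP hSPEC hFROB hBADRED hPOS hIRR hOPEN hMULTI hCHAR gen hRES
    unr hINT hDENS2 R499.OP.form1 R499.OP.form2 typc hTYPS hTYPT hTYPU hS hv₀ h0 ρ B hsys hTS hv₁ hdeg₁ hne
  refine Y142.ZI.DensityZero.mono h1 ?_
  rintro ℓ ⟨hp, hno⟩
  exact ⟨hp, fun h => hno (cay ℓ _ _ (ρ ℓ) (B ℓ) (hsys ℓ).2.1 (hsys ℓ).2.2.1 h)⟩

end

section
variable {ℓ : ℕ} [Fact ℓ.Prime] {N : ℕ} {G Γ : Type} [Group G] [Group Γ]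
  [TopologicalSpace Γ] [IsTopologicalGroup Γ] [CompactSpace Γ]

/-- the tangent space does not change if the image contains the image of an open subgroup -/
theorem tangent_comp {s : G →* Γ} {ρ : Γ →* Matrix (Fin N) (Fin N) ℚ_[ℓ]} (hρ : Continuous ρ)
    {U : Subgroup Γ} (hU : IsOpen (U : Set Γ)) (hs : ∀ γ ∈ U, ∃ g, ρ (s g) = ρ γ)
    {X : Matrix (Fin N) (Fin N) ℚ_[ℓ]} (hX : IsTangent ℓ ρ X) : IsTangent ℓ (ρ.comp s) X := by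
  classical
  obtain ⟨σ, hσ⟩ := hX
  haveI : T2Space (Matrix (Fin N) (Fin N) ℚ_[ℓ]) :=
    inferInstanceAs (T2Space (Fin N → Fin N → ℚ_[ℓ]))
  have h1 := eventually_mem hρ hU (tendsto_one hσ)
  have h2 : ∀ n, ∃ g : G, (∃ u ∈ U, ρ u = ρ (σ n)) → ρ (s g) = ρ (σ n) := by
    intro n
    by_cases h : ∃ u ∈ U, ρ u = ρ (σ n)
    · obtain ⟨u, hu, huρ⟩ := h
      obtain ⟨g, hg⟩ := hs u hu
      exact ⟨g, fun _ => by rw [hg, huρ]⟩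
    · exact ⟨1, fun h' => absurd h' h⟩
  choose τ hτ using h2
  refine ⟨τ, hσ.congr' ?_⟩
  filter_upwards [h1] with n hn
  rw [MonoidHom.comp_apply, hτ n hn]

end

end Pool.Agent.R932.OP
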