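import Pool.Agent.Y142.ZD.Stm
import Pool.Agent.Y737.SS.Chara
import Pool.Agent.Y949.ZI.Char
import Pool.Agent.R932.BrA

set_option autoImplicit false

/-!
Project OP (helper932), tasks CHARE and DISCE (helper746).
-/

open Matrix Polynomial Filter Topology
open Pool.Agent.Y142.ZO Pool.Agent.Y142.ZI

namespace Pool.Agent.R932.OP

theorem chare : Pool.Agent.Y142.ZD.S_CHARE := by
  intro ℓ _ N hN B T hB ε hε
  obtain ⟨δ, k₀, hδ, h⟩ := Pool.Agent.Y737.SS.Chara.t ℓ N hN T ε hε
  refine ⟨δ, k₀, hδ, fun k g hk hg hgT => ⟨h k g hk hgT, fun x hx => ?_⟩⟩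
  have hdet : g.det ≠ 0 := by
    intro h0
    have h1 : gᵀ * B * g = B := hg
    have h2 := congrArg Matrix.det h1
    rw [det_mul, h0, mul_zero] at h2
    exact hB h2.symm
  have hx0 : x ≠ 0 := by
    rintro rfl
    rw [← coeff_zero_eq_aeval_zero'] at hx
    have h2 : g.charpoly.coeff 0 = 0 := (_root_.map_eq_zero _).1 hx
    have h3 := Matrix.det_eq_sign_charpoly_coeff g
    rw [h2, mul_zero] at h3
    exact hdet h3
  exact ⟨hx0, Pool.Agent.Y949.ZI.inv_root
    (algebraMap ℚ_[ℓ] (AlgebraicClosure ℚ_[ℓ])) hB hg x hx0 hx⟩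

theorem disce : Pool.Agent.Y142.ZD.S_DISCE := by
  intro F _ _ N hN B g hBs hg _ _
  have h1 : gᵀ * B * g = B := hg
  set M : Matrix (Fin N) (Fin N) F := (g + 1)ᵀ * B * (g - 1) with hM
  have hM1 : M = B * g - gᵀ * B := by
    rw [hM, transpose_add, transpose_one]
    have : (gᵀ + 1) * B * (g - 1) = gᵀ * B * g - gᵀ * B + B * g - B := by
      noncomm_ring
    rw [this, h1]
    abel
  have hskew : Mᵀ = -M := by
    rw [hM1, transpose_sub, transpose_mul, transpose_mul, transpose_transpose, hBs]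
    abel
  have hsq := Pool.Agent.R932.isSquare_add_vecMulVec' M (0 : Fin N → F) hskew
  have h0 : M + vecMulVec (0 : Fin N → F) 0 = M := by
    ext i j
    simp [vecMulVec_apply]
  rw [h0] at hsq
  have e1 : g.charpoly.eval 1 = (g - 1).det := by
    rw [eval_charpoly, map_one, ← neg_sub, det_neg, Fintype.card_fin, hN.neg_one_pow, one_mul]
  have e2 : g.charpoly.eval (-1) = (g + 1).det := by
    rw [eval_charpoly, map_neg, map_one]
    have : (-1 - g : Matrix (Fin N) (Fin N) F) = -(g + 1) := by abel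
    rw [this, det_neg, Fintype.card_fin, hN.neg_one_pow, one_mul]
  have e3 : g.charpoly.eval 1 * g.charpoly.eval (-1) * B.det = M.det := by
    rw [e1, e2, hM, det_mul, det_mul, det_transpose]
    ring
  rw [e3]
  exact hsq

end Pool.Agent.R932.OP
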