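import Pool.Agent.Y142.ZD.Stm

/-!
# Task CLD (project OP of helper932, worker helper213)

Signed permutations without stable subsets of a given size.
-/

set_option autoImplicit false
set_option linter.unusedSimpArgs false
set_option linter.style.longLine false
set_option linter.style.haveILetI false

open Equiv Equiv.Perm

namespace Pool.Agent.R932.OP

/-- cycle type of a fixed point free involution -/
theorem ct_inv {R : Type} [Fintype R] [DecidableEq R] [Nonempty R] (ι : Equiv.Perm R)
    (hf : ∀ x, ι x ≠ x) (hi : ∀ x, ι (ι x) = x) :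
    ∃ m : ℕ, ι.cycleType = Multiset.replicate m 2 ∧ 2 * m = Fintype.card R := by
  have h2 : ι ^ 2 = 1 := by ext x; rw [pow_two, Equiv.Perm.mul_apply, hi]; rfl
  have h1 : ι ≠ 1 := by
    intro h
    obtain ⟨x⟩ := ‹Nonempty R›
    exact hf x (by rw [h]; rfl)
  have ho : orderOf ι = 2 := orderOf_eq_prime h2 h1
  obtain ⟨n, hn⟩ := Equiv.Perm.cycleType_prime_order (σ := ι) (by rw [ho]; exact Nat.prime_two)
  rw [ho] at hn
  refine ⟨n + 1, hn, ?_⟩
  have hs := Equiv.Perm.sum_cycleType ι
  rw [hn, Multiset.sum_replicate, smul_eq_mul] at hs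
  have hsup : ι.support = Finset.univ := by
    ext x
    simp [Equiv.Perm.mem_support, hf x]
  rw [hsup, Finset.card_univ] at hs
  omega

theorem exists_conj {R M : Type} [Fintype R] [DecidableEq R] [Fintype M] [DecidableEq M]
    [Nonempty R] (ι : Equiv.Perm R) (κ : Equiv.Perm M)
    (hf : ∀ x, ι x ≠ x) (hi : ∀ x, ι (ι x) = x) (kf : ∀ x, κ x ≠ x) (ki : ∀ x, κ (κ x) = x)
    (hcard : Fintype.card R = Fintype.card M) : ∃ e : R ≃ M, ∀ x, e (ι x) = κ (e x) := by
  obtain ⟨e₀⟩ : Nonempty (R ≃ M) := ⟨Fintype.equivOfCardEq hcard⟩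
  haveI : Nonempty M := e₀.nonempty_congr.mp inferInstance
  set ι' : Equiv.Perm M := (e₀.symm.trans ι).trans e₀ with hι'
  have hf' : ∀ x, ι' x ≠ x := by
    intro x hx
    rw [hι'] at hx
    simp only [Equiv.trans_apply] at hx
    apply hf (e₀.symm x)
    rw [← e₀.symm_apply_apply (ι (e₀.symm x)), hx]
  have hi' : ∀ x, ι' (ι' x) = x := by
    intro x
    rw [hι']
    simp only [Equiv.trans_apply, Equiv.symm_apply_apply]
    rw [hi]; simp
  obtain ⟨m, hm, hm2⟩ := ct_inv ι' hf' hi'
  obtain ⟨m', hm', hm2'⟩ := ct_inv κ kf ki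
  have hmm : m = m' := by omega
  have hc : IsConj ι' κ := by
    rw [Equiv.Perm.isConj_iff_cycleType_eq, hm, hm', hmm]
  rw [isConj_iff] at hc
  obtain ⟨c, hc⟩ := hc
  refine ⟨e₀.trans c, fun x => ?_⟩
  rw [← hc]
  simp only [Equiv.trans_apply, Equiv.Perm.mul_apply]
  have : c⁻¹ (c (e₀ x)) = e₀ x := Equiv.symm_apply_apply c _
  rw [this, hι']
  simp only [Equiv.trans_apply, Equiv.symm_apply_apply]

/-- only trivial stable subsets -/
def Triv {M : Type} [Fintype M] (w : Equiv.Perm M) : Prop :=
  ∀ T : Finset M, (∀ x ∈ T, w x ∈ T) → T = ∅ ∨ T = Finset.univ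

theorem triv_rot (k : ℕ) (hk : 2 ≤ k) : Triv (finRotate k) := by
  intro T hT
  rcases T.eq_empty_or_nonempty with h | ⟨x, hx⟩
  · left; exact h
  · right
    have hp : ∀ j : ℕ, ((finRotate k) ^ j) x ∈ T := by
      intro j
      induction j with
      | zero => simpa using hx
      | succ j ih => rw [pow_succ', Equiv.Perm.mul_apply]; exact hT _ ih
    ext y
    simp only [Finset.mem_univ, iff_true]
    have hc := isCycle_finRotate_of_le hk
    have hs := support_finRotate_of_le hk
    have hx1 : finRotate k x ≠ x := by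
      rw [← Equiv.Perm.mem_support, hs]; exact Finset.mem_univ _
    have hy1 : finRotate k y ≠ y := by
      rw [← Equiv.Perm.mem_support, hs]; exact Finset.mem_univ _
    obtain ⟨j, hj⟩ := hc.exists_pow_eq hx1 hy1
    rw [← hj]
    exact hp j

/-- the involution on `Fin (2 * k)` -/
def kap (k : ℕ) : Equiv.Perm (Fin (2 * k)) := (finRotate (2 * k)) ^ k

theorem order_rot (k : ℕ) (hk : 2 ≤ k) : orderOf (finRotate k) = k := by
  rw [(isCycle_finRotate_of_le hk).orderOf, support_finRotate_of_le hk, Finset.card_univ,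
    Fintype.card_fin]

theorem kap_free (k : ℕ) (hk : 1 ≤ k) (x : Fin (2 * k)) : kap k x ≠ x := by
  intro hx
  have h2 : 2 ≤ 2 * k := by omega
  have hc := isCycle_finRotate_of_le h2
  have h1 : (finRotate (2 * k)) ^ k = 1 := by
    rw [hc.pow_eq_one_iff]
    refine ⟨x, ?_, hx⟩
    rw [← Equiv.Perm.mem_support, support_finRotate_of_le h2]; exact Finset.mem_univ _
  have h3 := orderOf_dvd_of_pow_eq_one h1
  rw [order_rot _ h2] at h3
  have := Nat.le_of_dvd (by omega) h3
  omega

theorem kap_inv (k : ℕ) (hk : 1 ≤ k) (x : Fin (2 * k)) : kap k (kap k x) = x := by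
  have h2 : 2 ≤ 2 * k := by omega
  rw [← Equiv.Perm.mul_apply, kap, ← pow_add]
  have : k + k = 2 * k := by ring
  rw [this]
  have h3 : (finRotate (2 * k)) ^ (2 * k) = 1 := by
    have := pow_orderOf_eq_one (finRotate (2 * k))
    rwa [order_rot _ h2] at this
  rw [h3]; rfl

theorem kap_comm (k : ℕ) (x : Fin (2 * k)) :
    finRotate (2 * k) (kap k x) = kap k (finRotate (2 * k) x) := by
  rw [← Equiv.Perm.mul_apply, ← Equiv.Perm.mul_apply, kap, ← pow_succ', ← pow_succ]

theorem sign_rot (k : ℕ) (hk : 1 ≤ k) : Equiv.Perm.sign (finRotate (2 * k)) = -1 := by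
  obtain ⟨m, rfl⟩ : ∃ m, k = m + 1 := ⟨k - 1, by omega⟩
  have : 2 * (m + 1) = (2 * m + 1) + 1 := by ring
  rw [this, sign_finRotate, Nat.add_sub_cancel, pow_succ, pow_mul]; simp

theorem sum_stable {A B : Type} [Fintype A] [Fintype B] [DecidableEq A] [DecidableEq B]
    (u : Equiv.Perm A) (v : Equiv.Perm B) (hu : Triv u) (hv : Triv v) (T : Finset (A ⊕ B))
    (hT : ∀ x ∈ T, (Equiv.Perm.sumCongr u v) x ∈ T) :
    (T.toLeft.card = 0 ∨ T.toLeft.card = Fintype.card A) ∧
    (T.toRight.card = 0 ∨ T.toRight.card = Fintype.card B) := by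
  constructor
  · have := hu T.toLeft (by
      intro x hx
      rw [Finset.mem_toLeft] at hx ⊢
      exact hT _ hx)
    rcases this with h | h
    · left; rw [h]; rfl
    · right; rw [h]; rfl
  · have := hv T.toRight (by
      intro x hx
      rw [Finset.mem_toRight] at hx ⊢
      exact hT _ hx)
    rcases this with h | h
    · left; rw [h]; rfl
    · right; rw [h]; rfl

theorem transport {R M : Type} [Fintype R] [DecidableEq R] [Fintype M] [DecidableEq M]
    [Nonempty R] (ι : Equiv.Perm R) (κ : Equiv.Perm M)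
    (hf : ∀ x, ι x ≠ x) (hi : ∀ x, ι (ι x) = x) (kf : ∀ x, κ x ≠ x) (ki : ∀ x, κ (κ x) = x)
    (hcard : Fintype.card R = Fintype.card M) (v : Equiv.Perm M) (hv : ∀ x, v (κ x) = κ (v x))
    (e : ℤˣ) (hs : Equiv.Perm.sign v = e) (d : ℕ)
    (hd : ∀ T : Finset M, (∀ x ∈ T, v x ∈ T) → T.card ≠ d) :
    ∃ w : Equiv.Perm R, (∀ x, w (ι x) = ι (w x)) ∧ Equiv.Perm.sign w = e ∧
      ∀ T : Finset R, (∀ x ∈ T, w x ∈ T) → T.card ≠ d := by
  obtain ⟨f, hff⟩ := exists_conj ι κ hf hi kf ki hcard
  refine ⟨(f.trans v).trans f.symm, ?_, ?_, ?_⟩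
  · intro x
    simp only [Equiv.trans_apply]
    rw [Equiv.symm_apply_eq, hff, hv, hff, Equiv.apply_symm_apply]
  · rw [← hs]
    exact Equiv.Perm.sign_trans_trans_symm v f
  · intro T hT
    have := hd (T.map f.toEmbedding) (by
      intro y hy
      rw [Finset.mem_map] at hy ⊢
      obtain ⟨x, hx, rfl⟩ := hy
      refine ⟨_, hT x hx, ?_⟩
      simp)
    rwa [Finset.card_map] at this

theorem cld : Pool.Agent.Y142.ZD.S_CLD := by
  intro R _ _ ι hf hi h6 e
  haveI : Nonempty R := by
    rw [← Fintype.card_pos_iff]; omega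
  obtain ⟨n, -, hn⟩ := ct_inv ι hf hi
  have hn3 : 3 ≤ n := by omega
  refine ⟨?_, ?_⟩
  · intro d hd0 hd1
    rcases Int.units_eq_one_or e with he | he
    · by_cases hdn : d = n
      · -- negative 1-cycle and negative (n-1)-cycle
        refine transport (M := Fin (2 * 1) ⊕ Fin (2 * (n - 1))) ι
          (Equiv.Perm.sumCongr (kap 1) (kap (n - 1))) hf hi ?_ ?_ ?_
          (Equiv.Perm.sumCongr (finRotate (2 * 1)) (finRotate (2 * (n - 1)))) ?_ e ?_ d ?_
        · rintro (x | x) hx
          · rw [Equiv.Perm.sumCongr_apply] at hx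
            exact kap_free 1 le_rfl x (Sum.inl_injective hx)
          · rw [Equiv.Perm.sumCongr_apply] at hx
            exact kap_free (n - 1) (by omega) x (Sum.inr_injective hx)
        · rintro (x | x)
          · simp only [Equiv.Perm.sumCongr_apply, Sum.map_inl, kap_inv 1 le_rfl]
          · simp only [Equiv.Perm.sumCongr_apply, Sum.map_inr, kap_inv (n - 1) (show 1 ≤ n - 1 by omega)]
        · rw [Fintype.card_sum, Fintype.card_fin, Fintype.card_fin]; omega
        · rintro (x | x)
          · simp only [Equiv.Perm.sumCongr_apply, Sum.map_inl, kap_comm]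
          · simp only [Equiv.Perm.sumCongr_apply, Sum.map_inr, kap_comm]
        · rw [Equiv.Perm.sign_sumCongr, sign_rot 1 le_rfl, sign_rot (n - 1) (by omega), he]; simp
        · intro T hT hTd
          obtain ⟨h1, h2⟩ := sum_stable _ _ (triv_rot (2 * 1) (by norm_num))
            (triv_rot (2 * (n - 1)) (by omega)) T hT
          rw [Fintype.card_fin] at h1 h2
          have h3 := Finset.card_toLeft_add_card_toRight (u := T)
          omega
      · -- positive n-cycle
        refine transport (M := Fin n ⊕ Fin n) ι (Equiv.sumComm (Fin n) (Fin n)) hf hi ?_ ?_ ?_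
          (Equiv.Perm.sumCongr (finRotate n) (finRotate n)) ?_ e ?_ d ?_
        · rintro (x | x) hx
          · simp at hx
          · simp at hx
        · rintro (x | x)
          · simp
          · simp
        · rw [Fintype.card_sum, Fintype.card_fin]; omega
        · rintro (x | x)
          · simp [Equiv.Perm.sumCongr_apply]
          · simp [Equiv.Perm.sumCongr_apply]
        · rw [Equiv.Perm.sign_sumCongr, he]
          exact Int.units_mul_self _
        · intro T hT hTd
          obtain ⟨h1, h2⟩ := sum_stable _ _ (triv_rot n (by omega)) (triv_rot n (by omega)) T hT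
          rw [Fintype.card_fin] at h1 h2
          have h3 := Finset.card_toLeft_add_card_toRight (u := T)
          omega
    · -- negative n-cycle
      refine transport (M := Fin (2 * n)) ι (kap n) hf hi (kap_free n (by omega))
        (kap_inv n (by omega)) ?_ (finRotate (2 * n)) (kap_comm n) e ?_ d ?_
      · rw [Fintype.card_fin]; omega
      · rw [sign_rot n (by omega), he]
      · intro T hT hTd
        rcases triv_rot (2 * n) (by omega) T hT with h | h
        · rw [h, Finset.card_empty] at hTd; omega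
        · rw [h, Finset.card_univ, Fintype.card_fin] at hTd; omega
  · rcases Int.units_eq_one_or e with he | he
    · obtain ⟨x⟩ := ‹Nonempty R›
      exact ⟨1, fun _ => rfl, by rw [he]; simp, x, rfl⟩
    · obtain ⟨a⟩ := ‹Nonempty R›
      have hne : a ≠ ι a := (hf a).symm
      obtain ⟨x, hx⟩ : ∃ x, x ∉ ({a, ι a} : Finset R) := by
        by_contra hcon
        push Not at hcon
        have : (Finset.univ : Finset R) ⊆ {a, ι a} := fun x _ => hcon x
        have := Finset.card_le_card this
        rw [Finset.card_univ] at this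
        have h2 := Finset.card_le_two (a := a) (b := ι a)
        omega
      simp only [Finset.mem_insert, Finset.mem_singleton, not_or] at hx
      refine ⟨swap a (ι a), ?_, ?_, x, Equiv.swap_apply_of_ne_of_ne hx.1 hx.2⟩
      · intro y
        by_cases c1 : y = a
        · rw [c1]; simp [hi]
        by_cases c2 : y = ι a
        · rw [c2, hi]; simp
        have d1 : ι y ≠ a := fun h => c2 (by rw [← h, hi])
        have d2 : ι y ≠ ι a := fun h => c1 (ι.injective h)
        rw [Equiv.swap_apply_of_ne_of_ne c1 c2, Equiv.swap_apply_of_ne_of_ne d1 d2]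
      · rw [Equiv.Perm.sign_swap hne, he]

end Pool.Agent.R932.OP
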