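import Pool.Agent.R499.OP.WT
import Pool.Agent.R499.OP.Cyc

set_option autoImplicit false

/-!
The tasks FDA and FDB (helper499, for project OP of helper932); also FORM1 and FORM2.
-/

open Matrix Polynomial
open Pool.Agent.R499.OP
open Pool.Agent.Y142.ZO (Skew)

namespace Pool.Agent.R932.OP

section
variable {ℓ : ℕ} [Fact ℓ.Prime]

theorem norm_adj (x : ℚ_[ℓ]) (hx : x ≠ 0) (e : ℤ) (h : Even (x.valuation - e)) :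
    ∃ w : ℚ_[ℓ], w ≠ 0 ∧ ‖x * w ^ 2‖ = (ℓ : ℝ) ^ (-e) := by
  obtain ⟨k, hk⟩ := h
  have h0 : (ℓ : ℝ) ≠ 0 := by exact_mod_cast (Fact.out : ℓ.Prime).ne_zero
  refine ⟨(ℓ : ℚ_[ℓ]) ^ (-k), zpow_ne_zero _ ell_ne, ?_⟩
  rw [norm_mul, norm_pow, norm_zpow, Padic.norm_p, Padic.norm_eq_zpow_neg_valuation hx,
    ← _root_.zpow_neg_one, ← _root_.zpow_mul, ← zpow_natCast, ← _root_.zpow_mul, ← zpow_add₀ h0]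
  congr 1
  push_cast
  linarith

theorem norm_odd (x : ℚ_[ℓ]) (hx : x ≠ 0) (h : Odd x.valuation) :
    ∃ w : ℚ_[ℓ], w ≠ 0 ∧ ‖x * w ^ 2‖ = (ℓ : ℝ)⁻¹ := by
  obtain ⟨w, hw, h'⟩ := norm_adj x hx 1 (h.sub_odd odd_one)
  exact ⟨w, hw, by rw [h', _root_.zpow_neg_one]⟩

theorem norm_even (x : ℚ_[ℓ]) (hx : x ≠ 0) (h : Even x.valuation) :
    ∃ w : ℚ_[ℓ], w ≠ 0 ∧ ‖x * w ^ 2‖ = 1 := by
  obtain ⟨w, hw, h'⟩ := norm_adj x hx 0 (by simpa using h)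
  exact ⟨w, hw, by rw [h']; simp⟩

theorem norm_one_add : ‖((1 : ℚ_[ℓ]) + ℓ)‖ = 1 := by
  have h1 : ‖((1 : ℚ_[ℓ]) + ℓ)‖ = max ‖(1 : ℚ_[ℓ])‖ ‖(ℓ : ℚ_[ℓ])‖ := by
    apply Padic.add_eq_max_of_ne
    rw [norm_one]
    exact (Padic.norm_p_lt_one).ne'
  rw [h1, norm_one, max_eq_left (Padic.norm_p_lt_one).le]

theorem norm_sign (n : ℕ) (x : ℚ_[ℓ]) : ‖(-1 : ℚ_[ℓ]) ^ n * x‖ = ‖x‖ := by
  rw [norm_mul, norm_pow, norm_neg, norm_one, one_pow, one_mul]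

theorem coprime_aux {F : Type} [Field F] (a b : ℕ) (c₁ c₂ : F) (h : c₁ ^ b ≠ c₂ ^ a) :
    IsCoprime (X ^ (2 * a) - C c₁ : F[X]) (X ^ (2 * b) - C c₂) := by
  obtain ⟨v, hv⟩ := sub_dvd_pow_sub_pow (X ^ (2 * a) : F[X]) (C c₁) b
  obtain ⟨u, hu⟩ := sub_dvd_pow_sub_pow (X ^ (2 * b) : F[X]) (C c₂) a
  have he : c₁ ^ b - c₂ ^ a ≠ 0 := sub_ne_zero.mpr h
  have e1 : (X ^ (2 * b) - C c₂) * u - (X ^ (2 * a) - C c₁) * v = C (c₁ ^ b - c₂ ^ a) := by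
    rw [← hu, ← hv, ← pow_mul, ← pow_mul, show 2 * b * a = 2 * a * b by ring, C_sub, C_pow, C_pow]
    ring
  have e2 : C (c₁ ^ b - c₂ ^ a)⁻¹ * C (c₁ ^ b - c₂ ^ a) = 1 := by
    rw [← C_mul, inv_mul_cancel₀ he, C_1]
  refine ⟨-(C (c₁ ^ b - c₂ ^ a)⁻¹ * v), C (c₁ ^ b - c₂ ^ a)⁻¹ * u, ?_⟩
  linear_combination C (c₁ ^ b - c₂ ^ a)⁻¹ * e1 + e2

theorem split4 (d : Fin 4 → ℚ_[ℓ]) : Cg (diagonal d)
    (fromBlocks (diagonal ![d 0, d 1]) 0 0 (diagonal ![d 2, d 3])) := by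
  refine Cg.of_reindex (finSumFinEquiv (m := 2) (n := 2)) ?_
  rw [submatrix_diagonal_equiv, fromBlocks_diagonal]
  congr 1
  funext i
  rcases i with i | i <;> fin_cases i <;> rfl

theorem split3 (d : Fin 3 → ℚ_[ℓ]) : Cg (diagonal d)
    (fromBlocks (diagonal ![d 0, d 1]) 0 0 (diagonal ![d 2])) := by
  refine Cg.of_reindex (finSumFinEquiv (m := 2) (n := 1)) ?_
  rw [submatrix_diagonal_equiv, fromBlocks_diagonal]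
  congr 1
  funext i
  rcases i with i | i <;> fin_cases i <;> rfl

end

theorem fda : Pool.Agent.Y142.ZD.S_FDA := by
  intro ℓ _ hℓ a b N ha hb hN B hB hd hev
  obtain ⟨a', rfl⟩ : ∃ a', a = a' + 1 := ⟨a - 1, by omega⟩
  obtain ⟨b', rfl⟩ : ∃ b', b = b' + 1 := ⟨b - 1, by omega⟩
  obtain ⟨⟨C', D', d, h1, h2, hd', o1, o2, h3⟩, -⟩ :=
    s_we ℓ hℓ (a' + b') N (by omega) B hB hd hev
  have hcg : Cg B (fromBlocks (Hy ℚ_[ℓ] (Fin (a' + b'))) 0 0 (diagonal d)) :=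
    ⟨C', D', h1, h2, h3⟩
  have hcg2 : Cg B (fromBlocks (fromBlocks (Hy ℚ_[ℓ] (Fin a')) 0 0 (diagonal ![d 0, d 1])) 0 0
      (fromBlocks (Hy ℚ_[ℓ] (Fin b')) 0 0 (diagonal ![d 2, d 3]))) := by
    refine hcg.trans ((Cg.blocks ?_ (split4 d)).trans (Cg.mid _ _ _ _))
    exact (Cg.hy_reindex finSumFinEquiv).trans Cg.hy_sum.symm
  obtain ⟨w₁, hw₁, hn₁⟩ := norm_odd (d 0 * d 1) (mul_ne_zero (hd' 0) (hd' 1)) o1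
  obtain ⟨w₂, hw₂, hn₂⟩ := norm_odd (d 2 * d 3) (mul_ne_zero (hd' 2) (hd' 3)) o2
  set c₁ : ℚ_[ℓ] := (-1) ^ (a' + 1) * (d 0 * d 1 * w₁ ^ 2) with hc₁
  have hc₁n : ‖c₁‖ = (ℓ : ℝ)⁻¹ := by rw [hc₁, norm_sign, hn₁]
  obtain ⟨w, hw, hwn, hne⟩ : ∃ w : ℚ_[ℓ], w ≠ 0 ∧ ‖d 2 * d 3 * w ^ 2‖ = (ℓ : ℝ)⁻¹ ∧
      c₁ ^ (b' + 1) ≠ ((-1) ^ (b' + 1) * (d 2 * d 3 * w ^ 2)) ^ (a' + 1) := by
    by_cases hcase : c₁ ^ (b' + 1) = ((-1) ^ (b' + 1) * (d 2 * d 3 * w₂ ^ 2)) ^ (a' + 1)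
    · have h1l : (1 : ℚ_[ℓ]) + ℓ ≠ 0 := by
        rw [← norm_ne_zero_iff, norm_one_add]; exact one_ne_zero
      refine ⟨w₂ * (1 + ℓ), mul_ne_zero hw₂ h1l, ?_, ?_⟩
      · rw [mul_pow, ← mul_assoc, norm_mul, hn₂, norm_pow, norm_one_add]; simp
      · intro hcon
        rw [hcase] at hcon
        have e : (-1 : ℚ_[ℓ]) ^ (b' + 1) * (d 2 * d 3 * (w₂ * (1 + ℓ)) ^ 2)
          = ((-1) ^ (b' + 1) * (d 2 * d 3 * w₂ ^ 2)) * (1 + ℓ) ^ 2 := by ring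
        rw [e] at hcon
        have hne : ((-1 : ℚ_[ℓ]) ^ (b' + 1) * (d 2 * d 3 * w₂ ^ 2)) ^ (a' + 1) ≠ 0 := by
          refine pow_ne_zero _ (mul_ne_zero (pow_ne_zero _ (by simp)) ?_)
          exact mul_ne_zero (mul_ne_zero (hd' 2) (hd' 3)) (pow_ne_zero 2 hw₂)
        have h5 : ((1 : ℚ_[ℓ]) + ℓ) ^ (2 * (a' + 1)) = 1 := by
          rw [pow_mul]
          exact mul_left_cancel₀ hne (by rw [← mul_pow, ← hcon, mul_one])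
        have h6 : ((1 + ℓ : ℕ) : ℚ_[ℓ]) ^ (2 * (a' + 1)) = ((1 : ℕ) : ℚ_[ℓ]) := by
          push_cast; exact h5
        rw [← Nat.cast_pow, Nat.cast_inj] at h6
        have h7 : 1 < 1 + ℓ := by have := (Fact.out : ℓ.Prime).pos; omega
        have h8 : 1 < (1 + ℓ) ^ (2 * (a' + 1)) := Nat.one_lt_pow (by omega) h7
        omega
    · exact ⟨w₂, hw₂, hn₂, hcase⟩
  set c₂ : ℚ_[ℓ] := (-1) ^ (b' + 1) * (d 2 * d 3 * w ^ 2) with hc₂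
  have hc₂n : ‖c₂‖ = (ℓ : ℝ)⁻¹ := by rw [hc₂, norm_sign, hwn]
  obtain ⟨T₁, hT₁, hch₁⟩ := sk_cyc a' (d 0) (d 1) w₁ (hd' 0) (hd' 1) hw₁
  obtain ⟨T₂, hT₂, hch₂⟩ := sk_cyc b' (d 2) (d 3) w (hd' 2) (hd' 3) hw
  obtain ⟨T, hT, hch⟩ := hcg2.sk (hT₁.blocks hT₂)
  rw [charpoly_blocks, hch₁, hch₂, ← hc₁, ← hc₂] at hch
  have hl : (ℓ : ℝ)⁻¹ ≠ 0 := inv_ne_zero (by exact_mod_cast (Fact.out : ℓ.Prime).ne_zero)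
  have hc₁0 : c₁ ≠ 0 := by rw [← norm_ne_zero_iff, hc₁n]; exact hl
  have hc₂0 : c₂ ≠ 0 := by rw [← norm_ne_zero_iff, hc₂n]; exact hl
  have hch' : T.charpoly = (X ^ (2 * (a' + 1)) - C c₁) * (X ^ (2 * (b' + 1)) - C c₂) := by
    rw [hch, show 2 * a' + 2 = 2 * (a' + 1) by ring, show 2 * b' + 2 = 2 * (b' + 1) by ring]
  refine ⟨T, c₁, c₂, hT, hc₁n, hc₂n, hch', ?_⟩
  rw [hch']
  refine Separable.mul ?_ ?_ (coprime_aux _ _ _ _ hne)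
  · refine separable_X_pow_sub_C c₁ ?_ hc₁0
    exact_mod_cast (by omega : 2 * (a' + 1) ≠ 0)
  · refine separable_X_pow_sub_C c₂ ?_ hc₂0
    exact_mod_cast (by omega : 2 * (b' + 1) ≠ 0)

theorem fdb_aux {ℓ : ℕ} [Fact ℓ.Prime] {m N : ℕ} {B : Matrix (Fin N) (Fin N) ℚ_[ℓ]}
    {d : Fin 4 → ℚ_[ℓ]}
    (hcg : Cg B (fromBlocks (Hy ℚ_[ℓ] (Fin m)) 0 0 (diagonal d))) (w₁ w₂ s₁ s₂ : ℚ_[ℓ])
    (A : Matrix (Fin m) (Fin m) ℚ_[ℓ]) :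
    ∃ T : Matrix (Fin N) (Fin N) ℚ_[ℓ], Skew B T ∧
      T.charpoly = Pool.Agent.Y142.ZD.RA (-(d 0 * d 1 * w₁ ^ 2) * s₁ ^ 2)
        (-(d 2 * d 3 * w₂ ^ 2) * s₂ ^ 2) A := by
  have hcg2 := hcg.trans ((Cg.refl _).blocks (split4 d))
  obtain ⟨T₁, hT₁, hch₁⟩ := sk_rot (d 0) (d 1) (w₁ * s₁)
  obtain ⟨T₂, hT₂, hch₂⟩ := sk_rot (d 2) (d 3) (w₂ * s₂)
  obtain ⟨hA, hchA⟩ := sk_hy A
  obtain ⟨T, hT, hch⟩ := hcg2.sk (hA.blocks (hT₁.blocks hT₂))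
  refine ⟨T, hT, ?_⟩
  rw [hch, charpoly_blocks, hchA, charpoly_blocks, hch₁, hch₂]
  unfold Pool.Agent.Y142.ZD.RA
  have e1 : -(d 0 * d 1 * (w₁ * s₁) ^ 2) = -(d 0 * d 1 * w₁ ^ 2) * s₁ ^ 2 := by ring
  have e2 : -(d 2 * d 3 * (w₂ * s₂) ^ 2) = -(d 2 * d 3 * w₂ ^ 2) * s₂ ^ 2 := by ring
  rw [e1, e2]
  ring

theorem fdb : Pool.Agent.Y142.ZD.S_FDB := by
  intro ℓ _ hℓ m N hN B hB hd hev
  obtain ⟨⟨C₁, D₁, d, h1, h2, hd', o1, o2, h3⟩, ⟨C₂, D₂, e, k1, k2, he', p1, p2, k3⟩⟩ :=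
    s_we ℓ hℓ m N hN B hB hd hev
  constructor
  · obtain ⟨w₁, hw₁, hn₁⟩ := norm_odd (d 0 * d 1) (mul_ne_zero (hd' 0) (hd' 1)) o1
    obtain ⟨w₂, hw₂, hn₂⟩ := norm_odd (d 2 * d 3) (mul_ne_zero (hd' 2) (hd' 3)) o2
    refine ⟨-(d 0 * d 1 * w₁ ^ 2), -(d 2 * d 3 * w₂ ^ 2), by rw [norm_neg, hn₁],
      by rw [norm_neg, hn₂], ?_⟩
    intro s₁ s₂ A _ _
    exact fdb_aux ⟨C₁, D₁, h1, h2, h3⟩ w₁ w₂ s₁ s₂ A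
  · obtain ⟨w₁, hw₁, hn₁⟩ := norm_even (e 0 * e 1) (mul_ne_zero (he' 0) (he' 1)) p1
    obtain ⟨w₂, hw₂, hn₂⟩ := norm_even (e 2 * e 3) (mul_ne_zero (he' 2) (he' 3)) p2
    refine ⟨-(e 0 * e 1 * w₁ ^ 2), -(e 2 * e 3 * w₂ ^ 2), by rw [norm_neg, hn₁],
      by rw [norm_neg, hn₂], ?_⟩
    intro s₁ s₂ A _ _
    exact fdb_aux ⟨C₂, D₂, k1, k2, k3⟩ w₁ w₂ s₁ s₂ A

end Pool.Agent.R932.OP
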