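import Pool.Agent.Y142.ZD.Stm

/-!
# Task GEND (project OP of helper932, worker helper213)

A group of signed permutations with four special elements contains all signed permutations
of sign `1`.
-/

set_option autoImplicit false
set_option linter.unusedSimpArgs false
set_option linter.style.longLine false

open Equiv Equiv.Perm

namespace Pool.Agent.R932.OP

section gend

variable {R : Type} [DecidableEq R]

omit [DecidableEq R] in
theorem inv_self' (h : Equiv.Perm R) (x : R) : h⁻¹ (h x) = x := Equiv.symm_apply_apply h x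

/-- `a ↔ b`, `ι a ↔ ι b` -/
def TT (ι : Equiv.Perm R) (a b : R) : Equiv.Perm R := swap a b * swap (ι a) (ι b)

/-- `a ↔ ι a`, `b ↔ ι b` -/
def DD (ι : Equiv.Perm R) (a b : R) : Equiv.Perm R := swap a (ι a) * swap b (ι b)

theorem conj_TT (ι h : Equiv.Perm R) (hc : ∀ x, h (ι x) = ι (h x)) (a b : R) :
    h * TT ι a b * h⁻¹ = TT ι (h a) (h b) := by
  unfold TT
  rw [← hc a, ← hc b, Equiv.swap_apply_apply h a b, Equiv.swap_apply_apply h (ι a) (ι b)]
  group

theorem conj_DD (ι h : Equiv.Perm R) (hc : ∀ x, h (ι x) = ι (h x)) (a b : R) :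
    h * DD ι a b * h⁻¹ = DD ι (h a) (h b) := by
  unfold DD
  rw [← hc a, ← hc b, Equiv.swap_apply_apply h a (ι a), Equiv.swap_apply_apply h b (ι b)]
  group

theorem DD_inv (ι : Equiv.Perm R) (hi : ∀ x, ι (ι x) = x) (a b : R) :
    DD ι (ι a) b = DD ι a b := by
  unfold DD
  rw [hi a, Equiv.swap_comm (ι a) a]

theorem TT_inv (ι : Equiv.Perm R) (hf : ∀ x, ι x ≠ x) (hi : ∀ x, ι (ι x) = x) (a b : R)
    (h1 : b ≠ a) (h2 : b ≠ ι a) : TT ι (ι a) b = DD ι a b * TT ι a b := by
  have h3 : ι b ≠ a := fun h => h2 (by rw [← h, hi])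
  have h4 : ι b ≠ ι a := fun h => h1 (ι.injective h)
  have fa := hf a
  have fb := hf b
  ext z
  simp only [TT, DD, Equiv.Perm.mul_apply, hi, Equiv.swap_apply_def]
  by_cases c1 : z = a
  · rw [c1]
    simp [fa.symm, h1.symm, h2.symm, h3.symm, h4.symm, fb.symm, fa, h1, h2, h3, h4, fb]
  by_cases c2 : z = ι a
  · rw [c2]
    simp [fa.symm, h1.symm, h2.symm, h3.symm, h4.symm, fb.symm, fa, h1, h2, h3, h4, fb]
  by_cases c3 : z = b
  · rw [c3]
    simp [fa.symm, h1.symm, h2.symm, h3.symm, h4.symm, fb.symm, fa, h1, h2, h3, h4, fb]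
  by_cases c4 : z = ι b
  · rw [c4]
    simp [fa.symm, h1.symm, h2.symm, h3.symm, h4.symm, fb.symm, fa, h1, h2, h3, h4, fb]
  simp [c1, c2, c3, c4]

theorem eq_TT (ι h : Equiv.Perm R) (hf : ∀ x, ι x ≠ x) (hi : ∀ x, ι (ι x) = x)
    (hc : ∀ x, h (ι x) = ι (h x)) (x y : R)
    (h1 : y ≠ x) (h2 : y ≠ ι x) (h3 : h x = y) (h4 : h y = x)
    (h5 : ∀ z, z ≠ x → z ≠ ι x → z ≠ y → z ≠ ι y → h z = z) : h = TT ι x y := by
  have h6 : h (ι x) = ι y := by rw [hc, h3]
  have h7 : h (ι y) = ι x := by rw [hc, h4]
  have g3 : ι y ≠ x := fun h => h2 (by rw [← h, hi])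
  have g4 : ι y ≠ ι x := fun h => h1 (ι.injective h)
  have fa := hf x
  have fb := hf y
  ext z
  simp only [TT, Equiv.Perm.mul_apply, Equiv.swap_apply_def]
  by_cases c1 : z = x
  · subst c1; rw [h3]; simp [fa.symm, g3.symm]
  by_cases c2 : z = ι x
  · subst c2; rw [h6]; simp [g3, fb]
  by_cases c3 : z = y
  · subst c3; rw [h4]; simp [h2, fb.symm, h1]
  by_cases c4 : z = ι y
  · subst c4; rw [h7]; simp [g4, fa, h2.symm]
  rw [h5 z c1 c2 c3 c4]
  simp [c1, c2, c3, c4]

theorem eq_DD (ι h : Equiv.Perm R) (hf : ∀ x, ι x ≠ x) (hi : ∀ x, ι (ι x) = x)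
    (hc : ∀ x, h (ι x) = ι (h x)) (x y : R)
    (h1 : y ≠ x) (h2 : y ≠ ι x) (h3 : h x = ι x) (h4 : h y = ι y)
    (h5 : ∀ z, z ≠ x → z ≠ ι x → z ≠ y → z ≠ ι y → h z = z) : h = DD ι x y := by
  have h6 : h (ι x) = x := by rw [hc, h3, hi]
  have h7 : h (ι y) = y := by rw [hc, h4, hi]
  have g3 : ι y ≠ x := fun h => h2 (by rw [← h, hi])
  have g4 : ι y ≠ ι x := fun h => h1 (ι.injective h)
  have fa := hf x
  have fb := hf y
  ext z
  simp only [DD, Equiv.Perm.mul_apply, Equiv.swap_apply_def]
  by_cases c1 : z = x
  · subst c1; rw [h3]; simp [h1.symm, g3.symm]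
  by_cases c2 : z = ι x
  · subst c2; rw [h6]; simp [g4.symm, h2.symm, fa]
  by_cases c3 : z = y
  · subst c3; rw [h4]; simp [g3, g4]
  by_cases c4 : z = ι y
  · subst c4; rw [h7]; simp [h1, h2, fb]
  rw [h5 z c1 c2 c3 c4]
  simp [c1, c2, c3, c4]

variable [Fintype R]

/-- the reduction: if all double transpositions and all double sign changes are in `H`,
then all signed permutations of sign one are in `H` -/
theorem all_of (ι : Equiv.Perm R) (H : Subgroup (Equiv.Perm R)) (hf : ∀ x, ι x ≠ x)
    (hi : ∀ x, ι (ι x) = x)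
    (hT : ∀ a b, b ≠ a → b ≠ ι a → TT ι a b ∈ H) (hD : ∀ a b, b ≠ a → b ≠ ι a → DD ι a b ∈ H) :
    ∀ (n : ℕ) (w : Equiv.Perm R), (∀ x, w (ι x) = ι (w x)) → Equiv.Perm.sign w = 1 →
      (w.support).card ≤ n → w ∈ H := by
  intro n
  induction n with
  | zero =>
    intro w hw hs hn
    have : w.support = ∅ := Finset.card_eq_zero.mp (Nat.le_zero.mp hn)
    rw [Equiv.Perm.support_eq_empty_iff] at this
    rw [this]; exact H.one_mem
  | succ n ih =>
    intro w hw hs hn
    by_cases c1 : ∃ a, w a ≠ a ∧ w a ≠ ι a
    · obtain ⟨a, ha1, ha2⟩ := c1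
      set b := w a with hb
      have g3 : ι b ≠ a := fun h => ha2 (by rw [← h, hi])
      have g4 : ι b ≠ ι a := fun h => ha1 (ι.injective h)
      have hwi : w (ι a) = ι b := hw a
      have hTb := hT a b ha1 ha2
      have hmem : TT ι a b * w ∈ H := by
        refine ih _ ?_ ?_ ?_
        · intro x
          have e := hw x
          have hcomm : ∀ y, TT ι a b (ι y) = ι (TT ι a b y) := by
            intro y
            simp only [TT, Equiv.Perm.mul_apply, Equiv.swap_apply_def]
            have fa := hf a
            have fb := hf b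
            by_cases c1 : y = a
            · rw [c1]; simp [fa.symm, fb.symm, g3.symm, fb, fa, g3, ha2, ha1, ha1.symm, ha2.symm, hi, g4, g4.symm]
            by_cases c2 : y = ι a
            · rw [c2]; simp [fa.symm, fb.symm, g3.symm, fb, fa, g3, ha2, ha1, ha1.symm, ha2.symm, hi, g4, g4.symm]
            by_cases c3 : y = b
            · rw [c3]; simp [fa.symm, fb.symm, g3.symm, fb, fa, g3, ha2, ha1, ha1.symm, ha2.symm, hi, g4, g4.symm]
            by_cases c4 : y = ι b
            · rw [c4]; simp [fa.symm, fb.symm, g3.symm, fb, fa, g3, ha2, ha1, ha1.symm, ha2.symm, hi, g4, g4.symm]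
            have d1 : ι y ≠ a := fun h => c2 (by rw [← h, hi])
            have d2 : ι y ≠ b := fun h => c4 (by rw [← h, hi])
            have d3 : ι y ≠ ι a := fun h => c1 (ι.injective h)
            have d4 : ι y ≠ ι b := fun h => c3 (ι.injective h)
            simp [c1, c2, c3, c4, d1, d2, d3, d4]
          rw [Equiv.Perm.mul_apply, Equiv.Perm.mul_apply, e, hcomm]
        · rw [map_mul, hs, TT, map_mul, Equiv.Perm.sign_swap ha1.symm, Equiv.Perm.sign_swap g4.symm]
          simp
        · have hsub : (TT ι a b * w).support ⊆ w.support.erase a := by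
            intro x hx
            rw [Equiv.Perm.mem_support, Equiv.Perm.mul_apply] at hx
            rw [Finset.mem_erase, Equiv.Perm.mem_support]
            refine ⟨?_, ?_⟩
            · rintro rfl
              apply hx
              rw [← hb]
              simp only [TT, Equiv.Perm.mul_apply, Equiv.swap_apply_def]
              simp [ha2, (hf b).symm]
            · intro hx2
              apply hx
              rw [hx2]
              have c1 : x ≠ a := by rintro rfl; exact ha1 hx2
              have c2 : x ≠ b := by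
                rintro rfl
                apply ha1
                apply w.injective
                rw [hx2]
              have c3 : x ≠ ι a := by
                rintro rfl
                rw [hwi] at hx2
                exact g4 hx2
              have c4 : x ≠ ι b := by
                rintro rfl
                rw [hw] at hx2
                have := ι.injective hx2
                apply ha1
                apply w.injective
                rw [this]
              simp only [TT, Equiv.Perm.mul_apply, Equiv.swap_apply_def]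
              simp [c1, c2, c3, c4]
          have h1 := Finset.card_le_card hsub
          have h2 : a ∈ w.support := by rw [Equiv.Perm.mem_support]; exact ha1
          rw [Finset.card_erase_of_mem h2] at h1
          have h3 : 0 < w.support.card := Finset.card_pos.mpr ⟨a, h2⟩
          omega
      have := H.mul_mem (H.inv_mem hTb) hmem
      rwa [inv_mul_cancel_left] at this
    · push Not at c1
      by_cases c2 : ∃ a, w a ≠ a
      · obtain ⟨a, ha⟩ := c2
        have ha' := c1 a ha
        by_cases c3 : ∃ b, b ≠ a ∧ b ≠ ι a ∧ w b ≠ b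
        · obtain ⟨b, hb1, hb2, hb3⟩ := c3
          have hb' := c1 b hb3
          have g3 : ι b ≠ a := fun h => hb2 (by rw [← h, hi])
          have g4 : ι b ≠ ι a := fun h => hb1 (ι.injective h)
          have hDb := hD a b hb1 hb2
          have fa := hf a
          have fb := hf b
          have hmem : DD ι a b * w ∈ H := by
            refine ih _ ?_ ?_ ?_
            · intro x
              have e := hw x
              have hcomm : ∀ y, DD ι a b (ι y) = ι (DD ι a b y) := by
                intro y
                simp only [DD, Equiv.Perm.mul_apply, Equiv.swap_apply_def]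
                by_cases c1 : y = a
                · rw [c1]; simp [fa.symm, fb.symm, g3.symm, fb, fa, g3, hb2, hb1, hb1.symm, hb2.symm, hi, g4, g4.symm]
                by_cases c2 : y = ι a
                · rw [c2]; simp [fa.symm, fb.symm, g3.symm, fb, fa, g3, hb2, hb1, hb1.symm, hb2.symm, hi, g4, g4.symm]
                by_cases c3 : y = b
                · rw [c3]; simp [fa.symm, fb.symm, g3.symm, fb, fa, g3, hb2, hb1, hb1.symm, hb2.symm, hi, g4, g4.symm]
                by_cases c4 : y = ι b
                · rw [c4]; simp [fa.symm, fb.symm, g3.symm, fb, fa, g3, hb2, hb1, hb1.symm, hb2.symm, hi, g4, g4.symm]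
                have d1 : ι y ≠ a := fun h => c2 (by rw [← h, hi])
                have d2 : ι y ≠ b := fun h => c4 (by rw [← h, hi])
                have d3 : ι y ≠ ι a := fun h => c1 (ι.injective h)
                have d4 : ι y ≠ ι b := fun h => c3 (ι.injective h)
                simp [c1, c2, c3, c4, d1, d2, d3, d4]
              rw [Equiv.Perm.mul_apply, Equiv.Perm.mul_apply, e, hcomm]
            · rw [map_mul, hs, DD, map_mul, Equiv.Perm.sign_swap fa.symm, Equiv.Perm.sign_swap fb.symm]
              simp
            · have hsub : (DD ι a b * w).support ⊆ w.support.erase a := by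
                intro x hx
                rw [Equiv.Perm.mem_support, Equiv.Perm.mul_apply] at hx
                rw [Finset.mem_erase, Equiv.Perm.mem_support]
                refine ⟨?_, ?_⟩
                · rintro rfl
                  apply hx
                  rw [ha']
                  simp only [DD, Equiv.Perm.mul_apply, Equiv.swap_apply_def]
                  simp [hb2.symm, g4.symm, fa]
                · intro hx2
                  apply hx
                  rw [hx2]
                  have c1 : x ≠ a := by rintro rfl; exact ha hx2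
                  have c2 : x ≠ b := by rintro rfl; exact hb3 hx2
                  have c3 : x ≠ ι a := by
                    rintro rfl
                    rw [hw] at hx2
                    exact ha (ι.injective hx2)
                  have c4 : x ≠ ι b := by
                    rintro rfl
                    rw [hw] at hx2
                    exact hb3 (ι.injective hx2)
                  simp only [DD, Equiv.Perm.mul_apply, Equiv.swap_apply_def]
                  simp [c1, c2, c3, c4]
              have h1 := Finset.card_le_card hsub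
              have h2 : a ∈ w.support := by rw [Equiv.Perm.mem_support]; exact ha
              rw [Finset.card_erase_of_mem h2] at h1
              have h3 : 0 < w.support.card := Finset.card_pos.mpr ⟨a, h2⟩
              omega
          have := H.mul_mem (H.inv_mem hDb) hmem
          rwa [inv_mul_cancel_left] at this
        · exfalso
          push Not at c3
          have hw1 : w = swap a (ι a) := by
            ext z
            by_cases d1 : z = a
            · rw [d1, ha']; simp
            by_cases d2 : z = ι a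
            · rw [d2, hw, ha', hi]; simp
            rw [c3 z d1 d2, Equiv.swap_apply_of_ne_of_ne d1 d2]
          rw [hw1, Equiv.Perm.sign_swap (hf a).symm] at hs
          exact absurd hs (by decide)
      · push Not at c2
        have : w = 1 := by ext z; simp [c2 z]
        rw [this]; exact H.one_mem

end gend

theorem gend : Pool.Agent.Y142.ZD.S_GEND := by
  intro R _ _ ι H hf hi hc h1 h2 h3 h4 w hw hs
  obtain ⟨h₁, hh₁, z, hz, htr⟩ := h1
  obtain ⟨h₂, hh₂, hst⟩ := h2
  obtain ⟨τ, hτ, x₀, y₀, hx1, hx2, hx3, hx4, hx5⟩ := h3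
  obtain ⟨s, hsH, u₀, v₀, hu1, hu2, hu3, hu4, hu5⟩ := h4
  -- everything is in the orbit of `z`
  have toz : ∀ x, ∃ h ∈ H, h x = z := by
    have hz2 : h₂ z ≠ z := (hst z).1
    have hz3 : h₂ z ≠ ι z := (hst z).2
    have key : ∀ x, x ≠ z → x ≠ ι z → ∃ h ∈ H, h x = z := by
      intro x hx hx'
      obtain ⟨k, hk⟩ := htr x (h₂ z) hx hx' hz2 hz3
      refine ⟨h₂⁻¹ * h₁ ^ k, H.mul_mem (H.inv_mem hh₂) (H.pow_mem hh₁ k), ?_⟩
      rw [Equiv.Perm.mul_apply, hk, inv_self']
    intro x
    by_cases hx : x = z
    · exact ⟨1, H.one_mem, by rw [hx]; rfl⟩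
    by_cases hx' : x = ι z
    · refine ⟨h₁, hh₁, ?_⟩
      rw [hx', hc h₁ hh₁, hz, hi]
    exact key x hx hx'
  -- powers of `h₁` stabilize the pair
  have pz : ∀ k : ℕ, (h₁ ^ k) z = z ∨ (h₁ ^ k) z = ι z := by
    intro k
    induction k with
    | zero => left; simp
    | succ k ih =>
      rw [pow_succ', Equiv.Perm.mul_apply]
      rcases ih with ih | ih
      · right; rw [ih, hz]
      · left; rw [ih, hc h₁ hh₁, hz, hi]
  have cin : ∀ h ∈ H, ∀ g, g ∈ H → h * g * h⁻¹ ∈ H := fun h hh g hg =>
    H.mul_mem (H.mul_mem hh hg) (H.inv_mem hh)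
  -- double sign changes
  have hDz : ∀ y, y ≠ z → y ≠ ι z → DD ι z y ∈ H := by
    intro y hy hy'
    rw [eq_DD ι s hf hi (hc s hsH) u₀ v₀ hu1 hu2 hu3 hu4 hu5] at hsH
    obtain ⟨h, hh, hhu⟩ := toz u₀
    have e1 := cin h hh _ hsH
    rw [conj_DD ι h (hc h hh), hhu] at e1
    have n1 : h v₀ ≠ z := by rw [← hhu]; exact fun h' => hu1 (h.injective h')
    have n2 : h v₀ ≠ ι z := by
      rw [← hhu, ← hc h hh]; exact fun h' => hu2 (h.injective h')
    obtain ⟨k, hk⟩ := htr _ y n1 n2 hy hy'
    have hkH : h₁ ^ k ∈ H := H.pow_mem hh₁ k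
    have e2 := cin _ hkH _ e1
    rw [conj_DD ι _ (hc _ hkH), hk] at e2
    rcases pz k with h' | h'
    · rwa [h'] at e2
    · rwa [h', DD_inv ι hi] at e2
  have hD : ∀ a b, b ≠ a → b ≠ ι a → DD ι a b ∈ H := by
    intro a b hb1 hb2
    obtain ⟨h, hh, hha⟩ := toz a
    have n1 : h b ≠ z := by rw [← hha]; exact fun h' => hb1 (h.injective h')
    have n2 : h b ≠ ι z := by
      rw [← hha, ← hc h hh]; exact fun h' => hb2 (h.injective h')
    have e1 := hDz _ n1 n2
    have hc' := hc _ (H.inv_mem hh)
    have e2 := cin _ (H.inv_mem hh) _ e1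
    rw [conj_DD ι _ hc', inv_self', ← hha, inv_self'] at e2
    exact e2
  have hTz : ∀ y, y ≠ z → y ≠ ι z → TT ι z y ∈ H ∨ TT ι (ι z) y ∈ H := by
    intro y hy hy'
    rw [eq_TT ι τ hf hi (hc τ hτ) x₀ y₀ hx1 hx2 hx3 hx4 hx5] at hτ
    obtain ⟨h, hh, hhu⟩ := toz x₀
    have e1 := cin h hh _ hτ
    rw [conj_TT ι h (hc h hh), hhu] at e1
    have n1 : h y₀ ≠ z := by rw [← hhu]; exact fun h' => hx1 (h.injective h')
    have n2 : h y₀ ≠ ι z := by
      rw [← hhu, ← hc h hh]; exact fun h' => hx2 (h.injective h')
    obtain ⟨k, hk⟩ := htr _ y n1 n2 hy hy'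
    have hkH : h₁ ^ k ∈ H := H.pow_mem hh₁ k
    have e2 := cin _ hkH _ e1
    rw [conj_TT ι _ (hc _ hkH), hk] at e2
    rcases pz k with h' | h'
    · left; rwa [h'] at e2
    · right; rwa [h'] at e2
  have hT : ∀ a b, b ≠ a → b ≠ ι a → TT ι a b ∈ H := by
    intro a b hb1 hb2
    obtain ⟨h, hh, hha⟩ := toz a
    have n1 : h b ≠ z := by rw [← hha]; exact fun h' => hb1 (h.injective h')
    have n2 : h b ≠ ι z := by
      rw [← hha, ← hc h hh]; exact fun h' => hb2 (h.injective h')
    have hc' := hc _ (H.inv_mem hh)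
    have e1 : TT ι z (h b) ∈ H := by
      rcases hTz _ n1 n2 with e | e
      · exact e
      · rw [TT_inv ι hf hi z (h b) n1 n2] at e
        have := H.mul_mem (H.inv_mem (hDz _ n1 n2)) e
        rwa [inv_mul_cancel_left] at this
    have e2 := cin _ (H.inv_mem hh) _ e1
    rw [conj_TT ι _ hc', inv_self', ← hha, inv_self'] at e2
    exact e2
  exact all_of ι H hf hi hT hD _ w hw hs le_rfl

end Pool.Agent.R932.OP
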