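import Mathlib

/-! OP-ROOTE (helper872 for helper932): the orthogonal diagonal case, in the eigenbasis -/

set_option autoImplicit false
set_option linter.unusedSectionVars false

open Matrix

namespace Pool.Agent.R932.OP.RootA

section

variable {F ι : Type} [Field F] [CharZero F] [Fintype ι] [DecidableEq ι]

/-- the data in the eigenbasis -/
structure Dat (x : ι → F) (J : Matrix ι ι F) (s : ι → ι) (𝔤 : Submodule F (Matrix ι ι F)) :
    Prop where
  x0 : ∀ a, x a ≠ 0
  xs : ∀ a, x a * x (s a) = 1
  ss : ∀ a, s (s a) = a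
  sne : ∀ a, s a ≠ a
  Jz : ∀ a b, b ≠ s a → J a b = 0
  Jn : ∀ a, J a (s a) ≠ 0
  Js : ∀ a, J (s a) a = J a (s a)
  gen : ∀ a b d e, a ≠ b → x a * x e = x d * x b → (d = a ∧ e = b) ∨ (d = s b ∧ e = s a)
  sk : ∀ Z ∈ 𝔤, Zᵀ * J + J * Z = 0
  br : ∀ X ∈ 𝔤, ∀ Y ∈ 𝔤, X * Y - Y * X ∈ 𝔤
  ad : ∀ Z ∈ 𝔤, (Matrix.of fun a b => x a / x b * Z a b) ∈ 𝔤
  irr : ∀ W : Submodule F (ι → F), (∀ Z ∈ 𝔤, ∀ w ∈ W, Z *ᵥ w ∈ W) → W = ⊥ ∨ W = ⊤

variable {x : ι → F} {J : Matrix ι ι F} {s : ι → ι} {𝔤 : Submodule F (Matrix ι ι F)}

/-- the root vectors -/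
def EE (J : Matrix ι ι F) (s : ι → ι) (a b : ι) : Matrix ι ι F :=
  Matrix.of fun p q => (if p = a ∧ q = b then 1 else 0) -
    J a (s a) / J b (s b) * (if p = s b ∧ q = s a then 1 else 0)

theorem rel (h : Dat x J s 𝔤) {Z : Matrix ι ι F} (hZ : Zᵀ * J + J * Z = 0) (a b : ι) :
    J b (s b) * Z b a + J a (s a) * Z (s a) (s b) = 0 := by
  have h1 := congrFun (congrFun hZ a) (s b)
  simp only [Matrix.add_apply, Matrix.mul_apply, Matrix.transpose_apply, Matrix.zero_apply] at h1
  rw [Finset.sum_eq_single b, Finset.sum_eq_single (s a)] at h1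
  · rw [mul_comm (J b (s b)) (Z b a), h1]
  · intro k _ hk
    rw [h.Jz a k hk, zero_mul]
  · intro hk
    exact absurd (Finset.mem_univ _) hk
  · intro k _ hk
    have : s b ≠ s k := by
      intro h2
      apply hk
      rw [← h.ss k, ← h2, h.ss]
    rw [h.Jz k (s b) this, mul_zero]
  · intro hk
    exact absurd (Finset.mem_univ _) hk

/-- no long roots -/
theorem no_long (h : Dat x J s 𝔤) {Z : Matrix ι ι F} (hZ : Zᵀ * J + J * Z = 0) (a : ι) :
    Z a (s a) = 0 := by
  have h1 := rel h hZ (s a) a
  rw [h.ss, h.Js, ← two_mul, mul_eq_zero, mul_eq_zero] at h1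
  rcases h1 with h2 | h2 | h2
  · norm_num at h2
  · exact absurd h2 (h.Jn a)
  · exact h2

/-- polynomials in the adjoint action -/
theorem ad_poly (h : Dat x J s 𝔤) {Z : Matrix ι ι F} (hZ : Z ∈ 𝔤) (p : Polynomial F) :
    (Matrix.of fun a b => p.eval (x a / x b) * Z a b) ∈ 𝔤 := by
  induction p using Polynomial.induction_on with
  | C r =>
    have : (Matrix.of fun a b => (Polynomial.C r).eval (x a / x b) * Z a b) = r • Z := by
      ext a b
      simp
    rw [this]
    exact 𝔤.smul_mem _ hZ
  | add p q hp hq =>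
    have : (Matrix.of fun a b => (p + q).eval (x a / x b) * Z a b) =
        (Matrix.of fun a b => p.eval (x a / x b) * Z a b) +
        (Matrix.of fun a b => q.eval (x a / x b) * Z a b) := by
      ext a b
      simp [add_mul]
    rw [this]
    exact 𝔤.add_mem hp hq
  | monomial n r hp =>
    have h1 := h.ad _ hp
    have : (Matrix.of fun a b => (Polynomial.C r * Polynomial.X ^ (n + 1)).eval (x a / x b) * Z a b) =
        (Matrix.of fun a b => x a / x b * (Matrix.of fun a b =>
          (Polynomial.C r * Polynomial.X ^ n).eval (x a / x b) * Z a b) a b) := by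
      ext a b
      simp only [Matrix.of_apply, Polynomial.eval_mul, Polynomial.eval_C, Polynomial.eval_pow,
        Polynomial.eval_X]
      ring
    rw [this]
    exact h1

/-- separation -/
theorem sep (x0 : F) (S : Finset F) : ∃ p : Polynomial F, p.eval x0 = 1 ∧
    ∀ y ∈ S, y ≠ x0 → p.eval y = 0 := by
  classical
  refine ⟨∏ y ∈ S.erase x0, (Polynomial.C (x0 - y)⁻¹ * (Polynomial.X - Polynomial.C y)), ?_, ?_⟩
  · rw [Polynomial.eval_prod]
    refine Finset.prod_eq_one fun y hy => ?_
    have : x0 - y ≠ 0 := sub_ne_zero.2 (Finset.ne_of_mem_erase hy).symm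
    simp [this]
  · intro y hy hne
    rw [Polynomial.eval_prod]
    refine Finset.prod_eq_zero (Finset.mem_erase.2 ⟨hne, hy⟩) ?_
    simp

/-- STEP 1 -/
theorem root_of (h : Dat x J s 𝔤) {Z : Matrix ι ι F} (hZ : Z ∈ 𝔤) {a b : ι} (hab : a ≠ b)
    (hne : Z a b ≠ 0) : b ≠ s a ∧ EE J s a b ∈ 𝔤 := by
  classical
  have hb : b ≠ s a := by
    intro hb
    rw [hb] at hne
    exact hne (no_long h (h.sk Z hZ) a)
  refine ⟨hb, ?_⟩
  obtain ⟨p, hp1, hp2⟩ := sep (x a / x b)
    (Finset.univ.image fun q : ι × ι => x q.1 / x q.2)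
  have h1 := ad_poly h hZ p
  have hjb := h.Jn b
  have hrel : Z (s b) (s a) = -(J a (s a) / J b (s b)) * Z a b := by
    have h2 := rel h (h.sk Z hZ) b a
    field_simp
    linear_combination h2
  have hq0 : x (s b) / x (s a) = x a / x b := by
    rw [div_eq_div_iff (h.x0 _) (h.x0 _)]
    linear_combination h.xs b - h.xs a
  -- the entries
  have hent : ∀ d e, p.eval (x d / x e) * Z d e =
      if (d = a ∧ e = b) ∨ (d = s b ∧ e = s a) then Z d e else 0 := by
    intro d e
    by_cases hq : x d / x e = x a / x b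
    · rw [hq, hp1, one_mul]
      rw [div_eq_div_iff (h.x0 e) (h.x0 b)] at hq
      rw [if_pos]
      exact h.gen a b d e hab hq.symm
    · rw [hp2 _ (Finset.mem_image.2 ⟨(d, e), Finset.mem_univ _, rfl⟩) hq, zero_mul, if_neg]
      rintro (⟨rfl, rfl⟩ | ⟨rfl, rfl⟩)
      · exact hq rfl
      · exact hq hq0
  have h2 : EE J s a b = (Z a b)⁻¹ • (Matrix.of fun d e => p.eval (x d / x e) * Z d e) := by
    ext d e
    simp only [EE, Matrix.of_apply, Matrix.smul_apply, smul_eq_mul]
    rw [hent]
    by_cases hc : d = a ∧ e = b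
    · have hc2 : ¬ (d = s b ∧ e = s a) := by
        rintro ⟨-, h4⟩
        exact hb (hc.2.symm.trans h4)
      rw [if_pos hc, if_neg hc2, if_pos (Or.inl hc), hc.1, hc.2]
      field_simp
      ring
    · by_cases hc2 : d = s b ∧ e = s a
      · rw [if_neg hc, if_pos hc2, if_pos (Or.inr hc2), hc2.1, hc2.2, hrel]
        field_simp
        ring
      · rw [if_neg hc, if_neg hc2, if_neg (by tauto)]
        ring
  rw [h2]
  exact 𝔤.smul_mem _ h1

theorem smul_EE (h : Dat x J s 𝔤) (a b : ι) :
    EE J s (s b) (s a) = (-(J b (s b) / J a (s a))) • EE J s a b := by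
  have hja := h.Jn a
  have hjb := h.Jn b
  ext p q
  simp only [EE, Matrix.of_apply, Matrix.smul_apply, smul_eq_mul]
  rw [h.ss, h.ss, h.Js, h.Js]
  by_cases hc : p = a ∧ q = b
  · by_cases hc2 : p = s b ∧ q = s a
    · rw [if_pos hc, if_pos hc2]
      field_simp
      ring
    · rw [if_pos hc, if_neg hc2]
      field_simp
      ring
  · by_cases hc2 : p = s b ∧ q = s a
    · rw [if_neg hc, if_pos hc2]
      field_simp
      ring
    · rw [if_neg hc, if_neg hc2]
      ring

/-- the relation of roots -/
def Rt (J : Matrix ι ι F) (s : ι → ι) (𝔤 : Submodule F (Matrix ι ι F)) (a b : ι) : Prop :=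
  a ≠ b ∧ b ≠ s a ∧ EE J s a b ∈ 𝔤

theorem s_ne (h : Dat x J s 𝔤) {a b : ι} (hab : a ≠ b) : s a ≠ s b := by
  intro h4
  apply hab
  rw [← h.ss a, h4, h.ss]

theorem s_swap (h : Dat x J s 𝔤) {a b : ι} (hab : b ≠ s a) : a ≠ s b := by
  intro h4
  apply hab
  rw [h4, h.ss]

theorem rt_symm (h : Dat x J s 𝔤) {a b : ι} (hR : Rt J s 𝔤 a b) : Rt J s 𝔤 (s b) (s a) := by
  obtain ⟨h1, h2, h3⟩ := hR
  refine ⟨s_ne h h1.symm, ?_, ?_⟩
  · rw [h.ss]
    exact h2.symm
  · rw [smul_EE h]
    exact 𝔤.smul_mem _ h3

/-- STEP 2 -/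
theorem tr (h : Dat x J s 𝔤) {a b d : ι} (had : a ≠ d) (hda : d ≠ s a)
    (h1 : Rt J s 𝔤 a b) (h2 : Rt J s 𝔤 b d) : Rt J s 𝔤 a d := by
  classical
  obtain ⟨hab, hba, h1⟩ := h1
  obtain ⟨hbd, hdb, h2⟩ := h2
  refine ⟨had, hda, (root_of h (h.br _ h1 _ h2) had ?_).2⟩
  rw [Matrix.sub_apply, Matrix.mul_apply, Matrix.mul_apply]
  have e1 : ∀ k, EE J s a b a k = if k = b then 1 else 0 := by
    intro k
    simp only [EE, Matrix.of_apply]
    have hsb : a ≠ s b := s_swap h hba
    simp [hsb]
  have e2 : ∀ k, EE J s b d k d = if k = b then 1 else 0 := by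
    intro k
    simp only [EE, Matrix.of_apply]
    simp [hdb]
  have e3 : ∀ k, EE J s b d a k = 0 := by
    intro k
    simp only [EE, Matrix.of_apply]
    have hsd : a ≠ s d := s_swap h hda
    simp [hab, hsd]
  simp only [e1, e2, e3]
  simp

/-- STEP 3 -/
theorem all_off (h : Dat x J s 𝔤) (a b : ι) (hab : a ≠ b) (hba : b ≠ s a) : Rt J s 𝔤 a b := by
  classical
  by_contra hcon
  let T : ι → Prop := fun d => d = b ∨ Rt J s 𝔤 d b ∨ (d = s b ∧ ∃ e, Rt J s 𝔤 (s b) e ∧ Rt J s 𝔤 e b)
  have hT : ∀ d e, Rt J s 𝔤 d e → T e → T d := by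
    rintro d e hde (rfl | heb | ⟨rfl, f, hf1, hf2⟩)
    · exact Or.inr (Or.inl hde)
    · by_cases hdb : d = b
      · exact Or.inl hdb
      · by_cases hds : d = s b
        · refine Or.inr (Or.inr ⟨hds, e, ?_, heb⟩)
          rw [← hds]
          exact hde
        · refine Or.inr (Or.inl (tr h hdb ?_ hde heb))
          intro h4
          apply hds
          rw [h4, h.ss]
    · by_cases hdf : d = f
      · rw [hdf]
        exact Or.inr (Or.inl hf2)
      · by_cases hds : f = s d
        · have h5 := rt_symm h hf1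
          rw [h.ss, hds, h.ss] at h5
          exact Or.inr (Or.inl h5)
        · have h6 := tr h hdf hds hde hf1
          have hdb : d ≠ b := by
            intro h7
            apply hde.2.1
            rw [h7]
          refine Or.inr (Or.inl (tr h hdb ?_ h6 hf2))
          intro h7
          apply hde.1
          rw [h7, h.ss]
  let W : Submodule F (ι → F) :=
    { carrier := {w | ∀ d, w d ≠ 0 → T d}
      add_mem' := by
        intro v w hv hw d hd
        by_cases h1 : v d = 0
        · refine hw d fun h2 => hd ?_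
          rw [Pi.add_apply, h1, h2, add_zero]
        · exact hv d h1
      zero_mem' := fun d hd => absurd rfl hd
      smul_mem' := by
        intro r v hv d hd
        refine hv d fun h1 => hd ?_
        rw [Pi.smul_apply, h1, smul_zero] }
  have hW : ∀ w, w ∈ W ↔ ∀ d, w d ≠ 0 → T d := fun w => Iff.rfl
  have hst : ∀ Z ∈ 𝔤, ∀ w ∈ W, Z *ᵥ w ∈ W := by
    intro Z hZ w hw
    rw [hW] at hw ⊢
    intro d hd
    have h1 : (Z *ᵥ w) d = ∑ e, Z d e * w e := rfl
    rw [h1] at hd
    obtain ⟨e, -, he⟩ := Finset.exists_ne_zero_of_sum_ne_zero hd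
    have hZe : Z d e ≠ 0 := left_ne_zero_of_mul he
    have hwe : w e ≠ 0 := right_ne_zero_of_mul he
    by_cases hde : d = e
    · rw [hde]; exact hw e hwe
    · obtain ⟨h3, h4⟩ := root_of h hZ hde hZe
      exact hT d e ⟨hde, h3, h4⟩ (hw e hwe)
  rcases h.irr W hst with h1 | h1
  · have h2 : Pi.single b (1 : F) ∈ W := by
      rw [hW]
      intro d hd
      left
      by_contra hne
      exact hd (Pi.single_eq_of_ne hne 1)
    rw [h1, Submodule.mem_bot] at h2
    have h3 := congrFun h2 b
    rw [Pi.single_eq_same] at h3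
    exact one_ne_zero h3
  · have h2 : Pi.single a (1 : F) ∈ W := by
      rw [h1]
      exact Submodule.mem_top
    rcases (hW _).1 h2 a (by rw [Pi.single_eq_same]; exact one_ne_zero) with h3 | h3 | ⟨h3, -⟩
    · exact hab h3
    · exact hcon h3
    · exact s_swap h hba h3

/-- brackets of opposite root vectors -/
theorem opp (h : Dat x J s 𝔤) {a b : ι} (hab : a ≠ b) (hba : b ≠ s a) (p q : ι) :
    (EE J s a b * EE J s b a - EE J s b a * EE J s a b) p q =
      (if p = q then ((if p = a then 1 else 0) - (if p = b then 1 else 0) +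
        (if p = s b then 1 else 0) - (if p = s a then 1 else 0)) else 0) := by
  classical
  have hja := h.Jn a
  have hjb := h.Jn b
  have hsb : a ≠ s b := s_swap h hba
  have hsab : s a ≠ s b := s_ne h hab
  have f1 : ∀ p q, EE J s a b p q = (if p = a then 1 else 0) * (if q = b then 1 else 0) -
      J a (s a) / J b (s b) * ((if p = s b then 1 else 0) * (if q = s a then 1 else 0)) := by
    intro p q
    simp only [EE, Matrix.of_apply]
    congr 1
    · by_cases hp : p = a <;> by_cases hq : q = b <;> simp [hp, hq]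
    · by_cases hp : p = s b <;> by_cases hq : q = s a <;> simp [hp, hq]
  have f2 : ∀ p q, EE J s b a p q = (if p = b then 1 else 0) * (if q = a then 1 else 0) -
      J b (s b) / J a (s a) * ((if p = s a then 1 else 0) * (if q = s b then 1 else 0)) := by
    intro p q
    simp only [EE, Matrix.of_apply]
    congr 1
    · by_cases hp : p = b <;> by_cases hq : q = a <;> simp [hp, hq]
    · by_cases hp : p = s a <;> by_cases hq : q = s b <;> simp [hp, hq]
  rw [Matrix.sub_apply, Matrix.mul_apply, Matrix.mul_apply]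
  have g1 : ∀ u v : ι, ∑ k, (if k = u then (1 : F) else 0) * (if k = v then 1 else 0) =
      if u = v then 1 else 0 := by
    intro u v
    by_cases huv : u = v
    · subst huv
      simp
    · simp [huv, Ne.symm huv]
  have s1 : ∑ k, EE J s a b p k * EE J s b a k q =
      (if p = a then 1 else 0) * (if q = a then 1 else 0) +
      (if p = s b then 1 else 0) * (if q = s b then 1 else 0) := by
    have : ∀ k, EE J s a b p k * EE J s b a k q =
        (if p = a then 1 else 0) * (if q = a then 1 else 0) *
          ((if k = b then (1 : F) else 0) * (if k = b then 1 else 0)) -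
        J b (s b) / J a (s a) * (if p = a then 1 else 0) * (if q = s b then 1 else 0) *
          ((if k = b then (1 : F) else 0) * (if k = s a then 1 else 0)) -
        J a (s a) / J b (s b) * (if p = s b then 1 else 0) * (if q = a then 1 else 0) *
          ((if k = s a then (1 : F) else 0) * (if k = b then 1 else 0)) +
        (if p = s b then 1 else 0) * (if q = s b then 1 else 0) *
          ((if k = s a then (1 : F) else 0) * (if k = s a then 1 else 0)) := by
      intro k
      rw [f1, f2]
      field_simp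
      ring
    simp only [this, Finset.sum_add_distrib, Finset.sum_sub_distrib, ← Finset.mul_sum, g1]
    simp [hba, hba.symm]
  have s2 : ∑ k, EE J s b a p k * EE J s a b k q =
      (if p = b then 1 else 0) * (if q = b then 1 else 0) +
      (if p = s a then 1 else 0) * (if q = s a then 1 else 0) := by
    have : ∀ k, EE J s b a p k * EE J s a b k q =
        (if p = b then 1 else 0) * (if q = b then 1 else 0) *
          ((if k = a then (1 : F) else 0) * (if k = a then 1 else 0)) -
        J a (s a) / J b (s b) * (if p = b then 1 else 0) * (if q = s a then 1 else 0) *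
          ((if k = a then (1 : F) else 0) * (if k = s b then 1 else 0)) -
        J b (s b) / J a (s a) * (if p = s a then 1 else 0) * (if q = b then 1 else 0) *
          ((if k = s b then (1 : F) else 0) * (if k = a then 1 else 0)) +
        (if p = s a then 1 else 0) * (if q = s a then 1 else 0) *
          ((if k = s b then (1 : F) else 0) * (if k = s b then 1 else 0)) := by
      intro k
      rw [f1, f2]
      field_simp
      ring
    simp only [this, Finset.sum_add_distrib, Finset.sum_sub_distrib, ← Finset.mul_sum, g1]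
    simp [hsb, hsb.symm]
  rw [s1, s2]
  have g2 : ∀ u : ι, (if p = u then (1 : F) else 0) * (if q = u then 1 else 0) =
      if p = q then (if p = u then 1 else 0) else 0 := by
    intro u
    by_cases hp : p = u
    · by_cases hq : q = u
      · rw [if_pos hp, if_pos hq, if_pos (hp.trans hq.symm), one_mul]
      · rw [if_neg hq, mul_zero, if_neg]
        intro h4
        exact hq (h4.symm.trans hp)
    · rw [if_neg hp, zero_mul, ite_self]
  rw [g2, g2, g2, g2]
  by_cases hpq : p = q
  · simp only [if_pos hpq]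
    ring
  · simp only [if_neg hpq]
    ring

/-- there is a third index -/
theorem third (h : Dat x J s 𝔤) (a : ι) : ∃ b, a ≠ b ∧ b ≠ s a := by
  classical
  by_contra hcon
  push Not at hcon
  -- every element of the Lie algebra is diagonal
  let W : Submodule F (ι → F) :=
    { carrier := {w | ∀ d, w d ≠ 0 → d = a}
      add_mem' := by
        intro v w hv hw d hd
        by_cases h1 : v d = 0
        · refine hw d fun h2 => hd ?_
          rw [Pi.add_apply, h1, h2, add_zero]
        · exact hv d h1
      zero_mem' := fun d hd => absurd rfl hd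
      smul_mem' := by
        intro r v hv d hd
        refine hv d fun h1 => hd ?_
        rw [Pi.smul_apply, h1, smul_zero] }
  have hW : ∀ w, w ∈ W ↔ ∀ d, w d ≠ 0 → d = a := fun w => Iff.rfl
  have hst : ∀ Z ∈ 𝔤, ∀ w ∈ W, Z *ᵥ w ∈ W := by
    intro Z hZ w hw
    rw [hW] at hw ⊢
    intro d hd
    have h1 : (Z *ᵥ w) d = ∑ e, Z d e * w e := rfl
    rw [h1] at hd
    obtain ⟨e, -, he⟩ := Finset.exists_ne_zero_of_sum_ne_zero hd
    have hZe : Z d e ≠ 0 := left_ne_zero_of_mul he
    have hwe : w e ≠ 0 := right_ne_zero_of_mul he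
    have hea := hw e hwe
    by_contra hda
    have hd1 := hcon d (fun h' => hda h'.symm)
    apply hZe
    rw [hd1, hea]
    have h3 := no_long h (h.sk Z hZ) (s a)
    rwa [h.ss] at h3
  rcases h.irr W hst with h1 | h1
  · have h2 : Pi.single a (1 : F) ∈ W := by
      rw [hW]
      intro d hd
      by_contra hne
      exact hd (Pi.single_eq_of_ne hne 1)
    rw [h1, Submodule.mem_bot] at h2
    have h3 := congrFun h2 a
    rw [Pi.single_eq_same] at h3
    exact one_ne_zero h3
  · have h2 : Pi.single (s a) (1 : F) ∈ W := by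
      rw [h1]
      exact Submodule.mem_top
    exact h.sne a ((hW _).1 h2 (s a) (by rw [Pi.single_eq_same]; exact one_ne_zero))

/-- STEP 4 -/
theorem all_diag (h : Dat x J s 𝔤) (a : ι) : EE J s a a ∈ 𝔤 := by
  classical
  obtain ⟨b, hab, hba⟩ := third h a
  have hab' : a ≠ s b := s_swap h hba
  have hba' : s b ≠ s a := (s_ne h hab).symm
  have h1 := h.br _ (all_off h a b hab hba).2.2 _ (all_off h b a hab.symm hab').2.2
  have h2 := h.br _ (all_off h a (s b) hab' hba').2.2 _
    (all_off h (s b) a hab'.symm (by rw [h.ss]; exact hab)).2.2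
  have h3 := 𝔤.smul_mem ((1 : F) / 2) (𝔤.add_mem h1 h2)
  have hja := h.Jn a
  have h4 : EE J s a a = ((1 : F) / 2) • ((EE J s a b * EE J s b a - EE J s b a * EE J s a b) +
      (EE J s a (s b) * EE J s (s b) a - EE J s (s b) a * EE J s a (s b))) := by
    ext p q
    rw [Matrix.smul_apply, Matrix.add_apply, opp h hab hba, opp h hab' hba']
    rw [h.ss]
    simp only [EE, Matrix.of_apply, smul_eq_mul]
    rw [div_self hja]
    by_cases hpq : p = q
    · subst hpq
      simp only [and_self, if_true]
      ring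
    · rw [if_neg hpq, if_neg hpq]
      rw [if_neg (fun h' => hpq (h'.1.trans h'.2.symm)), if_neg (fun h' => hpq (h'.1.trans h'.2.symm))]
      ring
  rw [h4]
  exact h3

/-- the theorem in the eigenbasis -/
theorem diag (h : Dat x J s 𝔤) (X : Matrix ι ι F) (hX : Xᵀ * J + J * X = 0) : X ∈ 𝔤 := by
  classical
  have hrel : ∀ a b, X (s b) (s a) = -(J a (s a) / J b (s b)) * X a b := by
    intro a b
    have h2 := rel h hX b a
    have hjb := h.Jn b
    field_simp
    linear_combination h2
  have h1 : X = ((1 : F) / 2) • ∑ a, ∑ b, X a b • EE J s a b := by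
    ext d e
    rw [Matrix.smul_apply, Matrix.sum_apply]
    simp only [Matrix.sum_apply, Matrix.smul_apply, smul_eq_mul, EE, Matrix.of_apply]
    have g1 : ∀ a b, X a b * ((if d = a ∧ e = b then (1 : F) else 0) -
        J a (s a) / J b (s b) * (if d = s b ∧ e = s a then (1 : F) else 0)) =
        (if d = a then (if e = b then X d e else 0) else 0) +
        (if s e = a then (if s d = b then X d e else 0) else 0) := by
      intro a b
      have g2 : (if d = a ∧ e = b then (1 : F) else 0) * X a b =
          (if d = a then (if e = b then X d e else 0) else 0) := by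
        by_cases hd : d = a <;> by_cases he : e = b <;> simp [hd, he]
      have g3 : -(J a (s a) / J b (s b)) * X a b * (if d = s b ∧ e = s a then (1 : F) else 0) =
          (if s e = a then (if s d = b then X d e else 0) else 0) := by
        by_cases hd : s d = b
        · by_cases he : s e = a
          · have hd' : d = s b := by rw [← hd, h.ss]
            have he' : e = s a := by rw [← he, h.ss]
            rw [if_pos ⟨hd', he'⟩, if_pos he, if_pos hd, mul_one, ← hrel, ← hd', ← he']
          · rw [if_neg (fun h' => he (by rw [h'.2, h.ss])), if_neg he, mul_zero]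
        · rw [if_neg (fun h' => hd (by rw [h'.1, h.ss])), if_neg hd, ite_self, mul_zero]
      rw [← g2, ← g3]
      ring
    simp only [g1, Finset.sum_add_distrib]
    simp
    ring
  rw [h1]
  refine 𝔤.smul_mem _ (𝔤.sum_mem fun a _ => 𝔤.sum_mem fun b _ => ?_)
  by_cases hab : a = b
  · rw [hab]; exact 𝔤.smul_mem _ (all_diag h b)
  · by_cases hba : b = s a
    · have h5 : X a b = 0 := by
        rw [hba]
        exact no_long h hX a
      rw [h5, zero_smul]
      exact 𝔤.zero_mem
    · exact 𝔤.smul_mem _ (all_off h a b hab hba).2.2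

end

end Pool.Agent.R932.OP.RootA
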