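import Pool.Agent.Y142.ZD.Stm
import Pool.Agent.Y929.ZS.Root
import Pool.Agent.R932.OP.RootA

/-! OP-ROOTE (helper872 for helper932): the full orthogonal Lie algebra from one generic element -/

set_option autoImplicit false

open Matrix Polynomial

namespace Pool.Agent.R932.OP

open Pool.Agent.R932.OP.RootA

theorem skew_iff {F : Type} [Field F] {N : ℕ} {B Z : Matrix (Fin N) (Fin N) F} (hB : Bᵀ = B) :
    Pool.Agent.Y142.ZO.Skew B Z ↔ Zᵀ * B + B * Z = 0 := by
  rw [Pool.Agent.Y142.ZO.Skew, Matrix.transpose_mul, hB, eq_neg_iff_add_eq_zero]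

theorem rootd : Pool.Agent.Y142.ZD.S_ROOTD := by
  classical
  intro F _ _ N J g 𝔤 hJ hJd hsim hs hsep hgen hx1 h𝔤 hbr had hirr X hX
  rw [skew_iff hJ] at hX
  obtain ⟨x, P, hx, hP, hgP, hroot⟩ := Pool.Agent.Y929.ZS.exists_diag g hs hsep
  have hPd : IsUnit P.det := (Matrix.isUnit_iff_isUnit_det P).1 hP
  have hPi : P⁻¹ * P = 1 := Matrix.nonsing_inv_mul P hPd
  have hPi' : P * P⁻¹ = 1 := Matrix.mul_nonsing_inv P hPd
  obtain ⟨J', hJ'⟩ : ∃ J' : Matrix (Fin N) (Fin N) F, J' = Pᵀ * J * P := ⟨_, rfl⟩
  have hgd : g = P * diagonal x * P⁻¹ := by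
    rw [← hgP, mul_assoc, hPi', mul_one]
  have hsim' : gᵀ * J * g = J := hsim
  -- `g` is invertible
  have hdet : g.det ≠ 0 := by
    intro h0
    have h1 := congrArg Matrix.det hsim'
    rw [Matrix.det_mul, Matrix.det_mul, h0, mul_zero] at h1
    exact hJd h1.symm
  have hx0 : ∀ a, x a ≠ 0 := by
    intro a ha
    apply hdet
    rw [hgd, Matrix.det_mul, Matrix.det_mul, Matrix.det_diagonal,
      Finset.prod_eq_zero (Finset.mem_univ a) ha, mul_zero, zero_mul]
  have hDJ : diagonal x * J' * diagonal x = J' := by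
    have h1 : (P * diagonal x)ᵀ * J * (P * diagonal x) = J' := by
      rw [← hgP, Matrix.transpose_mul]
      calc Pᵀ * gᵀ * J * (g * P) = Pᵀ * (gᵀ * J * g) * P := by noncomm_ring
        _ = J' := by rw [hsim', hJ']
    have h2 : (P * diagonal x)ᵀ = diagonal x * Pᵀ := by
      rw [Matrix.transpose_mul, Matrix.diagonal_transpose]
    have h3 : diagonal x * J' * diagonal x = (P * diagonal x)ᵀ * J * (P * diagonal x) := by
      rw [h2, hJ']
      noncomm_ring
    rw [h3, h1]
  have hent : ∀ a b, x a * x b * J' a b = 1 * J' a b := by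
    intro a b
    have h1 := congrFun (congrFun hDJ a) b
    rw [Matrix.mul_diagonal, Matrix.diagonal_mul] at h1
    linear_combination h1
  have hJt : J'ᵀ = J' := by
    rw [hJ', Matrix.transpose_mul, Matrix.transpose_mul, Matrix.transpose_transpose, hJ, mul_assoc]
  have hJs : ∀ a b, J' b a = J' a b := by
    intro a b
    have h1 := congrFun (congrFun hJt a) b
    rw [Matrix.transpose_apply] at h1
    exact h1
  have hJd' : J'.det ≠ 0 := by
    rw [hJ', Matrix.det_mul, Matrix.det_mul, Matrix.det_transpose]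
    exact mul_ne_zero (mul_ne_zero hPd.ne_zero hJd) hPd.ne_zero
  have hex : ∀ a, ∃ b, J' a b ≠ 0 := by
    intro a
    by_contra hcon
    push Not at hcon
    exact hJd' (Matrix.det_eq_zero_of_row_eq_zero a hcon)
  choose s hsn using hex
  have hxs : ∀ a, x a * x (s a) = 1 := fun a => mul_right_cancel₀ (hsn a) (hent a (s a))
  have huniq : ∀ a b, J' a b ≠ 0 → b = s a := by
    intro a b hb
    have h1 := mul_right_cancel₀ hb (hent a b)
    apply hx
    exact mul_left_cancel₀ (hx0 a) (h1.trans (hxs a).symm)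
  have hss : ∀ a, s (s a) = a := by
    intro a
    refine (huniq (s a) a ?_).symm
    rw [hJs a (s a)]
    exact hsn a
  have hsne : ∀ a, s a ≠ a := by
    intro a ha
    have h1 := hxs a
    rw [ha] at h1
    refine hx1 (x a) ?_ h1
    have h2 := hroot a
    rwa [Polynomial.coe_aeval_eq_eval] at h2
  -- the conjugated Lie algebra
  let φ : Matrix (Fin N) (Fin N) F →ₗ[F] Matrix (Fin N) (Fin N) F :=
    { toFun := fun Z => P * Z * P⁻¹
      map_add' := fun Z W => by rw [mul_add, add_mul]
      map_smul' := fun r Z => by simp }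
  let 𝔥 : Submodule F (Matrix (Fin N) (Fin N) F) := 𝔤.comap φ
  have h𝔥 : ∀ Z, Z ∈ 𝔥 ↔ P * Z * P⁻¹ ∈ 𝔤 := fun Z => Iff.rfl
  have hback : ∀ Z, P * (P⁻¹ * Z * P) * P⁻¹ = Z := by
    intro Z
    calc P * (P⁻¹ * Z * P) * P⁻¹ = (P * P⁻¹) * Z * (P * P⁻¹) := by noncomm_ring
      _ = Z := by rw [hPi', one_mul, mul_one]
  have hconv : ∀ (Z : Matrix (Fin N) (Fin N) F), (P * Z * P⁻¹)ᵀ * J + J * (P * Z * P⁻¹) = 0 →
      Zᵀ * J' + J' * Z = 0 := by
    intro Z h1
    have h2 : (P * Z * P⁻¹)ᵀ = P⁻¹ᵀ * Zᵀ * Pᵀ := by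
      rw [Matrix.transpose_mul, Matrix.transpose_mul, mul_assoc]
    have h3 : Pᵀ * P⁻¹ᵀ = 1 := by rw [← Matrix.transpose_mul, hPi, Matrix.transpose_one]
    calc Zᵀ * J' + J' * Z = (Pᵀ * P⁻¹ᵀ) * Zᵀ * (Pᵀ * J * P) + (Pᵀ * J * P) * Z * (P⁻¹ * P) := by
          rw [h3, hPi, one_mul, mul_one, hJ']
      _ = Pᵀ * ((P⁻¹ᵀ * Zᵀ * Pᵀ) * J + J * (P * Z * P⁻¹)) * P := by noncomm_ring
      _ = Pᵀ * 0 * P := by rw [← h2, h1]
      _ = 0 := by simp
  have dat : Dat x J' s 𝔥 := by
    refine ⟨hx0, hxs, hss, hsne, ?_, hsn, ?_, ?_, ?_, ?_, ?_, ?_⟩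
    · intro a b hb
      by_contra hne
      exact hb (huniq a b hne)
    · intro a
      exact hJs a (s a)
    · intro a b d e hab heq
      have hmap : ∀ a, aeval (algebraMap F (AlgebraicClosure F) (x a)) g.charpoly = 0 := by
        intro a
        rw [Polynomial.aeval_algebraMap_apply, hroot a, map_zero]
      have hinj := (algebraMap F (AlgebraicClosure F)).injective
      have h1 := hgen _ _ _ _ (hmap a) (hmap b) (hmap d) (hmap e)
        (fun h' => hab (hx (hinj h'))) (by rw [← map_mul, ← map_mul, heq])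
      rcases h1 with ⟨h2, h3⟩ | ⟨h2, h3⟩
      · exact Or.inl ⟨hx (hinj h2), hx (hinj h3)⟩
      · right
        rw [← map_mul] at h2 h3
        have h2' := hinj h2
        have h3' := hinj h3
        refine ⟨hx ?_, hx ?_⟩
        · refine mul_right_cancel₀ (hx0 b) ?_
          rw [h2', mul_comm, hxs]
        · refine mul_right_cancel₀ (hx0 a) ?_
          rw [h3', mul_comm, hxs]
    · intro Z hZ
      exact hconv Z ((skew_iff hJ).1 (h𝔤 _ ((h𝔥 Z).1 hZ)))
    · intro Z hZ W hW
      rw [h𝔥] at hZ hW ⊢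
      have h1 := hbr _ hZ _ hW
      have h2 : P * (Z * W - W * Z) * P⁻¹ = P * Z * P⁻¹ * (P * W * P⁻¹) - P * W * P⁻¹ * (P * Z * P⁻¹) := by
        calc P * (Z * W - W * Z) * P⁻¹ = P * Z * 1 * W * P⁻¹ - P * W * 1 * Z * P⁻¹ := by noncomm_ring
          _ = _ := by
            rw [← hPi]
            noncomm_ring
      rw [h2]
      exact h1
    · intro Z hZ
      rw [h𝔥] at hZ ⊢
      have h1 := had _ hZ
      have h2 : (Matrix.of fun a b => x a / x b * Z a b) = diagonal x * Z * diagonal (fun a => (x a)⁻¹) := by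
        ext a b
        rw [Matrix.mul_diagonal, Matrix.diagonal_mul, Matrix.of_apply]
        ring
      have h3 : g⁻¹ = P * diagonal (fun a => (x a)⁻¹) * P⁻¹ := by
        refine Matrix.inv_eq_right_inv ?_
        have h4 : diagonal x * diagonal (fun a => (x a)⁻¹) = 1 := by
          rw [Matrix.diagonal_mul_diagonal, ← Matrix.diagonal_one]
          congr 1
          ext a
          exact mul_inv_cancel₀ (hx0 a)
        calc g * (P * diagonal (fun a => (x a)⁻¹) * P⁻¹) =
            P * diagonal x * (P⁻¹ * P) * diagonal (fun a => (x a)⁻¹) * P⁻¹ := by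
              rw [hgd]
              noncomm_ring
          _ = P * (diagonal x * diagonal (fun a => (x a)⁻¹)) * P⁻¹ := by
            rw [hPi]
            noncomm_ring
          _ = 1 := by rw [h4, mul_one, hPi']
      have h5 : P * (Matrix.of fun a b => x a / x b * Z a b) * P⁻¹ = g * (P * Z * P⁻¹) * g⁻¹ := by
        rw [h2, h3]
        calc P * (diagonal x * Z * diagonal fun a => (x a)⁻¹) * P⁻¹ =
            (P * diagonal x) * 1 * Z * 1 * (diagonal fun a => (x a)⁻¹) * P⁻¹ := by noncomm_ring
          _ = (P * diagonal x) * (P⁻¹ * P) * Z * (P⁻¹ * P) * (diagonal fun a => (x a)⁻¹) * P⁻¹ := by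
            rw [hPi]
          _ = (P * diagonal x * P⁻¹) * (P * Z * P⁻¹) * (P * (diagonal fun a => (x a)⁻¹) * P⁻¹) := by
            noncomm_ring
          _ = _ := by rw [← hgd]
      rw [h5]
      exact h1
    · intro W hW
      have hinj : Function.Injective (Matrix.toLin' P) := by
        intro v w hvw
        rw [Matrix.toLin'_apply, Matrix.toLin'_apply] at hvw
        have h1 := congrArg (fun u => P⁻¹ *ᵥ u) hvw
        simp only [Matrix.mulVec_mulVec, hPi, Matrix.one_mulVec] at h1
        exact h1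
      have hstab : ∀ Z ∈ 𝔤, ∀ w ∈ W.map (Matrix.toLin' P), Z *ᵥ w ∈ W.map (Matrix.toLin' P) := by
        rintro Z hZ _ ⟨w, hw, rfl⟩
        have h1 : P⁻¹ * Z * P ∈ 𝔥 := by
          rw [h𝔥, hback]
          exact hZ
        refine ⟨(P⁻¹ * Z * P) *ᵥ w, hW _ h1 w hw, ?_⟩
        rw [Matrix.toLin'_apply, Matrix.toLin'_apply, Matrix.mulVec_mulVec, Matrix.mulVec_mulVec]
        congr 1
        calc P * (P⁻¹ * Z * P) = (P * P⁻¹) * Z * P := by noncomm_ring
          _ = Z * P := by rw [hPi', one_mul]
      rcases hirr _ hstab with h1 | h1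
      · left
        rw [eq_bot_iff]
        intro w hw
        have h2 : Matrix.toLin' P w ∈ W.map (Matrix.toLin' P) := ⟨w, hw, rfl⟩
        rw [h1, Submodule.mem_bot, ← map_zero (Matrix.toLin' P)] at h2
        exact (Submodule.mem_bot F).2 (hinj h2)
      · right
        rw [eq_top_iff]
        intro w _
        have h2 : Matrix.toLin' P w ∈ W.map (Matrix.toLin' P) := by rw [h1]; exact Submodule.mem_top
        obtain ⟨w', hw', h3⟩ := h2
        rw [← hinj h3]
        exact hw'
  -- conclusion
  have h1 := diag dat (P⁻¹ * X * P) (by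
    refine hconv (P⁻¹ * X * P) ?_
    rw [hback]
    exact hX)
  rw [h𝔥, hback] at h1
  exact h1

/-- descent of membership from the algebraic closure -/
theorem descend {F : Type} [Field F] {N : ℕ} (𝔤 : Submodule F (Matrix (Fin N) (Fin N) F))
    (X : Matrix (Fin N) (Fin N) F)
    (h : X.map (algebraMap F (AlgebraicClosure F)) ∈
      Submodule.span (AlgebraicClosure F) ((fun Z : Matrix (Fin N) (Fin N) F =>
        Z.map (algebraMap F (AlgebraicClosure F))) '' (𝔤 : Set (Matrix (Fin N) (Fin N) F)))) :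
    X ∈ 𝔤 := by
  classical
  by_contra hX
  obtain ⟨f, hf0, hf⟩ := Submodule.exists_le_ker_of_notMem hX
  let f' : Matrix (Fin N) (Fin N) (AlgebraicClosure F) →ₗ[AlgebraicClosure F] AlgebraicClosure F :=
    { toFun := fun Y => ∑ i, ∑ j, Y i j * algebraMap F (AlgebraicClosure F) (f (Matrix.single i j 1))
      map_add' := fun Y Y' => by
        simp only [Matrix.add_apply, add_mul, Finset.sum_add_distrib]
      map_smul' := fun r Y => by
        simp only [Matrix.smul_apply, smul_eq_mul, Finset.mul_sum, RingHom.id_apply, mul_assoc] }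
  have hf' : ∀ Z : Matrix (Fin N) (Fin N) F, f' (Z.map (algebraMap F (AlgebraicClosure F))) =
      algebraMap F (AlgebraicClosure F) (f Z) := by
    intro Z
    have h1 : f' (Z.map (algebraMap F (AlgebraicClosure F))) =
      ∑ i, ∑ j, (Z.map (algebraMap F (AlgebraicClosure F))) i j *
        algebraMap F (AlgebraicClosure F) (f (Matrix.single i j 1)) := rfl
    rw [h1]
    conv_rhs => rw [Matrix.matrix_eq_sum_single Z]
    simp only [map_sum, Matrix.map_apply]
    refine Finset.sum_congr rfl fun i _ => Finset.sum_congr rfl fun j _ => ?_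
    have h2 : Matrix.single i j (Z i j) = (Z i j) • Matrix.single i j (1 : F) := by
      rw [Matrix.smul_single, smul_eq_mul, mul_one]
    rw [h2, map_smul, smul_eq_mul, map_mul]
  have h1 : Submodule.span (AlgebraicClosure F) ((fun Z : Matrix (Fin N) (Fin N) F =>
        Z.map (algebraMap F (AlgebraicClosure F))) '' (𝔤 : Set (Matrix (Fin N) (Fin N) F))) ≤
      LinearMap.ker f' := by
    rw [Submodule.span_le]
    rintro _ ⟨Z, hZ, rfl⟩
    rw [SetLike.mem_coe, LinearMap.mem_ker]
    beta_reduce
    rw [hf', LinearMap.mem_ker.1 (hf hZ), map_zero]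
  have h2 := LinearMap.mem_ker.1 (h1 h)
  rw [hf', map_eq_zero] at h2
  exact hf0 h2

theorem roote : Pool.Agent.Y142.ZD.S_ROOTE := by
  classical
  intro F _ _ N J g 𝔤 hJ hJd hsim hsep hgen hx1 h𝔤 hbr had habs X hX
  apply descend
  set K := AlgebraicClosure F with hK
  let i : F →+* K := algebraMap F K
  let S : Set (Matrix (Fin N) (Fin N) K) := (fun Z : Matrix (Fin N) (Fin N) F => Z.map i) ''
    (𝔤 : Set (Matrix (Fin N) (Fin N) F))
  have hmulmap : ∀ A A' : Matrix (Fin N) (Fin N) F, (A * A').map i = A.map i * A'.map i :=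
    fun A A' => Matrix.map_mul
  have hcp : (g.map i).charpoly = g.charpoly.map i := Matrix.charpoly_map g i
  have hJ' : (J.map i)ᵀ = J.map i := by
    rw [← Matrix.transpose_map, hJ]
  have hcz : CharZero K := charZero_of_injective_algebraMap (algebraMap F K).injective
  have hgdet : IsUnit g.det := by
    rw [isUnit_iff_ne_zero]
    intro h0
    have h1 := congrArg Matrix.det (show gᵀ * J * g = J from hsim)
    rw [Matrix.det_mul, Matrix.det_mul, h0, mul_zero] at h1
    exact hJd h1.symm
  have hginv : (g.map i)⁻¹ = (g⁻¹).map i := by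
    refine Matrix.inv_eq_right_inv ?_
    rw [← hmulmap, Matrix.mul_nonsing_inv g hgdet]
    exact Matrix.map_one i (map_zero i) (map_one i)
  have hsplits : (g.map i).charpoly.Splits := IsAlgClosed.splits _
  refine rootd K N (J.map i) (g.map i) (Submodule.span K S) hJ' ?_ ?_ hsplits ?_ ?_ ?_ ?_ ?_ ?_ ?_
    (X.map i) ?_
  · -- determinant
    have h1 : (J.map i).det = i J.det := (RingHom.map_det i J).symm
    rw [h1]
    exact fun h0 => hJd ((map_eq_zero i).1 h0)
  · -- isometry
    show (g.map i)ᵀ * J.map i * g.map i = J.map i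
    rw [← Matrix.transpose_map, ← hmulmap, ← hmulmap]
    rw [show gᵀ * J * g = J from hsim]
  · rw [hcp]
    exact hsep.map
  · -- generic
    have hlift : ∀ y : AlgebraicClosure K, aeval y (g.map i).charpoly = 0 →
        ∃ x : K, aeval x g.charpoly = 0 ∧ algebraMap K (AlgebraicClosure K) x = y := by
      intro y hy
      have h1 : (g.map i).charpoly ≠ 0 := (g.map i).charpoly_monic.ne_zero
      have h2 : y ∈ ((g.map i).charpoly.map (algebraMap K (AlgebraicClosure K))).roots := by
        rw [Polynomial.mem_roots (Polynomial.map_ne_zero h1), Polynomial.IsRoot.def,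
          Polynomial.eval_map_algebraMap]
        exact hy
      rw [hsplits.roots_map] at h2
      obtain ⟨x, hx, hxy⟩ := Multiset.mem_map.1 h2
      refine ⟨x, ?_, hxy⟩
      have h3 := (Polynomial.mem_roots h1).1 hx
      rw [hcp, Polynomial.IsRoot.def, Polynomial.eval_map_algebraMap] at h3
      exact h3
    intro x' y' z' w' hx' hy' hz' hw' hxy hxw
    obtain ⟨x, hx, rfl⟩ := hlift x' hx'
    obtain ⟨y, hy, rfl⟩ := hlift y' hy'
    obtain ⟨z, hz, rfl⟩ := hlift z' hz'
    obtain ⟨w, hw, rfl⟩ := hlift w' hw'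
    have hinj := (algebraMap K (AlgebraicClosure K)).injective
    rw [← map_mul, ← map_mul] at hxw
    rcases hgen x y z w hx hy hz hw (fun h => hxy (by rw [h])) (hinj hxw) with h | h
    · left
      rw [h.1, h.2]
      exact ⟨rfl, rfl⟩
    · right
      rw [← map_mul, ← map_mul, h.1, h.2]
      simp
  · intro x hx
    refine hx1 x ?_
    rw [hcp, Polynomial.eval_map_algebraMap] at hx
    exact hx
  · -- skew
    intro Z hZ
    rw [skew_iff hJ']
    induction hZ using Submodule.span_induction with
    | mem Z hZ =>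
      obtain ⟨Y, hY, rfl⟩ := hZ
      have h1 := (skew_iff hJ).1 (h𝔤 Y hY)
      show (Y.map i)ᵀ * J.map i + J.map i * Y.map i = 0
      rw [← Matrix.transpose_map, ← hmulmap, ← hmulmap, ← Matrix.map_add i (map_add i), h1]
      exact Matrix.map_zero i (map_zero i)
    | zero => simp
    | add Y Z _ _ h1 h2 =>
      rw [Matrix.transpose_add, add_mul, mul_add]
      calc Yᵀ * J.map i + Zᵀ * J.map i + (J.map i * Y + J.map i * Z) =
          (Yᵀ * J.map i + J.map i * Y) + (Zᵀ * J.map i + J.map i * Z) := by abel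
        _ = 0 := by rw [h1, h2, add_zero]
    | smul r Y _ h1 =>
      rw [Matrix.transpose_smul, Matrix.smul_mul, Matrix.mul_smul, ← smul_add, h1, smul_zero]
  · -- brackets
    intro Y hY Z hZ
    induction hY using Submodule.span_induction with
    | mem Y hY =>
      obtain ⟨Y, hY, rfl⟩ := hY
      induction hZ using Submodule.span_induction with
      | mem Z hZ =>
        obtain ⟨Z, hZ, rfl⟩ := hZ
        apply Submodule.subset_span
        refine ⟨Y * Z - Z * Y, hbr Y hY Z hZ, ?_⟩
        show (Y * Z - Z * Y).map i = Y.map i * Z.map i - Z.map i * Y.map i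
        rw [← hmulmap, ← hmulmap]
        exact Matrix.map_sub i (map_sub i) _ _
      | zero => simp
      | add A B _ _ h1 h2 =>
        have h3 := Submodule.add_mem _ h1 h2
        convert h3 using 1
        noncomm_ring
      | smul r A _ h1 =>
        have h3 := Submodule.smul_mem _ r h1
        convert h3 using 1
        rw [smul_sub, Matrix.smul_mul, Matrix.mul_smul]
    | zero => simp
    | add A B _ _ h1 h2 =>
      have h3 := Submodule.add_mem _ h1 h2
      convert h3 using 1
      noncomm_ring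
    | smul r A _ h1 =>
      have h3 := Submodule.smul_mem _ r h1
      convert h3 using 1
      rw [smul_sub, Matrix.smul_mul, Matrix.mul_smul]
  · -- conjugation
    intro Z hZ
    induction hZ using Submodule.span_induction with
    | mem Z hZ =>
      obtain ⟨Z, hZ, rfl⟩ := hZ
      apply Submodule.subset_span
      refine ⟨g * Z * g⁻¹, had Z hZ, ?_⟩
      show (g * Z * g⁻¹).map i = g.map i * Z.map i * (g.map i)⁻¹
      rw [hginv, hmulmap, hmulmap]
    | zero => simp
    | add A B _ _ h1 h2 =>
      rw [mul_add, add_mul]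
      exact Submodule.add_mem _ h1 h2
    | smul r A _ h1 =>
      rw [Matrix.mul_smul, Matrix.smul_mul]
      exact Submodule.smul_mem _ r h1
  · -- irreducibility
    intro W hW
    let 𝒜 : Subalgebra F (Matrix (Fin N) (Fin N) F) :=
      { carrier := {A | ∀ w ∈ W, A.map i *ᵥ w ∈ W}
        mul_mem' := by
          intro A B hA hB w hw
          rw [hmulmap, ← Matrix.mulVec_mulVec]
          exact hA _ (hB _ hw)
        add_mem' := by
          intro A B hA hB w hw
          rw [Matrix.map_add i (map_add i), Matrix.add_mulVec]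
          exact W.add_mem (hA w hw) (hB w hw)
        algebraMap_mem' := by
          intro r w hw
          have h1 : (algebraMap F (Matrix (Fin N) (Fin N) F) r).map i = (i r) • (1 : Matrix _ _ K) := by
            ext a b
            rw [Matrix.map_apply, Matrix.algebraMap_matrix_apply, Matrix.smul_apply, Matrix.one_apply]
            by_cases hab : a = b
            · simp [hab]
            · simp [hab]
          rw [h1, Matrix.smul_mulVec, Matrix.one_mulVec]
          exact W.smul_mem _ hw }
    have h𝒜 : ∀ A, A ∈ 𝒜 ↔ ∀ w ∈ W, A.map i *ᵥ w ∈ W := fun A => Iff.rfl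
    have htop := habs 𝒜 (fun Z hZ w hw => hW _ (Submodule.subset_span ⟨Z, hZ, rfl⟩) w hw)
    have hall : ∀ A : Matrix (Fin N) (Fin N) F, ∀ w ∈ W, A.map i *ᵥ w ∈ W := by
      intro A
      rw [← h𝒜, htop]
      exact Algebra.mem_top
    by_cases hbot : W = ⊥
    · exact Or.inl hbot
    right
    obtain ⟨w, hw, hw0⟩ := Submodule.exists_mem_ne_zero_of_ne_bot hbot
    obtain ⟨j, hj⟩ := Function.ne_iff.1 hw0
    rw [Pi.zero_apply] at hj
    have hsingle : ∀ a : Fin N, Pi.single a (1 : K) ∈ W := by
      intro a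
      have h1 := hall (Matrix.single a j 1) w hw
      have h2 := W.smul_mem (w j)⁻¹ h1
      convert h2 using 1
      ext b
      rw [Pi.smul_apply, smul_eq_mul]
      simp only [Matrix.mulVec, dotProduct, Matrix.map_apply]
      rw [Finset.sum_eq_single j]
      · by_cases hab : a = b
        · subst hab
          simp [hj]
        · simp [hab, Ne.symm hab]
      · intro k _ hk
        simp [Ne.symm hk]
      · intro hk
        exact absurd (Finset.mem_univ _) hk
    rw [eq_top_iff]
    intro v _
    have h1 : v = ∑ a, v a • Pi.single a (1 : K) := by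
      ext b
      simp [Finset.sum_apply, Pi.single_apply]
    rw [h1]
    exact W.sum_mem fun a _ => W.smul_mem _ (hsingle a)
  · rw [skew_iff hJ']
    have h1 := (skew_iff hJ).1 hX
    rw [← Matrix.transpose_map, ← hmulmap, ← hmulmap, ← Matrix.map_add i (map_add i), h1]
    exact Matrix.map_zero i (map_zero i)

end Pool.Agent.R932.OP
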