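import Pool.Agent.Y142.ZD.Stm

set_option autoImplicit false

/-!
Project OP, task TAME (helper308): the tame inertia generator.
-/

open Polynomial
open Pool.Agent.Y142.ZI Pool.Agent.Y142.ZD

namespace Pool.Agent.R932.OP

namespace TameAux

variable (ℓ : ℕ) [hℓ : Fact ℓ.Prime]

/-- roots of unity of order prime to `ℓ` lie in `NR ℓ` -/
lemma root_mem {n : ℕ} (hn : 0 < n) (hln : ¬ ℓ ∣ n) {z : AlgebraicClosure ℚ_[ℓ]}
    (hz : z ^ n = 1) : z ∈ NR ℓ :=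
  IntermediateField.subset_adjoin _ _ ⟨n, hn, hln, hz⟩

lemma norm_root {L : ℕ} (hL : 0 < L) {r s : AlgebraicClosure ℚ_[ℓ]} (h : r ^ L = s ^ L) :
    ‖r‖ = ‖s‖ := by
  have h1 : ‖r‖ ^ L = ‖s‖ ^ L := by rw [← norm_pow, ← norm_pow, h]
  exact (pow_left_inj₀ (norm_nonneg _) (norm_nonneg _) hL.ne').1 h1

/-- `X ^ L - ℓ` is the minimal polynomial of its roots over an unramified field -/
lemma minpoly_eq (K : IntermediateField ℚ_[ℓ] (AlgebraicClosure ℚ_[ℓ])) (hK : Unr ℓ K) {L : ℕ}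
    (hL : 0 < L) {r : AlgebraicClosure ℚ_[ℓ]}
    (hr : r ^ L = algebraMap ℚ_[ℓ] (AlgebraicClosure ℚ_[ℓ]) (ℓ : ℚ_[ℓ])) :
    minpoly K r = X ^ L - C (algebraMap ℚ_[ℓ] K (ℓ : ℚ_[ℓ])) := by
  have hl1 : (1 : ℝ) < ℓ := by exact_mod_cast hℓ.out.one_lt
  have hl0 : (0 : ℝ) < ℓ := by linarith
  set P : K[X] := X ^ L - C (algebraMap ℚ_[ℓ] K (ℓ : ℚ_[ℓ])) with hP
  have hPm : P.Monic := monic_X_pow_sub_C _ hL.ne'
  have hPd : P.natDegree = L := natDegree_X_pow_sub_C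
  have hroot : ∀ x : AlgebraicClosure ℚ_[ℓ], aeval x P = 0 ↔
      x ^ L = algebraMap ℚ_[ℓ] (AlgebraicClosure ℚ_[ℓ]) (ℓ : ℚ_[ℓ]) := by
    intro x
    rw [hP, map_sub, map_pow, aeval_X, aeval_C, ← IsScalarTower.algebraMap_apply, sub_eq_zero]
  have hPr : aeval r P = 0 := (hroot r).2 hr
  have hint : IsIntegral K r := ⟨P, hPm, by rwa [← aeval_def]⟩
  set Q := minpoly K r with hQ
  have hQm : Q.Monic := minpoly.monic hint
  have hdvd : Q ∣ P := minpoly.dvd K r hPr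
  have hQpos : 0 < Q.natDegree := minpoly.natDegree_pos hint
  have hQle : Q.natDegree ≤ L := by
    rw [← hPd]; exact natDegree_le_of_dvd hdvd hPm.ne_zero
  -- norm of the constant coefficient
  have hsplit : (Q.map (algebraMap K (AlgebraicClosure ℚ_[ℓ]))).Splits :=
    IsAlgClosed.splits _
  have hrn : ‖r‖ ^ L = (ℓ : ℝ)⁻¹ := by
    rw [← norm_pow, hr]
    have : ‖(algebraMap ℚ_[ℓ] (AlgebraicClosure ℚ_[ℓ])) (ℓ : ℚ_[ℓ])‖ = ‖(ℓ : ℚ_[ℓ])‖ := by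
      exact norm_algebraMap' _ _
    rw [this]; exact Padic.norm_p
  set M := Q.map (algebraMap K (AlgebraicClosure ℚ_[ℓ])) with hM
  have hMm : M.Monic := hQm.map _
  have hMd : M.natDegree = Q.natDegree := hQm.natDegree_map _
  have hcard : Multiset.card M.roots = Q.natDegree := by
    rw [← hMd]; exact (splits_iff_card_roots.1 hsplit)
  have hprod : M.coeff 0 = (-1) ^ M.natDegree * M.roots.prod :=
    hsplit.coeff_zero_eq_prod_roots_of_monic hMm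
  have hnorms : ∀ x ∈ M.roots, ‖x‖ = ‖r‖ := by
    intro x hx
    have hx0 : aeval x Q = 0 := by
      have := (mem_roots hMm.ne_zero).1 hx
      rwa [IsRoot, hM, eval_map_algebraMap] at this
    have hxP : aeval x P = 0 := by
      obtain ⟨W, hW⟩ := hdvd
      rw [hW, map_mul, hx0, zero_mul]
    exact norm_root ℓ hL (by rw [(hroot x).1 hxP, hr])
  have hnp : ∀ S : Multiset (AlgebraicClosure ℚ_[ℓ]), (∀ x ∈ S, ‖x‖ = ‖r‖) →
      ‖S.prod‖ = ‖r‖ ^ Multiset.card S := by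
    intro S
    induction S using Multiset.induction_on with
    | empty => intro _; simp
    | cons a S ih =>
      intro h
      rw [Multiset.prod_cons, norm_mul, Multiset.card_cons, pow_succ', h a (by simp),
        ih (fun x hx => h x (by simp [hx]))]
  have hc0 : ‖M.coeff 0‖ = ‖r‖ ^ Q.natDegree := by
    rw [hprod, norm_mul, norm_pow, norm_neg, norm_one, one_pow, one_mul, hnp _ hnorms, hcard]
  have hcK : M.coeff 0 = ((Q.coeff 0 : K) : AlgebraicClosure ℚ_[ℓ]) := by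
    rw [hM, coeff_map]; rfl
  have hr0 : r ≠ 0 := by
    rintro rfl
    rw [norm_zero, zero_pow hL.ne'] at hrn
    exact (inv_pos.2 hl0).ne hrn
  have hne : ((Q.coeff 0 : K) : AlgebraicClosure ℚ_[ℓ]) ≠ 0 := by
    rw [← hcK, ← norm_ne_zero_iff, hc0]
    exact pow_ne_zero _ (norm_ne_zero_iff.2 hr0)
  obtain ⟨k, hk⟩ := hK _ (Q.coeff 0).2 hne
  have key : (ℓ : ℝ) ^ (k * L) = (ℓ : ℝ) ^ (-(Q.natDegree : ℤ)) := by
    rw [zpow_mul, ← hk, ← hcK, hc0, zpow_natCast, ← pow_mul, mul_comm, pow_mul, hrn, zpow_neg,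
      zpow_natCast, inv_pow]
  have hkL : k * L = -(Q.natDegree : ℤ) := zpow_right_injective₀ hl0 hl1.ne' key
  have hdL : L ∣ Q.natDegree := by
    have : (L : ℤ) ∣ (Q.natDegree : ℤ) := ⟨-k, by linarith⟩
    exact_mod_cast this
  have hdeg : Q.natDegree = L := le_antisymm hQle (Nat.le_of_dvd hQpos hdL)
  exact (eq_of_monic_of_dvd_of_natDegree_le hQm hPm hdvd (by rw [hPd, hdeg])).symm

end TameAux

open TameAux in
theorem tame (hNR : S_NR) : S_TAME := by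
  intro ℓ hℓ L hL hlL
  obtain ⟨hU, -, h3⟩ := hNR ℓ
  have hl0 : (ℓ : ℚ_[ℓ]) ≠ 0 := by exact_mod_cast hℓ.out.ne_zero
  obtain ⟨r₀, hr₀⟩ := IsAlgClosed.exists_pow_nat_eq
    (algebraMap ℚ_[ℓ] (AlgebraicClosure ℚ_[ℓ]) (ℓ : ℚ_[ℓ])) hL
  -- primitive root of unity
  obtain ⟨ζ, hζ⟩ : ∃ ζ : AlgebraicClosure ℚ_[ℓ], IsPrimitiveRoot ζ L := by
    have : NeZero (L : AlgebraicClosure ℚ_[ℓ]) := ⟨by exact_mod_cast hL.ne'⟩
    obtain ⟨ζ, hζ⟩ := IsAlgClosed.exists_root (cyclotomic L (AlgebraicClosure ℚ_[ℓ]))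
      (degree_cyclotomic_pos L _ hL).ne'
    exact ⟨ζ, (isRoot_cyclotomic_iff.1 hζ)⟩
  have hζK : ζ ∈ NR ℓ := root_mem ℓ hL hlL hζ.pow_eq_one
  have hmin := minpoly_eq ℓ (NR ℓ) hU hL hr₀
  have hroot : aeval (ζ * r₀) (minpoly (NR ℓ) r₀) = 0 := by
    rw [hmin, map_sub, map_pow, aeval_X, aeval_C, ← IsScalarTower.algebraMap_apply, mul_pow,
      hζ.pow_eq_one, one_mul, hr₀, sub_self]
  have hr₀i : IsAlgebraic (NR ℓ) r₀ := Algebra.IsAlgebraic.isAlgebraic r₀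
  obtain ⟨τ', hτ'⟩ := minpoly.exists_algEquiv_of_root hr₀i hroot
  obtain ⟨τ, hτ⟩ : ∃ τ : AlgebraicClosure ℚ_[ℓ] ≃ₐ[NR ℓ] AlgebraicClosure ℚ_[ℓ],
      τ r₀ = ζ * r₀ := ⟨τ'.symm, by rw [AlgEquiv.symm_apply_eq, hτ']⟩
  refine ⟨τ, ?_⟩
  intro e c r s heL hc hr hs
  have he0 : 0 < e := Nat.pos_of_dvd_of_pos heL hL
  have hle : ¬ ℓ ∣ e := fun h => hlL (h.trans heL)
  obtain ⟨f, hf⟩ := heL
  have hf0 : 0 < f := Nat.pos_of_ne_zero (by rintro rfl; simp at hf; omega)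
  -- the unit
  set u : ℚ_[ℓ] := c / ℓ with hu
  have hun : ‖u‖ = 1 := by
    rw [hu, norm_div, hc, Padic.norm_p]
    exact div_self (inv_ne_zero (by exact_mod_cast hℓ.out.ne_zero))
  have hcu : c = u * ℓ := by rw [hu]; field_simp
  obtain ⟨y, hy⟩ := IsAlgClosed.exists_pow_nat_eq
    (algebraMap ℚ_[ℓ] (AlgebraicClosure ℚ_[ℓ]) u) he0
  have hyK : y ∈ NR ℓ := h3 e u y he0 hle hun hy
  have hc0 : c ≠ 0 := by
    rintro rfl
    rw [norm_zero] at hc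
    exact (inv_pos.2 (by exact_mod_cast hℓ.out.pos : (0 : ℝ) < ℓ)).ne hc
  have hca : algebraMap ℚ_[ℓ] (AlgebraicClosure ℚ_[ℓ]) c ≠ 0 :=
    (map_ne_zero_iff _ (FaithfulSMul.algebraMap_injective _ _)).2 hc0
  set t : AlgebraicClosure ℚ_[ℓ] := y * r₀ ^ f with ht
  have hte : t ^ e = algebraMap ℚ_[ℓ] (AlgebraicClosure ℚ_[ℓ]) c := by
    rw [ht, mul_pow, hy, ← pow_mul, mul_comm f e, ← hf, hr₀, hcu, map_mul]
  have ht0 : t ≠ 0 := by
    intro h; rw [h, zero_pow he0.ne'] at hte; exact hca hte.symm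
  have hr0 : r ≠ 0 := by
    intro h; rw [h, zero_pow he0.ne'] at hr; exact hca hr.symm
  have hfix : ∀ x ∈ NR ℓ, ∀ k : ℕ, (τ ^ k) x = x := by
    intro x hx k
    exact (τ ^ k).commutes (⟨x, hx⟩ : NR ℓ)
  have hpow : ∀ k : ℕ, (τ ^ k) r₀ = ζ ^ k * r₀ := by
    intro k
    induction k with
    | zero => simp
    | succ k ih =>
      rw [pow_succ', AlgEquiv.mul_apply, ih, map_mul, map_pow, hτ]
      have : τ ζ = ζ := by simpa using hfix ζ hζK 1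
      rw [this]; ring
  -- `r = ξ t`
  set ξ := r / t with hξ
  have hξe : ξ ^ e = 1 := by rw [hξ, div_pow, hr, hte, div_self hca]
  have hξK : ξ ∈ NR ℓ := root_mem ℓ he0 hle hξe
  have hrt : r = ξ * t := by rw [hξ]; field_simp
  have hprim : IsPrimitiveRoot (ζ ^ f) e := hζ.pow hL (by rw [hf]; ring)
  have hq : (s / r) ^ e = 1 := by rw [div_pow, hr, hs, div_self hca]
  have : NeZero e := ⟨he0.ne'⟩
  obtain ⟨k, -, hk⟩ := hprim.eq_pow_of_pow_eq_one hq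
  refine ⟨k, ?_⟩
  have h1 : (τ ^ k) r = (ζ ^ f) ^ k * r := by
    rw [hrt, map_mul, hfix ξ hξK k, ht, map_mul, hfix y hyK k, map_pow, hpow k, mul_pow]
    ring
  rw [h1, hk]
  field_simp

end Pool.Agent.R932.OP
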