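import Pool.Agent.Y142.ZD.Stm
import Pool.Agent.Y547.ZI.Nice

/-!
Project OP (owner helper932): the local types D2 and D3. Written by helper825.
-/

set_option autoImplicit false

open Matrix Polynomial
open Pool.Agent.Y142.ZI Pool.Agent.Y142.ZD
open Pool.Agent.Y142.ZS (Generic)

namespace Pool.Agent.R932.OP

section general

variable {ℓ : ℕ} [hℓ : Fact ℓ.Prime]

lemma charpoly_neg' {m : ℕ} (A : Matrix (Fin m) (Fin m) ℚ_[ℓ]) :
    (-A).charpoly = (-1) ^ m * A.charpoly.comp (-X) := by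
  have h1 : A.charpoly.comp (-X) = (Polynomial.compRingHom (-X : ℚ_[ℓ][X])) A.charpoly := rfl
  rw [h1]
  unfold Matrix.charpoly
  rw [RingHom.map_det]
  have h2 : (Polynomial.compRingHom (-X : ℚ_[ℓ][X])).mapMatrix (charmatrix A) =
      -(charmatrix (-A)) := by
    ext i j
    rw [RingHom.mapMatrix_apply, Matrix.map_apply, Matrix.neg_apply]
    by_cases hij : i = j
    · subst hij
      rw [charmatrix_apply_eq, charmatrix_apply_eq]
      simp only [coe_compRingHom_apply, sub_comp, X_comp, C_comp, Matrix.neg_apply, map_neg]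
      ring_nf
    · rw [charmatrix_apply_ne _ _ _ hij, charmatrix_apply_ne _ _ _ hij]
      simp
  rw [h2, Matrix.det_neg, Fintype.card_fin, ← mul_assoc, ← mul_pow]
  simp

lemma aeval_neg_charpoly {m : ℕ} (A : Matrix (Fin m) (Fin m) ℚ_[ℓ]) (z : AlgebraicClosure ℚ_[ℓ]) :
    aeval z (-A).charpoly = 0 ↔ aeval (-z) A.charpoly = 0 := by
  rw [charpoly_neg', map_mul, map_pow, map_neg, map_one, aeval_comp, map_neg, aeval_X]
  constructor
  · intro h
    rcases mul_eq_zero.1 h with h | h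
    · exact absurd h (pow_ne_zero _ (by norm_num))
    · exact h
  · intro h
    rw [h, mul_zero]

lemma cop_iff (p q : ℚ_[ℓ][X]) : IsCoprime p q ↔
    ∀ a : AlgebraicClosure ℚ_[ℓ], aeval a p ≠ 0 ∨ aeval a q ≠ 0 :=
  Polynomial.isCoprime_iff_aeval_ne_zero_of_isAlgClosed ℚ_[ℓ] (AlgebraicClosure ℚ_[ℓ]) p q

lemma sep_neg {m : ℕ} {A : Matrix (Fin m) (Fin m) ℚ_[ℓ]} (h : A.charpoly.Separable) :
    (-A).charpoly.Separable := by
  unfold Polynomial.Separable at h ⊢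
  rw [cop_iff] at h ⊢
  intro z
  rcases h (-z) with h | h
  · left
    rwa [Ne, aeval_neg_charpoly]
  · right
    intro h0
    apply h
    rw [charpoly_neg', derivative_mul, derivative_comp] at h0
    have e : derivative ((-1 : ℚ_[ℓ][X]) ^ m) = 0 := by
      rw [show ((-1 : ℚ_[ℓ][X]) ^ m) = C ((-1) ^ m) by simp]
      exact derivative_C
    rw [e, zero_mul, zero_add] at h0
    rw [map_mul, map_pow, map_neg, map_one, map_mul, derivative_neg, derivative_X, map_neg, map_one,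
      aeval_comp, map_neg, aeval_X] at h0
    rcases mul_eq_zero.1 h0 with h | h
    · exact absurd h (pow_ne_zero _ (by norm_num))
    · rcases mul_eq_zero.1 h with h | h
      · norm_num at h
      · exact h

lemma aeval_RA {m : ℕ} (c₁ c₂ : ℚ_[ℓ]) (A : Matrix (Fin m) (Fin m) ℚ_[ℓ])
    (z : AlgebraicClosure ℚ_[ℓ]) : aeval z (RA c₁ c₂ A) = 0 ↔
      z ^ 2 = algebraMap ℚ_[ℓ] _ c₁ ∨ z ^ 2 = algebraMap ℚ_[ℓ] _ c₂ ∨ aeval z A.charpoly = 0 ∨
        aeval (-z) A.charpoly = 0 := by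
  unfold RA
  rw [map_mul, map_mul, map_mul, mul_eq_zero, mul_eq_zero, mul_eq_zero, aeval_neg_charpoly,
    map_sub, map_sub, map_pow, aeval_X, aeval_C, aeval_C, sub_eq_zero, sub_eq_zero]
  tauto

lemma sep_RA {m : ℕ} {c₁ c₂ : ℚ_[ℓ]} {A : Matrix (Fin m) (Fin m) ℚ_[ℓ]}
    (h1 : c₁ ≠ 0) (h2 : c₂ ≠ 0) (h12 : c₁ ≠ c₂) (h : A.charpoly.Separable)
    (hP : ∀ z : AlgebraicClosure ℚ_[ℓ], aeval z A.charpoly = 0 →
      z ^ 2 ≠ algebraMap ℚ_[ℓ] _ c₁ ∧ z ^ 2 ≠ algebraMap ℚ_[ℓ] _ c₂)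
    (hPP : ∀ z : AlgebraicClosure ℚ_[ℓ], aeval z A.charpoly = 0 → aeval (-z) A.charpoly ≠ 0) :
    (RA c₁ c₂ A).Separable := by
  unfold RA
  have cop : ∀ p q : ℚ_[ℓ][X], (∀ z : AlgebraicClosure ℚ_[ℓ], aeval z p = 0 → aeval z q ≠ 0) →
      IsCoprime p q := by
    intro p q hpq
    rw [cop_iff]
    intro z
    by_cases hz : aeval z p = 0
    · exact Or.inr (hpq z hz)
    · exact Or.inl hz
  have two : ((2 : ℕ) : ℚ_[ℓ]) ≠ 0 := by norm_num
  have key : ∀ (c : ℚ_[ℓ]) (z : AlgebraicClosure ℚ_[ℓ]), aeval z (X ^ 2 - C c) = 0 ↔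
      z ^ 2 = algebraMap ℚ_[ℓ] _ c := by
    intro c z
    rw [map_sub, map_pow, aeval_X, aeval_C, sub_eq_zero]
  have s1 : ((X ^ 2 - C c₁) * (X ^ 2 - C c₂)).Separable := by
    refine Separable.mul (separable_X_pow_sub_C _ two h1) (separable_X_pow_sub_C _ two h2) ?_
    refine cop _ _ fun z hz hz' => ?_
    rw [key] at hz hz'
    exact h12 ((algebraMap ℚ_[ℓ] (AlgebraicClosure ℚ_[ℓ])).injective (hz.symm.trans hz'))
  have s2 : ((X ^ 2 - C c₁) * (X ^ 2 - C c₂) * A.charpoly).Separable := by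
    refine Separable.mul s1 h ?_
    refine (cop _ _ fun z hz hz' => ?_)
    rw [map_mul, mul_eq_zero, key, key] at hz
    rcases hz with hz | hz
    · exact (hP z hz').1 hz
    · exact (hP z hz').2 hz
  refine Separable.mul s2 (sep_neg h) ?_
  refine (cop _ _ fun z hz hz' => ?_)
  rw [aeval_neg_charpoly] at hz'
  rw [map_mul, mul_eq_zero, map_mul, mul_eq_zero, key, key] at hz
  rcases hz with (hz | hz) | hz
  · exact (hP _ hz').1 (by rw [neg_sq]; exact hz)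
  · exact (hP _ hz').2 (by rw [neg_sq]; exact hz)
  · exact hPP z hz hz'

lemma tau_alg (τ : AlgebraicClosure ℚ_[ℓ] ≃ₐ[NR ℓ] AlgebraicClosure ℚ_[ℓ]) (c : ℚ_[ℓ]) :
    τ (algebraMap ℚ_[ℓ] _ c) = algebraMap ℚ_[ℓ] _ c :=
  (τ.restrictScalars ℚ_[ℓ]).commutes c

lemma tau_NR (τ : AlgebraicClosure ℚ_[ℓ] ≃ₐ[NR ℓ] AlgebraicClosure ℚ_[ℓ])
    {x : AlgebraicClosure ℚ_[ℓ]} (hx : x ∈ NR ℓ) : τ x = x :=
  τ.commutes ⟨x, hx⟩

lemma tame_neg {L : ℕ} {τ : AlgebraicClosure ℚ_[ℓ] ≃ₐ[NR ℓ] AlgebraicClosure ℚ_[ℓ]}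
    (h2 : 2 ∣ L) (hτ : Tame ℓ L τ) {c : ℚ_[ℓ]} (hc : ‖c‖ = (ℓ : ℝ)⁻¹)
    {r : AlgebraicClosure ℚ_[ℓ]} (hr : r ^ 2 = algebraMap ℚ_[ℓ] _ c) : τ r = -r := by
  obtain ⟨k, hk⟩ := hτ 2 c r (-r) h2 hc hr (by rw [neg_sq]; exact hr)
  have hsq : (τ r) ^ 2 = r ^ 2 := by
    rw [← map_pow, hr, tau_alg]
  rcases sq_eq_sq_iff_eq_or_eq_neg.1 hsq with h | h
  · exfalso
    have h3 : ∀ k : ℕ, (τ ^ k) r = r := by
      intro k
      induction k with
      | zero => rfl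
      | succ k ih =>
        rw [pow_succ]
        change (τ ^ k) (τ r) = r
        rw [h, ih]
    rw [h3 k] at hk
    have h4 : r = 0 := by
      have : (2 : AlgebraicClosure ℚ_[ℓ]) * r = 0 := by linear_combination hk
      rcases mul_eq_zero.1 this with h | h
      · norm_num at h
      · exact h
    rw [h4] at hr
    have h5 : c = 0 := by
      apply (algebraMap ℚ_[ℓ] (AlgebraicClosure ℚ_[ℓ])).injective
      rw [← hr]; simp
    rw [h5, norm_zero] at hc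
    have := hℓ.out.pos
    have : (0 : ℝ) < (ℓ : ℝ)⁻¹ := by positivity
    linarith
  · exact h

lemma norm_alg (c : ℚ_[ℓ]) : ‖algebraMap ℚ_[ℓ] (AlgebraicClosure ℚ_[ℓ]) c‖ = ‖c‖ :=
  PadicAlgCl.norm_extends ℓ c

/-! ### Type D2 -/

/-- The polynomial with the roots `1 ± √ℓ, 2, …, m - 1`. -/
noncomputable def P2 (ℓ : ℕ) [Fact ℓ.Prime] (m : ℕ) : ℚ_[ℓ][X] :=
  ((X - 1) ^ 2 - C (ℓ : ℚ_[ℓ])) * ∏ j ∈ Finset.range (m - 2), (X - C ((j + 2 : ℕ) : ℚ_[ℓ]))

lemma P2_monic (m : ℕ) (hm : 2 ≤ m) : (P2 ℓ m).Monic ∧ (P2 ℓ m).natDegree = m := by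
  have h1 : ((X - 1) ^ 2 - C (ℓ : ℚ_[ℓ])).Monic := by
    rw [show ((X - 1 : ℚ_[ℓ][X]) ^ 2 - C (ℓ : ℚ_[ℓ])) = X ^ 2 + (- 2 * X + C (1 - (ℓ : ℚ_[ℓ]))) by
      rw [C_sub, C_1]; ring]
    apply monic_X_pow_add
    refine lt_of_le_of_lt (degree_add_le _ _) (max_lt ?_ ?_)
    · refine lt_of_le_of_lt (degree_mul_le _ _) ?_
      rw [show (-2 : ℚ_[ℓ][X]) = C (-2) by rw [C_neg, map_ofNat], degree_C (by norm_num), degree_X]
      norm_num
    · exact lt_of_le_of_lt degree_C_le (by norm_num)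
  have h1' : ((X - 1) ^ 2 - C (ℓ : ℚ_[ℓ])).natDegree = 2 := by
    compute_degree!
  have h2 : (∏ j ∈ Finset.range (m - 2), (X - C ((j + 2 : ℕ) : ℚ_[ℓ]))).Monic :=
    monic_prod_of_monic _ _ fun j _ => monic_X_sub_C _
  have h2' : (∏ j ∈ Finset.range (m - 2), (X - C ((j + 2 : ℕ) : ℚ_[ℓ]))).natDegree = m - 2 := by
    rw [natDegree_prod_of_monic _ _ fun j _ => monic_X_sub_C _,
      Finset.sum_congr rfl (fun j _ => natDegree_X_sub_C _)]
    simp
  refine ⟨h1.mul h2, ?_⟩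
  unfold P2
  rw [h1.natDegree_mul h2, h1', h2']
  omega

lemma aeval_P2 (m : ℕ) (z : AlgebraicClosure ℚ_[ℓ]) : aeval z (P2 ℓ m) = 0 ↔
    (z - 1) ^ 2 = (ℓ : AlgebraicClosure ℚ_[ℓ]) ∨
      ∃ j, j < m - 2 ∧ z = ((j + 2 : ℕ) : AlgebraicClosure ℚ_[ℓ]) := by
  unfold P2
  rw [map_mul, mul_eq_zero]
  apply or_congr
  · rw [map_sub, map_pow, map_sub, aeval_X, map_one, aeval_C, sub_eq_zero, map_natCast]
  · rw [map_prod, Finset.prod_eq_zero_iff]
    constructor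
    · rintro ⟨j, hj, h⟩
      refine ⟨j, by simpa using hj, ?_⟩
      rwa [map_sub, aeval_X, aeval_C, map_natCast, sub_eq_zero] at h
    · rintro ⟨j, hj, h⟩
      refine ⟨j, by simpa using hj, ?_⟩
      rw [map_sub, aeval_X, aeval_C, map_natCast, sub_eq_zero]
      exact h

lemma not_sq (n : ℕ) : (n : AlgebraicClosure ℚ_[ℓ]) ^ 2 ≠ (ℓ : AlgebraicClosure ℚ_[ℓ]) := by
  intro h
  have h1 : n ^ 2 = ℓ := by exact_mod_cast h
  have h2 := hℓ.out
  rw [← h1] at h2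
  exact Nat.Prime.not_prime_pow (le_refl 2) h2

lemma sep_P2 (m : ℕ) : (P2 ℓ m).Separable := by
  unfold P2
  refine Separable.mul ?_ ?_ ?_
  · unfold Polynomial.Separable
    rw [cop_iff]
    intro z
    by_contra h
    push Not at h
    obtain ⟨h1, h2⟩ := h
    rw [map_sub, map_pow, map_sub, aeval_X, map_one, aeval_C, sub_eq_zero, map_natCast] at h1
    rw [derivative_sub, derivative_C, sub_zero, derivative_pow, derivative_sub, derivative_X,
      derivative_one] at h2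
    simp only [map_mul, map_pow, map_sub, aeval_X, map_one] at h2
    have h3 : z - 1 = 0 := by
      simp at h2
      exact h2
    rw [h3] at h1
    have := not_sq (ℓ := ℓ) 0
    apply this
    simpa using h1
  · rw [separable_prod_X_sub_C_iff']
    intro x _ y _ hxy
    have : x + 2 = y + 2 := by exact_mod_cast hxy
    omega
  · rw [cop_iff]
    intro z
    by_contra h
    push Not at h
    obtain ⟨h1, h2⟩ := h
    rw [map_sub, map_pow, map_sub, aeval_X, map_one, aeval_C, sub_eq_zero, map_natCast] at h1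
    rw [map_prod, Finset.prod_eq_zero_iff] at h2
    obtain ⟨j, hj, h⟩ := h2
    rw [map_sub, aeval_X, aeval_C, map_natCast, sub_eq_zero] at h
    apply not_sq (ℓ := ℓ) (j + 1)
    rw [← h1, h]
    push_cast
    ring

theorem typd2 (hNR : S_NR) : S_TYPD2 := by
  intro ℓ hℓ m hm hmℓ u₁ u₂ hu₁ hu₂
  have hl0 : (0 : ℝ) < (ℓ : ℝ) := by exact_mod_cast hℓ.out.pos
  have hl1 : (1 : ℝ) < (ℓ : ℝ) := by exact_mod_cast hℓ.out.one_lt
  obtain ⟨A, hA⟩ := Pool.Agent.Y547.ZI.t2 ℚ_[ℓ] m (P2 ℓ m) (P2_monic m hm).1 (P2_monic m hm).2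
  have hℓne : (ℓ : ℚ_[ℓ]) ≠ 0 := by exact_mod_cast hℓ.out.ne_zero
  have hu₁0 : u₁ ≠ 0 := by rintro rfl; simp at hu₁
  have hu₂0 : u₂ ≠ 0 := by rintro rfl; simp at hu₂
  have hn1 : ‖u₁ * (ℓ : ℚ_[ℓ]) ^ 2‖ = ((ℓ : ℝ)⁻¹) ^ 2 := by
    rw [norm_mul, hu₁, one_mul, norm_pow, Padic.norm_p]
  have hn2 : ‖u₂ * ((ℓ : ℚ_[ℓ]) ^ 2) ^ 2‖ = ((ℓ : ℝ)⁻¹) ^ 4 := by
    rw [norm_mul, hu₂, one_mul, norm_pow, norm_pow, Padic.norm_p, ← pow_mul]
  have hinv : (ℓ : ℝ)⁻¹ < 1 := inv_lt_one_of_one_lt₀ hl1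
  have hinv0 : 0 < (ℓ : ℝ)⁻¹ := by positivity
  have hlt1 : ((ℓ : ℝ)⁻¹) ^ 2 < 1 := pow_lt_one₀ hinv0.le hinv (by norm_num)
  have hlt2 : ((ℓ : ℝ)⁻¹) ^ 4 < 1 := pow_lt_one₀ hinv0.le hinv (by norm_num)
  have hlt12 : ((ℓ : ℝ)⁻¹) ^ 4 < ((ℓ : ℝ)⁻¹) ^ 2 :=
    pow_lt_pow_right_of_lt_one₀ hinv0 hinv (by norm_num)
  -- the roots of `P` are not small
  have hbig : ∀ z : AlgebraicClosure ℚ_[ℓ], aeval z A.charpoly = 0 → 1 ≤ ‖z‖ := by
    intro z hz
    rw [hA, aeval_P2] at hz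
    rcases hz with hz | ⟨j, hj, rfl⟩
    · by_contra hlt
      push Not at hlt
      have h1 : ‖z - 1‖ < 1 := by
        have h2 : ‖z - 1‖ ^ 2 = (ℓ : ℝ)⁻¹ := by
          rw [← norm_pow, hz, Pool.Agent.Y547.ZI.norm_nat, Padic.norm_p]
        by_contra h3
        push Not at h3
        have : 1 ≤ ‖z - 1‖ ^ 2 := one_le_pow₀ h3
        linarith
      have h2 : ‖z + -(z - 1)‖ ≤ max ‖z‖ ‖-(z - 1)‖ := IsUltrametricDist.norm_add_le_max _ _
      rw [norm_neg, show z + -(z - 1) = 1 by ring, norm_one] at h2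
      have : max ‖z‖ ‖z - 1‖ < 1 := max_lt hlt h1
      linarith
    · rw [Pool.Agent.Y547.ZI.norm_nat]
      refine le_of_eq ?_
      symm
      rw [Padic.norm_natCast_eq_one_iff]
      rw [Nat.Prime.coprime_iff_not_dvd hℓ.out]
      intro hd
      have := Nat.le_of_dvd (by omega) hd
      omega
  refine ⟨ℓ, ℓ ^ 2, A, hℓne, pow_ne_zero _ hℓne, ?_, ?_⟩
  · refine sep_RA (mul_ne_zero hu₁0 (pow_ne_zero _ hℓne))
      (mul_ne_zero hu₂0 (pow_ne_zero _ (pow_ne_zero _ hℓne))) ?_ ?_ ?_ ?_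
    · intro h
      rw [h, hn2] at hn1
      linarith
    · rw [hA]; exact sep_P2 m
    · intro z hz
      have h1 := hbig z hz
      have h2 : 1 ≤ ‖z ^ 2‖ := by rw [norm_pow]; exact one_le_pow₀ h1
      constructor
      · intro h; rw [h, norm_alg, hn1] at h2; linarith
      · intro h; rw [h, norm_alg, hn2] at h2; linarith
    · intro z hz hz'
      rw [hA, aeval_P2] at hz hz'
      rcases hz with hz | ⟨j, hj, rfl⟩
      · rcases hz' with hz' | ⟨i, hi, hz'⟩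
        · have h0 : (4 : AlgebraicClosure ℚ_[ℓ]) * z = 0 := by linear_combination hz' - hz
          have h1 : z = 0 := by
            rcases mul_eq_zero.1 h0 with h | h
            · norm_num at h
            · exact h
          rw [h1] at hz
          apply not_sq (ℓ := ℓ) 1
          rw [← hz]; norm_num
        · have : z = -((i + 2 : ℕ) : AlgebraicClosure ℚ_[ℓ]) := by rw [← hz']; ring
          apply not_sq (ℓ := ℓ) (i + 3)
          rw [← hz, this]; push_cast; ring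
      · rcases hz' with hz' | ⟨i, hi, hz'⟩
        · apply not_sq (ℓ := ℓ) (j + 3)
          rw [← hz']; push_cast; ring
        · have h0 : ((j + 2 + (i + 2) : ℕ) : AlgebraicClosure ℚ_[ℓ]) = 0 := by
            push_cast at hz' ⊢
            linear_combination -hz'
          have : j + 2 + (i + 2) = 0 := by exact_mod_cast h0
          omega
  · intro L τ h2 hτ
    obtain ⟨r, hr⟩ := IsAlgClosed.exists_pow_nat_eq ((ℓ : AlgebraicClosure ℚ_[ℓ])) (n := 2)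
      (by norm_num)
    have hr' : r ^ 2 = algebraMap ℚ_[ℓ] _ (ℓ : ℚ_[ℓ]) := by rw [hr, map_natCast]
    have hτr : τ r = -r := tame_neg h2 hτ Padic.norm_p hr'
    have hr0 : r ≠ 0 := by
      rintro rfl
      apply not_sq (ℓ := ℓ) 0
      rw [← hr]; simp
    refine ⟨1 + r, 1 - r, ?_, ?_, ?_, ?_, ?_, ?_, ?_⟩
    · rw [aeval_RA, hA, aeval_P2]
      right; right; left; left
      rw [← hr]; ring
    · rw [aeval_RA, hA, aeval_P2]
      right; right; left; left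
      rw [← hr]; ring
    · intro h
      have : (2 : AlgebraicClosure ℚ_[ℓ]) * r = 0 := by linear_combination -h
      rcases mul_eq_zero.1 this with h | h
      · norm_num at h
      · exact hr0 h
    · intro h
      have : (2 : AlgebraicClosure ℚ_[ℓ]) = 0 := by linear_combination h
      norm_num at this
    · rw [map_add, map_one, hτr]; ring
    · rw [map_sub, map_one, hτr]; ring
    · intro z hz h1 h2 h3 h4
      have small : ∀ (u : ℚ_[ℓ]) (w : ℚ_[ℓ]), ‖u‖ = 1 → w ≠ 0 →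
          z ^ 2 = algebraMap ℚ_[ℓ] _ (u * w ^ 2) → τ z = z := by
        intro u w hu hw hzz
        have hw' : algebraMap ℚ_[ℓ] (AlgebraicClosure ℚ_[ℓ]) w ≠ 0 := by
          intro h
          exact hw ((algebraMap ℚ_[ℓ] (AlgebraicClosure ℚ_[ℓ])).injective (by rw [h, map_zero]))
        have h5 : (z / algebraMap ℚ_[ℓ] _ w) ^ 2 = algebraMap ℚ_[ℓ] _ u := by
          rw [div_pow, hzz, map_mul, map_pow, mul_div_assoc, div_self (pow_ne_zero _ hw'), mul_one]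
        have h6 : z / algebraMap ℚ_[ℓ] _ w ∈ NR ℓ := by
          refine (hNR ℓ).2.2 2 u _ (by norm_num) ?_ hu h5
          intro hd
          have := Nat.le_of_dvd (by norm_num) hd
          omega
        have h7 : z = algebraMap ℚ_[ℓ] _ w * (z / algebraMap ℚ_[ℓ] _ w) := by
          field_simp
        rw [h7, map_mul, tau_alg, tau_NR τ h6]
      have hP : ∀ w : AlgebraicClosure ℚ_[ℓ], aeval w A.charpoly = 0 → w ≠ 1 + r → w ≠ 1 - r →
          τ w = w := by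
        intro w hw h5 h6
        rw [hA, aeval_P2, ← hr] at hw
        rcases hw with hw | ⟨j, hj, rfl⟩
        · rcases sq_eq_sq_iff_eq_or_eq_neg.1 hw with h | h
          · exact absurd (by linear_combination h) h5
          · exact absurd (by linear_combination h) h6
        · exact map_natCast τ _
      rw [aeval_RA] at hz
      rcases hz with hz | hz | hz | hz
      · exact small u₁ ℓ hu₁ hℓne hz
      · exact small u₂ (ℓ ^ 2) hu₂ (pow_ne_zero _ hℓne) hz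
      · exact hP z hz h1 h3
      · have := hP (-z) hz (by intro h; apply h2; rw [← h]; ring) (by
          intro h; apply h4; rw [← h]; ring)
        rw [map_neg] at this
        exact neg_injective this

/-! ### Type D3 -/

/-- Four elements which are pairwise equal, opposite or of very different size: if their sum is
zero then two of them are opposite. -/
lemma fourD (h2 : ℓ ≠ 2) (w : Fin 4 → AlgebraicClosure ℚ_[ℓ]) (h0 : ∀ i, w i ≠ 0)
    (hS : ∀ i j, w i = w j ∨ w i = - w j ∨ (ℓ : ℝ) ^ 3 * ‖w i‖ ^ 2 ≤ ‖w j‖ ^ 2 ∨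
      (ℓ : ℝ) ^ 3 * ‖w j‖ ^ 2 ≤ ‖w i‖ ^ 2) (hsum : ∑ i, w i = 0) :
    ∃ i j, i ≠ j ∧ w i + w j = 0 := by
  classical
  by_contra hno
  push Not at hno
  have hl3 : (3 : ℝ) ≤ ℓ := by
    have h1 := hℓ.out.two_le
    have : 3 ≤ ℓ := by omega
    exact_mod_cast this
  have hl27 : (27 : ℝ) ≤ (ℓ : ℝ) ^ 3 := by
    have := pow_le_pow_left₀ (by norm_num) hl3 3
    norm_num at this
    exact this
  obtain ⟨i0, -, hi0⟩ := Finset.exists_max_image (Finset.univ : Finset (Fin 4)) (fun i => ‖w i‖)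
    ⟨0, Finset.mem_univ _⟩
  have hpos : 0 < ‖w i0‖ := norm_pos_iff.2 (h0 i0)
  have hcl : ∀ j, w j ≠ w i0 → ‖w j‖ < ‖w i0‖ / 4 := by
    intro j hj
    have hle := hi0 j (Finset.mem_univ _)
    have hjpos : 0 ≤ ‖w j‖ := norm_nonneg _
    rcases hS j i0 with h | h | h | h
    · exact absurd h hj
    · have hji : j ≠ i0 := by rintro rfl; exact hj rfl
      exact absurd (by rw [h]; ring) (hno j i0 hji)
    · by_contra hlt
      push Not at hlt
      have h3 : (‖w i0‖ / 4) ^ 2 ≤ ‖w j‖ ^ 2 := pow_le_pow_left₀ (by positivity) hlt 2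
      have h4 : 27 * ‖w j‖ ^ 2 ≤ ‖w i0‖ ^ 2 :=
        le_trans (mul_le_mul_of_nonneg_right hl27 (by positivity)) h
      nlinarith [sq_nonneg ‖w i0‖, mul_pos hpos hpos]
    · exfalso
      have h4 : 27 * ‖w i0‖ ^ 2 ≤ ‖w j‖ ^ 2 :=
        le_trans (mul_le_mul_of_nonneg_right hl27 (by positivity)) h
      have h5 : ‖w j‖ ^ 2 ≤ ‖w i0‖ ^ 2 := pow_le_pow_left₀ hjpos hle 2
      nlinarith [mul_pos hpos hpos]
  set S := Finset.univ.filter fun j => w j = w i0 with hSdef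
  have hsplit := Finset.sum_filter_add_sum_filter_not Finset.univ (fun j => w j = w i0) w
  rw [hsum] at hsplit
  have hS1 : ∑ j ∈ S, w j = (S.card : AlgebraicClosure ℚ_[ℓ]) * w i0 := by
    rw [Finset.sum_congr rfl (fun j hj => (Finset.mem_filter.1 hj).2), Finset.sum_const,
      nsmul_eq_mul]
  have hi0S : i0 ∈ S := by simp [hSdef]
  have hcard0 : 0 < S.card := Finset.card_pos.2 ⟨i0, hi0S⟩
  have hcard4 : S.card ≤ 4 := by
    have := Finset.card_le_univ S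
    simpa using this
  have hnS : (1 : ℝ) / 4 ≤ ‖((S.card : ℕ) : AlgebraicClosure ℚ_[ℓ])‖ := by
    rw [Pool.Agent.Y547.ZI.norm_nat]
    refine le_trans ?_ (Pool.Agent.Y547.ZI.one_div_le_norm S.card hcard0)
    apply one_div_le_one_div_of_le (by exact_mod_cast hcard0)
    exact_mod_cast hcard4
  have hrest : ‖∑ j ∈ Finset.univ.filter (fun j => ¬ w j = w i0), w j‖ < ‖w i0‖ / 4 := by
    rcases (Finset.univ.filter (fun j => ¬ w j = w i0)).eq_empty_or_nonempty with he | he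
    · rw [he]
      simp only [Finset.sum_empty, norm_zero]
      positivity
    · obtain ⟨j, hj, hj'⟩ := IsUltrametricDist.exists_norm_finsetSum_le_of_nonempty he w
      exact lt_of_le_of_lt hj' (hcl j (Finset.mem_filter.1 hj).2)
  have hfin : ‖∑ j ∈ Finset.univ.filter (fun j => ¬ w j = w i0), w j‖ = ‖∑ j ∈ S, w j‖ := by
    rw [eq_neg_of_add_eq_zero_right hsplit, norm_neg]
  rw [hfin, hS1, norm_mul] at hrest
  have : ‖w i0‖ / 4 ≤ ‖((S.card : ℕ) : AlgebraicClosure ℚ_[ℓ])‖ * ‖w i0‖ := by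
    have := mul_le_mul_of_nonneg_right hnS hpos.le
    linarith
  linarith

/-- The polynomial with the roots `ℓ ^ (2 j + 4)`. -/
noncomputable def P3 (ℓ : ℕ) [Fact ℓ.Prime] (m : ℕ) : ℚ_[ℓ][X] :=
  ∏ j ∈ Finset.range m, (X - C ((ℓ : ℚ_[ℓ]) ^ (2 * j + 4)))

lemma P3_monic (m : ℕ) : (P3 ℓ m).Monic ∧ (P3 ℓ m).natDegree = m := by
  refine ⟨monic_prod_of_monic _ _ fun j _ => monic_X_sub_C _, ?_⟩
  unfold P3
  rw [natDegree_prod_of_monic _ _ fun j _ => monic_X_sub_C _,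
    Finset.sum_congr rfl (fun j _ => natDegree_X_sub_C _)]
  simp

lemma aeval_P3 (m : ℕ) (z : AlgebraicClosure ℚ_[ℓ]) : aeval z (P3 ℓ m) = 0 ↔
      ∃ j, j < m ∧ z = algebraMap ℚ_[ℓ] _ ((ℓ : ℚ_[ℓ]) ^ (2 * j + 4)) := by
  unfold P3
  rw [map_prod, Finset.prod_eq_zero_iff]
  constructor
  · rintro ⟨j, hj, h⟩
    refine ⟨j, by simpa using hj, ?_⟩
    rwa [map_sub, aeval_X, aeval_C, sub_eq_zero] at h
  · rintro ⟨j, hj, h⟩
    refine ⟨j, by simpa using hj, ?_⟩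
    rw [map_sub, aeval_X, aeval_C, sub_eq_zero]
    exact h

lemma sep_P3 (m : ℕ) : (P3 ℓ m).Separable := by
  unfold P3
  rw [separable_prod_X_sub_C_iff']
  intro x _ y _ hxy
  have : ℓ ^ (2 * x + 4) = ℓ ^ (2 * y + 4) := by exact_mod_cast hxy
  have := Nat.pow_right_injective hℓ.out.two_le this
  omega

/-- The exponents of the norms of the squares of the roots. -/
def kk : ℕ → ℕ
  | 0 => 1
  | 1 => 5
  | (j + 2) => 4 * j + 8

lemma kk_lt {i j : ℕ} (h : i < j) : kk i + 3 ≤ kk j := by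
  rcases i with _ | _ | i <;> rcases j with _ | _ | j <;> simp only [kk] <;> omega

theorem typd3 : S_TYPD3 := by
  intro ℓ hℓ hℓ2 m hm u₁ u₂ hu₁ hu₂
  have hl0 : (0 : ℝ) < (ℓ : ℝ) := by exact_mod_cast hℓ.out.pos
  have hl1 : (1 : ℝ) < (ℓ : ℝ) := by exact_mod_cast hℓ.out.one_lt
  obtain ⟨A, hA⟩ := Pool.Agent.Y547.ZI.t2 ℚ_[ℓ] m (P3 ℓ m) (P3_monic m).1 (P3_monic m).2
  have hℓne : (ℓ : ℚ_[ℓ]) ≠ 0 := by exact_mod_cast hℓ.out.ne_zero
  have hinv : (ℓ : ℝ)⁻¹ < 1 := inv_lt_one_of_one_lt₀ hl1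
  have hinv0 : 0 < (ℓ : ℝ)⁻¹ := by positivity
  have hu₁0 : u₁ ≠ 0 := by rintro rfl; rw [norm_zero] at hu₁; linarith
  have hu₂0 : u₂ ≠ 0 := by rintro rfl; rw [norm_zero] at hu₂; linarith
  have hn1 : ‖u₁ * (1 : ℚ_[ℓ]) ^ 2‖ = ((ℓ : ℝ)⁻¹) ^ 1 := by
    rw [one_pow, mul_one, pow_one, hu₁]
  have hn2 : ‖u₂ * ((ℓ : ℚ_[ℓ]) ^ 2) ^ 2‖ = ((ℓ : ℝ)⁻¹) ^ 5 := by
    rw [norm_mul, hu₂, norm_pow, norm_pow, Padic.norm_p]; ring
  have hn3 : ∀ j : ℕ, ‖((ℓ : ℚ_[ℓ]) ^ (2 * j + 4)) ^ 2‖ = ((ℓ : ℝ)⁻¹) ^ (4 * j + 8) := by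
    intro j
    rw [norm_pow, norm_pow, Padic.norm_p, ← pow_mul]
    congr 1; ring
  have hinj := pow_right_injective₀ hinv0 hinv.ne
  -- the squares of the roots
  set c : ℕ → ℚ_[ℓ] := fun i => match i with
    | 0 => u₁ * 1 ^ 2
    | 1 => u₂ * ((ℓ : ℚ_[ℓ]) ^ 2) ^ 2
    | (j + 2) => ((ℓ : ℚ_[ℓ]) ^ (2 * j + 4)) ^ 2 with hc
  have hcn : ∀ i, ‖c i‖ = ((ℓ : ℝ)⁻¹) ^ kk i := by
    intro i
    rcases i with _ | _ | j
    · exact hn1
    · exact hn2
    · exact hn3 j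
  have hroot : ∀ z : AlgebraicClosure ℚ_[ℓ], aeval z (RA (u₁ * 1 ^ 2) (u₂ * ((ℓ : ℚ_[ℓ]) ^ 2) ^ 2) A) = 0 →
      ∃ i, z ^ 2 = algebraMap ℚ_[ℓ] _ (c i) := by
    intro z hz
    rw [aeval_RA, hA, aeval_P3, aeval_P3] at hz
    rcases hz with hz | hz | ⟨j, _, hz⟩ | ⟨j, _, hz⟩
    · exact ⟨0, hz⟩
    · exact ⟨1, hz⟩
    · exact ⟨j + 2, by rw [hz, ← map_pow]⟩
    · exact ⟨j + 2, by rw [← neg_sq, hz, ← map_pow]⟩
  have hsc : ∀ (i j : ℕ) (z w : AlgebraicClosure ℚ_[ℓ]), i < j → z ^ 2 = algebraMap ℚ_[ℓ] _ (c i) →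
      w ^ 2 = algebraMap ℚ_[ℓ] _ (c j) → (ℓ : ℝ) ^ 3 * ‖w‖ ^ 2 ≤ ‖z‖ ^ 2 := by
    intro i j z w hij hz hw
    rw [← norm_pow, ← norm_pow, hz, hw, norm_alg, norm_alg, hcn, hcn]
    have h1 := kk_lt hij
    have h2 : ((ℓ : ℝ)⁻¹) ^ kk j ≤ ((ℓ : ℝ)⁻¹) ^ (kk i + 3) :=
      pow_le_pow_of_le_one hinv0.le hinv.le h1
    calc (ℓ : ℝ) ^ 3 * ((ℓ : ℝ)⁻¹) ^ kk j ≤ (ℓ : ℝ) ^ 3 * ((ℓ : ℝ)⁻¹) ^ (kk i + 3) :=
          mul_le_mul_of_nonneg_left h2 (by positivity)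
      _ = ((ℓ : ℝ)⁻¹) ^ kk i := by
          rw [pow_add, ← mul_assoc, mul_comm ((ℓ : ℝ) ^ 3), mul_assoc, ← mul_pow,
            mul_inv_cancel₀ hl0.ne', one_pow, mul_one]
  have hpair : ∀ z w : AlgebraicClosure ℚ_[ℓ], (∃ i, z ^ 2 = algebraMap ℚ_[ℓ] _ (c i)) →
      (∃ i, w ^ 2 = algebraMap ℚ_[ℓ] _ (c i)) → z = w ∨ z = - w ∨
      (ℓ : ℝ) ^ 3 * ‖z‖ ^ 2 ≤ ‖w‖ ^ 2 ∨ (ℓ : ℝ) ^ 3 * ‖w‖ ^ 2 ≤ ‖z‖ ^ 2 := by
    rintro z w ⟨i, hi⟩ ⟨j, hj⟩
    rcases lt_trichotomy i j with h | h | h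
    · exact Or.inr (Or.inr (Or.inr (hsc i j z w h hi hj)))
    · subst h
      rcases sq_eq_sq_iff_eq_or_eq_neg.1 (hi.trans hj.symm) with h | h
      · exact Or.inl h
      · exact Or.inr (Or.inl h)
    · exact Or.inr (Or.inr (Or.inl (hsc j i w z h hj hi)))
  have hcne : ∀ i j, i ≠ j → c i ≠ c j := by
    intro i j hij h
    have h1 := hcn i
    rw [h, hcn] at h1
    have h2 := hinj h1
    rcases lt_or_gt_of_ne hij with h3 | h3
    · have := kk_lt h3; omega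
    · have := kk_lt h3; omega
  have hc0 : ∀ i, c i ≠ 0 := by
    intro i h
    have h1 := hcn i
    rw [h, norm_zero] at h1
    have : 0 < ((ℓ : ℝ)⁻¹) ^ kk i := by positivity
    linarith
  refine ⟨1, ℓ ^ 2, A, one_ne_zero, pow_ne_zero _ hℓne, ?_, ?_, ?_, ?_⟩
  · refine sep_RA (hc0 0) (hc0 1) (hcne 0 1 (by norm_num)) (by rw [hA]; exact sep_P3 m) ?_ ?_
    · intro z hz
      rw [hA, aeval_P3] at hz
      obtain ⟨j, _, rfl⟩ := hz
      constructor
      · intro h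
        rw [← map_pow] at h
        exact hcne (j + 2) 0 (by omega) ((algebraMap ℚ_[ℓ] (AlgebraicClosure ℚ_[ℓ])).injective h)
      · intro h
        rw [← map_pow] at h
        exact hcne (j + 2) 1 (by omega) ((algebraMap ℚ_[ℓ] (AlgebraicClosure ℚ_[ℓ])).injective h)
    · intro z hz hz'
      rw [hA, aeval_P3] at hz hz'
      obtain ⟨j, _, hz⟩ := hz
      obtain ⟨i, _, hz'⟩ := hz'
      have h0 : ((ℓ ^ (2 * j + 4) + ℓ ^ (2 * i + 4) : ℕ) : AlgebraicClosure ℚ_[ℓ]) = 0 := by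
        have h1 : algebraMap ℚ_[ℓ] (AlgebraicClosure ℚ_[ℓ]) ((ℓ : ℚ_[ℓ]) ^ (2 * j + 4)) +
            algebraMap ℚ_[ℓ] (AlgebraicClosure ℚ_[ℓ]) ((ℓ : ℚ_[ℓ]) ^ (2 * i + 4)) = 0 := by
          rw [← hz, ← hz']; ring
        rw [map_pow, map_pow, map_natCast] at h1
        push_cast
        exact h1
      have h1 : ℓ ^ (2 * j + 4) + ℓ ^ (2 * i + 4) = 0 := by exact_mod_cast h0
      have h2 : 0 < ℓ ^ (2 * j + 4) := pow_pos hℓ.out.pos _
      omega
  · intro a b c' d ha hb hc' hd hab hsum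
    have hne : ∀ z : AlgebraicClosure ℚ_[ℓ], (∃ i, z ^ 2 = algebraMap ℚ_[ℓ] _ (c i)) → z ≠ 0 := by
      rintro z ⟨i, hi⟩ rfl
      apply hc0 i
      apply (algebraMap ℚ_[ℓ] (AlgebraicClosure ℚ_[ℓ])).injective
      rw [← hi]; simp
    have hneg : ∀ z : AlgebraicClosure ℚ_[ℓ], (∃ i, z ^ 2 = algebraMap ℚ_[ℓ] _ (c i)) →
        (∃ i, (-z) ^ 2 = algebraMap ℚ_[ℓ] _ (c i)) := by
      rintro z ⟨i, hi⟩; exact ⟨i, by rw [neg_sq]; exact hi⟩
    set w : Fin 4 → AlgebraicClosure ℚ_[ℓ] := ![a, d, -c', -b] with hw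
    have hwr : ∀ i, ∃ j, (w i) ^ 2 = algebraMap ℚ_[ℓ] _ (c j) := by
      intro i
      fin_cases i
      · exact hroot a ha
      · exact hroot d hd
      · exact hneg _ (hroot c' hc')
      · exact hneg _ (hroot b hb)
    obtain ⟨i, j, hij, h⟩ := fourD hℓ2 w (fun i => hne _ (hwr i))
      (fun i j => hpair _ _ (hwr i) (hwr j)) (by
        rw [Fin.sum_univ_four]
        change a + d + -c' + -b = 0
        linear_combination hsum)
    have key : a + d = 0 ∨ a = c' ∨ a = b := by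
      fin_cases i <;> fin_cases j <;> simp [hw] at h hij
      · left; exact h
      · right; left; linear_combination h
      · right; right; linear_combination h
      · left; linear_combination h
      · right; right; linear_combination hsum - h
      · right; left; linear_combination hsum - h
      · right; left; linear_combination h
      · right; right; linear_combination hsum - h
      · left; linear_combination hsum - h
      · right; right; linear_combination h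
      · right; left; linear_combination hsum - h
      · left; linear_combination hsum - h
    rcases key with h | h | h
    · right
      exact ⟨by rw [← hsum]; exact h, by linear_combination h⟩
    · left
      exact ⟨h.symm, by rw [h] at hsum; linear_combination hsum⟩
    · exact absurd h hab
  · refine ⟨(ℓ : ℚ_[ℓ]) ^ 4, ?_⟩
    unfold RA
    rw [eval_mul, eval_mul, hA]
    unfold P3
    rw [eval_prod, Finset.prod_eq_zero (Finset.mem_range.2 hm)]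
    · simp
    · simp
  · intro L τ h2 hτ
    obtain ⟨r₁, hr₁⟩ := IsAlgClosed.exists_pow_nat_eq (algebraMap ℚ_[ℓ] (AlgebraicClosure ℚ_[ℓ]) u₁)
      (n := 2) (by norm_num)
    obtain ⟨r₂, hr₂⟩ := IsAlgClosed.exists_pow_nat_eq (algebraMap ℚ_[ℓ] (AlgebraicClosure ℚ_[ℓ]) u₂)
      (n := 2) (by norm_num)
    have hx : r₁ ^ 2 = algebraMap ℚ_[ℓ] _ (c 0) := by
      rw [hr₁]; simp [hc]
    have hy : (algebraMap ℚ_[ℓ] _ ((ℓ : ℚ_[ℓ]) ^ 2) * r₂) ^ 2 = algebraMap ℚ_[ℓ] _ (c 1) := by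
      rw [mul_pow, hr₂, ← map_pow, ← map_mul, mul_comm]
    have hxy : (algebraMap ℚ_[ℓ] _ ((ℓ : ℚ_[ℓ]) ^ 2) * r₂) ^ 2 ≠ r₁ ^ 2 := by
      rw [hx, hy]
      intro h
      exact hcne 1 0 (by norm_num) ((algebraMap ℚ_[ℓ] (AlgebraicClosure ℚ_[ℓ])).injective h)
    refine ⟨r₁, algebraMap ℚ_[ℓ] _ ((ℓ : ℚ_[ℓ]) ^ 2) * r₂, ?_, ?_, ?_, ?_, ?_, ?_, ?_⟩
    · rw [aeval_RA]; exact Or.inl hx
    · rw [aeval_RA]; exact Or.inr (Or.inl hy)
    · intro h; apply hxy; rw [h]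
    · intro h; apply hxy; rw [h, neg_sq]
    · exact tame_neg h2 hτ hu₁ hr₁
    · rw [map_mul, tau_alg, tame_neg h2 hτ hu₂ hr₂]; ring
    · intro z hz h1 h3 h4 h5
      rw [aeval_RA, hA, aeval_P3, aeval_P3] at hz
      rcases hz with hz | hz | ⟨j, _, hz⟩ | ⟨j, _, hz⟩
      · rcases sq_eq_sq_iff_eq_or_eq_neg.1 (hz.trans hx.symm) with h | h
        · exact absurd h h1
        · exact absurd h h3
      · rcases sq_eq_sq_iff_eq_or_eq_neg.1 (hz.trans hy.symm) with h | h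
        · exact absurd h h4
        · exact absurd h h5
      · rw [hz, tau_alg]
      · have : τ (-z) = -z := by rw [hz, tau_alg]
        rw [map_neg] at this
        exact neg_injective this

end general

end Pool.Agent.R932.OP
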