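import Pool.Agent.Y142.ZD.Top
import Pool.Agent.R932.OP.SymA
import Pool.Agent.R932.OP.FormD
import Pool.Agent.R932.OP.TypD
import Pool.Agent.R932.OP.Tame
import Pool.Agent.R932.OP.GenD
import Pool.Agent.R932.OP.ClD
import Pool.Agent.R932.OP.RootE
import Pool.Agent.R932.OP.CharE
import Pool.Agent.Y331.ZD.Krq
import Pool.Agent.Y758.ZD.Abs
import Pool.Agent.Y100.ZD.Sub

/-!
# Project OP: orthogonal systems of even rank, from one prime to 100 percent of the primes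
-/

set_option autoImplicit false
set_option linter.unusedSectionVars false
set_option linter.style.haveILetI false

open Matrix Polynomial Filter Topology NumberField IsDedekindDomain
open Pool.Agent.Y142.ZO Pool.Agent.Y142.ZI Pool.Agent.Y142.ZD

namespace Pool.Agent.R932.OP

section
variable {K : Type} [Field K] [NumberField K] {N : ℕ} {S : Set (HeightOneSpectrum (𝓞 K))}
  {P : HeightOneSpectrum (𝓞 K) → ℚ[X]}

/-- **orthogonal systems of even rank: from one prime to 100 percent of the primes** -/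
theorem orthE_one (heven : Even N) (hN : 8 ≤ N) (hS : S.Finite)
    (ρ : ∀ (ℓ : ℕ) [Fact ℓ.Prime], GK K →* Matrix (Fin N) (Fin N) ℚ_[ℓ])
    (B : ∀ (ℓ : ℕ) [Fact ℓ.Prime], Matrix (Fin N) (Fin N) ℚ_[ℓ])
    (hsys : ∀ (ℓ : ℕ) [Fact ℓ.Prime], Orthogonal K N ℓ (ρ ℓ) (B ℓ) S P)
    (ℓ₀ : ℕ) [hℓ₀ : Fact ℓ₀.Prime] (hdvd : ¬ ℓ₀ ∣ (N - 2) * (N - 4))
    (hfull : FullLie ℓ₀ (ρ ℓ₀) (B ℓ₀)) (hev : Even (Padic.valuation (B ℓ₀).det)) :
    Y142.ZI.DensityZero {ℓ | ∃ _ : Fact ℓ.Prime, ¬ FullLie ℓ (ρ ℓ) (B ℓ)} := by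
  obtain ⟨n, hn⟩ : ∃ n, N = 2 * n := by
    obtain ⟨k, hk⟩ := heven
    exact ⟨k, by omega⟩
  have hn4 : 4 ≤ n := by omega
  have hL : ¬ ℓ₀ ∣ 4 * ((n - 1) * (n - 2)) := by
    have h1 : (N - 2) * (N - 4) = 4 * ((n - 1) * (n - 2)) := by
      have h2 : N - 2 = 2 * (n - 1) := by omega
      have h3 : N - 4 = 2 * (n - 2) := by omega
      rw [h2, h3]
      ring
    rwa [h1] at hdvd
  have hTAN : Y142.ZO.S_TAN := Y708.ZO.t
  have hFROB : Y142.ZO.S_FROB := Y405.ZO.t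
  have hINT : Y142.ZI.S_INT := Y484.ZI.t1
  have hCHEB : Y142.ZI.S_CHEB := Y726.ZI.t1
  have hPOS : Y142.ZI.S_POS := Y726.ZI.t2 hCHEB
  have hDENS2 : Y142.ZI.S_DENS2 := Y681.ZI.t hCHEB
  have hMULTI : Y142.ZI.S_MULTI := Y537.ZI.t
  have hBADD : S_BADD := Y614.ZD.t
  have hKRQ : S_KRQ := Y331.ZD.t
  have hABS : S_ABS := Y758.ZD.t
  have hSUB : S_SUB := Y100.ZD.t
  have hstart : StartData N S P := startE hn4 hn hMULTI hFROB chare hKRQ fda fdb typd3 (tame nr) hS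
    ρ B hsys ℓ₀ hL hfull hev
  exact densityE hn4 hn hTAN hABS roote hBADD hPOS hSUB disce hMULTI hFROB chare hKRQ fda fdb
    (typd2 nr) typd3 nr (tame nr) gend cld hINT hDENS2 hS ρ B hsys hstart

end

end Pool.Agent.R932.OP
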