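import Pool.Agent.R932.OP.AltB

/-!
# Project OP: powers of Frobenius elements which are not scalar; the three products
-/

set_option autoImplicit false
set_option linter.unusedSectionVars false
set_option linter.style.haveILetI false

open Matrix Polynomial
open Pool.Agent.Y142.ZS

namespace Pool.Agent.R932.OP

section
variable {F : Type} [Field F] {N : ℕ}

theorem isProd_mem (J : Matrix (Fin N) (Fin N) F) {f : (Fin 4 → Fin N → F) → F}
    (hf : IsProd2 J f) : f ∈ Three J := by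
  apply Submodule.subset_span
  rcases hf with h | h | h
  · refine ⟨Equiv.swap 0 1 * Equiv.swap 2 3, by decide, by decide, fun v => ?_⟩
    have e0 : (Equiv.swap (0 : Fin 4) 1 * Equiv.swap 2 3 : Equiv.Perm (Fin 4)) 0 = 1 := by decide
    have e1 : (Equiv.swap (0 : Fin 4) 1 * Equiv.swap 2 3 : Equiv.Perm (Fin 4)) 1 = 0 := by decide
    have e2 : (Equiv.swap (0 : Fin 4) 1 * Equiv.swap 2 3 : Equiv.Perm (Fin 4)) 2 = 3 := by decide
    have e3 : (Equiv.swap (0 : Fin 4) 1 * Equiv.swap 2 3 : Equiv.Perm (Fin 4)) 3 = 2 := by decide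
    rw [h, Finset.prod_filter, Fin.prod_univ_four, e0, e1, e2, e3]
    simp
  · refine ⟨Equiv.swap 0 2 * Equiv.swap 1 3, by decide, by decide, fun v => ?_⟩
    have e0 : (Equiv.swap (0 : Fin 4) 2 * Equiv.swap 1 3 : Equiv.Perm (Fin 4)) 0 = 2 := by decide
    have e1 : (Equiv.swap (0 : Fin 4) 2 * Equiv.swap 1 3 : Equiv.Perm (Fin 4)) 1 = 3 := by decide
    have e2 : (Equiv.swap (0 : Fin 4) 2 * Equiv.swap 1 3 : Equiv.Perm (Fin 4)) 2 = 0 := by decide
    have e3 : (Equiv.swap (0 : Fin 4) 2 * Equiv.swap 1 3 : Equiv.Perm (Fin 4)) 3 = 1 := by decide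
    rw [h, Finset.prod_filter, Fin.prod_univ_four, e0, e1, e2, e3]
    simp
  · refine ⟨Equiv.swap 0 3 * Equiv.swap 1 2, by decide, by decide, fun v => ?_⟩
    have e0 : (Equiv.swap (0 : Fin 4) 3 * Equiv.swap 1 2 : Equiv.Perm (Fin 4)) 0 = 3 := by decide
    have e1 : (Equiv.swap (0 : Fin 4) 3 * Equiv.swap 1 2 : Equiv.Perm (Fin 4)) 1 = 2 := by decide
    have e2 : (Equiv.swap (0 : Fin 4) 3 * Equiv.swap 1 2 : Equiv.Perm (Fin 4)) 2 = 1 := by decide
    have e3 : (Equiv.swap (0 : Fin 4) 3 * Equiv.swap 1 2 : Equiv.Perm (Fin 4)) 3 = 0 := by decide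
    rw [h, Finset.prod_filter, Fin.prod_univ_four, e0, e1, e2, e3]
    simp

theorem three_mem (J : Matrix (Fin N) (Fin N) F) {f : (Fin 4 → Fin N → F) → F} {a b d : F}
    (h : ∀ v, f v = a * ((v 0 ⬝ᵥ J *ᵥ v 1) * (v 2 ⬝ᵥ J *ᵥ v 3)) +
      b * ((v 0 ⬝ᵥ J *ᵥ v 2) * (v 1 ⬝ᵥ J *ᵥ v 3)) +
      d * ((v 0 ⬝ᵥ J *ᵥ v 3) * (v 1 ⬝ᵥ J *ᵥ v 2))) : f ∈ Three J := by
  have h1 : (fun v : Fin 4 → Fin N → F => (v 0 ⬝ᵥ J *ᵥ v 1) * (v 2 ⬝ᵥ J *ᵥ v 3)) ∈ Three J :=
    isProd_mem J (Or.inl fun _ => rfl)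
  have h2 : (fun v : Fin 4 → Fin N → F => (v 0 ⬝ᵥ J *ᵥ v 2) * (v 1 ⬝ᵥ J *ᵥ v 3)) ∈ Three J :=
    isProd_mem J (Or.inr (Or.inl fun _ => rfl))
  have h3 : (fun v : Fin 4 → Fin N → F => (v 0 ⬝ᵥ J *ᵥ v 3) * (v 1 ⬝ᵥ J *ᵥ v 2)) ∈ Three J :=
    isProd_mem J (Or.inr (Or.inr fun _ => rfl))
  have h4 : f = a • (fun v : Fin 4 → Fin N → F => (v 0 ⬝ᵥ J *ᵥ v 1) * (v 2 ⬝ᵥ J *ᵥ v 3)) +
      b • (fun v : Fin 4 → Fin N → F => (v 0 ⬝ᵥ J *ᵥ v 2) * (v 1 ⬝ᵥ J *ᵥ v 3)) +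
      d • (fun v : Fin 4 → Fin N → F => (v 0 ⬝ᵥ J *ᵥ v 3) * (v 1 ⬝ᵥ J *ᵥ v 2)) := by
    funext v
    rw [h v]
    rfl
  rw [h4]
  exact (Three J).add_mem ((Three J).add_mem ((Three J).smul_mem _ h1) ((Three J).smul_mem _ h2))
    ((Three J).smul_mem _ h3)

end

/-- eigenvalues of a matrix with a scalar power -/
theorem pow_eq_of_scalar {F A : Type} [Field F] [Field A] [Algebra F A] {N : ℕ}
    {g : Matrix (Fin N) (Fin N) F} {n : ℕ} {c : F} (hg : g ^ n = c • 1) {y : A}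
    (hy : aeval y g.charpoly = 0) : y ^ n = algebraMap F A c := by
  have h1 : (g.map (algebraMap F A)).charpoly.eval y = 0 := by
    rw [charpoly_map, eval_map_algebraMap]
    exact hy
  rw [Matrix.eval_charpoly] at h1
  obtain ⟨w, hw0, hw⟩ := Matrix.exists_mulVec_eq_zero_iff.2 h1
  have hgw : (g.map (algebraMap F A)) *ᵥ w = y • w := by
    rw [Matrix.sub_mulVec, sub_eq_zero] at hw
    rw [← hw]
    funext i
    simp [Matrix.scalar_apply, Matrix.mulVec_diagonal]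
  have hpw : ∀ n : ℕ, ((g.map (algebraMap F A)) ^ n) *ᵥ w = y ^ n • w := by
    intro n
    induction n with
    | zero => rw [pow_zero, pow_zero, Matrix.one_mulVec, one_smul]
    | succ n ih =>
      rw [pow_succ, pow_succ, ← Matrix.mulVec_mulVec, hgw, Matrix.mulVec_smul, ih, smul_smul,
        mul_comm]
  have h3 : (g.map (algebraMap F A)) ^ n = algebraMap F A c • (1 : Matrix (Fin N) (Fin N) A) := by
    have h4 : (g ^ n).map (algebraMap F A) = (g.map (algebraMap F A)) ^ n := by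
      rw [← RingHom.mapMatrix_apply, map_pow, RingHom.mapMatrix_apply]
    rw [← h4, hg]
    ext i j
    rw [Matrix.map_apply, Matrix.smul_apply, Matrix.smul_apply, smul_eq_mul, smul_eq_mul, map_mul,
      Matrix.one_apply, Matrix.one_apply]
    split_ifs <;> simp
  have h5 := hpw n
  rw [h3, smul_mulVec, one_mulVec] at h5
  have h6 : (algebraMap F A c - y ^ n) • w = 0 := by rw [sub_smul, h5, sub_self]
  exact (sub_eq_zero.1 ((smul_eq_zero.1 h6).resolve_right hw0)).symm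

section
variable {ℓ : ℕ} [Fact ℓ.Prime] {N : ℕ}

/-- no power of a similitude is scalar, if the roots are not all square roots of roots of unity times
the multiplier -/
theorem nonscalar (hN : 0 < N) {g J : Matrix (Fin N) (Fin N) ℚ_[ℓ]} (hdet : J.det ≠ 0) {P : ℚ[X]} {q : ℚ}
    (hP : g.charpoly = P.map (algebraMap ℚ ℚ_[ℓ])) (hq : gᵀ * J * g = (q : ℚ_[ℓ]) • J)
    (hns : ∀ n : ℕ, 0 < n → ∃ x : ℂ, aeval x P = 0 ∧ x ^ (2 * n) ≠ (q : ℂ) ^ n) (n : ℕ) (c : ℚ_[ℓ])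
    (hn : 0 < n) : g ^ n ≠ c • 1 := by
  intro hg
  obtain ⟨x, hx, hxn⟩ := hns n hn
  apply hxn
  have hJ0 : J ≠ 0 := by
    rintro rfl
    haveI : Nonempty (Fin N) := ⟨⟨0, hN⟩⟩
    exact hdet det_zero
  have hqn : ∀ n : ℕ, (g ^ n)ᵀ * J * g ^ n = (q : ℚ_[ℓ]) ^ n • J := by
    intro n
    induction n with
    | zero => rw [pow_zero, pow_zero, transpose_one, one_mul, mul_one, one_smul]
    | succ n ih =>
      calc (g ^ (n + 1))ᵀ * J * g ^ (n + 1) = gᵀ * ((g ^ n)ᵀ * J * g ^ n) * g := by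
            rw [pow_succ, transpose_mul]
            noncomm_ring
        _ = (q : ℚ_[ℓ]) ^ (n + 1) • J := by
          rw [ih, mul_smul_comm, smul_mul_assoc, hq, smul_smul, pow_succ]
  have hc2 : c ^ 2 = (q : ℚ_[ℓ]) ^ n := by
    have h1 := hqn n
    rw [hg, transpose_smul, transpose_one, smul_mul_assoc, one_mul, mul_smul_comm, mul_one,
      smul_smul] at h1
    have h2 : (c * c - (q : ℚ_[ℓ]) ^ n) • J = 0 := by rw [sub_smul, h1, sub_self]
    have h3 := (smul_eq_zero.1 h2).resolve_right hJ0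
    rw [pow_two]
    exact sub_eq_zero.1 h3
  have hPm : P.Monic := by
    have h1 := charpoly_monic g
    rw [hP] at h1
    exact monic_of_injective (algebraMap ℚ ℚ_[ℓ]).injective h1
  have hint : IsIntegral ℚ x := ⟨P, hPm, hx⟩
  have hdvd : minpoly ℚ x ∣ P := minpoly.dvd ℚ x hx
  obtain ⟨y, hy⟩ := IsAlgClosed.exists_aeval_eq_zero (AlgebraicClosure ℚ_[ℓ]) (minpoly ℚ x)
    (minpoly.degree_pos hint).ne'
  have hyP : aeval y P = 0 := by
    obtain ⟨R, hR⟩ := hdvd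
    rw [hR, map_mul, hy, zero_mul]
  have hyn : y ^ n = algebraMap ℚ_[ℓ] (AlgebraicClosure ℚ_[ℓ]) c := by
    refine pow_eq_of_scalar (A := AlgebraicClosure ℚ_[ℓ]) hg ?_
    rw [hP, Polynomial.aeval_map_algebraMap]
    exact hyP
  have hy2 : aeval y (X ^ (2 * n) - C (q ^ n) : ℚ[X]) = 0 := by
    rw [map_sub, map_pow, aeval_X, aeval_C, mul_comm 2 n, pow_mul, hyn, ← map_pow, hc2, sub_eq_zero,
      map_pow, map_ratCast, map_pow, eq_ratCast]
  have hmin : minpoly ℚ x = minpoly ℚ y :=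
    minpoly.eq_of_irreducible_of_monic (minpoly.irreducible hint) hy (minpoly.monic hint)
  have h7 : minpoly ℚ x ∣ (X ^ (2 * n) - C (q ^ n) : ℚ[X]) := by
    rw [hmin]
    exact minpoly.dvd ℚ y hy2
  obtain ⟨R, hR⟩ := h7
  have h8 := congrArg (aeval x) hR
  rw [map_mul, minpoly.aeval, zero_mul, map_sub, map_pow, aeval_X, aeval_C, sub_eq_zero] at h8
  rw [h8, map_pow, eq_ratCast]

end

end Pool.Agent.R932.OP
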