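import Pool.Agent.Y142.ZS.Stm

/-!
# Project OP: the fourth tensor power (algebra)

`Three J` is the space of quadrilinear forms spanned by the products `J(x, y) J(z, w)`. An
equivariant projection onto a subspace of the Lie algebra of `J` which comes from a form in `Three J` is a
scalar on the Lie algebra.
-/

set_option autoImplicit false

open Matrix Polynomial
open Pool.Agent.Y142.ZS (SpLie)

namespace Pool.Agent.R932.OP

variable {F : Type} [Field F] {N : ℕ}

/-- the span of the products of two values of the form `J` -/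
def Three (J : Matrix (Fin N) (Fin N) F) : Submodule F ((Fin 4 → Fin N → F) → F) :=
  Submodule.span F {f : (Fin 4 → Fin N → F) → F |
      ∃ π : Equiv.Perm (Fin 4), (∀ j, π (π j) = j) ∧ (∀ j, π j ≠ j) ∧
        ∀ v, f v = ∏ j with j < π j, (v j ⬝ᵥ J *ᵥ v (π j))}

/-- a product of two values of the form -/
def IsProd2 (J : Matrix (Fin N) (Fin N) F) (f : (Fin 4 → Fin N → F) → F) : Prop :=
  (∀ v, f v = (v 0 ⬝ᵥ J *ᵥ v 1) * (v 2 ⬝ᵥ J *ᵥ v 3)) ∨
  (∀ v, f v = (v 0 ⬝ᵥ J *ᵥ v 2) * (v 1 ⬝ᵥ J *ᵥ v 3)) ∨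
  (∀ v, f v = (v 0 ⬝ᵥ J *ᵥ v 3) * (v 1 ⬝ᵥ J *ᵥ v 2))

theorem prod2_of {J : Matrix (Fin N) (Fin N) F} {f : (Fin 4 → Fin N → F) → F}
    {π : Equiv.Perm (Fin 4)} (h1 : ∀ j, π (π j) = j) (h2 : ∀ j, π j ≠ j)
    (hf : ∀ v, f v = ∏ j with j < π j, (v j ⬝ᵥ J *ᵥ v (π j))) : IsProd2 J f := by
  have hcase : (π 0 = 1 ∧ π 1 = 0 ∧ π 2 = 3 ∧ π 3 = 2) ∨ (π 0 = 2 ∧ π 1 = 3 ∧ π 2 = 0 ∧ π 3 = 1) ∨
      (π 0 = 3 ∧ π 1 = 2 ∧ π 2 = 1 ∧ π 3 = 0) := by
    revert h1 h2
    clear hf
    revert π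
    decide
  rcases hcase with ⟨a, b, c, d⟩ | ⟨a, b, c, d⟩ | ⟨a, b, c, d⟩
  · left
    intro v
    rw [hf, Finset.prod_filter, Fin.prod_univ_four, a, b, c, d]
    simp
  · right
    left
    intro v
    rw [hf, Finset.prod_filter, Fin.prod_univ_four, a, b, c, d]
    simp
  · right
    right
    intro v
    rw [hf, Finset.prod_filter, Fin.prod_univ_four, a, b, c, d]
    simp

/-- the bilinear form attached to a quadrilinear form and a matrix -/
noncomputable def opF (J : Matrix (Fin N) (Fin N) F) (f : (Fin 4 → Fin N → F) → F)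
    (X : Matrix (Fin N) (Fin N) F) (u w : Fin N → F) : F :=
  ∑ a, ∑ b, (X * J⁻¹) a b * f ![u, Pi.single a 1, Pi.single b 1, w]

theorem sum_sum (M : Matrix (Fin N) (Fin N) F) (r s : Fin N → F) :
    ∑ a, ∑ b, M a b * (r a * s b) = r ⬝ᵥ M *ᵥ s := by
  simp only [dotProduct, mulVec, Finset.mul_sum]
  refine Finset.sum_congr rfl fun a _ => Finset.sum_congr rfl fun b _ => by ring

theorem sum_sum' (M : Matrix (Fin N) (Fin N) F) (r s : Fin N → F) :
    ∑ a, ∑ b, M a b * (r b * s a) = r ⬝ᵥ Mᵀ *ᵥ s := by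
  rw [← sum_sum, Finset.sum_comm]
  rfl

theorem dot_single (J : Matrix (Fin N) (Fin N) F) (u : Fin N → F) (a : Fin N) :
    u ⬝ᵥ J *ᵥ (Pi.single a 1) = (u ᵥ* J) a := by
  rw [dotProduct_mulVec, dotProduct_single, mul_one]

theorem single_dot (J : Matrix (Fin N) (Fin N) F) (w : Fin N → F) (b : Fin N) :
    (Pi.single b 1) ⬝ᵥ J *ᵥ w = (J *ᵥ w) b := by
  rw [single_dotProduct, one_mul]

theorem single_single (J : Matrix (Fin N) (Fin N) F) (a b : Fin N) :
    (Pi.single a 1) ⬝ᵥ J *ᵥ (Pi.single b 1) = J a b := by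
  rw [single_dot, mulVec_single, MulOpposite.op_one, one_smul]
  rfl

variable [CharZero F]

theorem spLie_trace {J X : Matrix (Fin N) (Fin N) F} (hdet : J.det ≠ 0) (hX : SpLie J X) :
    X.trace = 0 := by
  have hu : IsUnit J.det := isUnit_iff_ne_zero.2 hdet
  have h1 : Xᵀ = -(J * X * J⁻¹) := by
    have h2 : Xᵀ * J = -(J * X) := eq_neg_of_add_eq_zero_left hX
    calc Xᵀ = Xᵀ * J * J⁻¹ := by rw [mul_assoc, mul_nonsing_inv _ hu, mul_one]
      _ = -(J * X * J⁻¹) := by rw [h2, neg_mul]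
  have h3 : X.trace = -X.trace := by
    conv_lhs => rw [← trace_transpose, h1, trace_neg, trace_mul_comm, ← mul_assoc,
      nonsing_inv_mul _ hu, one_mul]
  have h4 : (2 : F) * X.trace = 0 := by linear_combination h3
  exact (mul_eq_zero.1 h4).resolve_left two_ne_zero

/-- the operator of a form in `Three J` is a scalar on the Lie algebra -/
theorem three_op {J : Matrix (Fin N) (Fin N) F} {ε : F} (hε : ε * ε = 1) (hJ : Jᵀ = ε • J)
    (hdet : J.det ≠ 0) {f : (Fin 4 → Fin N → F) → F} (hf : f ∈ Three J) :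
    ∃ c : F, ∀ X, SpLie J X → ∀ u w, opF J f X u w = c * (u ⬝ᵥ (J * X) *ᵥ w) := by
  have hu : IsUnit J.det := isUnit_iff_ne_zero.2 hdet
  induction hf using Submodule.span_induction with
  | mem f hf =>
    obtain ⟨π, h1, h2, hf⟩ := hf
    rcases prod2_of h1 h2 hf with h | h | h
    · refine ⟨1, fun X _ u w => ?_⟩
      unfold opF
      have h3 : ∀ a b, (X * J⁻¹) a b * f ![u, Pi.single a 1, Pi.single b 1, w] =
          (X * J⁻¹) a b * ((u ᵥ* J) a * (J *ᵥ w) b) := by
        intro a b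
        rw [h]
        show _ * ((u ⬝ᵥ J *ᵥ (Pi.single a 1)) * ((Pi.single b 1) ⬝ᵥ J *ᵥ w)) = _
        rw [dot_single, single_dot]
      simp only [h3]
      rw [sum_sum, one_mul, ← dotProduct_mulVec, mulVec_mulVec, mulVec_mulVec, mul_assoc, mul_assoc,
        nonsing_inv_mul _ hu, mul_one]
    · refine ⟨-ε, fun X hX u w => ?_⟩
      unfold opF
      have h3 : ∀ a b, (X * J⁻¹) a b * f ![u, Pi.single a 1, Pi.single b 1, w] =
          (X * J⁻¹) a b * ((u ᵥ* J) b * (J *ᵥ w) a) := by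
        intro a b
        rw [h]
        show _ * ((u ⬝ᵥ J *ᵥ (Pi.single b 1)) * ((Pi.single a 1) ⬝ᵥ J *ᵥ w)) = _
        rw [dot_single, single_dot]
      simp only [h3]
      have h5 : (J * ((X * J⁻¹)ᵀ * J)) = (-ε) • (J * X) := by
        have h6 : Xᵀ * J = -(J * X) := eq_neg_of_add_eq_zero_left hX
        have h7 : (J⁻¹)ᵀ = ε • J⁻¹ := by
          rw [transpose_nonsing_inv, hJ]
          apply inv_eq_left_inv
          rw [smul_mul_assoc, mul_smul_comm, smul_smul, hε, one_smul, nonsing_inv_mul _ hu]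
        rw [transpose_mul, mul_assoc, h6, h7, smul_mul_assoc, mul_smul_comm, mul_neg, mul_neg,
          ← mul_assoc, ← mul_assoc, mul_nonsing_inv _ hu, one_mul, neg_smul, smul_neg]
      rw [sum_sum', ← dotProduct_mulVec, mulVec_mulVec, mulVec_mulVec, mul_assoc, h5, smul_mulVec,
        dotProduct_smul, smul_eq_mul]
    · refine ⟨0, fun X hX u w => ?_⟩
      unfold opF
      have h3 : ∀ a b, (X * J⁻¹) a b * f ![u, Pi.single a 1, Pi.single b 1, w] =
          (u ⬝ᵥ J *ᵥ w) * ((X * J⁻¹) a b * J a b) := by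
        intro a b
        rw [h]
        show _ * ((u ⬝ᵥ J *ᵥ w) * ((Pi.single a 1) ⬝ᵥ J *ᵥ (Pi.single b 1))) = _
        rw [single_single]
        ring
      simp only [h3, ← Finset.mul_sum]
      have h4 : ∑ a, ∑ b, (X * J⁻¹) a b * J a b = (X * J⁻¹ * Jᵀ).trace := by
        rw [Matrix.trace]
        refine Finset.sum_congr rfl fun a _ => ?_
        rw [diag_apply, mul_apply]
        rfl
      rw [h4, hJ, mul_smul_comm, trace_smul, mul_assoc, nonsing_inv_mul _ hu, mul_one,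
        spLie_trace hdet hX, smul_zero, mul_zero, zero_mul]
  | zero =>
    refine ⟨0, fun X _ u w => ?_⟩
    unfold opF
    simp
  | add f g _ _ hf hg =>
    obtain ⟨c, hc⟩ := hf
    obtain ⟨d, hd⟩ := hg
    refine ⟨c + d, fun X hX u w => ?_⟩
    have h1 : opF J (f + g) X u w = opF J f X u w + opF J g X u w := by
      unfold opF
      rw [← Finset.sum_add_distrib]
      refine Finset.sum_congr rfl fun a _ => ?_
      rw [← Finset.sum_add_distrib]
      refine Finset.sum_congr rfl fun b _ => ?_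
      rw [Pi.add_apply, mul_add]
    rw [h1, hc X hX, hd X hX, add_mul]
  | smul a f _ hf =>
    obtain ⟨c, hc⟩ := hf
    refine ⟨a * c, fun X hX u w => ?_⟩
    have h1 : opF J (a • f) X u w = a * opF J f X u w := by
      unfold opF
      rw [Finset.mul_sum]
      refine Finset.sum_congr rfl fun i _ => ?_
      rw [Finset.mul_sum]
      refine Finset.sum_congr rfl fun b _ => ?_
      rw [Pi.smul_apply, smul_eq_mul]
      ring
    rw [h1, hc X hX, mul_assoc]

end Pool.Agent.R932.OP
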