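import Pool.Agent.R932.OP.AltA

/-!
# Project OP: the alternative for the fourth tensor power
-/

set_option autoImplicit false
set_option linter.unusedSectionVars false
set_option linter.style.haveILetI false
set_option maxHeartbeats 4000000

open Matrix Polynomial Filter Topology
open Pool.Agent.Y142.ZO Pool.Agent.Y142.ZS

namespace Pool.Agent.R932.OP

section
variable {F : Type} [Field F] {N : ℕ}

/-- the quadrilinear form attached to a linear map of matrices -/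
noncomputable def quadF (J : Matrix (Fin N) (Fin N) F)
    (Pr : Matrix (Fin N) (Fin N) F →ₗ[F] Matrix (Fin N) (Fin N) F) :
    MultilinearMap F (fun _ : Fin 4 => Fin N → F) F where
  toFun v := v 0 ⬝ᵥ (J * Pr (vecMulVec (v 1) (v 2 ᵥ* J))) *ᵥ v 3
  map_update_add' := by
    intro inst v i x y
    have hinst : inst = instDecidableEqFin 4 := Subsingleton.elim _ _
    subst hinst
    have e : ∀ (a : Fin N → F) (j : Fin 4), (Function.update v i a) j = if j = i then a else v j := by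
      intro a j
      by_cases h : j = i
      · subst h
        simp
      · simp [h]
    simp only [e]
    fin_cases i
    · simp [add_dotProduct]
    · simp [add_vecMulVec, mul_add, add_mulVec, dotProduct_add]
    · simp [add_vecMul, vecMulVec_add, mul_add, add_mulVec, dotProduct_add]
    · simp [mulVec_add, dotProduct_add]
  map_update_smul' := by
    intro inst v i c x
    have hinst : inst = instDecidableEqFin 4 := Subsingleton.elim _ _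
    subst hinst
    have e : ∀ (a : Fin N → F) (j : Fin 4), (Function.update v i a) j = if j = i then a else v j := by
      intro a j
      by_cases h : j = i
      · subst h
        simp
      · simp [h]
    simp only [e]
    fin_cases i
    · simp [smul_dotProduct]
    · simp [smul_vecMulVec, smul_mulVec, dotProduct_smul]
    · simp [smul_vecMul, vecMulVec_smul, smul_mulVec, dotProduct_smul]
    · simp [mulVec_smul, dotProduct_smul]

theorem quadF_apply (J : Matrix (Fin N) (Fin N) F)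
    (Pr : Matrix (Fin N) (Fin N) F →ₗ[F] Matrix (Fin N) (Fin N) F) (v : Fin 4 → Fin N → F) :
    quadF J Pr v = v 0 ⬝ᵥ (J * Pr (vecMulVec (v 1) (v 2 ᵥ* J))) *ᵥ v 3 := rfl

/-- the operator of the form is the linear map -/
theorem opF_quadF {J : Matrix (Fin N) (Fin N) F} (hdet : J.det ≠ 0)
    (Pr : Matrix (Fin N) (Fin N) F →ₗ[F] Matrix (Fin N) (Fin N) F) (X : Matrix (Fin N) (Fin N) F)
    (u w : Fin N → F) :
    opF J (fun v => quadF J Pr v) X u w = u ⬝ᵥ (J * Pr X) *ᵥ w := by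
  have hu : IsUnit J.det := isUnit_iff_ne_zero.2 hdet
  have h1 : X = ∑ a, ∑ b, (X * J⁻¹) a b • vecMulVec (Pi.single a 1) ((Pi.single b 1) ᵥ* J) := by
    have h2 : X = (X * J⁻¹) * J := by rw [mul_assoc, nonsing_inv_mul _ hu, mul_one]
    conv_lhs => rw [h2]
    ext i j
    rw [mul_apply, Matrix.sum_apply]
    have h3 : ∀ a, (∑ b, (X * J⁻¹) a b • vecMulVec (Pi.single a 1) ((Pi.single b 1) ᵥ* J)) i j =
        if i = a then ∑ b, (X * J⁻¹) a b * J b j else 0 := by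
      intro a
      rw [Matrix.sum_apply]
      by_cases h : i = a
      · subst h
        rw [if_pos rfl]
        refine Finset.sum_congr rfl fun b _ => ?_
        rw [Matrix.smul_apply, vecMulVec_apply, Pi.single_eq_same, one_mul, smul_eq_mul,
          single_one_vecMul]
        rfl
      · rw [if_neg h]
        refine Finset.sum_eq_zero fun b _ => ?_
        rw [Matrix.smul_apply, vecMulVec_apply, Pi.single_eq_of_ne h, zero_mul, smul_zero]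
    simp only [h3]
    rw [Finset.sum_ite_eq, if_pos (Finset.mem_univ _)]
  unfold opF
  conv_rhs => rw [h1]
  rw [map_sum, Finset.mul_sum, sum_mulVec, dotProduct_sum]
  refine Finset.sum_congr rfl fun a _ => ?_
  rw [map_sum, Finset.mul_sum, sum_mulVec, dotProduct_sum]
  refine Finset.sum_congr rfl fun b _ => ?_
  rw [map_smul, mul_smul_comm, smul_mulVec, dotProduct_smul, smul_eq_mul]
  rfl

theorem ext_form {J : Matrix (Fin N) (Fin N) F} (hdet : J.det ≠ 0) {A B : Matrix (Fin N) (Fin N) F}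
    (h : ∀ u w : Fin N → F, u ⬝ᵥ (J * A) *ᵥ w = u ⬝ᵥ (J * B) *ᵥ w) : A = B := by
  have hu : IsUnit J.det := isUnit_iff_ne_zero.2 hdet
  have h1 : J * A = J * B := by
    ext i j
    rw [← single_single (J * A), ← single_single (J * B), h]
  calc A = J⁻¹ * (J * A) := by rw [← mul_assoc, nonsing_inv_mul _ hu, one_mul]
    _ = J⁻¹ * (J * B) := by rw [h1]
    _ = B := by rw [← mul_assoc, nonsing_inv_mul _ hu, one_mul]

end

section
variable {ℓ : ℕ} [Fact ℓ.Prime] {N : ℕ} {G : Type} [Group G] [TopologicalSpace G]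
  [IsTopologicalGroup G] [CompactSpace G]

/-- the quadrilinear forms which are multiplied by the square of the multiplier under an open
subgroup are combinations of products of two values of `J` -/
def Tate4 (ℓ : ℕ) [Fact ℓ.Prime] (ρ : G →* Matrix (Fin N) (Fin N) ℚ_[ℓ])
    (J : Matrix (Fin N) (Fin N) ℚ_[ℓ]) : Prop :=
  ∀ (φ : MultilinearMap ℚ_[ℓ] (fun _ : Fin 4 => Fin N → ℚ_[ℓ]) ℚ_[ℓ]) (U : Subgroup G),
    IsOpen (U : Set G) →
    (∀ σ ∈ U, ∀ c : ℚ_[ℓ], (ρ σ)ᵀ * J * ρ σ = c • J → ∀ v,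
      φ (fun j => ρ σ *ᵥ v j) = c ^ 2 * φ v) →
    (fun v => φ v) ∈ Three J

/-- the representation on the endomorphisms is semisimple -/
def Semi2 (ℓ : ℕ) [Fact ℓ.Prime] (ρ : G →* Matrix (Fin N) (Fin N) ℚ_[ℓ]) : Prop :=
  ∀ W : Submodule ℚ_[ℓ] (Matrix (Fin N) (Fin N) ℚ_[ℓ]),
    (∀ σ : G, ∀ A ∈ W, ρ σ * A * ρ σ⁻¹ ∈ W) →
    ∃ W' : Submodule ℚ_[ℓ] (Matrix (Fin N) (Fin N) ℚ_[ℓ]), IsCompl W W' ∧
      ∀ σ : G, ∀ A ∈ W', ρ σ * A * ρ σ⁻¹ ∈ W'

variable {ρ : G →* Matrix (Fin N) (Fin N) ℚ_[ℓ]} {J : Matrix (Fin N) (Fin N) ℚ_[ℓ]}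

theorem rho_inv (ρ : G →* Matrix (Fin N) (Fin N) ℚ_[ℓ]) (σ : G) : ρ σ * ρ σ⁻¹ = 1 := by
  rw [← map_mul, mul_inv_cancel, map_one]

theorem rho_inv' (ρ : G →* Matrix (Fin N) (Fin N) ℚ_[ℓ]) (σ : G) : ρ σ⁻¹ * ρ σ = 1 := by
  rw [← map_mul, inv_mul_cancel, map_one]

/-- equivariance of the quadrilinear form of an equivariant linear map -/
theorem quadF_equiv {Pr : Matrix (Fin N) (Fin N) ℚ_[ℓ] →ₗ[ℚ_[ℓ]] Matrix (Fin N) (Fin N) ℚ_[ℓ]}
    {σ : G} (hPr : ∀ A, Pr (ρ σ * A * ρ σ⁻¹) = ρ σ * Pr A * ρ σ⁻¹) {c : ℚ_[ℓ]}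
    (hc : (ρ σ)ᵀ * J * ρ σ = c • J) (v : Fin 4 → Fin N → ℚ_[ℓ]) :
    quadF J Pr (fun j => ρ σ *ᵥ v j) = c ^ 2 * quadF J Pr v := by
  rw [quadF_apply, quadF_apply]
  have h1 : (ρ σ *ᵥ v 2) ᵥ* J = c • ((v 2 ᵥ* J) ᵥ* ρ σ⁻¹) := by
    have h2 : (ρ σ)ᵀ * J = c • (J * ρ σ⁻¹) := by
      calc (ρ σ)ᵀ * J = (ρ σ)ᵀ * J * (ρ σ * ρ σ⁻¹) := by rw [rho_inv, mul_one]
        _ = c • (J * ρ σ⁻¹) := by rw [← mul_assoc, hc, smul_mul_assoc]
    rw [← vecMul_transpose (A := ρ σ), vecMul_vecMul, h2, vecMul_smul, vecMul_vecMul]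
  have h3 : vecMulVec (ρ σ *ᵥ v 1) ((ρ σ *ᵥ v 2) ᵥ* J) =
      c • (ρ σ * vecMulVec (v 1) (v 2 ᵥ* J) * ρ σ⁻¹) := by
    rw [h1, vecMulVec_smul, mul_vecMulVec, vecMulVec_mul]
  rw [h3, map_smul, hPr, mul_smul_comm, smul_mulVec, dotProduct_smul, smul_eq_mul]
  have h4 : (ρ σ *ᵥ v 0) ⬝ᵥ (J * (ρ σ * Pr (vecMulVec (v 1) (v 2 ᵥ* J)) * ρ σ⁻¹)) *ᵥ (ρ σ *ᵥ v 3) =
      c * (v 0 ⬝ᵥ (J * Pr (vecMulVec (v 1) (v 2 ᵥ* J))) *ᵥ v 3) := by
    rw [← vecMul_transpose (A := ρ σ), ← dotProduct_mulVec, mulVec_mulVec, mulVec_mulVec]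
    have h5 : (ρ σ)ᵀ * (J * (ρ σ * Pr (vecMulVec (v 1) (v 2 ᵥ* J)) * ρ σ⁻¹)) * ρ σ =
        c • (J * Pr (vecMulVec (v 1) (v 2 ᵥ* J))) := by
      calc (ρ σ)ᵀ * (J * (ρ σ * Pr (vecMulVec (v 1) (v 2 ᵥ* J)) * ρ σ⁻¹)) * ρ σ =
          ((ρ σ)ᵀ * J * ρ σ) * Pr (vecMulVec (v 1) (v 2 ᵥ* J)) * (ρ σ⁻¹ * ρ σ) := by
            noncomm_ring
        _ = _ := by rw [hc, rho_inv', mul_one, smul_mul_assoc]
    rw [h5, smul_mulVec, dotProduct_smul, smul_eq_mul]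
  rw [h4]
  ring

/-- **the alternative**: a nonzero equivariant subspace of the Lie algebra of `J` is everything -/
theorem alt_of {ε : ℚ_[ℓ]} (hε : ε * ε = 1) (hJ : Jᵀ = ε • J) (hdet : J.det ≠ 0)
    (h4 : Tate4 ℓ ρ J) (h2 : Semi2 ℓ ρ) (W : Submodule ℚ_[ℓ] (Matrix (Fin N) (Fin N) ℚ_[ℓ]))
    (hW : ∀ σ : G, ∀ A ∈ W, ρ σ * A * ρ σ⁻¹ ∈ W) (hsp : ∀ A ∈ W, SpLie J A) (hne : W ≠ ⊥) :
    ∀ X, SpLie J X → X ∈ W := by
  obtain ⟨W', hc, hW'⟩ := h2 W hW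
  set Pr : Matrix (Fin N) (Fin N) ℚ_[ℓ] →ₗ[ℚ_[ℓ]] Matrix (Fin N) (Fin N) ℚ_[ℓ] :=
    W.subtype ∘ₗ W.projectionOnto W' hc with hPr
  have hin : ∀ A, Pr A ∈ W := fun A => (W.projectionOnto W' hc A).2
  have hid : ∀ A ∈ W, Pr A = A := by
    intro A hA
    have h := W.projectionOnto_apply_left hc ⟨A, hA⟩
    exact congrArg Subtype.val h
  have hz : ∀ A ∈ W', Pr A = 0 := by
    intro A hA
    have h := (W.projectionOnto_apply_eq_zero_iff hc (x := A)).2 hA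
    exact congrArg Subtype.val h
  have heq : ∀ σ : G, ∀ A, Pr (ρ σ * A * ρ σ⁻¹) = ρ σ * Pr A * ρ σ⁻¹ := by
    intro σ A
    have hA : A ∈ W ⊔ W' := by rw [hc.sup_eq_top]; trivial
    obtain ⟨B, hB, C, hC, rfl⟩ := Submodule.mem_sup.1 hA
    rw [mul_add, add_mul, map_add, map_add, hid _ (hW σ B hB), hz _ (hW' σ C hC), hid B hB, hz C hC,
      add_zero, add_zero]
  have hφ := h4 (quadF J Pr) ⊤ isOpen_univ fun σ _ c hσ v => quadF_equiv (heq σ) hσ v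
  obtain ⟨c, hcX⟩ := three_op hε hJ hdet hφ
  have hPX : ∀ X, SpLie J X → Pr X = c • X := by
    intro X hX
    apply ext_form hdet
    intro u w
    rw [← opF_quadF hdet, hcX X hX, mul_smul_comm, smul_mulVec, dotProduct_smul, smul_eq_mul]
  obtain ⟨A, hA, hA0⟩ := W.ne_bot_iff.1 hne
  have hc1 : c = 1 := by
    have h1 := hPX A (hsp A hA)
    rw [hid A hA] at h1
    have h3 : (c - 1) • A = 0 := by rw [sub_smul, one_smul, ← h1, sub_self]
    exact sub_eq_zero.1 ((smul_eq_zero.1 h3).resolve_right hA0)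
  intro X hX
  have h1 := hPX X hX
  rw [hc1, one_smul] at h1
  rw [← h1]
  exact hin X

theorem spLie_inv {ε : ℚ_[ℓ]} (hε : ε * ε = 1) (hJ : Jᵀ = ε • J) (hdet : J.det ≠ 0)
    {A : Matrix (Fin N) (Fin N) ℚ_[ℓ]} (hA : Aᵀ = (-ε) • A) : SpLie J (J⁻¹ * A) := by
  have hu : IsUnit J.det := isUnit_iff_ne_zero.2 hdet
  have h7 : (J⁻¹)ᵀ = ε • J⁻¹ := by
    rw [transpose_nonsing_inv, hJ]
    apply inv_eq_left_inv
    rw [smul_mul_assoc, mul_smul_comm, smul_smul, hε, one_smul, nonsing_inv_mul _ hu]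
  unfold SpLie
  rw [transpose_mul, h7, hA, smul_mul_assoc, mul_smul_comm, smul_mul_assoc, smul_mul_assoc, mul_assoc,
    nonsing_inv_mul _ hu, ← mul_assoc, mul_nonsing_inv _ hu, mul_one, one_mul, smul_smul]
  rw [neg_mul, hε, neg_smul, one_smul, neg_add_cancel]

/-- an endomorphism commuting with an open subgroup is a scalar -/
theorem scalar_of (hN : 2 ≤ N) {ε : ℚ_[ℓ]} (hε : ε = 1 ∨ ε = -1) (hJ : Jᵀ = ε • J)
    (hdet : J.det ≠ 0) (h4 : Tate4 ℓ ρ J) {U : Subgroup G} (hU : IsOpen (U : Set G))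
    {A : Matrix (Fin N) (Fin N) ℚ_[ℓ]} (hA : ∀ σ ∈ U, ρ σ * A = A * ρ σ) :
    ∃ c : ℚ_[ℓ], A = c • 1 := by
  have hu : IsUnit J.det := isUnit_iff_ne_zero.2 hdet
  have hεε : ε * ε = 1 := by
    rcases hε with rfl | rfl <;> ring
  set Pr : Matrix (Fin N) (Fin N) ℚ_[ℓ] →ₗ[ℚ_[ℓ]] Matrix (Fin N) (Fin N) ℚ_[ℓ] :=
    LinearMap.mulLeft ℚ_[ℓ] A with hPr
  have hφ := h4 (quadF J Pr) U hU fun σ hσ c hc v => quadF_equiv (fun X => by
    rw [hPr, LinearMap.mulLeft_apply, LinearMap.mulLeft_apply, ← mul_assoc, ← mul_assoc, ← mul_assoc,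
      hA σ hσ]) hc v
  obtain ⟨c, hcX⟩ := three_op hεε hJ hdet hφ
  have hPX : ∀ X, SpLie J X → A * X = c • X := by
    intro X hX
    apply ext_form hdet
    intro u w
    have h1 := opF_quadF hdet Pr X u w
    rw [hPr, LinearMap.mulLeft_apply] at h1
    rw [← h1, hcX X hX, mul_smul_comm, smul_mulVec, dotProduct_smul, smul_eq_mul]
  refine ⟨c, ?_⟩
  have hM : ∀ S : Matrix (Fin N) (Fin N) ℚ_[ℓ], Sᵀ = (-ε) • S → (A - c • 1) * J⁻¹ * S = 0 := by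
    intro S hS
    have h1 := hPX _ (spLie_inv hεε hJ hdet hS)
    rw [mul_assoc, sub_mul, h1, smul_mul_assoc, one_mul, sub_self]
  have hM0 : (A - c • 1) * J⁻¹ = 0 := by
    rcases hε with rfl | rfl
    · set M := (A - c • 1) * J⁻¹ with hMdef
      have h2 : ∀ a b : Fin N, a ≠ b → ∀ i, M i a = 0 := by
        intro a b hab i
        have h3 := hM (Matrix.single a b 1 - Matrix.single b a 1) (by
          rw [transpose_sub, transpose_single, transpose_single, neg_smul, one_smul, neg_sub])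
        have h4 := congrFun (congrFun h3 i) b
        rw [mul_sub, Matrix.sub_apply, Matrix.mul_single_apply_same,
          Matrix.mul_single_apply_of_ne _ _ _ _ _ (Ne.symm hab), sub_zero, mul_one] at h4
        exact h4
      ext i a
      obtain ⟨b, hb⟩ : ∃ b : Fin N, a ≠ b := by
        haveI : Nontrivial (Fin N) := Fin.nontrivial_iff_two_le.2 hN
        obtain ⟨b, hb⟩ := exists_ne a
        exact ⟨b, hb.symm⟩
      exact h2 a b hb i
    · have h1 := hM 1 (by rw [neg_neg, one_smul, transpose_one])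
      rwa [mul_one] at h1
  have h1 : A - c • 1 = 0 := by
    calc A - c • 1 = (A - c • 1) * J⁻¹ * J := by rw [mul_assoc, nonsing_inv_mul _ hu, mul_one]
      _ = 0 := by rw [hM0, zero_mul]
  exact sub_eq_zero.1 h1

/-- tangent vectors of isometries -/
theorem tan_isom {G₁ : Type} [Group G₁] {ρ₁ : G₁ →* Matrix (Fin N) (Fin N) ℚ_[ℓ]}
    (h : ∀ g, (ρ₁ g)ᵀ * J * ρ₁ g = J) {X : Matrix (Fin N) (Fin N) ℚ_[ℓ]} (hX : IsTangent ℓ ρ₁ X) :
    SpLie J X := by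
  obtain ⟨σ, hσ⟩ := hX
  have hℓ0 : (ℓ : ℚ_[ℓ]) ≠ 0 := by exact_mod_cast (Fact.out : ℓ.Prime).ne_zero
  set Y : ℕ → Matrix (Fin N) (Fin N) ℚ_[ℓ] := fun n => ((ℓ : ℚ_[ℓ]) ^ n)⁻¹ • (ρ₁ (σ n) - 1) with hY
  have hYρ : ∀ n, ρ₁ (σ n) = 1 + (ℓ : ℚ_[ℓ]) ^ n • Y n := by
    intro n
    rw [hY]
    simp only
    rw [smul_smul, mul_inv_cancel₀ (pow_ne_zero _ hℓ0), one_smul, add_sub_cancel]
  have h0 : ∀ n, (Y n)ᵀ * J + J * Y n + (ℓ : ℚ_[ℓ]) ^ n • ((Y n)ᵀ * J * Y n) = 0 := by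
    intro n
    have h1 := h (σ n)
    rw [hYρ n, transpose_add, transpose_one, transpose_smul] at h1
    have h2 : (ℓ : ℚ_[ℓ]) ^ n • ((Y n)ᵀ * J + J * Y n + (ℓ : ℚ_[ℓ]) ^ n • ((Y n)ᵀ * J * Y n)) = 0 := by
      have h3 : (1 + (ℓ : ℚ_[ℓ]) ^ n • (Y n)ᵀ) * J * (1 + (ℓ : ℚ_[ℓ]) ^ n • Y n) = J +
          (ℓ : ℚ_[ℓ]) ^ n • ((Y n)ᵀ * J + J * Y n + (ℓ : ℚ_[ℓ]) ^ n • ((Y n)ᵀ * J * Y n)) := by
        simp only [add_mul, mul_add, one_mul, mul_one, smul_mul_assoc, mul_smul_comm, smul_add,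
          smul_smul]
        abel
      rw [h3] at h1
      exact left_eq_add.1 h1.symm
    exact (smul_eq_zero.1 h2).resolve_left (pow_ne_zero _ hℓ0)
  have hp : Tendsto (fun n : ℕ => (ℓ : ℚ_[ℓ]) ^ n) atTop (𝓝 0) :=
    tendsto_pow_atTop_nhds_zero_of_norm_lt_one Padic.norm_p_lt_one
  let Fc : ℚ_[ℓ] × Matrix (Fin N) (Fin N) ℚ_[ℓ] → Matrix (Fin N) (Fin N) ℚ_[ℓ] :=
    fun p => (p.2)ᵀ * J + J * p.2 + p.1 • ((p.2)ᵀ * J * p.2)
  have hc : Continuous Fc := by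
    show Continuous fun p : ℚ_[ℓ] × Matrix (Fin N) (Fin N) ℚ_[ℓ] =>
        (p.2)ᵀ * J + J * p.2 + p.1 • ((p.2)ᵀ * J * p.2)
    fun_prop
  have hpair : Tendsto (fun n : ℕ => ((ℓ : ℚ_[ℓ]) ^ n, Y n)) atTop (𝓝 ((0 : ℚ_[ℓ]), X)) :=
    hp.prodMk_nhds hσ
  have hT : Tendsto (fun n : ℕ => Fc ((ℓ : ℚ_[ℓ]) ^ n, Y n)) atTop (𝓝 (Fc ((0 : ℚ_[ℓ]), X))) :=
    (hc.tendsto ((0 : ℚ_[ℓ]), X)).comp hpair
  have hF0 : (fun n : ℕ => Fc ((ℓ : ℚ_[ℓ]) ^ n, Y n)) = fun _ => 0 := funext h0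
  rw [hF0] at hT
  have hT2 : T2Space (Matrix (Fin N) (Fin N) ℚ_[ℓ]) :=
    inferInstanceAs (T2Space (Fin N → Fin N → ℚ_[ℓ]))
  have h5 : Fc ((0 : ℚ_[ℓ]), X) = 0 := tendsto_nhds_unique hT tendsto_const_nhds
  have h6 : Fc ((0 : ℚ_[ℓ]), X) = Xᵀ * J + J * X := by
    show Xᵀ * J + J * X + (0 : ℚ_[ℓ]) • (Xᵀ * J * X) = _
    rw [zero_smul, add_zero]
  rw [h6] at h5
  exact h5

/-- **the Lie algebra of the image contains the Lie algebra of the form, if the Tate classes in the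
fourth tensor power are the expected ones, the second tensor power is semisimple and no power of some
element is a scalar** -/
theorem full_of_tate4 (hTAN : S_TAN) (hLOG : S_LOG) (hPOW : S_POW) (hρ : Continuous ρ) (hN : 2 ≤ N)
    {ε : ℚ_[ℓ]} (hε : ε = 1 ∨ ε = -1) (hJ : Jᵀ = ε • J) (hdet : J.det ≠ 0)
    (hsim : ∀ g, ∃ c : ℚ_[ℓ], (ρ g)ᵀ * J * ρ g = c • J)
    (h4 : Tate4 ℓ ρ J) (h2 : Semi2 ℓ ρ) {σ₀ : G}
    (h0 : ∀ (n : ℕ) (c : ℚ_[ℓ]), 0 < n → ρ σ₀ ^ n ≠ c • 1) :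
    ∀ X, SpLie J X → IsTangent ℓ ρ X := by
  classical
  have hεε : ε * ε = 1 := by
    rcases hε with rfl | rfl <;> ring
  obtain ⟨𝔤, h𝔤, -, had, -⟩ := hTAN ℓ N G ρ
  let sp : Submodule ℚ_[ℓ] (Matrix (Fin N) (Fin N) ℚ_[ℓ]) :=
    { carrier := {X | SpLie J X}
      add_mem' := by
        intro a b ha hb
        have ha' : aᵀ * J + J * a = 0 := ha
        have hb' : bᵀ * J + J * b = 0 := hb
        show (a + b)ᵀ * J + J * (a + b) = 0
        rw [transpose_add, add_mul, mul_add, ← add_zero (0 : Matrix (Fin N) (Fin N) ℚ_[ℓ])]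
        nth_rewrite 1 [← ha']
        rw [← hb']
        abel
      zero_mem' := by
        show (0 : Matrix (Fin N) (Fin N) ℚ_[ℓ])ᵀ * J + J * 0 = 0
        simp
      smul_mem' := by
        intro c a ha
        have ha' : aᵀ * J + J * a = 0 := ha
        show (c • a)ᵀ * J + J * (c • a) = 0
        rw [transpose_smul, smul_mul_assoc, mul_smul_comm, ← smul_add, ha', smul_zero] }
  have hspconj : ∀ σ : G, ∀ A, SpLie J A → SpLie J (ρ σ * A * ρ σ⁻¹) := by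
    intro σ A hA
    obtain ⟨c, hc⟩ := hsim σ⁻¹
    have hc0 : c ≠ 0 := by
      rintro rfl
      rw [zero_smul] at hc
      apply hdet
      have h5 : J = (ρ σ)ᵀ * ((ρ σ⁻¹)ᵀ * J * ρ σ⁻¹) * ρ σ := by
        calc J = (ρ σ⁻¹ * ρ σ)ᵀ * J * (ρ σ⁻¹ * ρ σ) := by
              rw [rho_inv', transpose_one, one_mul, mul_one]
          _ = _ := by
            rw [transpose_mul]
            noncomm_ring
      rw [hc, mul_zero, zero_mul] at h5
      rw [h5]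
      haveI : Nonempty (Fin N) := ⟨⟨0, by omega⟩⟩
      exact det_zero
    have h3 : (ρ σ⁻¹)ᵀ * J = c • (J * ρ σ) := by
      calc (ρ σ⁻¹)ᵀ * J = (ρ σ⁻¹)ᵀ * J * (ρ σ⁻¹ * ρ σ) := by rw [rho_inv', mul_one]
        _ = c • (J * ρ σ) := by rw [← mul_assoc, hc, smul_mul_assoc]
    have h6 : (ρ σ)ᵀ * J = c⁻¹ • (J * ρ σ⁻¹) := by
      have h7 : (ρ σ)ᵀ * ((ρ σ⁻¹)ᵀ * J) * ρ σ⁻¹ = J * ρ σ⁻¹ := by
        rw [← mul_assoc, ← transpose_mul, rho_inv', transpose_one, one_mul]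
      rw [h3, mul_smul_comm, smul_mul_assoc, mul_assoc, mul_assoc, rho_inv, mul_one] at h7
      rw [← h7, smul_smul, inv_mul_cancel₀ hc0, one_smul]
    unfold SpLie at hA ⊢
    have h8 : Aᵀ * J = -(J * A) := eq_neg_of_add_eq_zero_left hA
    rw [transpose_mul, transpose_mul]
    have h9 : (ρ σ⁻¹)ᵀ * (Aᵀ * (ρ σ)ᵀ) * J = -(J * (ρ σ * A * ρ σ⁻¹)) := by
      calc (ρ σ⁻¹)ᵀ * (Aᵀ * (ρ σ)ᵀ) * J = (ρ σ⁻¹)ᵀ * Aᵀ * ((ρ σ)ᵀ * J) := by noncomm_ring
        _ = c⁻¹ • ((ρ σ⁻¹)ᵀ * (Aᵀ * J) * ρ σ⁻¹) := by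
            rw [h6, mul_smul_comm]
            congr 1
            noncomm_ring
        _ = c⁻¹ • (-(((ρ σ⁻¹)ᵀ * J) * (A * ρ σ⁻¹))) := by
            rw [h8]
            congr 1
            noncomm_ring
        _ = -(J * (ρ σ * A * ρ σ⁻¹)) := by
            rw [h3, smul_mul_assoc, smul_neg, smul_smul, inv_mul_cancel₀ hc0, one_smul]
            congr 1
            noncomm_ring
    rw [h9, neg_add_cancel]
  by_cases hW : 𝔤 ⊓ sp = ⊥
  · exfalso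
    obtain ⟨⟨U, hU, hnear⟩, hpow⟩ := hPOW ℓ N G ρ hρ
    obtain ⟨n, hn, hnU⟩ := hpow U hU σ₀
    -- the isometries
    let G₁ : Subgroup G :=
      { carrier := {g | (ρ g)ᵀ * J * ρ g = J}
        mul_mem' := by
          intro a b ha hb
          have ha' : (ρ a)ᵀ * J * ρ a = J := ha
          have hb' : (ρ b)ᵀ * J * ρ b = J := hb
          show (ρ (a * b))ᵀ * J * ρ (a * b) = J
          rw [map_mul, transpose_mul]
          calc (ρ b)ᵀ * (ρ a)ᵀ * J * (ρ a * ρ b) = (ρ b)ᵀ * ((ρ a)ᵀ * J * ρ a) * ρ b := by noncomm_ring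
            _ = J := by rw [ha', hb']
        one_mem' := by
          show (ρ 1)ᵀ * J * ρ 1 = J
          rw [map_one, transpose_one, one_mul, mul_one]
        inv_mem' := by
          intro a ha
          have ha' : (ρ a)ᵀ * J * ρ a = J := ha
          show (ρ a⁻¹)ᵀ * J * ρ a⁻¹ = J
          conv_lhs => rw [← ha']
          calc (ρ a⁻¹)ᵀ * ((ρ a)ᵀ * J * ρ a) * ρ a⁻¹ = (ρ a * ρ a⁻¹)ᵀ * J * (ρ a * ρ a⁻¹) := by
                rw [transpose_mul]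
                noncomm_ring
            _ = J := by rw [rho_inv, transpose_one, one_mul, mul_one] }
    have hcomm : ∀ u ∈ U, ρ u * ρ (σ₀ ^ n) = ρ (σ₀ ^ n) * ρ u := by
      intro u hu
      set κ : G := u * σ₀ ^ n * u⁻¹ * (σ₀ ^ n)⁻¹ with hκ
      have hκU : κ ∈ U := U.mul_mem (U.mul_mem (U.mul_mem hu hnU) (U.inv_mem hu)) (U.inv_mem hnU)
      have hmulc : ∀ (a b : G) (c d : ℚ_[ℓ]), (ρ a)ᵀ * J * ρ a = c • J → (ρ b)ᵀ * J * ρ b = d • J →
          (ρ (a * b))ᵀ * J * ρ (a * b) = (c * d) • J := by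
        intro a b c d ha hb
        rw [map_mul, transpose_mul]
        calc (ρ b)ᵀ * (ρ a)ᵀ * J * (ρ a * ρ b) = (ρ b)ᵀ * ((ρ a)ᵀ * J * ρ a) * ρ b := by noncomm_ring
          _ = (c * d) • J := by rw [ha, mul_smul_comm, smul_mul_assoc, hb, smul_smul]
      have hJ0 : J ≠ 0 := by
        rintro rfl
        haveI : Nonempty (Fin N) := ⟨⟨0, by omega⟩⟩
        exact hdet det_zero
      have huniq : ∀ (a : G) (c d : ℚ_[ℓ]), (ρ a)ᵀ * J * ρ a = c • J → (ρ a⁻¹)ᵀ * J * ρ a⁻¹ = d • J →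
          c * d = 1 := by
        intro a c d ha hb
        have h5 := hmulc a a⁻¹ c d ha hb
        rw [mul_inv_cancel, map_one, transpose_one, one_mul, mul_one] at h5
        have h6 : (c * d - 1) • J = 0 := by rw [sub_smul, one_smul, ← h5, sub_self]
        exact sub_eq_zero.1 ((smul_eq_zero.1 h6).resolve_right hJ0)
      have hκ1 : κ ∈ G₁ := by
        obtain ⟨a, ha⟩ := hsim u
        obtain ⟨a', ha'⟩ := hsim u⁻¹
        obtain ⟨b, hb⟩ := hsim (σ₀ ^ n)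
        obtain ⟨b', hb'⟩ := hsim (σ₀ ^ n)⁻¹
        show (ρ κ)ᵀ * J * ρ κ = J
        rw [hκ, hmulc _ _ _ _ (hmulc _ _ _ _ (hmulc _ _ _ _ ha hb) ha') hb']
        have h5 : a * b * a' * b' = 1 := by
          linear_combination (b * b') * huniq u a a' ha ha' + huniq _ b b' hb hb'
        rw [h5, one_smul]
      obtain ⟨⟨X, hX, hXker⟩, -⟩ := hLOG ℓ N G₁ (ρ.comp G₁.subtype) ⟨κ, hκ1⟩ (hnear κ hκU)
      have hXsp : SpLie J X := tan_isom (fun g => g.2) hX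
      have hXg : X ∈ 𝔤 := by
        obtain ⟨s, hs⟩ := hX
        exact (h𝔤 X).2 ⟨fun n => (s n : G), hs⟩
      have hX0 : X = 0 := by
        have : X ∈ 𝔤 ⊓ sp := ⟨hXg, hXsp⟩
        rw [hW] at this
        exact this
      have hκρ : ρ κ = 1 := by
        apply Matrix.ext_of_mulVec_single
        intro i
        rw [one_mulVec]
        exact (hXker _).1 (by rw [hX0, zero_mulVec])
      have h5 : κ * (σ₀ ^ n * u) = u * σ₀ ^ n := by
        rw [hκ]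
        group
      rw [← map_mul, ← map_mul, ← h5, map_mul, hκρ, one_mul]
    obtain ⟨c, hc⟩ := scalar_of hN hε hJ hdet h4 hU hcomm
    rw [map_pow] at hc
    exact h0 n c hn hc
  · intro X hX
    have := alt_of hεε hJ hdet h4 h2 (𝔤 ⊓ sp) (fun σ A hA => ⟨had σ A hA.1, hspconj σ A hA.2⟩)
      (fun A hA => hA.2) hW X hX
    exact (h𝔤 X).1 this.1

end

end Pool.Agent.R932.OP
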