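import Pool.Agent.R932.OP.Key
import Pool.Agent.R932.IrC
import Pool.Agent.Y142.ZI.Stm2

/-!
# Project OP: irreducibility modulo `ℓ` at 100 percent of the primes, from one open prime
-/

set_option autoImplicit false
set_option linter.unusedSectionVars false
set_option linter.style.haveILetI false

open Matrix Polynomial Filter Topology NumberField IsDedekindDomain
open Pool.Agent.Y142.ZO Pool.Agent.Y142.ZI Pool.Agent.Y379.ZI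
open Pool.Agent.Y142.ZS (NiceP)
open Pool.Agent.Y142.ZD (DistPow dist_of_nice S_ABS S_BADD S_SUB)
open Pool.Agent.Y142.SS Pool.Agent.Y142.SI

namespace Pool.Agent.R932.OP

open Pool.Agent.R932

section
variable {K : Type} [Field K] [NumberField K] {m : ℕ} {G : Type} [Group G] {s : GK K →* G}
  {S : Set (HeightOneSpectrum (𝓞 K))} {P : HeightOneSpectrum (𝓞 K) → ℚ[X]}

theorem niceP_of_nicePlace {v : HeightOneSpectrum (𝓞 K)} {Q : ℚ[X]} (h : NicePlace S P v Q) :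
    NiceP S P v := by
  obtain ⟨h1, h2, h3, h4, h5, h6⟩ := h
  have hX : (X - 1 : ℚ[X]).Monic := by
    have := monic_X_sub_C (1 : ℚ)
    rwa [C_1] at this
  refine ⟨h1, ?_, ?_, ?_⟩
  · rw [h2]
    exact hX.mul h3
  · rw [h2]
    have hsX : (X - 1 : ℚ[X]).Separable := by
      have := separable_X_sub_C (x := (1 : ℚ))
      rwa [C_1] at this
    refine hsX.mul h4 ?_
    have h7 : IsCoprime (X - C (1 : ℚ)) Q := by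
      refine (Polynomial.irreducible_X_sub_C (1 : ℚ)).coprime_iff_not_dvd.2 ?_
      rw [dvd_iff_isRoot]
      exact h5
    rwa [C_1] at h7
  · rw [h2]
    exact h6

/-- the bad primes from a condition at places with full cycles -/
theorem density_cyc (hINT : S_INT) (hDENS2 : S_DENS2) (hFROB : S_FROB) (hMULTI : S_MULTI)
    (hCHAR : S_CHAR) (hGEN : S_GEN)
    (hRES : S_RES) (hUNR : S_UNR) (hFORM1 : S_FORM1) (hFORM2 : S_FORM2)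
    (hTYPC : S_TYPC) (hTYPS : S_TYPS) (hTYPT : S_TYPT) (hTYPU : S_TYPU) (hS : S.Finite)
    (ρ : ∀ (ℓ : ℕ) [Fact ℓ.Prime], GK K →* Matrix (Fin (2 * m + 3)) (Fin (2 * m + 3)) ℚ_[ℓ])
    (B : ∀ (ℓ : ℕ) [Fact ℓ.Prime], Matrix (Fin (2 * m + 3)) (Fin (2 * m + 3)) ℚ_[ℓ])
    (hsys : ∀ (ℓ : ℕ) [Fact ℓ.Prime], Orthogonal K (2 * m + 3) ℓ (ρ ℓ) (B ℓ) S P)
    (hinf : ∀ b : ℕ, ∃ ℓ : ℕ, b < ℓ ∧ ∃ _ : Fact ℓ.Prime, FullLie ℓ (ρ ℓ) (B ℓ))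
    (Bad : Set ℕ) (hprime : ∀ ℓ ∈ Bad, ℓ.Prime)
    (h : ∀ (v : HeightOneSpectrum (𝓞 K)) (Q : ℚ[X]), NicePlace S P v Q →
      Q.natDegree = 2 * m + 2 → ∃ b : ℕ, ∀ ℓ ∈ Bad, b < ℓ → ∀ σ, FrobAt ℓ σ → σ ∉ Cyc Q) :
    Y142.ZI.DensityZero Bad := by
  refine hDENS2 Bad (2 * m + 2).factorial hprime fun M hM => ?_
  obtain ⟨v, Q, hnice, hdeg, hsurj⟩ := key_nice hFROB hMULTI hCHAR hGEN hRES hUNR hINT hFORM1
    hFORM2 hTYPC hTYPS hTYPT hTYPU hS ρ B hsys hinf M hM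
  obtain ⟨b, hb⟩ := h v Q hnice hdeg
  refine ⟨Lf Q, Cyc Q, Lf_finite Q, Lf_normal Q, ?_, fun g hg h => cyc_conj hg h,
    fun g hg u hu => cyc_mul hnice.2.2.1.ne_zero hg hu, hsurj, b, hb⟩
  have := Lf_finrank hnice.2.2.2.1
  rwa [hdeg] at this

/-- **irreducibility modulo `ℓ` at 100 percent of the primes, from one open prime** -/
theorem irr_mod_one (hALG : S_ALG) (hISO : S_ISO) (hLINE : S_LINE) (hTAN : S_TAN) (hLOG : S_LOG)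
    (hEXP : S_EXP) (hPOW : S_POW) (hSPEC : S_SPEC) (hAPP : S_APP) (hFROB : S_FROB) (hBAD : S_BAD)
    (hVAL : S_VAL) (hVAL2 : S_VAL2) (hDENS : S_DENS) (hINF : S_INF)
    (hBADRED : S_BADRED) (hPOS : S_POS) (hIRR : S_IRR)
    (hINT : S_INT) (hDENS2 : S_DENS2) (hMULTI : S_MULTI)
    (hCHAR : S_CHAR) (hGEN : S_GEN)
    (hRES : S_RES) (hUNR : S_UNR) (hFORM1 : S_FORM1) (hFORM2 : S_FORM2)
    (hTYPC : S_TYPC) (hTYPS : S_TYPS) (hTYPT : S_TYPT) (hTYPU : S_TYPU) (hTYPX : S_TYPX)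
    (hNT : S_NT) (hm : 0 < m) (hS : S.Finite)
    (β : ∀ (ℓ : ℕ) [Fact ℓ.Prime], G →* Matrix (Fin (2 * m + 3)) (Fin (2 * m + 3)) ℤ_[ℓ])
    (B : ∀ (ℓ : ℕ) [Fact ℓ.Prime], Matrix (Fin (2 * m + 3)) (Fin (2 * m + 3)) ℤ_[ℓ])
    (hsys : ∀ (ℓ : ℕ) [Fact ℓ.Prime], IntegralSys K (2 * m + 3) ℓ s (β ℓ) (B ℓ) S P)
    (hun : ∃ b : ℕ, ∀ (ℓ : ℕ) [Fact ℓ.Prime], b < ℓ → IsUnit (B ℓ).det)
    (ℓ₀ : ℕ) [hℓ₀ : Fact ℓ₀.Prime] (hdvd : ¬ ℓ₀ ∣ 2 * (m + 1))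
    (hfull : FullLie ℓ₀ (genRep ℓ₀ ((β ℓ₀).comp s)) (genM ℓ₀ (B ℓ₀))) (d₀ : ℕ) :
    Y142.ZI.DensityZero {ℓ | ∃ _ : Fact ℓ.Prime, ¬ IrrMod ℓ d₀ (β ℓ)} := by
  classical
  have hN : Odd (2 * m + 3) := ⟨m + 1, by ring⟩
  have hℓ2 : ℓ₀ ≠ 2 := by
    rintro rfl
    exact hdvd ⟨m + 1, rfl⟩
  set ρ : ∀ (ℓ : ℕ) [Fact ℓ.Prime], GK K →* Matrix (Fin (2 * m + 3)) (Fin (2 * m + 3)) ℚ_[ℓ] :=
    fun ℓ _ => genRep ℓ ((β ℓ).comp s) with hρ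
  set C : ∀ (ℓ : ℕ) [Fact ℓ.Prime], Matrix (Fin (2 * m + 3)) (Fin (2 * m + 3)) ℚ_[ℓ] :=
    fun ℓ _ => genM ℓ (B ℓ) with hC
  have hsysO : ∀ (ℓ : ℕ) [Fact ℓ.Prime], Orthogonal K (2 * m + 3) ℓ (ρ ℓ) (C ℓ) S P :=
    fun ℓ _ => orthogonal_of (hsys ℓ)
  obtain ⟨v₀, Q₀, hv₀, h0, hv₀ℓ⟩ := good_of_full hFROB hMULTI hCHAR hFORM1 hTYPX hS ρ C hsysO ℓ₀ hℓ2
    hfull
  have hnt : ¬ TateSubquotient ℓ₀ (ρ ℓ₀) := hNT ℓ₀ (2 * m + 3) (by omega) (GK K) (ρ ℓ₀)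
    (hsysO ℓ₀).1 (C ℓ₀) (hsysO ℓ₀).2.1 (hsysO ℓ₀).2.2.1 hfull
  have hTS : Y142.ZO.DensityZero (TateSet ρ) := by
    rcases zero_one hALG hISO hLINE hTAN hLOG hEXP hPOW hSPEC hAPP hFROB hBAD hVAL hVAL2
      hDENS hINF hN hS hv₀ h0 ρ C hsysO with h | h
    · exact absurd (h ℓ₀ hv₀ℓ) hnt
    · exact h
  have hT := mod_zero_one hALG hISO hLINE hTAN hLOG hEXP hPOW hSPEC hAPP hFROB hBAD hVAL hVAL2
    hDENS hINF hN hS hv₀ h0 β B hsys hun ℓ₀ hv₀ℓ hnt (2 * d₀)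
  obtain ⟨v₁, Q₁, hv₁, hdeg₁, hne⟩ := cyc_of_full hFROB hMULTI hCHAR hRES hUNR hFORM2 hTYPC hS ρ C
    hsysO ℓ₀ hdvd hfull
  have hinf := inf_open hLINE hTAN hEXP hSPEC hBADRED hPOS hIRR hv₀ h0 ρ C hsysO hTS hv₁ hdeg₁ hne
  -- small primes
  have hbad0 : ∀ b : ℕ, Y142.ZI.DensityZero {ℓ : ℕ | ℓ.Prime ∧ ℓ ≤ b} := by
    intro b
    refine density_cyc hINT hDENS2 hFROB hMULTI hCHAR hGEN hRES hUNR hFORM1
      hFORM2 hTYPC hTYPS hTYPT hTYPU hS ρ C hsysO hinf _ (fun ℓ hℓ => hℓ.1)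
      (fun v Q _ _ => ⟨b, fun ℓ hℓ h => absurd hℓ.2 (by omega)⟩)
  -- stable subspaces
  have hbad1 : Y142.ZI.DensityZero {ℓ | ∃ _ : Fact ℓ.Prime,
      ∃ (U : Subgroup G) (W : Submodule (ZMod ℓ) (Fin (2 * m + 3) → ZMod ℓ)), U.index ≠ 0 ∧
        U.index ≤ d₀ ∧ (∀ σ ∈ U, ∀ w ∈ W, redM ℓ (β ℓ σ) *ᵥ w ∈ W) ∧
        2 ≤ Module.finrank (ZMod ℓ) W ∧ Module.finrank (ZMod ℓ) W + 2 ≤ 2 * m + 3} := by
    refine density_cyc hINT hDENS2 hFROB hMULTI hCHAR hGEN hRES hUNR hFORM1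
      hFORM2 hTYPC hTYPS hTYPT hTYPU hS ρ C hsysO hinf _ (fun ℓ hℓ => hℓ.1.out) ?_
    intro v Q hv hdeg
    obtain ⟨b, hb⟩ := place_mod (N := 2 * m + 3) (s := s) (niceP_of_nicePlace hv) d₀
    refine ⟨b, ?_⟩
    rintro ℓ ⟨hp, U, W, hU0, hUd, hW, hW2, hWN⟩ hℓ σ hσ hcl
    obtain ⟨τ, h1, -, h3⟩ := hb ℓ hℓ hp (β ℓ) (B ℓ) (hsys ℓ)
    obtain ⟨R, hRm, hRd, hR⟩ := factor_of_stableM _ W (h1 U W hU0 hUd hW)
    obtain ⟨T, hT, hTn, hTs⟩ := h3 σ hσ R hRm hR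
    rw [hv.2.1] at hT
    rcases ncard_of_cyc hv.2.2.1 hv.2.2.2.1 hcl hT hTs with h | h <;> omega
  -- isotropic lines
  have hbad2 : Y142.ZI.DensityZero {ℓ | ∃ _ : Fact ℓ.Prime, IsUnit (B ℓ).det ∧
      ∃ (U : Subgroup G) (w : Fin (2 * m + 3) → ZMod ℓ), U.index ≠ 0 ∧ U.index ≤ d₀ ∧ w ≠ 0 ∧
        (∀ τ ∈ U, ∃ a : ZMod ℓ, redM ℓ (β ℓ τ) *ᵥ w = a • w) ∧ bil (redM ℓ (B ℓ)) w w = 0} := by
    refine density_cyc hINT hDENS2 hFROB hMULTI hCHAR hGEN hRES hUNR hFORM1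
      hFORM2 hTYPC hTYPS hTYPT hTYPU hS ρ C hsysO hinf _ (fun ℓ hℓ => hℓ.1.out) ?_
    intro v Q hv hdeg
    obtain ⟨b, hb⟩ := place_mod (N := 2 * m + 3) (s := s) (niceP_of_nicePlace hv) d₀
    refine ⟨b, ?_⟩
    rintro ℓ ⟨hp, hu, U, w, hU0, hUd, hw0, hw, hiso⟩ hℓ σ hσ hcl
    obtain ⟨τ, h1, h2, h3⟩ := hb ℓ hℓ hp (β ℓ) (B ℓ) (hsys ℓ)
    have h4 := h1 U (Submodule.span (ZMod ℓ) {w}) hU0 hUd (by
      intro σ hσ x hx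
      obtain ⟨a, rfl⟩ := Submodule.mem_span_singleton.1 hx
      obtain ⟨c, hc⟩ := hw σ hσ
      rw [mulVec_smul, hc]
      exact Submodule.smul_mem _ _ (Submodule.smul_mem _ _ (Submodule.mem_span_singleton_self w)))
      w (Submodule.mem_span_singleton_self w)
    obtain ⟨a, ha⟩ := Submodule.mem_span_singleton.1 h4
    have hdet' : (redM ℓ (B ℓ)).det ≠ 0 := by
      rw [redM_det]
      exact (hu.map (PadicInt.toZMod : ℤ_[ℓ] →+* ZMod ℓ)).ne_zero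
    obtain ⟨R, hR1, hR2, hR3⟩ := factor_two' hdet' (redM_isom ℓ ((hsys ℓ).2.2.2.1 τ)) h2 hw0
      ha.symm hiso
    obtain ⟨T, hT, hTn, hTs⟩ := h3 σ hσ R hR1 hR3
    rw [hv.2.1] at hT
    rcases ncard_of_cyc hv.2.2.1 hv.2.2.2.1 hcl hT hTs with h | h <;> omega
  obtain ⟨b₀, hb₀⟩ := hun
  refine Y142.ZI.DensityZero.mono ((((hbad0 (max b₀ 2)).union hT).union hbad2).union hbad1) ?_
  rintro ℓ ⟨hp, hng⟩
  by_contra hnot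
  apply hng
  rw [Set.mem_union, Set.mem_union, Set.mem_union, not_or, not_or, not_or] at hnot
  obtain ⟨⟨⟨h0ℓ, hTℓ⟩, h2⟩, h1⟩ := hnot
  have hℓ : max b₀ 2 < ℓ := by
    by_contra h
    exact h0ℓ ⟨hp.out, by omega⟩
  rw [max_lt_iff] at hℓ
  have h2ne : (2 : ZMod ℓ) ≠ 0 := by
    have := cast_ne_zero (k := 2) (by norm_num) (ℓ := ℓ) (by simpa using hℓ.2)
    simpa using this
  refine irr_odd h2ne (hb₀ ℓ hℓ.1) (hsys ℓ).2.2.2.1 ?_ ?_ (fun h => hTℓ ⟨hp, h⟩)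
  · intro U W hU0 hUd hW hd hdN
    exact h1 ⟨hp, U, W, hU0, hUd, hW, hd, hdN⟩
  · intro U w hU0 hUd hw0 hw hiso
    exact h2 ⟨hp, hb₀ ℓ hℓ.1, U, w, hU0, hUd, hw0, hw, hiso⟩

end

end Pool.Agent.R932.OP
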