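import Pool.Agent.R932.OP.OrthA
import Pool.Agent.R932.OrC

/-!
# Project OP: irreducibility modulo `ℓ` and bounded index at 100 percent of the primes, from one prime
-/

set_option autoImplicit false
set_option linter.unusedSectionVars false
set_option linter.style.haveILetI false

open Matrix Polynomial Filter Topology NumberField IsDedekindDomain
open Pool.Agent.Y142.ZO Pool.Agent.Y142.ZI Pool.Agent.Y379.ZI

namespace Pool.Agent.R932.OP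

open Pool.Agent.R932

section
variable {ℓ : ℕ} [Fact ℓ.Prime] {N : ℕ} {G : Type} [Group G]

/-- the image contains all isometries which are congruent to `1` modulo a power of `ℓ` -/
def OpenZ (ℓ : ℕ) [Fact ℓ.Prime] {N : ℕ} {G : Type} [Group G]
    (β : G →* Matrix (Fin N) (Fin N) ℤ_[ℓ]) (B : Matrix (Fin N) (Fin N) ℤ_[ℓ]) : Prop :=
  ∃ m : ℕ, ∀ A : Matrix (Fin N) (Fin N) ℤ_[ℓ], Aᵀ * B * A = B →
    (∀ i j, (ℓ : ℤ_[ℓ]) ^ m ∣ (A - 1) i j) → ∃ σ, β σ = A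

theorem full_of_openZ {β : G →* Matrix (Fin N) (Fin N) ℤ_[ℓ]} {B : Matrix (Fin N) (Fin N) ℤ_[ℓ]}
    (hB : Bᵀ = B) (hdet : B.det ≠ 0) (h : OpenZ ℓ β B) : FullLie ℓ (genRep ℓ β) (genM ℓ B) := by
  obtain ⟨m, hm⟩ := h
  have hinj : Function.Injective (algebraMap ℤ_[ℓ] ℚ_[ℓ]) := IsFractionRing.injective _ _
  have hBt : (genM ℓ B)ᵀ = genM ℓ B := by
    unfold genM
    rw [← Matrix.transpose_map, hB]
  have hd : (genM ℓ B).det ≠ 0 := by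
    unfold genM
    rw [← RingHom.mapMatrix_apply, ← RingHom.map_det]
    exact (map_ne_zero_iff _ hinj).2 hdet
  have hℓ : (0 : ℝ) < ℓ := by exact_mod_cast (Fact.out : ℓ.Prime).pos
  refine cay ℓ N G (genRep ℓ β) (genM ℓ B) hBt hd ⟨((ℓ : ℝ) ^ m)⁻¹, by positivity, fun g hg hgn => ?_⟩
  have hle : ∀ i j, ‖(g - 1) i j‖ ≤ 1 := fun i j => (hgn i j).le.trans (inv_le_one_of_one_le₀
    (one_le_pow₀ (by exact_mod_cast (Fact.out : ℓ.Prime).one_lt.le)))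
  have hz0 : ∀ i j, ∃ z : ℤ_[ℓ], (z : ℚ_[ℓ]) = (g - 1) i j := fun i j => ⟨⟨(g - 1) i j, hle i j⟩, rfl⟩
  choose z hz using hz0
  let A : Matrix (Fin N) (Fin N) ℤ_[ℓ] := (1 : Matrix (Fin N) (Fin N) ℤ_[ℓ]) + Matrix.of z
  have hA : genM ℓ A = g := by
    unfold genM
    ext i j
    have h2 : (algebraMap ℤ_[ℓ] ℚ_[ℓ]) (z i j) = (g - 1) i j := hz i j
    have h3 : A i j = (1 : Matrix (Fin N) (Fin N) ℤ_[ℓ]) i j + z i j := rfl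
    rw [Matrix.map_apply, h3, map_add, h2, Matrix.sub_apply, Matrix.one_apply, Matrix.one_apply]
    split_ifs <;> simp
  have hiso : Aᵀ * B * A = B := by
    have h1 : genM ℓ (Aᵀ * B * A) = genM ℓ B := by
      have h2 : genM ℓ (Aᵀ * B * A) = (genM ℓ A)ᵀ * genM ℓ B * genM ℓ A := by
        unfold genM
        rw [Matrix.map_mul, Matrix.map_mul, Matrix.transpose_map]
      rw [h2, hA]
      exact hg
    exact Matrix.map_injective hinj h1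
  obtain ⟨σ, hσ⟩ := hm A hiso (fun i j => by
    have h1 : (A - 1) i j = z i j := by
      show (((1 : Matrix (Fin N) (Fin N) ℤ_[ℓ]) + Matrix.of z) - 1) i j = _
      rw [add_sub_cancel_left, Matrix.of_apply]
    rw [h1, ← Ideal.mem_span_singleton, ← PadicInt.norm_le_pow_iff_mem_span_pow]
    have h2 : ‖z i j‖ = ‖(g - 1) i j‖ := by rw [← hz i j, PadicInt.padic_norm_e_of_padicInt]
    rw [h2, _root_.zpow_neg, zpow_natCast]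
    exact (hgn i j).le)
  exact ⟨σ, by rw [genRep_apply, hσ, hA]⟩

theorem openZ_of_open {β : G →* Matrix (Fin N) (Fin N) ℤ_[ℓ]} {B : Matrix (Fin N) (Fin N) ℤ_[ℓ]}
    {ε : ℝ} (hε : 0 < ε)
    (h : ∀ g : Matrix (Fin N) (Fin N) ℚ_[ℓ], Isom (genM ℓ B) g → (∀ i j, ‖(g - 1) i j‖ < ε) →
      ∃ σ, genRep ℓ β σ = g) : OpenZ ℓ β B := by
  have hinj : Function.Injective (algebraMap ℤ_[ℓ] ℚ_[ℓ]) := IsFractionRing.injective _ _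
  have hℓ1 : (1 : ℝ) < ℓ := by exact_mod_cast (Fact.out : ℓ.Prime).one_lt
  obtain ⟨m, hm⟩ := exists_pow_lt_of_lt_one hε (inv_lt_one_of_one_lt₀ hℓ1)
  refine ⟨m, fun A hA hn => ?_⟩
  obtain ⟨σ, hσ⟩ := h (genM ℓ A) (by
    unfold genM Isom
    rw [← Matrix.transpose_map, ← Matrix.map_mul, ← Matrix.map_mul, hA]) (fun i j => by
    have h1 : (genM ℓ A - 1) i j = (((A - 1) i j : ℤ_[ℓ]) : ℚ_[ℓ]) := by
      unfold genM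
      rw [Matrix.sub_apply, Matrix.sub_apply, Matrix.map_apply, Matrix.one_apply, Matrix.one_apply,
        PadicInt.coe_sub]
      split_ifs <;> simp
    rw [h1, PadicInt.padic_norm_e_of_padicInt]
    refine lt_of_le_of_lt ?_ hm
    have h2 := hn i j
    rw [← Ideal.mem_span_singleton, ← PadicInt.norm_le_pow_iff_mem_span_pow, _root_.zpow_neg,
      zpow_natCast] at h2
    rw [inv_pow]
    exact h2)
  exact ⟨σ, Matrix.map_injective hinj hσ⟩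

end

section
variable {K : Type} [Field K] [NumberField K] {N : ℕ} {G : Type} [Group G] {s : GK K →* G}
  {S : Set (HeightOneSpectrum (𝓞 K))} {P : HeightOneSpectrum (𝓞 K) → ℚ[X]}

/-- irreducibility modulo `ℓ` -/
theorem irr_one (hodd : Odd N) (hN : 5 ≤ N) (hS : S.Finite)
    (β : ∀ (ℓ : ℕ) [Fact ℓ.Prime], G →* Matrix (Fin N) (Fin N) ℤ_[ℓ])
    (B : ∀ (ℓ : ℕ) [Fact ℓ.Prime], Matrix (Fin N) (Fin N) ℤ_[ℓ])
    (hsys : ∀ (ℓ : ℕ) [Fact ℓ.Prime], IntegralSys K N ℓ s (β ℓ) (B ℓ) S P)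
    (hun : ∃ b : ℕ, ∀ (ℓ : ℕ) [Fact ℓ.Prime], b < ℓ → IsUnit (B ℓ).det)
    (ℓ₀ : ℕ) [hℓ₀ : Fact ℓ₀.Prime] (hdvd : ¬ ℓ₀ ∣ N - 1)
    (hfull : FullLie ℓ₀ (genRep ℓ₀ ((β ℓ₀).comp s)) (genM ℓ₀ (B ℓ₀))) (d₀ : ℕ) :
    Y142.ZI.DensityZero {ℓ | ∃ _ : Fact ℓ.Prime, ¬ IrrMod ℓ d₀ (β ℓ)} := by
  obtain ⟨m, hm⟩ : ∃ m, N = 2 * m + 3 := by
    obtain ⟨k, hk⟩ := hodd
    exact ⟨k - 1, by omega⟩
  subst hm
  have hdvd' : ¬ ℓ₀ ∣ 2 * (m + 1) := by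
    rw [show 2 * m + 3 - 1 = 2 * (m + 1) by omega] at hdvd
    exact hdvd
  have hISO : Y142.ZO.S_ISO := Y337.ZO.iso_t
  have hLINE : Y142.ZO.S_LINE := Y337.ZO.line_t
  have hLOG : Y142.ZO.S_LOG := Y497.ZO.log
  have hCOMP : Y142.ZI.S_COMP := Y547.ZI.t2
  have hCHEB : Y142.ZI.S_CHEB := Y726.ZI.t1
  exact irr_mod_one Y142.ZO.alg_main hISO hLINE Y708.ZO.t hLOG Y497.ZO.exp Y497.ZO.pow Y96.ZO.t
    (Y815.ZO.t Y337.ZO.det_t Y337.ZO.qz_t hLOG) Y405.ZO.t (Y458.ZO.bad hISO hLINE) Y405.ZO.t1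
    Y405.ZO.t2 Y394.ZO.t1 Y394.ZO.t2 Y379.ZI.t (Y726.ZI.t2 hCHEB) Y971.ZI.t Y484.ZI.t1
    (Y681.ZI.t hCHEB) Y537.ZI.t Y949.ZI.t gen Y484.ZI.t2 unr R499.OP.form1 R499.OP.form2 typc
    (typs clq hCOMP) (typt clq hCOMP) (Y405.ZI.t clq hCOMP) typx nt (by omega) hS β B hsys hun ℓ₀
    hdvd' hfull d₀

/-- bounded index in the orthogonal group of `ℤ_ℓ` -/
theorem idx_one (hodd : Odd N) (hN : 5 ≤ N) (hS : S.Finite)
    (β : ∀ (ℓ : ℕ) [Fact ℓ.Prime], G →* Matrix (Fin N) (Fin N) ℤ_[ℓ])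
    (B : ∀ (ℓ : ℕ) [Fact ℓ.Prime], Matrix (Fin N) (Fin N) ℤ_[ℓ])
    (hsys : ∀ (ℓ : ℕ) [Fact ℓ.Prime], IntegralSys K N ℓ s (β ℓ) (B ℓ) S P)
    (hcl : ∀ (ℓ : ℕ) [Fact ℓ.Prime], IsClosed (Set.range (β ℓ)))
    (hun : ∃ b : ℕ, ∀ (ℓ : ℕ) [Fact ℓ.Prime], b < ℓ → IsUnit (B ℓ).det)
    (ℓ₀ : ℕ) [hℓ₀ : Fact ℓ₀.Prime] (hdvd : ¬ ℓ₀ ∣ N - 1)
    (hfull : FullLie ℓ₀ (genRep ℓ₀ ((β ℓ₀).comp s)) (genM ℓ₀ (B ℓ₀))) :
    Y142.ZI.DensityZero {ℓ | ∃ _ : Fact ℓ.Prime, ¬ Idx ℓ (β ℓ) (B ℓ)} := by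
  have h1 := irr_one hodd hN hS β B hsys hun ℓ₀ hdvd hfull (jbound N)
  obtain ⟨v₀, Q₀, hv₀, h0⟩ : ∃ (v₀ : HeightOneSpectrum (𝓞 K)) (Q₀ : ℚ[X]), GoodPlace S P v₀ Q₀ ∧
      ∀ x y z : ℂ, aeval x Q₀ = 0 → aeval y Q₀ = 0 → aeval z Q₀ = 0 → x * y ≠ z := by
    obtain ⟨m, hm⟩ : ∃ m, N = 2 * m + 3 := by
      obtain ⟨k, hk⟩ := hodd
      exact ⟨k - 1, by omega⟩
    subst hm
    have hℓ2 : ℓ₀ ≠ 2 := by
      rintro rfl
      apply hdvd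
      rw [show 2 * m + 3 - 1 = 2 * (m + 1) by omega]
      exact ⟨m + 1, rfl⟩
    obtain ⟨v₀, Q₀, h2, h3, -⟩ := good_of_full Y405.ZO.t Y537.ZI.t Y949.ZI.t R499.OP.form1 typx hS
      (fun ℓ _ => genRep ℓ ((β ℓ).comp s)) (fun ℓ _ => genM ℓ (B ℓ))
      (fun ℓ _ => orthogonal_of (hsys ℓ)) ℓ₀ hℓ2 hfull
    exact ⟨v₀, Q₀, h2, h3⟩
  obtain ⟨b, hb⟩ := idx_of_irr (G := G) (s := s) hv₀ h0 (by omega : 2 ≤ N)
  obtain ⟨b', hb'⟩ := hun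
  refine Y142.ZI.DensityZero.mono ((small_density (max b b')).union h1) ?_
  rintro ℓ ⟨hp, hng⟩
  by_contra hnot
  apply hng
  rw [Set.mem_union, not_or] at hnot
  have hℓ : max b b' < ℓ := by
    by_contra h
    exact hnot.1 ⟨hp.out, by omega⟩
  rw [max_lt_iff] at hℓ
  refine hb ℓ hℓ.1 hp (β ℓ) (B ℓ) (hsys ℓ) (hb' ℓ hℓ.2) (hcl ℓ) ?_
  by_contra h
  exact hnot.2 ⟨hp, h⟩

end

end Pool.Agent.R932.OP
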