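import Pool.Agent.R932.OP.IrrB
import Pool.Agent.R932.MtInt

/-!
# Project OP: the integral Mumford-Tate conjecture, from one prime to 100 percent of the primes
-/

set_option autoImplicit false
set_option linter.unusedSectionVars false
set_option linter.style.haveILetI false

open Matrix Polynomial Filter Topology NumberField IsDedekindDomain
open Pool.Agent.Y142.ZO Pool.Agent.Y142.ZI
open Pool.Agent.Y95.MT
open Pool.Agent.W544.PG (HS BD bl)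

namespace Pool.Agent.R932.OP

open Pool.Agent.R932

/-- a power belongs to the image, if finitely many cosets cover all powers -/
theorem pow_mem_of_cover {M G : Type} [Monoid M] [Group G] (ρ : G →* M) (F : Finset M) {A : M}
    (hA : IsUnit A) (h : ∀ i : ℕ, ∃ x ∈ F, ∃ g, A ^ i = x * ρ g) :
    ∃ g, A ^ (F.card.factorial) = ρ g := by
  classical
  choose x hx g hg using h
  obtain ⟨i, hi, j, hj, hij, hxx⟩ := Finset.exists_ne_map_eq_of_card_lt_of_maps_to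
    (s := Finset.range (F.card + 1)) (t := F) (f := x) (by rw [Finset.card_range]; omega)
    (fun i _ => hx i)
  have key : ∀ i j : ℕ, i < j → j ≤ F.card → x i = x j → ∃ g, A ^ (F.card.factorial) = ρ g := by
    intro i j hij hj hxx
    have h1 : A ^ i * A ^ (j - i) = A ^ i * ρ ((g i)⁻¹ * g j) := by
      rw [← pow_add, Nat.add_sub_cancel' hij.le, hg j, map_mul]
      nth_rewrite 1 [hg i]
      rw [hxx, mul_assoc, ← mul_assoc (ρ (g i)), ← map_mul, mul_inv_cancel, map_one, one_mul]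
    have h2 : A ^ (j - i) = ρ ((g i)⁻¹ * g j) := (hA.pow i).mul_left_cancel h1
    obtain ⟨k, hk⟩ := Nat.dvd_factorial (by omega : 0 < j - i) (by omega : j - i ≤ F.card)
    exact ⟨((g i)⁻¹ * g j) ^ k, by rw [hk, pow_mul, h2, map_pow]⟩
  rw [Finset.mem_range] at hi hj
  rcases lt_or_gt_of_ne hij with h | h
  · exact key i j h (by omega) hxx
  · exact key j i h (by omega) hxx.symm

section
variable {ℓ : ℕ} [Fact ℓ.Prime] {N : ℕ} {G : Type} [Group G]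

/-- finitely many cosets of the image cover the special orthogonal group of `ℤ_ℓ` -/
def CovZ (ℓ : ℕ) [Fact ℓ.Prime] {N : ℕ} {G : Type} [Group G]
    (β : G →* Matrix (Fin N) (Fin N) ℤ_[ℓ]) (B : Matrix (Fin N) (Fin N) ℤ_[ℓ]) : Prop :=
  ∃ F : Finset (Matrix (Fin N) (Fin N) ℤ_[ℓ]), ∀ A : Matrix (Fin N) (Fin N) ℤ_[ℓ],
    Aᵀ * B * A = B → A.det = 1 → ∃ x ∈ F, ∃ σ, A = x * β σ

theorem det_one_of_near {B A : Matrix (Fin N) (Fin N) ℤ_[ℓ]} (hdet : B.det ≠ 0)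
    (hA : Aᵀ * B * A = B) (hn : ∀ i j, (ℓ : ℤ_[ℓ]) ^ 2 ∣ (A - 1) i j) : A.det = 1 := by
  have h1 : A.det * A.det = 1 := by
    have h2 := congrArg Matrix.det hA
    rw [det_mul, det_mul, det_transpose] at h2
    apply mul_right_cancel₀ hdet
    rw [one_mul]
    linear_combination h2
  rcases mul_self_eq_one_iff.1 h1 with h | h
  · exact h
  · exfalso
    -- `-1 ≡ 1` modulo `ℓ ^ 2`
    set I : Ideal ℤ_[ℓ] := Ideal.span {(ℓ : ℤ_[ℓ]) ^ 2} with hI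
    have h3 : A.map (Ideal.Quotient.mk I) = 1 := by
      ext i j
      have h4 : (Ideal.Quotient.mk I) ((A - 1) i j) = 0 := by
        rw [Ideal.Quotient.eq_zero_iff_mem, hI, Ideal.mem_span_singleton]
        exact hn i j
      rw [Matrix.sub_apply, map_sub, sub_eq_zero] at h4
      rw [Matrix.map_apply, h4, Matrix.one_apply, Matrix.one_apply]
      split_ifs <;> simp
    have h5 : (Ideal.Quotient.mk I) A.det = 1 := by
      rw [RingHom.map_det, RingHom.mapMatrix_apply, h3, det_one]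
    rw [h, map_neg, map_one] at h5
    have h6 : (Ideal.Quotient.mk I) (2 : ℤ_[ℓ]) = 0 := by
      have h7 : (2 : ℤ_[ℓ]) = 1 - (-1) := by norm_num
      rw [h7, map_sub, map_neg, map_one, h5, sub_self]
    rw [Ideal.Quotient.eq_zero_iff_mem, hI, ← PadicInt.norm_le_pow_iff_mem_span_pow] at h6
    have hp : ℓ.Prime := Fact.out
    have h8 : ‖(2 : ℤ_[ℓ])‖ ≤ ((ℓ : ℝ) ^ 2)⁻¹ := by
      rw [_root_.zpow_neg, zpow_natCast] at h6
      exact h6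
    have h9 : ((2 : ℤ) : ℤ_[ℓ]) = 2 := by norm_num
    have h10 : ‖((2 : ℤ) : ℤ_[ℓ])‖ ≤ (ℓ : ℝ) ^ (-(2 : ℕ) : ℤ) := by
      rw [h9, _root_.zpow_neg, zpow_natCast]
      exact h8
    rw [PadicInt.norm_int_le_pow_iff_dvd] at h10
    have h11 : (ℓ ^ 2 : ℤ) ≤ 2 := Int.le_of_dvd (by norm_num) (by exact_mod_cast h10)
    have h12 : (2 : ℤ) ≤ ℓ := by exact_mod_cast hp.two_le
    nlinarith

theorem tendsto_one' {ρ : G →* Matrix (Fin N) (Fin N) ℚ_[ℓ]} {X : Matrix (Fin N) (Fin N) ℚ_[ℓ]}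
    {σ : ℕ → G}
    (hσ : Tendsto (fun n : ℕ => ((ℓ : ℚ_[ℓ]) ^ n)⁻¹ • (ρ (σ n) - 1)) atTop (𝓝 X)) :
    Tendsto (fun n => ρ (σ n)) atTop (𝓝 1) := by
  have hℓ : ‖(ℓ : ℚ_[ℓ])‖ < 1 := Padic.norm_p_lt_one
  have h1 : Tendsto (fun n : ℕ => (ℓ : ℚ_[ℓ]) ^ n) atTop (𝓝 0) :=
    tendsto_pow_atTop_nhds_zero_of_norm_lt_one hℓ
  have h2 := (h1.smul hσ).const_add (1 : Matrix (Fin N) (Fin N) ℚ_[ℓ])
  rw [zero_smul, add_zero] at h2
  refine h2.congr fun n => ?_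
  have h3 : (ℓ : ℚ_[ℓ]) ^ n ≠ 0 := pow_ne_zero _ (by
    exact_mod_cast (Fact.out : ℓ.Prime).ne_zero)
  rw [smul_smul, mul_inv_cancel₀ h3, one_smul, add_sub_cancel]

theorem full_of_cov {β : G →* Matrix (Fin N) (Fin N) ℤ_[ℓ]} {B : Matrix (Fin N) (Fin N) ℤ_[ℓ]}
    (hTAN : S_TAN) (hB : Bᵀ = B) (hdet : B.det ≠ 0) (h : CovZ ℓ β B) :
    FullLie ℓ (genRep ℓ β) (genM ℓ B) := by
  classical
  obtain ⟨F, hF⟩ := h
  have hinj : Function.Injective (algebraMap ℤ_[ℓ] ℚ_[ℓ]) := IsFractionRing.injective _ _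
  -- the special orthogonal group
  let 𝒢 : Subgroup (Matrix (Fin N) (Fin N) ℤ_[ℓ])ˣ :=
    { carrier := {u | (u : Matrix (Fin N) (Fin N) ℤ_[ℓ])ᵀ * B * u = B ∧
        (u : Matrix (Fin N) (Fin N) ℤ_[ℓ]).det = 1}
      mul_mem' := by
        rintro a b ⟨ha, ha'⟩ ⟨hb, hb'⟩
        refine ⟨?_, ?_⟩
        · rw [Units.val_mul, transpose_mul]
          calc (b : Matrix (Fin N) (Fin N) ℤ_[ℓ])ᵀ * (a : Matrix (Fin N) (Fin N) ℤ_[ℓ])ᵀ * B *
                (↑a * ↑b) = (b : Matrix (Fin N) (Fin N) ℤ_[ℓ])ᵀ *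
                  ((a : Matrix (Fin N) (Fin N) ℤ_[ℓ])ᵀ * B * ↑a) * ↑b := by noncomm_ring
            _ = B := by rw [ha, hb]
        · rw [Units.val_mul, det_mul, ha', hb', one_mul]
      one_mem' := by
        refine ⟨?_, ?_⟩
        · rw [Units.val_one, transpose_one, one_mul, mul_one]
        · rw [Units.val_one, det_one]
      inv_mem' := by
        rintro a ⟨ha, ha'⟩
        have h1 := a.mul_inv
        set b : Matrix (Fin N) (Fin N) ℤ_[ℓ] := ((a⁻¹ : (Matrix (Fin N) (Fin N) ℤ_[ℓ])ˣ) :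
          Matrix (Fin N) (Fin N) ℤ_[ℓ]) with hb
        refine ⟨?_, ?_⟩
        · show bᵀ * B * b = B
          calc bᵀ * B * b = bᵀ * ((a : Matrix (Fin N) (Fin N) ℤ_[ℓ])ᵀ * B * ↑a) * b := by rw [ha]
            _ = ((a : Matrix (Fin N) (Fin N) ℤ_[ℓ]) * b)ᵀ * B * (↑a * b) := by
                rw [transpose_mul]
                noncomm_ring
            _ = B := by rw [h1, transpose_one, one_mul, mul_one]
        · show b.det = 1
          have h2 := congrArg Matrix.det h1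
          rw [det_mul, ha', one_mul, det_one] at h2
          exact h2 }
  let γ : 𝒢 →* Matrix (Fin N) (Fin N) ℤ_[ℓ] := (Units.coeHom _).comp 𝒢.subtype
  have hopen : OpenZ ℓ γ B := by
    refine ⟨2, fun A hA hn => ?_⟩
    have hd := det_one_of_near hdet hA hn
    have hu : IsUnit A := by
      rw [Matrix.isUnit_iff_isUnit_det, hd]
      exact isUnit_one
    obtain ⟨u, rfl⟩ := hu
    exact ⟨⟨u, hA, hd⟩, rfl⟩
  have hfull := full_of_openZ hB hdet hopen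
  obtain ⟨𝔤, h𝔤, -⟩ := hTAN ℓ N G (genRep ℓ β)
  intro X hX
  obtain ⟨σ, hσ⟩ := hfull X hX
  -- the powers
  have hpow : ∀ n, ∃ g, γ (σ n) ^ (F.card.factorial) = β g := by
    intro n
    refine pow_mem_of_cover β F ?_ fun i => ?_
    · exact (σ n).1.isUnit
    · obtain ⟨h1, h2⟩ := (σ n ^ i).2
      have h3 : γ (σ n) ^ i = ((σ n ^ i : 𝒢) : (Matrix (Fin N) (Fin N) ℤ_[ℓ])ˣ) := by
        rw [← map_pow]
        rfl
      rw [h3]
      exact hF _ h1 h2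
  choose g hg using hpow
  set c := F.card.factorial with hc
  have hc0 : (c : ℚ_[ℓ]) ≠ 0 := by exact_mod_cast (Nat.factorial_pos _).ne'
  have hone : Tendsto (fun n => genRep ℓ γ (σ n)) atTop (𝓝 1) := tendsto_one' hσ
  have hsum : Tendsto (fun n => (((ℓ : ℚ_[ℓ]) ^ n)⁻¹ • (genRep ℓ γ (σ n) - 1)) *
      ∑ i ∈ Finset.range c, (genRep ℓ γ (σ n)) ^ i) atTop
      (𝓝 (X * ∑ i ∈ Finset.range c, (1 : Matrix (Fin N) (Fin N) ℚ_[ℓ]) ^ i)) := by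
    refine hσ.mul (tendsto_finsetSum _ fun i _ => hone.pow i)
  have hX2 : X * ∑ i ∈ Finset.range c, (1 : Matrix (Fin N) (Fin N) ℚ_[ℓ]) ^ i = (c : ℚ_[ℓ]) • X := by
    simp only [one_pow]
    rw [Finset.sum_const, Finset.card_range, ← Nat.cast_smul_eq_nsmul ℚ_[ℓ], mul_smul_comm, mul_one]
  rw [hX2] at hsum
  have hten : IsTangent ℓ (genRep ℓ β) ((c : ℚ_[ℓ]) • X) := by
    refine ⟨g, hsum.congr fun n => ?_⟩
    have h1 : genRep ℓ β (g n) = (genRep ℓ γ (σ n)) ^ c := by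
      rw [genRep_apply, ← hg n, genRep_apply]
      unfold genM
      rw [← RingHom.mapMatrix_apply, ← RingHom.mapMatrix_apply, map_pow]
    rw [h1, smul_mul_assoc, mul_geom_sum]
  have h1 := 𝔤.smul_mem ((c : ℚ_[ℓ])⁻¹) ((h𝔤 _).2 hten)
  rw [smul_smul, inv_mul_cancel₀ hc0, one_smul] at h1
  exact (h𝔤 X).1 h1

end

section
variable {K : Type} [Field K] [NumberField K] {n : ℕ} {S : Set (HeightOneSpectrum (𝓞 K))}
  {P : HeightOneSpectrum (𝓞 K) → ℚ[X]} {Γ : Type} [Group Γ] [TopologicalSpace Γ]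
  [IsTopologicalGroup Γ] [CompactSpace Γ] {s : GK K →* Γ} {T : HS n}

/-- **the integral Mumford-Tate conjecture, from one prime to 100 percent of the primes, odd rank** -/
theorem mt_int_one {κ : Type} [Fintype κ] [DecidableEq κ] (hn : Odd n) (hn5 : 5 ≤ n)
    {p q : Fin 1 → ℕ}
    (hB : T.Big (one1 n) p q) (hS : S.Finite) (hs : Continuous s)
    (α : ∀ (ℓ : ℕ) [Fact ℓ.Prime], Γ →* Matrix κ κ ℤ_[ℓ])
    (hα : ∀ (ℓ : ℕ) [Fact ℓ.Prime], (Set.range (α ℓ)).Finite)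
    (β : ∀ (ℓ : ℕ) [Fact ℓ.Prime], Γ →* Matrix (Fin n) (Fin n) ℤ_[ℓ])
    (hβ : ∀ (ℓ : ℕ) [Fact ℓ.Prime], RepT s T S P ℓ (β ℓ))
    (Γ' : Subgroup Γ) (hΓ' : Γ'.index ≠ 0)
    (hconn : ∀ (ℓ : ℕ) [Fact ℓ.Prime], ConnM (totI (α ℓ) (β ℓ)) Γ')
    (ℓ₀ : ℕ) [hℓ₀ : Fact ℓ₀.Prime] (hdvd : ¬ ℓ₀ ∣ n - 1) {C₀ : ℕ} {Δ : Set Γ}
    (hΔ : ∀ γ ∈ Δ, ∃ σ, s σ = γ)
    (hone : IdxLe C₀ (totI (α ℓ₀) (β ℓ₀) '' Δ) (GZ ℓ₀ (hM (fun _ => (1 : Matrix κ κ ℂ)) T))) :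
    Y142.ZI.DensityZero {ℓ | ∃ _ : Fact ℓ.Prime, ¬ IdxLe (cI n * Γ'.index)
      (totI (α ℓ) (β ℓ) '' (Γ' : Set Γ)) (GZ ℓ (hM (fun _ => (1 : Matrix κ κ ℂ)) T))} := by
  obtain ⟨c, Z, hc0, hZ⟩ := clear_form T.Q
  have hZt : Zᵀ = Z := by
    apply Matrix.map_injective (f := (Int.castRingHom ℚ)) Int.cast_injective
    show Zᵀ.map (Int.castRingHom ℚ) = Z.map (Int.castRingHom ℚ)
    rw [Matrix.transpose_map, hZ, transpose_smul, T.symm]
  have hZdet : Z.det ≠ 0 := by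
    intro h
    have h1 := congrArg Matrix.det hZ
    have h2 : (Z.map (Int.castRingHom ℚ)).det = ((Z.det : ℤ) : ℚ) := by
      rw [← RingHom.mapMatrix_apply, ← RingHom.map_det]
      rfl
    rw [h2, h, det_smul, Int.cast_zero] at h1
    exact mul_ne_zero (pow_ne_zero _ (by exact_mod_cast hc0)) (W74.PG.det_ne T) h1.symm
  set B : ∀ (ℓ : ℕ) [Fact ℓ.Prime], Matrix (Fin n) (Fin n) ℤ_[ℓ] :=
    fun ℓ _ => Z.map (Int.castRingHom ℤ_[ℓ]) with hBdef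
  have hBdet : ∀ (ℓ : ℕ) [Fact ℓ.Prime], (B ℓ).det = ((Z.det : ℤ) : ℤ_[ℓ]) := by
    intro ℓ _
    show (Z.map (Int.castRingHom ℤ_[ℓ])).det = _
    rw [← RingHom.mapMatrix_apply, ← RingHom.map_det]
    rfl
  have hBQ : ∀ (ℓ : ℕ) [Fact ℓ.Prime], (B ℓ).map (algebraMap ℤ_[ℓ] ℚ_[ℓ]) =
      (c : ℚ_[ℓ]) • T.Q.map (algebraMap ℚ ℚ_[ℓ]) := by
    intro ℓ _
    have h1 : (B ℓ).map (algebraMap ℤ_[ℓ] ℚ_[ℓ]) =
        (Z.map (Int.castRingHom ℚ)).map (algebraMap ℚ ℚ_[ℓ]) := by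
      ext i j
      simp [hBdef]
    rw [h1, hZ]
    ext i j
    simp
  have hcℓ : ∀ (ℓ : ℕ) [Fact ℓ.Prime], (c : ℚ_[ℓ]) ≠ 0 := fun ℓ _ => by exact_mod_cast hc0
  have hsys : ∀ (ℓ : ℕ) [Fact ℓ.Prime], IntegralSys K n ℓ s (β ℓ) (B ℓ) S P := by
    intro ℓ _
    have hinj : Function.Injective (algebraMap ℤ_[ℓ] ℚ_[ℓ]) := IsFractionRing.injective _ _
    refine ⟨(hβ ℓ).cont.comp hs, ?_, ?_, fun g => ?_, fun v hv hvℓ σ hσ => ?_⟩
    · show (Z.map (Int.castRingHom ℤ_[ℓ]))ᵀ = _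
      rw [← Matrix.transpose_map, hZt]
    · rw [hBdet]
      exact_mod_cast hZdet
    · have h1 : ((β ℓ g)ᵀ * B ℓ * β ℓ g).map (algebraMap ℤ_[ℓ] ℚ_[ℓ]) =
          (B ℓ).map (algebraMap ℤ_[ℓ] ℚ_[ℓ]) := by
        rw [Matrix.map_mul, Matrix.map_mul, hBQ, mul_smul_comm, smul_mul_assoc,
          Matrix.transpose_map]
        congr 1
        exact (hβ ℓ).form g
      exact Matrix.map_injective hinj h1
    · rw [← (hβ ℓ).frob v hv hvℓ σ hσ]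
      exact (Matrix.charpoly_map _ _).symm
  have hun : ∃ b : ℕ, ∀ (ℓ : ℕ) [Fact ℓ.Prime], b < ℓ → IsUnit (B ℓ).det := by
    refine ⟨Z.det.natAbs, fun ℓ _ hℓ => ?_⟩
    rw [hBdet, PadicInt.isUnit_iff]
    refine le_antisymm (PadicInt.norm_le_one _) (not_lt.1 ?_)
    rw [PadicInt.norm_intCast_lt_one_iff]
    intro hdvd
    have h5 := Int.natAbs_dvd_natAbs.mpr hdvd
    rw [Int.natAbs_natCast] at h5
    have h6 := Nat.le_of_dvd (Int.natAbs_pos.mpr hZdet) h5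
    omega
  have hcl : ∀ (ℓ : ℕ) [Fact ℓ.Prime], IsClosed (Set.range (β ℓ)) := by
    intro ℓ _
    haveI : T2Space (Matrix (Fin n) (Fin n) ℤ_[ℓ]) :=
      inferInstanceAs (T2Space (Fin n → Fin n → ℤ_[ℓ]))
    exact (isCompact_range (hβ ℓ).cont).isClosed
  -- the prime `ℓ₀`
  have hcov : CovZ ℓ₀ ((β ℓ₀).comp s) (B ℓ₀) := by
    classical
    obtain ⟨-, F, -, hF⟩ := hone
    refine ⟨F.image fun x => x.toBlocks₂₂, fun A hA hdet => ?_⟩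
    have hmem : fromBlocks (1 : Matrix κ κ ℤ_[ℓ₀]) 0 0 A ∈
        GZ ℓ₀ (hM (fun _ => (1 : Matrix κ κ ℂ)) T) := by
      rw [GZ_iff hB]
      refine ⟨A, rfl, hdet, ?_⟩
      have h1 : (Aᵀ * B ℓ₀ * A).map (algebraMap ℤ_[ℓ₀] ℚ_[ℓ₀]) =
          (c : ℚ_[ℓ₀]) • ((qm A)ᵀ * T.Q.map (algebraMap ℚ ℚ_[ℓ₀]) * qm A) := by
        rw [Matrix.map_mul, Matrix.map_mul, hBQ, mul_smul_comm, smul_mul_assoc,
          Matrix.transpose_map]
        rfl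
      rw [hA, hBQ] at h1
      have h2 : (c : ℚ_[ℓ₀]) • ((qm A)ᵀ * T.Q.map (algebraMap ℚ ℚ_[ℓ₀]) * qm A -
          T.Q.map (algebraMap ℚ ℚ_[ℓ₀])) = 0 := by
        rw [smul_sub, ← h1, sub_self]
      exact sub_eq_zero.1 ((smul_eq_zero.1 h2).resolve_left (hcℓ ℓ₀))
    obtain ⟨x, hx, -, ⟨γ, hγ, rfl⟩, hxh⟩ := hF _ hmem
    obtain ⟨σ, rfl⟩ := hΔ γ hγ
    refine ⟨x.toBlocks₂₂, Finset.mem_image_of_mem _ hx, σ, ?_⟩
    have h3 := congrArg Matrix.toBlocks₂₂ hxh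
    rw [toBlocks_fromBlocks₂₂] at h3
    rw [h3]
    nth_rewrite 1 [← fromBlocks_toBlocks x]
    rw [totI_apply, fromBlocks_multiply, toBlocks_fromBlocks₂₂, Matrix.mul_zero, zero_add]
    rfl
  have hfull : Y142.ZI.FullLie ℓ₀ (genRep ℓ₀ ((β ℓ₀).comp s)) (genM ℓ₀ (B ℓ₀)) :=
    full_of_cov Y708.ZO.t (hsys ℓ₀).2.1 (hsys ℓ₀).2.2.1 hcov
  refine Y142.ZI.DensityZero.mono (idx_one hn hn5 hS β B hsys hcl hun ℓ₀ hdvd hfull) ?_
  rintro ℓ ⟨hp, hno⟩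
  exact ⟨hp, fun hidx => hno (idxLe_of_idx hB (hα ℓ) (hβ ℓ).form hΓ' (hconn ℓ) (hcℓ ℓ) (hBQ ℓ)
    hidx)⟩

end

end Pool.Agent.R932.OP
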