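import Pool.Agent.Y518.SS.Krs
import Pool.Agent.Y405.ZI.TypU
import Pool.Agent.Y142.ZI.Stm2

set_option autoImplicit false

/-! Project OP: Krasner with explicit position of the roots (adaptation of Y331.ZD.Krq and
Y518.SS.Krs). -/

open Polynomial Filter Topology
open Pool.Agent.Y142.ZI
open Pool.Agent.Y331.ZD (um_add um_sub near_split norm_map exists_mu exists_bd root_aut)

namespace Pool.Agent.R932.OP

variable {ℓ : ℕ} [hℓ : Fact ℓ.Prime]

/-- the power `ℓ ^ k` in the algebraic closure -/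
noncomputable abbrev la (ℓ : ℕ) [Fact ℓ.Prime] (k : ℕ) : AlgebraicClosure ℚ_[ℓ] :=
  algebraMap ℚ_[ℓ] (AlgebraicClosure ℚ_[ℓ]) ((ℓ : ℚ_[ℓ]) ^ k)

theorem la_ne (k : ℕ) : la ℓ k ≠ 0 := (_root_.map_ne_zero _).2 (ell_pow_ne k)

theorem core {J : Type} [Fintype J] (b : J → AlgebraicClosure ℚ_[ℓ]) (R₀ : ℚ_[ℓ][X])
    (hR : R₀.map (algebraMap ℚ_[ℓ] (AlgebraicClosure ℚ_[ℓ])) = ∏ j, (X - C (b j)))
    {μ : ℝ} (hμ0 : 0 < μ) (hμ1 : μ ≤ 1) (hμ : ∀ j j', j ≠ j' → μ ≤ ‖b j - b j'‖) :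
    ∃ (ε : ℝ) (k₀ : ℕ), 0 < ε ∧ ε ≤ μ ∧ ∀ (k : ℕ) (Q : ℚ_[ℓ][X]), k₀ ≤ k → Q.Monic →
      Q.natDegree = Fintype.card J → (∀ n, ‖(resc ℓ k Q - R₀).coeff n‖ < ε) →
      ∃ r : J → AlgebraicClosure ℚ_[ℓ], Function.Injective r ∧ (∀ j, ‖r j - b j‖ < μ) ∧
        (∀ j j', ‖la ℓ k * (r j * r j')‖ < μ) ∧ (∀ j, ‖la ℓ k * r j‖ ≤ 1 / 3) ∧
        (∀ s, aeval s (resc ℓ k Q) = 0 ↔ ∃ j, s = r j) ∧
        (∀ x, aeval x Q = 0 ↔ ∃ j, x = 1 + la ℓ k * r j) ∧ Q.Separable := by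
  classical
  have hnorm : ∀ x : ℚ_[ℓ], ‖algebraMap ℚ_[ℓ] (AlgebraicClosure ℚ_[ℓ]) x‖ = ‖x‖ := norm_map
  obtain ⟨M, hM1, hM⟩ := exists_bd (fun j : J => ‖b j‖)
  have hℓ1 : (1 : ℝ) < ℓ := by exact_mod_cast (Fact.out : ℓ.Prime).one_lt
  have hℓ0 : (0 : ℝ) < ℓ := by linarith
  have hinv1 : (ℓ : ℝ)⁻¹ < 1 := inv_lt_one_of_one_lt₀ hℓ1
  have hinv0 : 0 < (ℓ : ℝ)⁻¹ := inv_pos.2 hℓ0
  have hM0 : 0 < M := by linarith
  obtain ⟨k₀, hk₀⟩ := exists_pow_lt_of_lt_one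
    (show 0 < μ / (3 * M ^ 2) by positivity) hinv1
  have hεpos : 0 < μ ^ (Fintype.card J + 1) / (2 * M ^ Fintype.card J) := by positivity
  have hMJ : 1 ≤ M ^ Fintype.card J := one_le_pow₀ hM1
  have hμJ : μ ^ Fintype.card J ≤ 1 := pow_le_one₀ hμ0.le hμ1
  have hε1 : μ ^ (Fintype.card J + 1) / (2 * M ^ Fintype.card J) * M ^ Fintype.card J <
      μ ^ Fintype.card J := by
    have h1 : μ ^ (Fintype.card J + 1) / (2 * M ^ Fintype.card J) * M ^ Fintype.card J =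
        μ ^ Fintype.card J * (μ / 2) := by
      rw [pow_succ]
      field_simp
    rw [h1]
    have : 0 < μ ^ Fintype.card J := by positivity
    nlinarith
  have hε2 : μ ^ (Fintype.card J + 1) / (2 * M ^ Fintype.card J) ≤ μ := by
    rw [div_le_iff₀ (by positivity), pow_succ]
    have h1 : μ ^ Fintype.card J * μ ≤ 1 * μ := mul_le_mul_of_nonneg_right hμJ hμ0.le
    nlinarith
  refine ⟨μ ^ (Fintype.card J + 1) / (2 * M ^ Fintype.card J), k₀, hεpos, hε2, ?_⟩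
  intro k Q hk hQ hQdeg hcl
  obtain ⟨r, hrinj, hrb, hprod⟩ := near_split (b := b)
    (P := (resc ℓ k Q).map (algebraMap ℚ_[ℓ] (AlgebraicClosure ℚ_[ℓ]))) hμ0 hM1 hM hμ
    hεpos.le hε1 ((resc_monic k hQ).map _)
    (by rw [natDegree_map, resc_natDegree, hQdeg])
    (fun j => by
      rw [← hR, ← Polynomial.map_sub, coeff_map, hnorm]
      exact (hcl j).le)
  have hla0 : la ℓ k ≠ 0 := la_ne k
  have hlan : ‖la ℓ k‖ < μ / (3 * M ^ 2) := by
    rw [hnorm, norm_pow, Padic.norm_p]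
    exact (pow_le_pow_of_le_one hinv0.le hinv1.le hk).trans_lt hk₀
  have hr1 : ∀ j, ‖r j‖ ≤ M := by
    intro j
    have h1 : r j = (r j - b j) + b j := by ring
    rw [h1]
    exact (IsUltrametricDist.norm_add_le_max _ _).trans
      (max_le ((hrb j).le.trans (hμ1.trans hM1)) (hM j))
  have hsmall : ∀ u v, ‖la ℓ k * (r u * r v)‖ < μ := by
    intro u v
    rw [norm_mul, norm_mul]
    calc ‖la ℓ k‖ * (‖r u‖ * ‖r v‖) ≤ ‖la ℓ k‖ * (M * M) := by
          refine mul_le_mul_of_nonneg_left ?_ (norm_nonneg _)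
          exact mul_le_mul (hr1 u) (hr1 v) (norm_nonneg _) hM0.le
      _ < μ / (3 * M ^ 2) * (M * M) := mul_lt_mul_of_pos_right hlan (by positivity)
      _ = μ / 3 := by field_simp
      _ ≤ μ := by linarith
  have hlin : ∀ u, ‖la ℓ k * r u‖ ≤ 1 / 3 := by
    intro u
    rw [norm_mul]
    calc ‖la ℓ k‖ * ‖r u‖ ≤ (μ / (3 * M ^ 2)) * M := by
          refine mul_le_mul hlan.le (hr1 u) (norm_nonneg _) (by positivity)
      _ = μ / 3 / M := by field_simp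
      _ ≤ (1 / 3) / 1 := by
          apply div_le_div₀ (by positivity) _ one_pos hM1
          linarith
      _ = 1 / 3 := by ring
  have hrootR : ∀ s : AlgebraicClosure ℚ_[ℓ], aeval s (resc ℓ k Q) = 0 ↔ ∃ j, s = r j := by
    intro s
    rw [aeval_def, ← eval_map, hprod, eval_prod, Finset.prod_eq_zero_iff]
    simp [sub_eq_zero]
  have hQroot : ∀ x : AlgebraicClosure ℚ_[ℓ], aeval x Q = 0 ↔ ∃ j, x = 1 + la ℓ k * r j := by
    intro x
    constructor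
    · intro hx
      have h1 := (aeval_resc k Q x).mpr hx
      obtain ⟨j, hj⟩ := (hrootR _).mp h1
      refine ⟨j, ?_⟩
      rw [← hj, mul_div_cancel₀ _ hla0]
      ring
    · rintro ⟨j, rfl⟩
      have h1 : aeval (r j) (resc ℓ k Q) = 0 := (hrootR _).mpr ⟨j, rfl⟩
      rw [aeval_resc'] at h1
      exact h1
  have hsepR : (resc ℓ k Q).Separable := by
    refine (separable_map (algebraMap ℚ_[ℓ] (AlgebraicClosure ℚ_[ℓ]))).mp ?_
    rw [hprod]
    exact (separable_prod_X_sub_C_iff (f := r)).mpr hrinj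
  exact ⟨r, hrinj, hrb, hsmall, hlin, hrootR, hQroot, separable_of_resc k hsepR⟩

/-- the roots `± a_i` -/
def pm {L I : Type} [Field L] (a : I → L) : I × Bool → L := fun p => if p.2 then a p.1 else -(a p.1)

theorem prod_pm {L I : Type} [Field L] [Fintype I] (a : I → L) :
    ∏ p : I × Bool, (X - C (pm a p)) = ∏ i : I, ((X - C (a i)) * (X + C (a i))) := by
  rw [Fintype.prod_prod_type]
  refine Finset.prod_congr rfl fun i _ => ?_
  rw [Fintype.prod_bool]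
  simp [pm]

theorem pm_norm {L I : Type} [NormedField L] (a : I → L) (p : I × Bool) :
    ‖pm a p‖ = ‖a p.1‖ := by
  unfold pm
  split_ifs
  · rfl
  · rw [norm_neg]

theorem pm_ne {L I : Type} [Field L] (a : I → L) (ha : ∀ i, a i ≠ 0) (p : I × Bool) :
    pm a p ≠ 0 := by
  unfold pm
  split_ifs
  · exact ha _
  · exact neg_ne_zero.2 (ha _)

end Pool.Agent.R932.OP
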