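import Pool.Agent.Y142.ZI.Top

/-!
# Project OP: nice places with independent full cycles, from infinitely many open primes
-/

set_option autoImplicit false
set_option linter.style.haveILetI false

open Matrix Polynomial Filter Topology NumberField IsDedekindDomain
open Pool.Agent.Y142.ZO Pool.Agent.Y142.ZI

namespace Pool.Agent.R932.OP

section
variable {K : Type} [Field K] [NumberField K] {m : ℕ} {S : Set (HeightOneSpectrum (𝓞 K))}
  {P : HeightOneSpectrum (𝓞 K) → ℚ[X]}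

/-- the key construction -/
theorem key_nice (hFROB : S_FROB) (hMULTI : S_MULTI) (hCHAR : S_CHAR) (hGEN : S_GEN)
    (hRES : S_RES) (hUNR : S_UNR) (hINT : S_INT) (hFORM1 : S_FORM1) (hFORM2 : S_FORM2)
    (hTYPC : S_TYPC) (hTYPS : S_TYPS) (hTYPT : S_TYPT) (hTYPU : S_TYPU) (hS : S.Finite)
    (ρ : ∀ (ℓ : ℕ) [Fact ℓ.Prime], GK K →* Matrix (Fin (2 * m + 3)) (Fin (2 * m + 3)) ℚ_[ℓ])
    (B : ∀ (ℓ : ℕ) [Fact ℓ.Prime], Matrix (Fin (2 * m + 3)) (Fin (2 * m + 3)) ℚ_[ℓ])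
    (hsys : ∀ (ℓ : ℕ) [Fact ℓ.Prime], Orthogonal K (2 * m + 3) ℓ (ρ ℓ) (B ℓ) S P)
    (hinf : ∀ b : ℕ, ∃ ℓ : ℕ, b < ℓ ∧ ∃ _ : Fact ℓ.Prime, FullLie ℓ (ρ ℓ) (B ℓ))
    (M : IntermediateField ℚ QQ) (hM : FiniteDimensional ℚ M) :
    ∃ (v : HeightOneSpectrum (𝓞 K)) (Q : ℚ[X]), NicePlace S P v Q ∧ Q.natDegree = 2 * m + 2 ∧
      ∀ g : GK ℚ, ∃ h : GK ℚ, (∀ x ∈ M, h x = x) ∧ g * h ∈ Cyc Q := by
  classical
  have hN : Odd (2 * m + 3) := ⟨m + 1, by ring⟩
  -- the field `M'`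
  set Z : IntermediateField ℚ QQ := Lf (X ^ (2 * (m + 1)) - 1) with hZ
  haveI : FiniteDimensional ℚ Z := Lf_finite _
  haveI := hM
  set M' : IntermediateField ℚ QQ := M ⊔ Z with hM'
  haveI : FiniteDimensional ℚ M' := IntermediateField.finiteDimensional_sup M Z
  obtain ⟨f, hf, hMf, b, hb⟩ := hINT M' inferInstance
  -- four primes
  set 𝒢 : Set ℕ := {ℓ | max b (2 * m + 3) < ℓ ∧ ∃ _ : Fact ℓ.Prime, FullLie ℓ (ρ ℓ) (B ℓ)} with h𝒢
  have h𝒢inf : 𝒢.Infinite := by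
    apply Set.infinite_of_forall_exists_gt
    intro a
    obtain ⟨ℓ, hℓ, hp, hfull⟩ := hinf (max a (max b (2 * m + 3)))
    rw [max_lt_iff] at hℓ
    exact ⟨ℓ, ⟨hℓ.2, hp, hfull⟩, hℓ.1⟩
  let e : ℕ ↪ 𝒢 := h𝒢inf.natEmbedding
  let p : Fin 4 → ℕ := fun i => (e i.1).1
  have hpinj : Function.Injective p := by
    intro i j hij
    exact Fin.ext (e.injective (Subtype.ext hij))
  have hpmem : ∀ i, p i ∈ 𝒢 := fun i => (e i.1).2
  haveI hpp : ∀ i, Fact (p i).Prime := fun i => (hpmem i).2.1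
  have hpfull : ∀ i, FullLie (p i) (ρ (p i)) (B (p i)) := by
    intro i
    obtain ⟨-, h, h'⟩ := hpmem i
    exact h'
  have hplt : ∀ i, b < p i ∧ 2 * m + 3 < p i := fun i => max_lt_iff.1 (hpmem i).1
  have hBi : ∀ i, (B (p i))ᵀ = B (p i) := fun i => (hsys (p i)).2.1
  have hBd : ∀ i, (B (p i)).det ≠ 0 := fun i => (hsys (p i)).2.2.1
  let Con : ∀ i, ℚ_[p i][X] → Prop := fun i Q =>
    (i = 0 → ConC (p i) (m + 1) Q) ∧ (i = 1 → ConS (p i) Q) ∧ (i = 2 → 2 ≤ m → ConT (p i) Q) ∧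
      (i = 3 → 0 < m → ConU (p i) Q)
  have hlt : ∀ i, LocalType (p i) (2 * m + 3) (B (p i)) (Con i) := by
    intro i
    have hm' : 2 * m + 2 < p i := by have := (hplt i).2; omega
    by_cases hi0 : i = 0
    · refine (lt_c hFORM2 hTYPC (ne_two_of_lt hm') (norm_natCast_eq_one _ ?_) (hBi i) (hBd i)).mono
        fun Q hQ => ⟨fun _ => hQ, fun h => ?_, fun h => ?_, fun h => ?_⟩
      · intro h
        have := Nat.le_of_dvd (by omega) h
        omega
      · exact absurd (h.symm.trans hi0) (by decide)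
      · exact absurd (h.symm.trans hi0) (by decide)
      · exact absurd (h.symm.trans hi0) (by decide)
    by_cases hi2 : i = 2 ∧ 2 ≤ m
    · refine (lt_t hFORM1 hTYPT hm' hi2.2 (hBi i) (hBd i)).mono
        fun Q hQ => ⟨fun h => ?_, fun h => ?_, fun _ _ => hQ, fun h => ?_⟩
      · exact absurd (h.symm.trans hi2.1) (by decide)
      · exact absurd (h.symm.trans hi2.1) (by decide)
      · exact absurd (h.symm.trans hi2.1) (by decide)
    by_cases hi3 : i = 3 ∧ 0 < m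
    · refine (lt_u hFORM1 hTYPU hm' hi3.2 (hBi i) (hBd i)).mono
        fun Q hQ => ⟨fun h => ?_, fun h => ?_, fun h => ?_, fun _ _ => hQ⟩
      · exact absurd (h.symm.trans hi3.1) (by decide)
      · exact absurd (h.symm.trans hi3.1) (by decide)
      · exact absurd (h.symm.trans hi3.1) (by decide)
    refine (lt_s hFORM1 hTYPS hm' (hBi i) (hBd i)).mono
        fun Q hQ => ⟨fun h => absurd h hi0, fun _ => hQ, fun h h' => absurd ⟨h, h'⟩ hi2,
          fun h h' => absurd ⟨h, h'⟩ hi3⟩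
  obtain ⟨v, Q, hvS, hPv, hmon, hdeg, -, hcon⟩ := realise hMULTI hFROB hCHAR hN hS ρ B hsys (Fin 4) p
    hpinj (fun i => by have := (hplt i).2; omega) hpfull Con hlt
  have hdeg' : Q.natDegree = 2 * m + 2 := by omega
  have hC0 := (hcon 0).1.1 rfl
  obtain ⟨hnice, hQm1⟩ := nice_of_con (S := S) (P := P) hvS hPv hmon (p 0) (m + 1) hC0
  have hinv : ∀ x : QQ, aeval x Q = 0 → x ≠ 0 ∧ aeval x⁻¹ Q = 0 := by
    intro x hx
    obtain ⟨j⟩ := emb (p 0)
    obtain ⟨h1, h2⟩ := (hcon 0).2 (j x) (push_root (p 0) j hx)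
    refine ⟨fun h => h1 (by rw [h, map_zero]), pull_root (p 0) j ?_⟩
    rw [map_inv₀]
    exact h2
  have hMM' : M ≤ M' := le_sup_left
  have hZM' : Z ≤ M' := le_sup_right
  have hsurj := surj hGEN hRES hUNR (m := m) hmon hnice.2.2.2.1 hdeg' hnice.2.2.2.2.1 hQm1 hinv M' f hf
    hMf (fun ζ hζ => hZM' (mem_Lf (by
      have h5 := X_pow_sub_C_ne_zero (n := 2 * (m + 1)) (by omega) (1 : ℚ)
      rwa [C_1] at h5) (by simp [hζ]))) (p 0) (p 1) (p 2) (p 3)
    (hb _ (hplt 0).1 (hpp 0).out) (hb _ (hplt 1).1 (hpp 1).out) (hb _ (hplt 2).1 (hpp 2).out)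
    (hb _ (hplt 3).1 (hpp 3).out) hC0 ((hcon 1).1.2.1 rfl) ((hcon 2).1.2.2.1 rfl)
    ((hcon 3).1.2.2.2 rfl)
  refine ⟨v, Q, hnice, hdeg', fun g => ?_⟩
  obtain ⟨h, hh, hgh⟩ := hsurj g
  exact ⟨h, fun x hx => hh x (hMM' hx), hgh⟩

/-- sets of roots which are stable under a full cycle -/
theorem ncard_of_cyc {Q : ℚ[X]} (hmon : Q.Monic) (hsep : Q.Separable) {σ : GK ℚ}
    (hσ : σ ∈ Cyc Q) {T : Set QQ} (hT : ∀ x ∈ T, aeval x ((X - 1) * Q) = 0)
    (hTσ : ∀ x ∈ T, σ x ∈ T) : T.ncard ≤ 1 ∨ Q.natDegree ≤ T.ncard := by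
  have hfin : {x : QQ | aeval x Q = 0}.Finite := by
    have h1 : {x : QQ | aeval x Q = 0} ⊆ Q.rootSet QQ := fun x hx =>
      (mem_rootSet_of_ne hmon.ne_zero).2 hx
    exact (Q.rootSet_finite QQ).subset h1
  have hTfin : T.Finite := by
    refine (hfin.union (Set.finite_singleton 1)).subset fun x hx => ?_
    have h1 := hT x hx
    rw [map_mul, map_sub, aeval_X, map_one, mul_eq_zero, sub_eq_zero] at h1
    rcases h1 with h1 | h1
    · exact Or.inr h1
    · exact Or.inl h1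
  by_cases hex : ∃ x ∈ T, aeval x Q = 0
  · right
    obtain ⟨x, hxT, hx⟩ := hex
    have hpow : ∀ k : ℕ, (σ ^ k) x ∈ T := by
      intro k
      induction k with
      | zero => exact hxT
      | succ k ih =>
        rw [pow_succ', AlgEquiv.mul_apply]
        exact hTσ _ ih
    have hsub : {y : QQ | aeval y Q = 0} ⊆ T := by
      intro y hy
      obtain ⟨k, hk⟩ := hσ x y hx hy
      rw [← hk]
      exact hpow k
    have hcard : {y : QQ | aeval y Q = 0}.ncard = Q.natDegree := by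
      obtain ⟨h1, h2⟩ := card_Rt hmon hsep
      rw [← h2]
      rfl
    rw [← hcard]
    exact Set.ncard_le_ncard hsub hTfin
  · left
    push Not at hex
    have hsub : T ⊆ {1} := by
      intro x hx
      have h1 := hT x hx
      rw [map_mul, map_sub, aeval_X, map_one, mul_eq_zero, sub_eq_zero] at h1
      exact h1.resolve_right (hex x hx)
    have := Set.ncard_le_ncard hsub (Set.finite_singleton 1)
    rwa [Set.ncard_singleton] at this

end

end Pool.Agent.R932.OP
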