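import Pool.Agent.Y142.ZS.Stm

/-!
Task OP-SFORM (helper422): every even monic polynomial is the characteristic polynomial of an
element of the symplectic Lie algebra of any nondegenerate alternating matrix.
-/

set_option autoImplicit false

open Matrix Polynomial

namespace Pool.Agent.R932.OP.SForm

/-- a hyperbolic plane splits off -/
theorem step (F : Type) [Field F] (V : Type) [AddCommGroup V] [Module F V] [FiniteDimensional F V]
    (ω : V →ₗ[F] V →ₗ[F] F) (h1 : ∀ x, ω x x = 0) (h2 : ∀ x, (∀ y, ω x y = 0) → x = 0)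
    (hn : 0 < Module.finrank F V) :
    ∃ (x y : V) (W : Submodule F V), ω x y = 1 ∧ ω y x = -1 ∧
      (∀ w ∈ W, ω x w = 0 ∧ ω y w = 0 ∧ ω w x = 0 ∧ ω w y = 0) ∧
      (∀ w ∈ W, (∀ w' ∈ W, ω w w' = 0) → w = 0) ∧
      (∀ v, ∃ a b : F, ∃ w ∈ W, v = a • x + b • y + w) ∧
      Module.finrank F W + 2 = Module.finrank F V := by
  have hskew : ∀ u v, ω u v = -ω v u := by
    intro u v
    have h3 := h1 (u + v)
    simp only [map_add, LinearMap.add_apply, h1, zero_add, add_zero] at h3
    exact eq_neg_of_add_eq_zero_right h3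
  have : Nontrivial V := Module.nontrivial_of_finrank_pos hn
  obtain ⟨x, hx⟩ := exists_ne (0 : V)
  obtain ⟨y', hy'⟩ : ∃ y', ω x y' ≠ 0 := by
    by_contra h
    push Not at h
    exact hx (h2 x h)
  set y : V := (ω x y')⁻¹ • y' with hy
  have hxy : ω x y = 1 := by
    rw [hy, map_smul, smul_eq_mul, inv_mul_cancel₀ hy']
  have hyx : ω y x = -1 := by rw [hskew, hxy]
  set φ : V →ₗ[F] F × F := (ω x).prod (ω y) with hφ
  set W : Submodule F V := LinearMap.ker φ with hW
  have hWm : ∀ w, w ∈ W ↔ ω x w = 0 ∧ ω y w = 0 := by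
    intro w
    rw [hW, LinearMap.mem_ker, hφ, LinearMap.prod_apply]
    simp [Prod.ext_iff]
  have hdec : ∀ v, ∃ a b : F, ∃ w ∈ W, v = a • x + b • y + w := by
    intro v
    refine ⟨ω v y, ω x v, v - ω v y • x - ω x v • y, (hWm _).2 ⟨?_, ?_⟩, by abel⟩
    · simp only [map_sub, map_smul, smul_eq_mul, h1, hxy]
      ring
    · simp only [map_sub, map_smul, smul_eq_mul, h1, hyx]
      rw [hskew y v]
      ring
  have hWo : ∀ w ∈ W, ω x w = 0 ∧ ω y w = 0 ∧ ω w x = 0 ∧ ω w y = 0 := by
    intro w hw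
    obtain ⟨h3, h4⟩ := (hWm w).1 hw
    refine ⟨h3, h4, ?_, ?_⟩
    · rw [hskew, h3, neg_zero]
    · rw [hskew, h4, neg_zero]
  refine ⟨x, y, W, hxy, hyx, hWo, ?_, hdec, ?_⟩
  · intro w hw h3
    apply h2
    intro v
    obtain ⟨a, b, w', hw', rfl⟩ := hdec v
    obtain ⟨-, -, h4, h5⟩ := hWo w hw
    simp only [map_add, map_smul, smul_eq_mul, h4, h5, h3 w' hw']
    ring
  · have hsurj : Function.Surjective φ := by
      rintro ⟨a, b⟩
      refine ⟨a • y - b • x, ?_⟩
      rw [hφ, LinearMap.prod_apply]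
      simp [h1, hxy, hyx]
    have h3 := LinearMap.finrank_range_add_finrank_ker φ
    rw [LinearMap.range_eq_top.2 hsurj, finrank_top, Module.finrank_prod,
      Module.finrank_self] at h3
    rw [hW]
    omega

theorem fam (F : Type) [Field F] (n : ℕ) : ∀ (V V' : Type) [AddCommGroup V] [Module F V]
    [FiniteDimensional F V] [AddCommGroup V'] [Module F V'] [FiniteDimensional F V']
    (ω : V →ₗ[F] V →ₗ[F] F) (ω' : V' →ₗ[F] V' →ₗ[F] F),
    (∀ x, ω x x = 0) → (∀ x, (∀ y, ω x y = 0) → x = 0) →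
    (∀ x, ω' x x = 0) → (∀ x, (∀ y, ω' x y = 0) → x = 0) →
    Module.finrank F V = n → Module.finrank F V' = n →
    ∃ (e : Fin n → V) (e' : Fin n → V'), ⊤ ≤ Submodule.span F (Set.range e) ∧
      ⊤ ≤ Submodule.span F (Set.range e') ∧ ∀ i j, ω (e i) (e j) = ω' (e' i) (e' j) := by
  induction n using Nat.strong_induction_on with
  | _ n ih =>
    intro V V' _ _ _ _ _ _ ω ω' h1 h2 h1' h2' hn hn'
    rcases Nat.eq_zero_or_pos n with h0 | h0
    · subst h0
      have : Subsingleton V := Module.finrank_zero_iff.1 hn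
      have : Subsingleton V' := Module.finrank_zero_iff.1 hn'
      refine ⟨fun i => i.elim0, fun i => i.elim0, ?_, ?_, fun i => i.elim0⟩
      · intro v _
        rw [Subsingleton.elim v 0]
        exact Submodule.zero_mem _
      · intro v _
        rw [Subsingleton.elim v 0]
        exact Submodule.zero_mem _
    · obtain ⟨x, y, W, hxy, hyx, hWo, hWn, hdec, hfr⟩ := step F V ω h1 h2 (by omega)
      obtain ⟨x', y', W', hxy', hyx', hWo', hWn', hdec', hfr'⟩ := step F V' ω' h1' h2' (by omega)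
      obtain ⟨m, rfl⟩ : ∃ m, n = m + 2 := ⟨n - 2, by omega⟩
      obtain ⟨e, e', he, he', hee⟩ := ih m (by omega) W W' (ω.domRestrict₁₂ W W)
        (ω'.domRestrict₁₂ W' W') (fun w => h1 w)
        (fun w hw => Subtype.ext (hWn w w.2 (fun w' hw' => hw ⟨w', hw'⟩)))
        (fun w => h1' w)
        (fun w hw => Subtype.ext (hWn' w w.2 (fun w' hw' => hw ⟨w', hw'⟩)))
        (by omega) (by omega)
      have key : ∀ (U : Type) [AddCommGroup U] [Module F U] (x y : U) (W : Submodule F U)
          (e : Fin m → W), ⊤ ≤ Submodule.span F (Set.range e) →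
          (∀ v, ∃ a b : F, ∃ w ∈ W, v = a • x + b • y + w) →
          ⊤ ≤ Submodule.span F (Set.range
            (Fin.cons x (Fin.cons y (fun i => (e i : U)) : Fin (m + 1) → U) : Fin (m + 2) → U)) := by
        intro U _ _ x y W e he hdec v _
        obtain ⟨a, b, w, hw, rfl⟩ := hdec v
        refine Submodule.add_mem _ (Submodule.add_mem _ (Submodule.smul_mem _ _ ?_)
          (Submodule.smul_mem _ _ ?_)) ?_
        · exact Submodule.subset_span ⟨0, rfl⟩
        · exact Submodule.subset_span ⟨1, rfl⟩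
        · have h3 : (⟨w, hw⟩ : W) ∈ Submodule.span F (Set.range e) := he trivial
          have h4 : W.subtype ⟨w, hw⟩ ∈ (Submodule.span F (Set.range e)).map W.subtype :=
            Submodule.mem_map_of_mem h3
          rw [Submodule.map_span, ← Set.range_comp] at h4
          refine Submodule.span_mono ?_ h4
          rintro _ ⟨i, rfl⟩
          exact ⟨i.succ.succ, rfl⟩
      refine ⟨_, _, key V x y W e he hdec, key V' x' y' W' e' he' hdec', ?_⟩
      intro i j
      refine Fin.cases ?_ (fun i => Fin.cases ?_ (fun i => ?_) i) i <;>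
        refine Fin.cases ?_ (fun j => Fin.cases ?_ (fun j => ?_) j) j <;>
        simp only [Fin.cons_zero, Fin.cons_succ]
      · rw [h1, h1']
      · rw [hxy, hxy']
      · rw [(hWo _ (e j).2).1, (hWo' _ (e' j).2).1]
      · rw [hyx, hyx']
      · rw [h1, h1']
      · rw [(hWo _ (e j).2).2.1, (hWo' _ (e' j).2).2.1]
      · rw [(hWo _ (e i).2).2.2.1, (hWo' _ (e' i).2).2.2.1]
      · rw [(hWo _ (e i).2).2.2.2, (hWo' _ (e' i).2).2.2.2]
      · exact hee i j

/-- nondegenerate alternating forms of the same dimension are isometric -/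
theorem isom (F : Type) [Field F] (V V' : Type) [AddCommGroup V] [Module F V]
    [FiniteDimensional F V] [AddCommGroup V'] [Module F V'] [FiniteDimensional F V']
    (ω : V →ₗ[F] V →ₗ[F] F) (ω' : V' →ₗ[F] V' →ₗ[F] F)
    (h1 : ∀ x, ω x x = 0) (h2 : ∀ x, (∀ y, ω x y = 0) → x = 0)
    (h1' : ∀ x, ω' x x = 0) (h2' : ∀ x, (∀ y, ω' x y = 0) → x = 0)
    (hn : Module.finrank F V = Module.finrank F V') :
    ∃ φ : V ≃ₗ[F] V', ∀ x y, ω' (φ x) (φ y) = ω x y := by
  obtain ⟨e, e', he, he', hee⟩ := fam F (Module.finrank F V) V V' ω ω' h1 h2 h1' h2' rfl hn.symm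
  set b := basisOfTopLeSpanOfCardEqFinrank e he (by simp) with hb
  set b' := basisOfTopLeSpanOfCardEqFinrank e' he' (by simp [hn]) with hb'
  have hbe : ∀ i, b i = e i := fun i => by rw [hb, coe_basisOfTopLeSpanOfCardEqFinrank]
  have hbe' : ∀ i, b' i = e' i := fun i => by rw [hb', coe_basisOfTopLeSpanOfCardEqFinrank]
  set φ : V ≃ₗ[F] V' := b.equiv b' (Equiv.refl _) with hφ
  refine ⟨φ, ?_⟩
  have h3 : (ω'.compl₁₂ φ.toLinearMap φ.toLinearMap) = ω := by
    apply LinearMap.ext_basis b b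
    intro i j
    simp only [LinearMap.compl₁₂_apply, LinearEquiv.coe_coe]
    rw [hφ, Module.Basis.equiv_apply, Module.Basis.equiv_apply, hbe', hbe', hbe, hbe]
    exact (hee i j).symm
  intro x y
  rw [← h3]
  rfl



theorem coeff_comp_neg {F : Type} [Field F] (r : F[X]) (k : ℕ) :
    (r.comp (-X)).coeff k = r.coeff k * (-1) ^ k := by
  have h : (-X : F[X]) = C (-1) * X := by simp
  rw [h, comp_C_mul_X_coeff]

theorem model (F : Type) [Field F] [CharZero F] (p : F[X]) (hp : p.Monic)
    (hev : p.comp (-X) = p) (h0 : 0 < p.natDegree) [Module.Finite F (AdjoinRoot p)] :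
    ∃ (ω : AdjoinRoot p →ₗ[F] AdjoinRoot p →ₗ[F] F) (T : Module.End F (AdjoinRoot p)),
      (∀ x, ω x x = 0) ∧ (∀ x, (∀ y, ω x y = 0) → x = 0) ∧
      (∀ x y, ω (T x) y + ω x (T y) = 0) ∧ T.charpoly = p := by
  set N := p.natDegree with hN
  have hdeg : p.degree = (N : ℕ) := degree_eq_natDegree hp.ne_zero
  have hpar : ((-1 : F)) ^ N = 1 := by
    have h1 := coeff_comp_neg p N
    rw [hev, hN, hp.coeff_natDegree, one_mul] at h1
    exact h1.symm
  have hpar' : ((-1 : F)) ^ (N - 1) = -1 := by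
    have h1 : (-1 : F) ^ N = (-1) ^ (N - 1) * (-1) := by
      rw [← pow_succ]
      congr 1
      omega
    rw [hpar] at h1
    linear_combination h1
  -- the linear functional
  set t : AdjoinRoot p →ₗ[F] F :=
    (Polynomial.lcoeff F (N - 1)).comp (AdjoinRoot.modByMonicHom hp) with ht
  have htr : ∀ r : F[X], r.degree < (N : ℕ) → t (AdjoinRoot.mk p r) = r.coeff (N - 1) := by
    intro r hr
    rw [ht, LinearMap.comp_apply, AdjoinRoot.modByMonicHom_mk, lcoeff_apply,
      (modByMonic_eq_self_iff hp).2 (by rw [hdeg]; exact hr)]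
  have hrep : ∀ x : AdjoinRoot p, ∃ r : F[X], r.degree < (N : ℕ) ∧ AdjoinRoot.mk p r = x := by
    intro x
    refine ⟨AdjoinRoot.modByMonicHom hp x, ?_, AdjoinRoot.mk_leftInverse hp x⟩
    obtain ⟨f, rfl⟩ := AdjoinRoot.mk_surjective x
    rw [AdjoinRoot.modByMonicHom_mk, ← hdeg]
    exact degree_modByMonic_lt f hp
  -- the involution
  have hroot : p.eval₂ (Algebra.ofId F (AdjoinRoot p) : F →+* AdjoinRoot p)
      (-AdjoinRoot.root p) = 0 := by
    have h1 : aeval (-AdjoinRoot.root p) p = 0 := by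
      have h2 : aeval (AdjoinRoot.root p) (p.comp (-X)) = 0 := by
        rw [hev, AdjoinRoot.aeval_eq, AdjoinRoot.mk_self]
      rw [aeval_comp] at h2
      simpa using h2
    exact h1
  set σ : AdjoinRoot p →ₐ[F] AdjoinRoot p :=
    AdjoinRoot.liftAlgHom p (Algebra.ofId F (AdjoinRoot p)) (-AdjoinRoot.root p) hroot with hσ
  have hσr : σ (AdjoinRoot.root p) = -AdjoinRoot.root p := by
    rw [hσ, AdjoinRoot.liftAlgHom_root]
  have hσσ : ∀ x, σ (σ x) = x := by
    have h1 : σ.comp σ = AlgHom.id F _ := by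
      apply AdjoinRoot.algHom_ext
      rw [AlgHom.comp_apply, hσr, map_neg, hσr, neg_neg]
      rfl
    intro x
    exact DFunLike.congr_fun h1 x
  have hσm : ∀ r : F[X], σ (AdjoinRoot.mk p r) = AdjoinRoot.mk p (r.comp (-X)) := by
    intro r
    rw [← AdjoinRoot.aeval_eq, ← AdjoinRoot.aeval_eq, aeval_comp, ← aeval_algHom_apply, hσr]
    simp
  have htσ : ∀ x, t (σ x) = - t x := by
    intro x
    obtain ⟨r, hr, rfl⟩ := hrep x
    have hr' : (r.comp (-X)).degree < (N : ℕ) := by
      rw [degree_lt_iff_coeff_zero]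
      intro m hm
      rw [coeff_comp_neg, (degree_lt_iff_coeff_zero r N).1 hr m hm, zero_mul]
    rw [hσm, htr _ hr, htr _ hr', coeff_comp_neg, hpar']
    ring
  set ω : AdjoinRoot p →ₗ[F] AdjoinRoot p →ₗ[F] F :=
    ((LinearMap.mul F (AdjoinRoot p)).compl₂ σ.toLinearMap).compr₂ t with hω
  have hωa : ∀ x y, ω x y = t (x * σ y) := fun x y => rfl
  refine ⟨ω, Algebra.lmul F (AdjoinRoot p) (AdjoinRoot.root p), ?_, ?_, ?_, ?_⟩
  · intro x
    have h1 := htσ (x * σ x)
    rw [map_mul, hσσ, mul_comm (σ x) x] at h1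
    rw [hωa]
    have h2 : (2 : F) * t (x * σ x) = 0 := by linear_combination h1
    exact (mul_eq_zero.1 h2).resolve_left two_ne_zero
  · intro x hx
    by_contra hne
    obtain ⟨r, hr, rfl⟩ := hrep x
    have hr0 : r ≠ 0 := by
      rintro rfl
      exact hne (map_zero _)
    have hrd : r.natDegree < N := (natDegree_lt_iff_degree_lt hr0).2 hr
    have h1 := hx (σ (AdjoinRoot.root p ^ (N - 1 - r.natDegree)))
    rw [hωa, hσσ, ← AdjoinRoot.mk_X, ← map_pow, ← map_mul, htr] at h1
    · have h2 : N - 1 = r.natDegree + (N - 1 - r.natDegree) := by omega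
      have h3 : (r * X ^ (N - 1 - r.natDegree)).coeff (N - 1) = r.coeff r.natDegree := by
        conv_lhs => rw [h2]
        rw [show r.natDegree + (N - 1 - r.natDegree) - r.natDegree = N - 1 - r.natDegree by omega,
          coeff_mul_X_pow]
      rw [h3] at h1
      exact hr0 (leadingCoeff_eq_zero.1 h1)
    · rw [degree_mul, degree_X_pow, degree_eq_natDegree hr0]
      exact_mod_cast (by omega : r.natDegree + (N - 1 - r.natDegree) < N)
  · intro x y
    have h0 : ∀ z, Algebra.lmul F (AdjoinRoot p) (AdjoinRoot.root p) z =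
        AdjoinRoot.root p * z := fun z => rfl
    rw [hωa, hωa, h0, h0, map_mul σ, hσr, ← map_add]
    have h1 : AdjoinRoot.root p * x * σ y + x * (-AdjoinRoot.root p * σ y) = 0 := by ring
    rw [h1, map_zero]
  · have h1 := charpoly_leftMulMatrix (AdjoinRoot.powerBasis' hp)
    have h2 : (AdjoinRoot.powerBasis' hp).gen = AdjoinRoot.root p := rfl
    rw [h2, AdjoinRoot.minpoly_root hp.ne_zero, hp.leadingCoeff, inv_one, map_one, mul_one,
      Algebra.leftMulMatrix_apply] at h1
    rw [LinearMap.charpoly_toMatrix] at h1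
    exact h1


end Pool.Agent.R932.OP.SForm

namespace Pool.Agent.R932.OP

open Pool.Agent.Y142.ZS SForm

theorem sform : Pool.Agent.Y142.ZS.S_SFORM := by
  intro F _ _ N J p hJ hdet hp hN hev
  rcases Nat.eq_zero_or_pos N with h0 | h0
  · subst h0
    refine ⟨0, ?_, ?_⟩
    · unfold SpLie
      simp
    · rw [Matrix.charpoly_isEmpty, hp.natDegree_eq_zero.1 hN]
  · have hfin : Module.Finite F (AdjoinRoot p) := hp.finite_adjoinRoot
    obtain ⟨ω', T', h1', h2', h3', h4'⟩ := model F p hp hev (by omega)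
    set ω : (Fin N → F) →ₗ[F] (Fin N → F) →ₗ[F] F := Matrix.toLinearMap₂' F J with hω
    have hωa : ∀ x y, ω x y = x ⬝ᵥ J *ᵥ y := fun x y => Matrix.toLinearMap₂'_apply' J x y
    have h1 : ∀ x, ω x x = 0 := by
      intro x
      have h5 : x ⬝ᵥ J *ᵥ x = -(x ⬝ᵥ J *ᵥ x) := by
        conv_lhs => rw [dotProduct_mulVec, ← mulVec_transpose, hJ, neg_mulVec, neg_dotProduct,
          dotProduct_comm]
      rw [hωa]
      have h6 : (2 : F) * (x ⬝ᵥ J *ᵥ x) = 0 := by linear_combination h5
      exact (mul_eq_zero.1 h6).resolve_left two_ne_zero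
    have h2 : ∀ x, (∀ y, ω x y = 0) → x = 0 := by
      intro x hx
      have h5 : (x ᵥ* J) = 0 := by
        funext i
        have h6 := hx (Pi.single i 1)
        rw [hωa, dotProduct_mulVec, dotProduct_single_one] at h6
        exact h6
      have h7 : x ᵥ* (J * J⁻¹) = 0 := by
        rw [← vecMul_vecMul, h5, zero_vecMul]
      rwa [Matrix.mul_nonsing_inv J (isUnit_iff_ne_zero.2 hdet), vecMul_one] at h7
    obtain ⟨φ, hφ⟩ := isom F (Fin N → F) (AdjoinRoot p) ω ω' h1 h2 h1' h2' (by
      rw [Module.finrank_fin_fun, (AdjoinRoot.powerBasis' hp).finrank,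
        AdjoinRoot.powerBasis'_dim, hN])
    set S : Module.End F (Fin N → F) := φ.symm.conj T' with hS
    have hSa : ∀ x, φ (S x) = T' (φ x) := by
      intro x
      rw [hS, LinearEquiv.conj_apply_apply, LinearEquiv.symm_symm, LinearEquiv.apply_symm_apply]
    have hSω : ∀ x y, ω (S x) y + ω x (S y) = 0 := by
      intro x y
      rw [← hφ, ← hφ, hSa, hSa]
      exact h3' _ _
    refine ⟨LinearMap.toMatrix' S, ?_, ?_⟩
    · unfold SpLie
      ext i j
      have h5 := hSω (Pi.single i 1) (Pi.single j 1)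
      have h6 : ∀ x, S x = LinearMap.toMatrix' S *ᵥ x := fun x => by
        rw [LinearMap.toMatrix'_mulVec]
      rw [hωa, hωa, h6, h6] at h5
      rw [Matrix.add_apply, Matrix.zero_apply, ← h5]
      congr 1
      · rw [mulVec_single_one, mulVec_single_one]
        rfl
      · rw [mulVec_single_one, single_one_dotProduct]
        rfl
    · rw [← LinearMap.toMatrix_eq_toMatrix', LinearMap.charpoly_toMatrix, hS,
        LinearEquiv.charpoly_conj, h4']

end Pool.Agent.R932.OP
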